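import Mathlib
import Pool.Prelude.Def_F_c31e40fa

/-!
# Area of the non-hyperbolic parameters of `z ^ n + c`: orbits and distortion
-/

set_option autoImplicit false
open Complex Metric Set Filter Topology

namespace Pool.Agent.H205.AR

/-- The orbit of the critical value `c` of `z ^ n + c`. -/
def v (n : ℕ) (c : ℂ) : ℕ → ℂ
  | 0 => c
  | j + 1 => (v n c j) ^ n + c

/-- The norm of the derivative of `z ^ n + c` at the `j`-th point of the orbit. -/
noncomputable def u (n : ℕ) (c : ℂ) (j : ℕ) : ℝ := n * ‖v n c j‖ ^ (n - 1)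

/-- The norm of the derivative of the `k`-th iterate at the critical value. -/
noncomputable def Q (n : ℕ) (c : ℂ) (k : ℕ) : ℝ := ∏ j ∈ Finset.range k, u n c j

/-- The derivative of the `k`-th iterate at the critical value. -/
noncomputable def PP (n : ℕ) (c : ℂ) (k : ℕ) : ℂ :=
  ∏ j ∈ Finset.range k, ((n : ℂ) * v n c j ^ (n - 1))

/-- The derivative of the orbit with respect to the parameter. -/
noncomputable def DD (n : ℕ) (c : ℂ) : ℕ → ℂ
  | 0 => 1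
  | j + 1 => (n : ℂ) * v n c j ^ (n - 1) * DD n c j + 1

theorem v_zero (n : ℕ) (c : ℂ) : v n c 0 = c := rfl

theorem v_succ (n : ℕ) (c : ℂ) (j : ℕ) : v n c (j + 1) = (v n c j) ^ n + c := rfl

theorem norm_fac (n : ℕ) (c : ℂ) (j : ℕ) : ‖(n : ℂ) * v n c j ^ (n - 1)‖ = u n c j := by
  unfold u; rw [norm_mul, norm_pow, Complex.norm_natCast]

theorem norm_PP (n : ℕ) (c : ℂ) (k : ℕ) : ‖PP n c k‖ = Q n c k := by
  unfold PP Q
  rw [norm_prod]
  exact Finset.prod_congr rfl fun j _ => norm_fac n c j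

theorem Q_zero (n : ℕ) (c : ℂ) : Q n c 0 = 1 := by simp [Q]

theorem Q_succ (n : ℕ) (c : ℂ) (k : ℕ) : Q n c (k + 1) = Q n c k * u n c k := by
  simp [Q, Finset.prod_range_succ]

theorem PP_zero (n : ℕ) (c : ℂ) : PP n c 0 = 1 := by simp [PP]

theorem PP_succ (n : ℕ) (c : ℂ) (k : ℕ) :
    PP n c (k + 1) = PP n c k * ((n : ℂ) * v n c k ^ (n - 1)) := by
  simp [PP, Finset.prod_range_succ]

theorem hasDerivAt_v (n : ℕ) (c : ℂ) (j : ℕ) : HasDerivAt (fun c => v n c j) (DD n c j) c := by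
  induction j with
  | zero => exact hasDerivAt_id c
  | succ j ih => exact (ih.fun_pow n).add (hasDerivAt_id c)

theorem continuous_v (n j : ℕ) : Continuous fun c => v n c j :=
  continuous_iff_continuousAt.2 fun c => (hasDerivAt_v n c j).continuousAt

theorem continuous_u (n j : ℕ) : Continuous fun c => u n c j := by
  unfold u
  exact continuous_const.mul ((continuous_v n j).norm.pow _)

theorem continuous_Q (n k : ℕ) : Continuous fun c => Q n c k := by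
  unfold Q
  exact continuous_finsetProd _ fun j _ => continuous_u n j

theorem u_nonneg (n : ℕ) (c : ℂ) (j : ℕ) : 0 ≤ u n c j := by unfold u; positivity

theorem Q_pos {n : ℕ} {c : ℂ} {k : ℕ} (h : ∀ j < k, 0 < u n c j) : 0 < Q n c k :=
  Finset.prod_pos fun j hj => h j (Finset.mem_range.1 hj)

/-! ### Powers -/

theorem add_pow_sub_le (w t : ℂ) (k : ℕ) :
    ‖(w + t) ^ k - w ^ k‖ ≤ (‖w‖ + ‖t‖) ^ k - ‖w‖ ^ k := by
  induction k with
  | zero => simp
  | succ k ih =>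
    have h1 : (w + t) ^ (k + 1) - w ^ (k + 1) = (w + t) * ((w + t) ^ k - w ^ k) + t * w ^ k := by
      ring
    have h0 : 0 ≤ (‖w‖ + ‖t‖) ^ k - ‖w‖ ^ k := (norm_nonneg _).trans ih
    rw [h1]
    calc ‖(w + t) * ((w + t) ^ k - w ^ k) + t * w ^ k‖
        ≤ ‖w + t‖ * ‖(w + t) ^ k - w ^ k‖ + ‖t‖ * ‖w‖ ^ k := by
          refine (norm_add_le _ _).trans ?_
          rw [norm_mul, norm_mul, norm_pow]
      _ ≤ (‖w‖ + ‖t‖) * ((‖w‖ + ‖t‖) ^ k - ‖w‖ ^ k) + ‖t‖ * ‖w‖ ^ k := by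
          gcongr
          exact norm_add_le _ _
      _ = _ := by ring

theorem one_add_pow_le_exp {n : ℕ} (hn : 1 ≤ n) {ε : ℝ} (hε : 0 ≤ ε) :
    (1 + ε / n) ^ (n - 1) ≤ Real.exp ε := by
  have hn0 : (0:ℝ) < n := by exact_mod_cast hn
  have h1 : 1 + ε / n ≤ Real.exp (ε / n) := by
    have := Real.add_one_le_exp (ε / n); linarith
  calc (1 + ε / n) ^ (n - 1) ≤ (Real.exp (ε / n)) ^ (n - 1) := by gcongr
    _ = Real.exp ((n - 1 : ℕ) * (ε / n)) := by rw [← Real.exp_nat_mul]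
    _ ≤ Real.exp ε := by
        apply Real.exp_le_exp.2
        have h2 : ((n - 1 : ℕ) : ℝ) ≤ n := by exact_mod_cast Nat.sub_le n 1
        calc ((n - 1 : ℕ) : ℝ) * (ε / n) ≤ n * (ε / n) := by gcongr
          _ = ε := by field_simp

section pow

variable {n : ℕ} (hn : 1 ≤ n) {x w : ℂ} {ε : ℝ} (hε : 0 ≤ ε)
  (h : n * ‖x - w‖ ≤ ε * ‖w‖)

include hn hε h

theorem norm_sub_le_div : ‖x - w‖ ≤ ε / n * ‖w‖ := by
  have hn0 : (0:ℝ) < n := by exact_mod_cast hn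
  rw [div_mul_eq_mul_div, le_div_iff₀ hn0]
  linarith

theorem add_pow_le : (‖w‖ + ‖x - w‖) ^ (n - 1) ≤ Real.exp ε * ‖w‖ ^ (n - 1) := by
  have h1 := norm_sub_le_div hn hε h
  have h2 : ‖w‖ + ‖x - w‖ ≤ (1 + ε / n) * ‖w‖ := by linarith
  calc (‖w‖ + ‖x - w‖) ^ (n - 1) ≤ ((1 + ε / n) * ‖w‖) ^ (n - 1) := by gcongr
    _ = (1 + ε / n) ^ (n - 1) * ‖w‖ ^ (n - 1) := mul_pow _ _ _
    _ ≤ Real.exp ε * ‖w‖ ^ (n - 1) := by
        gcongr
        exact one_add_pow_le_exp hn hε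

theorem pow_diff : ‖x ^ n - w ^ n‖ ≤ n * ‖w‖ ^ (n - 1) * ‖x - w‖ * Real.exp ε := by
  obtain ⟨k, rfl⟩ : ∃ k, n = k + 1 := ⟨n - 1, by omega⟩
  have h3 := add_pow_le hn hε h
  have h1 := add_pow_sub_le w (x - w) (k + 1)
  rw [add_sub_cancel] at h1
  have hw : 0 ≤ ‖w‖ := norm_nonneg w
  have ht : 0 ≤ ‖x - w‖ := norm_nonneg _
  have h2 : (‖w‖ + ‖x - w‖) ^ (k + 1) - ‖w‖ ^ (k + 1) ≤
      (k + 1) * (‖w‖ + ‖x - w‖) ^ k * ‖x - w‖ := by
    have key : ∀ (a b : ℝ), 0 ≤ a → 0 ≤ b → ∀ k : ℕ,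
        (a + b) ^ (k + 1) - a ^ (k + 1) ≤ (k + 1) * (a + b) ^ k * b := by
      intro a b ha hb k
      induction k with
      | zero => simp
      | succ k ih =>
        have h4 : (a + b) ^ (k + 1 + 1) - a ^ (k + 1 + 1) =
            a * ((a + b) ^ (k + 1) - a ^ (k + 1)) + b * (a + b) ^ (k + 1) := by ring
        have h5 : a * ((a + b) ^ (k + 1) - a ^ (k + 1)) ≤
            (a + b) * ((k + 1) * (a + b) ^ k * b) := by
          calc a * ((a + b) ^ (k + 1) - a ^ (k + 1)) ≤ a * ((k + 1) * (a + b) ^ k * b) := by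
                gcongr
            _ ≤ (a + b) * ((k + 1) * (a + b) ^ k * b) := by
                gcongr
                linarith
        rw [h4]
        push_cast
        calc a * ((a + b) ^ (k + 1) - a ^ (k + 1)) + b * (a + b) ^ (k + 1)
            ≤ (a + b) * ((k + 1) * (a + b) ^ k * b) + b * (a + b) ^ (k + 1) := by gcongr
          _ = _ := by ring
    exact key _ _ hw ht k
  rw [Nat.add_sub_cancel] at h3 ⊢
  push_cast
  calc ‖x ^ (k + 1) - w ^ (k + 1)‖ ≤ (k + 1) * (‖w‖ + ‖x - w‖) ^ k * ‖x - w‖ := h1.trans h2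
    _ ≤ (k + 1) * (Real.exp ε * ‖w‖ ^ k) * ‖x - w‖ := by gcongr
    _ = _ := by ring

theorem pow_ratio : ‖x ^ (n - 1) - w ^ (n - 1)‖ ≤ (Real.exp ε - 1) * ‖w‖ ^ (n - 1) := by
  have h1 := add_pow_sub_le w (x - w) (n - 1)
  rw [add_sub_cancel] at h1
  have h3 := add_pow_le hn hε h
  linarith

theorem norm_pow_le' : ‖x‖ ^ (n - 1) ≤ Real.exp ε * ‖w‖ ^ (n - 1) := by
  have h3 := add_pow_le hn hε h
  have h4 : ‖x‖ ≤ ‖w‖ + ‖x - w‖ := by
    have := norm_add_le w (x - w)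
    rwa [add_sub_cancel] at this
  calc ‖x‖ ^ (n - 1) ≤ (‖w‖ + ‖x - w‖) ^ (n - 1) := by gcongr
    _ ≤ _ := h3

theorem le_norm_pow (h1 : ε ≤ 1) : (1 - ε) * ‖w‖ ^ (n - 1) ≤ ‖x‖ ^ (n - 1) := by
  have hn0 : (0:ℝ) < n := by exact_mod_cast hn
  have hn1 : (1:ℝ) ≤ n := by exact_mod_cast hn
  have h2 := norm_sub_le_div hn hε h
  have h3 : (1 - ε / n) * ‖w‖ ≤ ‖x‖ := by
    have := norm_sub_norm_le w x
    rw [norm_sub_rev] at this
    linarith
  have hεn : ε / n ≤ 1 := by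
    rw [div_le_one hn0]; linarith
  have h4 : 1 + ((n - 1 : ℕ) : ℝ) * (-(ε / n)) ≤ (1 + -(ε / n)) ^ (n - 1) :=
    one_add_mul_le_pow (by linarith) _
  have h5 : ((n - 1 : ℕ) : ℝ) ≤ n := by exact_mod_cast Nat.sub_le n 1
  have h6 : ((n - 1 : ℕ) : ℝ) * (ε / n) ≤ ε := by
    calc ((n - 1 : ℕ) : ℝ) * (ε / n) ≤ n * (ε / n) := by gcongr
      _ = ε := by field_simp
  calc (1 - ε) * ‖w‖ ^ (n - 1) ≤ (1 + -(ε / n)) ^ (n - 1) * ‖w‖ ^ (n - 1) := by
        gcongr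
        linarith
    _ = ((1 - ε / n) * ‖w‖) ^ (n - 1) := by rw [mul_pow]; ring
    _ ≤ ‖x‖ ^ (n - 1) := by
        apply pow_le_pow_left₀ _ h3
        have : 0 ≤ 1 - ε / n := by linarith
        positivity

end pow

/-! ### Tracking the orbit -/

/-- Accumulated distortion. -/
noncomputable def GG (Λ : ℝ) (e : ℕ → ℝ) (j : ℕ) : ℝ :=
  Real.exp (∑ i ∈ Finset.range j, (e i + (1 / Λ) ^ (i + 1)))

theorem one_le_GG {Λ : ℝ} (hΛ : 0 < Λ) {e : ℕ → ℝ} (he : ∀ i, 0 ≤ e i) (j : ℕ) : 1 ≤ GG Λ e j := by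
  unfold GG
  apply Real.one_le_exp
  exact Finset.sum_nonneg fun i _ => by have := he i; positivity

theorem GG_succ {Λ : ℝ} (hΛ : 0 < Λ) {e : ℕ → ℝ} (he : ∀ i, 0 ≤ e i) (j : ℕ) :
    Real.exp (e j) * GG Λ e j + (1 / Λ) ^ (j + 1) ≤ GG Λ e (j + 1) := by
  have h1 : GG Λ e (j + 1) = GG Λ e j * Real.exp (e j) * Real.exp ((1 / Λ) ^ (j + 1)) := by
    unfold GG
    rw [Finset.sum_range_succ, Real.exp_add, Real.exp_add, mul_assoc]
  have h2 : 1 + (1 / Λ) ^ (j + 1) ≤ Real.exp ((1 / Λ) ^ (j + 1)) := by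
    have := Real.add_one_le_exp ((1 / Λ) ^ (j + 1)); linarith
  have h3 := one_le_GG hΛ he j
  have h4 : 1 ≤ Real.exp (e j) := Real.one_le_exp (he j)
  have h5 : 1 ≤ GG Λ e j * Real.exp (e j) := one_le_mul_of_one_le_of_one_le h3 h4
  have h6 : 0 < (1 / Λ) ^ (j + 1) := by positivity
  rw [h1]
  calc Real.exp (e j) * GG Λ e j + (1 / Λ) ^ (j + 1)
      ≤ GG Λ e j * Real.exp (e j) * (1 + (1 / Λ) ^ (j + 1)) := by nlinarith
    _ ≤ _ := by gcongr

/-- Points which start near the critical value and follow the orbit up to small errors. -/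
theorem track {n : ℕ} (hn : 1 ≤ n) {c : ℂ} {m : ℕ} {Λ : ℝ} (hΛ : 0 < Λ) {e : ℕ → ℝ}
    (he : ∀ i, 0 ≤ e i) {β : ℝ} (hβ : 0 ≤ β) (hu : ∀ j < m, Λ ≤ u n c j)
    (hcond : ∀ j < m, n * (GG Λ e j * Q n c j * β) ≤ e j * ‖v n c j‖)
    {x : ℕ → ℂ} (h0 : ‖x 0 - v n c 0‖ ≤ β)
    (hs : ∀ j < m, ‖x (j + 1) - v n c (j + 1)‖ ≤ ‖x j ^ n - v n c j ^ n‖ + β) :
    ∀ j ≤ m, ‖x j - v n c j‖ ≤ GG Λ e j * Q n c j * β := by
  have hQ : ∀ j ≤ m, Λ ^ j ≤ Q n c j := by
    intro j hj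
    unfold Q
    calc Λ ^ j = ∏ i ∈ Finset.range j, Λ := by simp
      _ ≤ _ := Finset.prod_le_prod (fun i _ => hΛ.le) fun i hi =>
          hu i (by have := Finset.mem_range.1 hi; omega)
  intro j
  induction j with
  | zero =>
    intro _
    rw [Q_zero]
    have : GG Λ e 0 = 1 := by simp [GG]
    rw [this]
    linarith
  | succ j ih =>
    intro hj
    have h1 := ih (by omega)
    have h2 := hcond j (by omega)
    have hn0 : (0:ℝ) < n := by exact_mod_cast hn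
    have h3 : n * ‖x j - v n c j‖ ≤ e j * ‖v n c j‖ := le_trans (by gcongr) h2
    have h4 := pow_diff hn (he j) h3
    have hQ0 : 0 ≤ Q n c j := (by positivity : 0 ≤ Λ ^ j).trans (hQ j (by omega))
    have h5 := hQ (j + 1) hj
    have hΛj : 0 < Λ ^ (j + 1) := by positivity
    have h6 : 1 ≤ (1 / Λ) ^ (j + 1) * Q n c (j + 1) := by
      calc (1:ℝ) = (1 / Λ) ^ (j + 1) * Λ ^ (j + 1) := by
            rw [← mul_pow, one_div_mul_cancel hΛ.ne', one_pow]
        _ ≤ _ := by gcongr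
    have hun : 0 ≤ u n c j := u_nonneg n c j
    calc ‖x (j + 1) - v n c (j + 1)‖ ≤ ‖x j ^ n - v n c j ^ n‖ + β := hs j (by omega)
      _ ≤ u n c j * ‖x j - v n c j‖ * Real.exp (e j) + β := by
          unfold u; linarith
      _ ≤ u n c j * (GG Λ e j * Q n c j * β) * Real.exp (e j) +
            ((1 / Λ) ^ (j + 1) * Q n c (j + 1)) * β := by
          gcongr
          nlinarith
      _ = (Real.exp (e j) * GG Λ e j + (1 / Λ) ^ (j + 1)) * Q n c (j + 1) * β := by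
          rw [Q_succ]; ring
      _ ≤ GG Λ e (j + 1) * Q n c (j + 1) * β := by
          gcongr
          · linarith
          · exact GG_succ hΛ he j

/-- The derivatives follow. `M j` are the derivatives along the nearby orbit, `b` is `0` or `1`. -/
theorem track_deriv {n : ℕ} (hn : 1 ≤ n) {c : ℂ} {m : ℕ} {Λ : ℝ} (hΛ : 0 < Λ) {e : ℕ → ℝ}
    (he : ∀ i, 0 ≤ e i) (hu : ∀ j < m, Λ ≤ u n c j) {x : ℕ → ℂ}
    (hx : ∀ j < m, n * ‖x j - v n c j‖ ≤ e j * ‖v n c j‖) {M : ℕ → ℂ} {b : ℂ} (hb : ‖b‖ ≤ 1)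
    (h0 : M 0 = 1) (hs : ∀ j < m, M (j + 1) = (n : ℂ) * x j ^ (n - 1) * M j + b) :
    ∀ j ≤ m, ‖M j - PP n c j‖ ≤ (GG Λ e j - 1) * Q n c j := by
  have hQ : ∀ j ≤ m, Λ ^ j ≤ Q n c j := by
    intro j hj
    unfold Q
    calc Λ ^ j = ∏ i ∈ Finset.range j, Λ := by simp
      _ ≤ _ := Finset.prod_le_prod (fun i _ => hΛ.le) fun i hi =>
          hu i (by have := Finset.mem_range.1 hi; omega)
  intro j
  induction j with
  | zero =>
    intro _
    have : GG Λ e 0 = 1 := by simp [GG]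
    rw [h0, PP_zero, this]
    simp
  | succ j ih =>
    intro hj
    have h1 := ih (by omega)
    have h2 := pow_ratio hn (he j) (hx j (by omega))
    have hQ0 : 0 ≤ Q n c j := (by positivity : 0 ≤ Λ ^ j).trans (hQ j (by omega))
    have h5 := hQ (j + 1) hj
    have hΛj : 0 < Λ ^ (j + 1) := by positivity
    have h6 : 1 ≤ (1 / Λ) ^ (j + 1) * Q n c (j + 1) := by
      calc (1:ℝ) = (1 / Λ) ^ (j + 1) * Λ ^ (j + 1) := by
            rw [← mul_pow, one_div_mul_cancel hΛ.ne', one_pow]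
        _ ≤ _ := by gcongr
    have hun : 0 ≤ u n c j := u_nonneg n c j
    have hn0 : (0:ℝ) < n := by exact_mod_cast hn
    have hG := one_le_GG hΛ he j
    have he1 : 1 ≤ Real.exp (e j) := Real.one_le_exp (he j)
    have hMj : ‖M j‖ ≤ GG Λ e j * Q n c j := by
      have h7 : ‖M j‖ ≤ ‖M j - PP n c j‖ + ‖PP n c j‖ := by
        have := norm_add_le (M j - PP n c j) (PP n c j)
        rwa [sub_add_cancel] at this
      rw [norm_PP] at h7
      linarith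
    have h8 : M (j + 1) - PP n c (j + 1) =
        (n : ℂ) * (x j ^ (n - 1) - v n c j ^ (n - 1)) * M j +
          (n : ℂ) * v n c j ^ (n - 1) * (M j - PP n c j) + b := by
      rw [hs j (by omega), PP_succ]; ring
    rw [h8]
    calc ‖(n : ℂ) * (x j ^ (n - 1) - v n c j ^ (n - 1)) * M j +
          (n : ℂ) * v n c j ^ (n - 1) * (M j - PP n c j) + b‖
        ≤ n * ‖x j ^ (n - 1) - v n c j ^ (n - 1)‖ * ‖M j‖ + u n c j * ‖M j - PP n c j‖ + 1 := by
          refine (norm_add_le _ _).trans (add_le_add ((norm_add_le _ _).trans ?_) hb)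
          rw [norm_mul, norm_mul, norm_mul, norm_fac, Complex.norm_natCast]
      _ ≤ n * ((Real.exp (e j) - 1) * ‖v n c j‖ ^ (n - 1)) * (GG Λ e j * Q n c j) +
            u n c j * ((GG Λ e j - 1) * Q n c j) + (1 / Λ) ^ (j + 1) * Q n c (j + 1) := by
          gcongr
      _ = (Real.exp (e j) * GG Λ e j + (1 / Λ) ^ (j + 1) - 1) * Q n c (j + 1) := by
          rw [Q_succ]; unfold u; ring
      _ ≤ (GG Λ e (j + 1) - 1) * Q n c (j + 1) := by
          have := GG_succ hΛ he j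
          gcongr
          linarith

end Pool.Agent.H205.AR
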