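import Pool.Agent.H205.AR1
import Pool.Graph.R_seed8.H462R2.CD1

/-!
# Area of the non-hyperbolic parameters of `z ^ n + c`: criterion and distortion at level `m`
-/

set_option autoImplicit false
open Complex Metric Set Filter Topology

namespace Pool.Agent.H205.AR

/-- The relative errors at level `m`. -/
noncomputable def ee (m i : ℕ) : ℝ := 1 / 16 * (1 / 2) ^ (m - i)

theorem ee_nonneg (m i : ℕ) : 0 ≤ ee m i := by unfold ee; positivity

theorem ee_le (m i : ℕ) : ee m i ≤ 1 / 16 := by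
  unfold ee
  have : ((1:ℝ) / 2) ^ (m - i) ≤ 1 := pow_le_one₀ (by norm_num) (by norm_num)
  linarith

theorem sum_half (k : ℕ) : ∑ i ∈ Finset.range k, ((1:ℝ) / 2) ^ i ≤ 2 := by
  have h := geom_sum_eq (by norm_num : (1:ℝ) / 2 ≠ 1) k
  rw [h]
  have : (0:ℝ) < (1 / 2) ^ k := by positivity
  rw [div_le_iff_of_neg (by norm_num)]
  linarith

theorem sum_ee {m j : ℕ} (hj : j ≤ m + 1) : ∑ i ∈ Finset.range j, ee m i ≤ 1 / 8 := by
  calc ∑ i ∈ Finset.range j, ee m i ≤ ∑ i ∈ Finset.range (m + 1), ee m i := by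
        apply Finset.sum_le_sum_of_subset_of_nonneg
        · exact Finset.range_subset_range.2 hj
        · intro i _ _; exact ee_nonneg m i
    _ = ∑ i ∈ Finset.range (m + 1), 1 / 16 * ((1:ℝ) / 2) ^ i := by
        rw [← Finset.sum_range_reflect]
        apply Finset.sum_congr rfl
        intro i hi
        have := Finset.mem_range.1 hi
        unfold ee
        congr 2
        omega
    _ = 1 / 16 * ∑ i ∈ Finset.range (m + 1), ((1:ℝ) / 2) ^ i := by rw [Finset.mul_sum]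
    _ ≤ 1 / 16 * 2 := by gcongr; exact sum_half _
    _ = 1 / 8 := by norm_num

theorem sum_Lam {Λ : ℝ} (hΛ : 32 ≤ Λ) (j : ℕ) :
    ∑ i ∈ Finset.range j, (1 / Λ) ^ (i + 1) ≤ 1 / 16 := by
  have h0 : 1 / Λ ≤ 1 / 32 := one_div_le_one_div_of_le (by norm_num) hΛ
  have h00 : 0 ≤ 1 / Λ := by positivity
  calc ∑ i ∈ Finset.range j, (1 / Λ) ^ (i + 1) ≤ ∑ i ∈ Finset.range j, 1 / 32 * ((1:ℝ) / 2) ^ i := by
        apply Finset.sum_le_sum
        intro i _
        rw [pow_succ, mul_comm]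
        have h1 : (1 / Λ) ^ i ≤ (1 / 2) ^ i :=
          pow_le_pow_left₀ h00 (h0.trans (by norm_num)) i
        exact mul_le_mul h0 h1 (by positivity) (by norm_num)
    _ = 1 / 32 * ∑ i ∈ Finset.range j, ((1:ℝ) / 2) ^ i := by rw [Finset.mul_sum]
    _ ≤ 1 / 32 * 2 := by gcongr; exact sum_half _
    _ = 1 / 16 := by norm_num

theorem exp_le_five_fourth : Real.exp (3 / 16) ≤ 5 / 4 := by
  have h := Real.add_one_le_exp (-(3 / 16 : ℝ))
  rw [Real.exp_neg] at h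
  have h0 := Real.exp_pos (3 / 16 : ℝ)
  have h1 : (13 / 16 : ℝ) ≤ (Real.exp (3 / 16))⁻¹ := by linarith
  have h2 : 13 / 16 * Real.exp (3 / 16) ≤ 1 := by
    calc 13 / 16 * Real.exp (3 / 16) ≤ (Real.exp (3 / 16))⁻¹ * Real.exp (3 / 16) := by gcongr
      _ = 1 := inv_mul_cancel₀ h0.ne'
  linarith

theorem GG_le {Λ : ℝ} (hΛ : 32 ≤ Λ) {m j : ℕ} (hj : j ≤ m + 1) : GG Λ (ee m) j ≤ 5 / 4 := by
  refine le_trans ?_ exp_le_five_fourth
  unfold GG
  apply Real.exp_le_exp.2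
  rw [Finset.sum_add_distrib]
  have h1 := sum_ee (m := m) hj
  have h2 := sum_Lam hΛ j
  linarith

theorem four_mul_le {n : ℕ} (hn : 2 ≤ n) : 4 * n ≤ 8 ^ (n - 1) := by
  obtain ⟨k, rfl⟩ : ∃ k, n = k + 2 := ⟨n - 2, by omega⟩
  induction k with
  | zero => norm_num
  | succ k ih =>
    have h := ih (by omega)
    have h1 : k + 1 + 2 - 1 = (k + 2 - 1) + 1 := by omega
    rw [h1, pow_succ]
    omega

theorem norm_le_eight {n : ℕ} (hn : 2 ≤ n) {a b : ℝ} (hb : 0 ≤ b) (ha4 : a ^ (n - 1) ≤ 4)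
    (hb1 : 1 ≤ n * b ^ (n - 1)) : a ≤ 8 * b := by
  by_contra hcon
  push Not at hcon
  have h1 : (8 * b) ^ (n - 1) < a ^ (n - 1) := pow_lt_pow_left₀ hcon (by positivity) (by omega)
  rw [mul_pow] at h1
  have h2 : (4 * n : ℝ) ≤ 8 ^ (n - 1) := by exact_mod_cast four_mul_le hn
  have h3 : 0 ≤ b ^ (n - 1) := by positivity
  have h4 : (4 * n : ℝ) * b ^ (n - 1) ≤ 8 ^ (n - 1) * b ^ (n - 1) := by gcongr
  linarith

theorem pow_le_four {n : ℕ} (hn : 2 ≤ n) {c : ℂ} {j : ℕ} (h : u n c j ≤ 4 * n) :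
    ‖v n c j‖ ^ (n - 1) ≤ 4 := by
  unfold u at h
  have hn0 : (0:ℝ) < n := by exact_mod_cast (by omega : 0 < n)
  nlinarith

/-- The region of level `m` with constants `Λ`, `4 n`. -/
def Good (n : ℕ) (Λ : ℝ) (m : ℕ) (c : ℂ) : Prop := ∀ j ≤ m, Λ ≤ u n c j ∧ u n c j ≤ 4 * n

/-- The radius of the disc of level `m` about `c`. -/
noncomputable def rad (n m : ℕ) (c : ℂ) : ℝ := ‖v n c m‖ / (160 * n * Q n c m)

theorem Q_lower {n : ℕ} {c : ℂ} {Λ : ℝ} (hΛ : 0 < Λ) {k j : ℕ} (hu : ∀ i < k, Λ ≤ u n c i)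
    (hj : j ≤ k) : Q n c j * Λ ^ (k - j) ≤ Q n c k := by
  obtain ⟨i, rfl⟩ : ∃ i, k = j + i := ⟨k - j, by omega⟩
  have hQ : 0 < Q n c j := Q_pos fun l hl => hΛ.trans_le (hu l (by omega))
  rw [Nat.add_sub_cancel_left]
  clear hj
  induction i with
  | zero => simp
  | succ i ih =>
    rw [← add_assoc, Q_succ, pow_succ, ← mul_assoc]
    have h1 := ih (fun l hl => hu l (by omega))
    have h2 := hu (j + i) (by omega)
    gcongr
    exact (by positivity : 0 ≤ Q n c j * Λ ^ i).trans h1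

theorem Good.u_pos {n : ℕ} {Λ : ℝ} (hΛ : 0 < Λ) {m : ℕ} {c : ℂ} (h : Good n Λ m c) {j : ℕ}
    (hj : j ≤ m) : 0 < u n c j := hΛ.trans_le (h j hj).1

theorem Good.v_pos {n : ℕ} (hn : 2 ≤ n) {Λ : ℝ} (hΛ : 0 < Λ) {m : ℕ} {c : ℂ} (h : Good n Λ m c) {j : ℕ}
    (hj : j ≤ m) : 0 < ‖v n c j‖ := by
  by_contra hcon
  have h0 : ‖v n c j‖ = 0 := le_antisymm (not_lt.1 hcon) (norm_nonneg _)
  have h1 := h.u_pos hΛ hj
  unfold u at h1
  rw [h0, zero_pow (by omega), mul_zero] at h1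
  exact lt_irrefl _ h1

theorem Good.rad_pos {n : ℕ} (hn : 2 ≤ n) {Λ : ℝ} (hΛ : 0 < Λ) {m : ℕ} {c : ℂ} (h : Good n Λ m c) :
    0 < rad n m c := by
  have h1 := h.v_pos hn hΛ le_rfl
  have h2 : 0 < Q n c m := Q_pos fun j hj => h.u_pos hΛ hj.le
  have hn0 : (0:ℝ) < n := by exact_mod_cast (by omega : 0 < n)
  unfold rad
  positivity

section core

variable {n : ℕ} (hn : 2 ≤ n) {Λ : ℝ} (hΛ : 32 ≤ Λ) {m : ℕ} {c : ℂ} (h : Good n Λ m c)

include hn hΛ h

theorem cond_aux {β : ℝ} (hβ0 : 0 ≤ β) (hβ : β ≤ rad n m c) {j : ℕ} (hj : j ≤ m) :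
    n * (GG Λ (ee m) j * Q n c j * β) ≤ ee m j * ‖v n c j‖ := by
  have hΛ0 : 0 < Λ := by linarith
  have hn0 : (0:ℝ) < n := by exact_mod_cast (by omega : 0 < n)
  have hQm : 0 < Q n c m := Q_pos fun j hj => h.u_pos hΛ0 hj.le
  have hQj : 0 < Q n c j := Q_pos fun i hi => h.u_pos hΛ0 (by omega)
  have hG := GG_le hΛ (m := m) (j := j) (by omega)
  have hvj := h.v_pos hn hΛ0 hj
  have h8 : ‖v n c m‖ ≤ 8 * ‖v n c j‖ := by
    apply norm_le_eight hn (norm_nonneg _) (pow_le_four hn (h m le_rfl).2)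
    have := (h j hj).1
    unfold u at this
    linarith
  have hQ := Q_lower hΛ0 (fun i hi => (h i hi.le).1) hj (c := c) (n := n)
  have h2 : Q n c j * 2 ^ (m - j) ≤ Q n c m := by
    refine le_trans ?_ hQ
    gcongr
    linarith
  have h3 : Q n c j ≤ (1 / 2) ^ (m - j) * Q n c m := by
    rw [one_div_pow, one_div_mul_eq_div, le_div_iff₀ (by positivity)]
    exact h2
  calc n * (GG Λ (ee m) j * Q n c j * β)
      ≤ n * (5 / 4 * ((1 / 2) ^ (m - j) * Q n c m) * rad n m c) := by gcongr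
    _ = (1 / 128) * (1 / 2) ^ (m - j) * ‖v n c m‖ := by
        unfold rad
        field_simp
        ring
    _ ≤ (1 / 128) * (1 / 2) ^ (m - j) * (8 * ‖v n c j‖) := by gcongr
    _ = ee m j * ‖v n c j‖ := by unfold ee; ring

theorem core_track {c' : ℂ} (hc' : ‖c' - c‖ ≤ rad n m c) {j : ℕ} (hj : j ≤ m) :
    n * ‖v n c' j - v n c j‖ ≤ ee m j * ‖v n c j‖ := by
  have hΛ0 : 0 < Λ := by linarith
  have h1 := track (n := n) (by omega) (c := c) (m := m) hΛ0 (e := ee m) (ee_nonneg m)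
    (β := ‖c' - c‖) (norm_nonneg _) (fun i hi => (h i hi.le).1)
    (fun i hi => cond_aux hn hΛ h (norm_nonneg _) hc' hi.le) (x := fun i => v n c' i) le_rfl
    (by
      intro i _
      have : v n c' (i + 1) - v n c (i + 1) = (v n c' i ^ n - v n c i ^ n) + (c' - c) := by
        rw [v_succ, v_succ]; ring
      rw [this]
      exact norm_add_le _ _) j hj
  refine le_trans ?_ (cond_aux hn hΛ h (norm_nonneg _) hc' hj)
  gcongr

theorem core_deriv {c' : ℂ} (hc' : ‖c' - c‖ ≤ rad n m c) :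
    ‖DD n c' (m + 1) - PP n c (m + 1)‖ ≤ 1 / 4 * Q n c (m + 1) := by
  have hΛ0 : 0 < Λ := by linarith
  have h1 := track_deriv (n := n) (by omega) (c := c) (m := m + 1) hΛ0 (e := ee m) (ee_nonneg m)
    (fun i hi => (h i (by omega)).1) (x := fun i => v n c' i)
    (fun i hi => core_track hn hΛ h hc' (by omega)) (M := fun i => DD n c' i) (b := 1) (by simp)
    rfl (fun i _ => rfl) (m + 1) le_rfl
  refine h1.trans ?_
  have hQ : 0 < Q n c (m + 1) := Q_pos fun i hi => h.u_pos hΛ0 (by omega)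
  have := GG_le hΛ (m := m) (j := m + 1) le_rfl
  gcongr
  linarith

theorem core_u_le {c' : ℂ} (hc' : ‖c' - c‖ ≤ rad n m c) {j : ℕ} (hj : j ≤ m) :
    u n c' j ≤ Real.exp (ee m j) * u n c j := by
  have h1 := norm_pow_le' (n := n) (by omega) (ee_nonneg m j) (core_track hn hΛ h hc' hj)
  unfold u
  calc (n:ℝ) * ‖v n c' j‖ ^ (n - 1) ≤ n * (Real.exp (ee m j) * ‖v n c j‖ ^ (n - 1)) := by gcongr
    _ = _ := by ring

theorem core_le_u {c' : ℂ} (hc' : ‖c' - c‖ ≤ rad n m c) {j : ℕ} (hj : j ≤ m) :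
    (1 - ee m j) * u n c j ≤ u n c' j := by
  have h1 := le_norm_pow (n := n) (by omega) (ee_nonneg m j) (core_track hn hΛ h hc' hj)
    ((ee_le m j).trans (by norm_num))
  unfold u
  calc (1 - ee m j) * (n * ‖v n c j‖ ^ (n - 1)) = n * ((1 - ee m j) * ‖v n c j‖ ^ (n - 1)) := by ring
    _ ≤ _ := by gcongr

end core

/-! ### The criterion -/

theorem third_le {n : ℕ} (hn : 2 ≤ n) : (1:ℝ) / 3 ≤ (1 - 1 / n) ^ (n - 1) := by
  obtain ⟨k, rfl⟩ : ∃ k, n = k + 2 := ⟨n - 2, by omega⟩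
  have h0 : k + 2 - 1 = k + 1 := by omega
  rw [h0]
  have hk : (0:ℝ) < (k:ℝ) + 1 := by positivity
  have hk2 : (0:ℝ) < (k:ℝ) + 2 := by positivity
  have h1 : (1:ℝ) - 1 / ((k + 2 : ℕ) : ℝ) = (1 + 1 / ((k:ℝ) + 1))⁻¹ := by
    push_cast
    field_simp
    ring
  rw [h1, inv_pow]
  have h2 : (1 + 1 / ((k:ℝ) + 1)) ^ (k + 1) ≤ 3 := by
    have h3 : 1 + 1 / ((k:ℝ) + 1) ≤ Real.exp (1 / ((k:ℝ) + 1)) := by
      have := Real.add_one_le_exp (1 / ((k:ℝ) + 1)); linarith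
    calc (1 + 1 / ((k:ℝ) + 1)) ^ (k + 1) ≤ Real.exp (1 / ((k:ℝ) + 1)) ^ (k + 1) := by gcongr
      _ = Real.exp 1 := by
          rw [← Real.exp_nat_mul]; congr 1; push_cast; field_simp
      _ ≤ 3 := by have := Real.exp_one_lt_d9; linarith
  rw [one_div]
  gcongr

open N62a1eb23 in
/-- The criterion for attracting cycles. -/
theorem criterion {n : ℕ} (hn : 2 ≤ n) {Λ : ℝ} (hΛ : 32 ≤ Λ) {k : ℕ} {c : ℂ}
    (hu : ∀ j < k, Λ ≤ u n c j) (hQ : Q n c (k + 1) ≤ 1 / 6) :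
    ∃ z, IsAttractingCycle (fun z => z ^ n + c) (k + 1) z := by
  have hΛ0 : 0 < Λ := by linarith
  have hn0 : (0:ℝ) < n := by exact_mod_cast (by omega : 0 < n)
  have hn1 : n - 1 ≠ 0 := by omega
  have hQk : 0 < Q n c k := Q_pos fun j hj => hΛ0.trans_le (hu j hj)
  -- the radius
  obtain ⟨ρ, hρ0, hρ⟩ : ∃ ρ : ℝ, 0 < ρ ∧ n * ρ ^ (n - 1) = 1 / (2 * Q n c k) := by
    refine ⟨(1 / (2 * Q n c k) / n) ^ (1 / ((n - 1 : ℕ) : ℝ)), by positivity, ?_⟩
    rw [← Real.rpow_natCast, ← Real.rpow_mul (by positivity), one_div_mul_cancel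
      (by exact_mod_cast hn1), Real.rpow_one]
    field_simp
  have hpow : ρ ^ n = ρ ^ (n - 1) * ρ := by
    rw [← pow_succ]; congr 1; omega
  set g : ℂ → ℂ := fun z => z ^ n + c with hg
  have hgd : Differentiable ℂ g := by rw [hg]; fun_prop
  have hgder : ∀ z, deriv g z = n * z ^ (n - 1) := fun z => ((hasDerivAt_pow n z).add_const c).deriv
  -- `ρ` is at most the norms of the points of the orbit
  have hρv : ∀ j < k, ρ ≤ ‖v n c j‖ := by
    intro j hj
    by_contra hcon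
    push Not at hcon
    have h1 : ‖v n c j‖ ^ (n - 1) ≤ ρ ^ (n - 1) := pow_le_pow_left₀ (norm_nonneg _) hcon.le _
    have h2 := hu j hj
    have h3 : 1 ≤ Q n c k := by
      have := Q_lower hΛ0 hu (Nat.zero_le k) (c := c) (n := n)
      rw [Q_zero, one_mul] at this
      refine le_trans (one_le_pow₀ (by linarith)) this
    have h4 : u n c j ≤ 1 / (2 * Q n c k) := by
      rw [← hρ]; unfold u; gcongr
    have h5 : 1 / (2 * Q n c k) ≤ 1 := by
      rw [div_le_one (by positivity)]; linarith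
    linarith
  have hcond : ∀ j < k, n * (GG Λ (ee k) j * Q n c j * ρ ^ n) ≤ ee k j * ‖v n c j‖ := by
    intro j hj
    have hG := GG_le hΛ (m := k) (j := j) (by omega)
    have hQj : 0 < Q n c j := Q_pos fun i hi => hΛ0.trans_le (hu i (by omega))
    have h1 := Q_lower hΛ0 hu hj.le (c := c) (n := n)
    have h2 : Q n c j * (16 * 2 ^ (k - j)) ≤ Q n c k := by
      refine le_trans ?_ h1
      gcongr
      obtain ⟨i, hi⟩ : ∃ i, k - j = i + 1 := ⟨k - j - 1, by omega⟩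
      rw [hi, pow_succ, pow_succ]
      have h3 : (2:ℝ) ^ i ≤ Λ ^ i := by gcongr; linarith
      have h4 : (0:ℝ) < 2 ^ i := by positivity
      nlinarith
    have h3 : n * ρ ^ n = ρ / (2 * Q n c k) := by
      rw [hpow, ← mul_assoc, hρ]; ring
    calc n * (GG Λ (ee k) j * Q n c j * ρ ^ n) = GG Λ (ee k) j * Q n c j * (n * ρ ^ n) := by ring
      _ = GG Λ (ee k) j * Q n c j * (ρ / (2 * Q n c k)) := by rw [h3]
      _ ≤ 5 / 4 * Q n c j * (‖v n c j‖ / (2 * (Q n c j * (16 * 2 ^ (k - j))))) := by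
          gcongr
          exact hρv j hj
      _ = 5 / 8 * (1 / 16 * (1 / 2) ^ (k - j) * ‖v n c j‖) := by
          rw [one_div_pow]
          field_simp
          ring
      _ ≤ 1 * (1 / 16 * (1 / 2) ^ (k - j) * ‖v n c j‖) := by gcongr; norm_num
      _ = ee k j * ‖v n c j‖ := by unfold ee; ring
  -- the orbits of the points of the disc
  have hx : ∀ y ∈ closedBall c (ρ ^ n), ∀ j ≤ k,
      ‖g^[j] y - v n c j‖ ≤ GG Λ (ee k) j * Q n c j * ρ ^ n := by
    intro y hy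
    rw [mem_closedBall, dist_eq_norm] at hy
    apply track (n := n) (by omega) (c := c) (m := k) hΛ0 (e := ee k) (ee_nonneg k)
      (β := ρ ^ n) (by positivity) hu hcond (x := fun j => g^[j] y)
    · exact hy
    · intro j _
      have h1 : g^[j + 1] y - v n c (j + 1) = (g^[j] y) ^ n - v n c j ^ n := by
        rw [Function.iterate_succ_apply', v_succ]
        simp only [hg]
        ring
      change ‖g^[j + 1] y - v n c (j + 1)‖ ≤ _
      rw [h1]
      have : 0 ≤ ρ ^ n := by positivity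
      linarith
  have hder : ∀ y ∈ closedBall c (ρ ^ n), ‖deriv (g^[k]) y‖ ≤ 5 / 4 * Q n c k := by
    intro y hy
    have h1 := track_deriv (n := n) (by omega) (c := c) (m := k) hΛ0 (e := ee k) (ee_nonneg k) hu
      (x := fun j => g^[j] y)
      (fun j hj => le_trans (by gcongr; exact hx y hy j hj.le) (hcond j hj))
      (M := fun j => deriv (g^[j]) y) (b := 0) (by simp) (by simp)
      (by
        intro j _
        change deriv (g^[j + 1]) y = _
        rw [Function.iterate_succ', deriv_comp _ (hgd _) ((hgd.iterate j) y), hgder, add_zero])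
      k le_rfl
    have h2 : ‖deriv (g^[k]) y‖ ≤ ‖deriv (g^[k]) y - PP n c k‖ + ‖PP n c k‖ := by
      have := norm_add_le (deriv (g^[k]) y - PP n c k) (PP n c k)
      rwa [sub_add_cancel] at this
    rw [norm_PP] at h2
    have hG := GG_le hΛ (m := k) (j := k) (by omega)
    have h3 : (GG Λ (ee k) k - 1) * Q n c k ≤ (5 / 4 - 1) * Q n c k := by gcongr
    linarith
  -- the last point
  have hlast : ∀ y ∈ closedBall c (ρ ^ n), ‖g^[k] y‖ ≤ ρ := by
    intro y hy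
    have h1 := hx y hy k le_rfl
    have hG := GG_le hΛ (m := k) (j := k) (by omega)
    have h3 : n * ρ ^ n = ρ / (2 * Q n c k) := by
      rw [hpow, ← mul_assoc, hρ]; ring
    have h4 : GG Λ (ee k) k * Q n c k * ρ ^ n ≤ 5 / 8 * (ρ / n) := by
      have h5 : ρ ^ n = ρ / (2 * Q n c k) / n := by
        rw [← h3]; field_simp
      calc GG Λ (ee k) k * Q n c k * ρ ^ n ≤ 5 / 4 * Q n c k * ρ ^ n := by gcongr
        _ = 5 / 8 * (ρ / n) := by rw [h5]; field_simp; norm_num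
    have h5 : ‖v n c k‖ ≤ (1 - 1 / n) * ρ := by
      by_contra hcon
      push Not at hcon
      have hn2 : (2:ℝ) ≤ n := by exact_mod_cast hn
      have h6 : 0 ≤ 1 - 1 / (n:ℝ) := by
        rw [sub_nonneg, div_le_one hn0]; linarith
      have h7 : ((1 - 1 / (n:ℝ)) * ρ) ^ (n - 1) < ‖v n c k‖ ^ (n - 1) :=
        pow_lt_pow_left₀ hcon (by positivity) hn1
      rw [mul_pow] at h7
      have h8 := third_le hn
      have h9 : 1 / 3 * ρ ^ (n - 1) ≤ (1 - 1 / (n:ℝ)) ^ (n - 1) * ρ ^ (n - 1) := by gcongr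
      have h10 : 1 / 3 * ρ ^ (n - 1) < ‖v n c k‖ ^ (n - 1) := h9.trans_lt h7
      rw [Q_succ] at hQ
      unfold u at hQ
      have h11 : Q n c k * (n * (1 / 3 * ρ ^ (n - 1))) < Q n c k * (n * ‖v n c k‖ ^ (n - 1)) := by
        gcongr
      have h12 : Q n c k * (n * (1 / 3 * ρ ^ (n - 1))) = 1 / 6 := by
        calc Q n c k * (n * (1 / 3 * ρ ^ (n - 1))) = 1 / 3 * Q n c k * (n * ρ ^ (n - 1)) := by ring
          _ = 1 / 6 := by rw [hρ]; field_simp; norm_num
      linarith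
    have h6 : ‖g^[k] y‖ ≤ ‖g^[k] y - v n c k‖ + ‖v n c k‖ := by
      have := norm_add_le (g^[k] y - v n c k) (v n c k)
      rwa [sub_add_cancel] at this
    have h7 : (1 - 1 / (n:ℝ)) * ρ = ρ - ρ / n := by ring
    have h8 : 0 ≤ ρ / n := by positivity
    linarith
  have hmaps : MapsTo g^[k + 1] (closedBall c (ρ ^ n)) (closedBall c (ρ ^ n)) := by
    intro y hy
    rw [mem_closedBall, dist_eq_norm, Function.iterate_succ_apply']
    have h3 : g (g^[k] y) - c = (g^[k] y) ^ n := by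
      simp only [hg]; ring
    rw [h3, norm_pow]
    exact pow_le_pow_left₀ (norm_nonneg _) (hlast y hy) n
  have hder2 : ∀ y ∈ closedBall c (ρ ^ n), ‖deriv (g^[k + 1]) y‖ ≤ 5 / 8 := by
    intro y hy
    rw [Function.iterate_succ', deriv_comp _ (hgd _) ((hgd.iterate k) y), hgder, norm_mul,
      norm_mul, norm_pow, Complex.norm_natCast]
    calc (n:ℝ) * ‖g^[k] y‖ ^ (n - 1) * ‖deriv (g^[k]) y‖
        ≤ (n * ρ ^ (n - 1)) * (5 / 4 * Q n c k) := by
          gcongr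
          · exact hlast y hy
          · exact hder y hy
      _ = 5 / 8 := by rw [hρ]; field_simp; norm_num
  obtain ⟨z, -, hz1, hz2⟩ := Pool.Agent.H749R2.Hyp.fixed_of_contr (by positivity : 0 ≤ ρ ^ n)
    (by norm_num : (0:ℝ) ≤ 5 / 8) (by norm_num) (hgd.iterate (k + 1)) hmaps hder2
  exact ⟨z, by omega, hz1, (hgd.iterate (k + 1)) z, hz2⟩

end Pool.Agent.H205.AR
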