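import Mathlib

/-!
# Area of the non-hyperbolic parameters of `z ^ n + c`: integration lemmas
-/

set_option autoImplicit false
open Complex Metric Set Filter Topology MeasureTheory
open scoped ENNReal Real

namespace Pool.Agent.H205.AR

/-! ### Arcs of circles in discs -/

theorem abs_sin_le_imp {x s : ℝ} (h : |Real.sin x| ≤ s) (hx : |x| < 2 * π) :
    ∃ k ∈ Finset.Icc (-2 : ℤ) 2, x ∈ closedBall ((k : ℝ) * π) (π / 2 * s) := by
  have hπ := Real.pi_pos
  refine ⟨round (x / π), ?_, ?_⟩
  · rw [Finset.mem_Icc]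
    have h1 : |x / π| < 2 := by
      rw [abs_div, abs_of_pos hπ, div_lt_iff₀ hπ]; exact hx
    have h2 := abs_lt.1 h1
    have h3 := abs_le.1 (abs_sub_round (x / π))
    constructor
    · have : (-3 : ℝ) < (round (x / π) : ℝ) := by linarith
      have h4 : (-3 : ℤ) < round (x / π) := by exact_mod_cast this
      omega
    · have : (round (x / π) : ℝ) < 3 := by linarith
      have h4 : round (x / π) < (3 : ℤ) := by exact_mod_cast this
      omega
  · set k := round (x / π) with hk
    rw [mem_closedBall, Real.dist_eq]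
    have h1 : |x - k * π| ≤ π / 2 := by
      have h2 : x - k * π = (x / π - k) * π := by field_simp
      rw [h2, abs_mul, abs_of_pos hπ]
      have := abs_sub_round (x / π)
      calc |x / π - k| * π ≤ 1 / 2 * π := by gcongr
        _ = π / 2 := by ring
    have h2 := Real.mul_abs_le_abs_sin h1
    have h3 : |Real.sin (x - k * π)| = |Real.sin x| := by
      rw [Real.sin_sub_int_mul_pi, abs_mul, abs_zpow, abs_neg, abs_one, one_zpow, one_mul]
    rw [h3] at h2
    have h4 : 2 / π * |x - k * π| ≤ s := h2.trans h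
    calc |x - k * π| = π / 2 * (2 / π * |x - k * π|) := by field_simp
      _ ≤ π / 2 * s := by gcongr

/-- The part of a circle inside of a disc. -/
theorem volume_arc (ζ : ℂ) {R r : ℝ} (hR : 0 ≤ R) (hr : 0 < r) :
    volume {θ : ℝ | θ ∈ Ioo (-π) π ∧
      (r : ℂ) * (Real.cos θ + Real.sin θ * I) ∈ closedBall ζ R} ≤ ENNReal.ofReal (16 * R / r) := by
  have hπ := Real.pi_pos
  set α := arg ζ with hα
  have hα1 : -π < α := neg_pi_lt_arg ζ
  have hα2 : α ≤ π := arg_le_pi ζ
  have hsub : {θ : ℝ | θ ∈ Ioo (-π) π ∧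
      (r : ℂ) * (Real.cos θ + Real.sin θ * I) ∈ closedBall ζ R} ⊆
      ⋃ k ∈ Finset.Icc (-2 : ℤ) 2, closedBall (α + (k : ℝ) * π) (π / 2 * (R / r)) := by
    rintro θ ⟨⟨h1, h2⟩, h3⟩
    rw [mem_closedBall, dist_eq_norm] at h3
    have h4 : r * |Real.sin (θ - α)| ≤ R := by
      have h5 : ((r : ℂ) * (Real.cos θ + Real.sin θ * I) - ζ) * (Real.cos α - Real.sin α * I) =
          (r : ℂ) * (Real.cos θ + Real.sin θ * I) * (Real.cos α - Real.sin α * I) - ‖ζ‖ := by
        have h6 : ζ = ‖ζ‖ * (Real.cos α + Real.sin α * I) := by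
          rw [hα]
          conv_lhs => rw [← norm_mul_cos_add_sin_mul_I ζ]
          push_cast
          rfl
        have h7 : ζ * (Real.cos α - Real.sin α * I) = ‖ζ‖ := by
          conv_lhs => rw [h6]
          have h8 : ((Real.cos α : ℂ) + Real.sin α * I) * (Real.cos α - Real.sin α * I) = 1 := by
            have h9 : ((Real.cos α : ℂ)) ^ 2 + (Real.sin α : ℂ) ^ 2 = 1 := by
              exact_mod_cast Real.cos_sq_add_sin_sq α
            calc ((Real.cos α : ℂ) + Real.sin α * I) * (Real.cos α - Real.sin α * I)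
                = (Real.cos α : ℂ) ^ 2 - (Real.sin α : ℂ) ^ 2 * I ^ 2 := by ring
              _ = 1 := by rw [I_sq]; linear_combination h9
          rw [mul_assoc, h8, mul_one]
        rw [sub_mul, h7]
      have h6 : ‖(Real.cos α : ℂ) - Real.sin α * I‖ = 1 := by
        have : (Real.cos α : ℂ) - Real.sin α * I = exp ((-α : ℝ) * I) := by
          rw [exp_mul_I]
          push_cast
          rw [Complex.cos_neg, Complex.sin_neg]
          ring
        rw [this, norm_exp_ofReal_mul_I]
      have h7 : ((r : ℂ) * (Real.cos θ + Real.sin θ * I) * (Real.cos α - Real.sin α * I) - ‖ζ‖).im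
          = r * Real.sin (θ - α) := by
        rw [Real.sin_sub]
        simp [Complex.cos_ofReal_re, Complex.sin_ofReal_re, Complex.cos_ofReal_im,
          Complex.sin_ofReal_im]
        ring
      have h8 := abs_im_le_norm
        ((r : ℂ) * (Real.cos θ + Real.sin θ * I) * (Real.cos α - Real.sin α * I) - ‖ζ‖)
      rw [h7, ← h5, norm_mul, h6, mul_one, abs_mul, abs_of_pos hr] at h8
      exact h8.trans h3
    have h5 : |Real.sin (θ - α)| ≤ R / r := by
      rw [le_div_iff₀ hr]; linarith
    obtain ⟨k, hk, hk2⟩ := abs_sin_le_imp h5 (by rw [abs_lt]; constructor <;> linarith)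
    simp only [mem_iUnion]
    refine ⟨k, hk, ?_⟩
    rw [mem_closedBall, Real.dist_eq] at hk2 ⊢
    rw [show θ - (α + k * π) = θ - α - k * π by ring]
    exact hk2
  calc volume _ ≤ volume (⋃ k ∈ Finset.Icc (-2 : ℤ) 2,
        closedBall (α + (k : ℝ) * π) (π / 2 * (R / r))) := measure_mono hsub
    _ ≤ ∑ k ∈ Finset.Icc (-2 : ℤ) 2, volume (closedBall (α + (k : ℝ) * π) (π / 2 * (R / r))) :=
        measure_biUnion_finset_le _ _
    _ = ∑ k ∈ Finset.Icc (-2 : ℤ) 2, ENNReal.ofReal (π * (R / r)) := by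
        apply Finset.sum_congr rfl
        intro k _
        rw [Real.volume_closedBall]
        congr 1
        ring
    _ = ENNReal.ofReal (5 * (π * (R / r))) := by
        have hcard : (Finset.Icc (-2 : ℤ) 2).card = 5 := by decide
        rw [Finset.sum_const, hcard, nsmul_eq_mul, ENNReal.ofReal_mul (by norm_num : (0:ℝ) ≤ 5)]
        norm_num
    _ ≤ ENNReal.ofReal (16 * R / r) := by
        apply ENNReal.ofReal_le_ofReal
        have h1 : π < 3.15 := Real.pi_lt_d2
        have h2 : 0 ≤ R / r := by positivity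
        calc 5 * (π * (R / r)) ≤ 5 * (3.15 * (R / r)) := by gcongr
          _ ≤ 16 * (R / r) := by nlinarith
          _ = 16 * R / r := by ring

/-- One-dimensional change of variables. -/
theorem lintegral_pow_le {n : ℕ} (hn : 2 ≤ n) {φ : ℝ → ℝ≥0∞} {rm : ℝ}
    (hφ : ∀ r, 0 < r → rm < r → φ (n * r ^ (n - 1)) = 0) :
    ∫⁻ r in Ioi (0:ℝ), φ (n * r ^ (n - 1)) ≤
      ENNReal.ofReal (rm / (n - 1 : ℕ)) * ∫⁻ h, φ (Real.exp h) := by
  have hn0 : (0:ℝ) < n := by exact_mod_cast (by omega : 0 < n)
  have hn1 : (0:ℝ) < ((n - 1 : ℕ) : ℝ) := by exact_mod_cast (by omega : 0 < n - 1)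
  set f : ℝ → ℝ := fun h => Real.exp ((h - Real.log n) / (n - 1 : ℕ)) with hf
  have himg : f '' univ = Ioi 0 := by
    ext r
    simp only [image_univ, mem_range, mem_Ioi]
    constructor
    · rintro ⟨h, rfl⟩; exact Real.exp_pos _
    · intro hr
      refine ⟨(n - 1 : ℕ) * Real.log r + Real.log n, ?_⟩
      rw [hf]
      simp only
      rw [add_sub_cancel_right, mul_div_cancel_left₀ _ hn1.ne', Real.exp_log hr]
  have hder : ∀ h ∈ (univ : Set ℝ), HasDerivWithinAt f (f h * (1 / (n - 1 : ℕ))) univ h := by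
    intro h _
    apply HasDerivAt.hasDerivWithinAt
    exact (((hasDerivAt_id h).sub_const (Real.log n)).div_const _).exp
  have hinj : InjOn f univ := by
    intro a _ b _ hab
    have h1 := Real.exp_injective hab
    have h2 : a - Real.log n = b - Real.log n := by
      rwa [div_left_inj' hn1.ne'] at h1
    linarith
  rw [← himg, lintegral_image_eq_lintegral_abs_deriv_mul MeasurableSet.univ hder hinj,
    setLIntegral_univ, ← lintegral_const_mul' _ _ ENNReal.ofReal_ne_top]
  apply lintegral_mono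
  intro h
  have hfh : 0 < f h := Real.exp_pos _
  have h1 : (n:ℝ) * f h ^ (n - 1) = Real.exp h := by
    rw [hf]
    simp only
    rw [← Real.exp_nat_mul, mul_div_cancel₀ _ hn1.ne', Real.exp_sub, Real.exp_log hn0]
    field_simp
  simp only
  rw [h1]
  by_cases h0 : φ (Real.exp h) = 0
  · rw [h0, mul_zero, mul_zero]
  · gcongr
    rw [abs_of_pos (by positivity), mul_one_div]
    gcongr
    by_contra hcon
    push Not at hcon
    exact h0 (by rw [← h1]; exact hφ _ hfh hcon)

/-- The integral of a function of `n * ‖ζ‖ ^ (n - 1)` over a disc. -/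
theorem lintegral_disc_le {n : ℕ} (hn : 2 ≤ n) {φ : ℝ → ℝ≥0∞} (hφm : Measurable φ) {rm : ℝ}
    (hφ : ∀ r, 0 < r → rm < r → φ (n * r ^ (n - 1)) = 0) (ζ₀ : ℂ) {R : ℝ}
    (hR : 0 ≤ R) :
    ∫⁻ ζ in closedBall ζ₀ R, φ (n * ‖ζ‖ ^ (n - 1)) ≤
      ENNReal.ofReal (16 * R * (rm / (n - 1 : ℕ))) * ∫⁻ h, φ (Real.exp h) := by
  have hmeas : Measurable fun ζ : ℂ => φ (n * ‖ζ‖ ^ (n - 1)) :=
    hφm.comp (by fun_prop)
  rw [← lintegral_indicator measurableSet_closedBall, ← Complex.lintegral_comp_polarCoord_symm,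
    show polarCoord.target = Ioi (0:ℝ) ×ˢ Ioo (-π) π from rfl, Measure.volume_eq_prod,
    ← Measure.prod_restrict, lintegral_prod]
  · calc ∫⁻ r in Ioi (0:ℝ), ∫⁻ θ in Ioo (-π) π, ENNReal.ofReal r •
          (closedBall ζ₀ R).indicator (fun ζ : ℂ => φ (n * ‖ζ‖ ^ (n - 1)))
            (Complex.polarCoord.symm (r, θ))
        ≤ ∫⁻ r in Ioi (0:ℝ), ENNReal.ofReal (16 * R) * φ (n * r ^ (n - 1)) := by
          apply setLIntegral_mono' measurableSet_Ioi
          intro r hr
          rw [mem_Ioi] at hr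
          calc ∫⁻ θ in Ioo (-π) π, ENNReal.ofReal r •
              (closedBall ζ₀ R).indicator (fun ζ : ℂ => φ (n * ‖ζ‖ ^ (n - 1)))
                (Complex.polarCoord.symm (r, θ))
              = ∫⁻ θ, {θ : ℝ | θ ∈ Ioo (-π) π ∧
                  (r : ℂ) * (Real.cos θ + Real.sin θ * I) ∈ closedBall ζ₀ R}.indicator
                  (fun _ => ENNReal.ofReal r * φ (n * r ^ (n - 1))) θ := by
                rw [← lintegral_indicator measurableSet_Ioo]
                apply lintegral_congr
                intro θ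
                by_cases h1 : θ ∈ Ioo (-π) π
                · rw [indicator_of_mem h1]
                  have h3 : ‖(r : ℂ) * (Real.cos θ + Real.sin θ * I)‖ = r := by
                    have := Complex.norm_polarCoord_symm (r, θ)
                    rw [Complex.polarCoord_symm_apply] at this
                    simp only at this
                    rw [this, abs_of_pos hr]
                  by_cases h2 : (r : ℂ) * (Real.cos θ + Real.sin θ * I) ∈ closedBall ζ₀ R
                  · rw [indicator_of_mem (show θ ∈ {θ : ℝ | θ ∈ Ioo (-π) π ∧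
                      (r : ℂ) * (Real.cos θ + Real.sin θ * I) ∈ closedBall ζ₀ R} from ⟨h1, h2⟩)]
                    rw [Complex.polarCoord_symm_apply]
                    simp only
                    rw [indicator_of_mem h2, h3, smul_eq_mul]
                  · rw [indicator_of_notMem (show θ ∉ {θ : ℝ | θ ∈ Ioo (-π) π ∧
                      (r : ℂ) * (Real.cos θ + Real.sin θ * I) ∈ closedBall ζ₀ R} from
                        fun h => h2 h.2)]
                    rw [Complex.polarCoord_symm_apply]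
                    simp only
                    rw [indicator_of_notMem h2, smul_zero]
                · rw [indicator_of_notMem h1]
                  rw [indicator_of_notMem (show θ ∉ {θ : ℝ | θ ∈ Ioo (-π) π ∧
                      (r : ℂ) * (Real.cos θ + Real.sin θ * I) ∈ closedBall ζ₀ R} from
                        fun h => h1 h.1)]
            _ ≤ ENNReal.ofReal r * φ (n * r ^ (n - 1)) * volume {θ : ℝ | θ ∈ Ioo (-π) π ∧
                  (r : ℂ) * (Real.cos θ + Real.sin θ * I) ∈ closedBall ζ₀ R} :=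
                lintegral_indicator_const_le _ _
            _ ≤ ENNReal.ofReal r * φ (n * r ^ (n - 1)) * ENNReal.ofReal (16 * R / r) := by
                gcongr
                exact volume_arc ζ₀ hR hr
            _ = (ENNReal.ofReal r * ENNReal.ofReal (16 * R / r)) * φ (n * r ^ (n - 1)) := by ring
            _ = ENNReal.ofReal (16 * R) * φ (n * r ^ (n - 1)) := by
                rw [← ENNReal.ofReal_mul hr.le]
                congr 2
                field_simp
      _ = ENNReal.ofReal (16 * R) * ∫⁻ r in Ioi (0:ℝ), φ (n * r ^ (n - 1)) :=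
          lintegral_const_mul' _ _ ENNReal.ofReal_ne_top
      _ ≤ ENNReal.ofReal (16 * R) * (ENNReal.ofReal (rm / (n - 1 : ℕ)) *
            ∫⁻ h, φ (Real.exp h)) := by
          gcongr
          exact lintegral_pow_le hn hφ
      _ = _ := by
          rw [← mul_assoc, ← ENNReal.ofReal_mul (by positivity)]
  · apply Measurable.aemeasurable
    have h1 : Measurable fun p : ℝ × ℝ => Complex.polarCoord.symm p := by
      simp only [Complex.polarCoord_symm_apply]
      fun_prop
    exact (ENNReal.measurable_ofReal.comp measurable_fst).mul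
      ((hmeas.indicator measurableSet_closedBall).comp h1)

/-! ### Nearly affine maps -/

theorem det_mul' (a : ℂ) :
    ((ContinuousLinearMap.toSpanSingleton ℂ a).restrictScalars ℝ).det = ‖a‖ ^ 2 := by
  have : (((ContinuousLinearMap.toSpanSingleton ℂ a).restrictScalars ℝ : ℂ →L[ℝ] ℂ) :
      ℂ →ₗ[ℝ] ℂ) = ((LinearMap.toSpanSingleton ℂ ℂ a).restrictScalars ℝ) := by
    ext; simp
  rw [ContinuousLinearMap.det, this, LinearMap.det_restrictScalars]
  simp [Algebra.norm_complex_apply, Complex.normSq_eq_norm_sq]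

theorem lintegral_comp_le {F F' : ℂ → ℂ} {P c : ℂ} {ρ : ℝ} (hP : P ≠ 0)
    (hF : ∀ x ∈ ball c ρ, HasDerivAt F (F' x) x)
    (hF' : ∀ x ∈ ball c ρ, ‖F' x - P‖ ≤ 1 / 4 * ‖P‖) (g : ℂ → ℝ≥0∞) :
    ∫⁻ x in ball c ρ, g (F x) ≤ ENNReal.ofReal (2 / ‖P‖ ^ 2) *
      ∫⁻ y in closedBall (F c) (5 / 4 * ‖P‖ * ρ), g y := by
  rcases le_or_gt ρ 0 with hρ | hρ
  · rw [ball_eq_empty.2 hρ]; simp
  have hP0 : 0 < ‖P‖ := norm_pos_iff.2 hP
  have key : ∀ x ∈ ball c ρ, ∀ y ∈ ball c ρ,
      ‖(F x - P * x) - (F y - P * y)‖ ≤ 1 / 4 * ‖P‖ * ‖x - y‖ := by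
    intro x hx y hy
    exact (convex_ball c ρ).norm_image_sub_le_of_norm_hasDerivWithin_le
      (f := fun x => F x - P * x) (f' := fun x => F' x - P)
      (fun z hz => by
        have h1 := (hF z hz).sub ((hasDerivAt_id z).const_mul P)
        rw [mul_one] at h1
        exact h1.hasDerivWithinAt) hF' hy hx
  have hinj : InjOn F (ball c ρ) := by
    intro x hx y hy hxy
    have h1 := key x hx y hy
    rw [hxy] at h1
    have h2 : F y - P * x - (F y - P * y) = -(P * (x - y)) := by ring
    rw [h2, norm_neg, norm_mul] at h1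
    have h3 : ‖x - y‖ ≤ 0 := by
      by_contra hcon
      push Not at hcon
      have : 0 < ‖P‖ * ‖x - y‖ := by positivity
      linarith
    exact sub_eq_zero.1 (norm_le_zero_iff.1 h3)
  have himg : F '' ball c ρ ⊆ closedBall (F c) (5 / 4 * ‖P‖ * ρ) := by
    rintro _ ⟨x, hx, rfl⟩
    rw [mem_closedBall, dist_eq_norm]
    have h1 := key x hx c (mem_ball_self hρ)
    have h2 : F x - F c = ((F x - P * x) - (F c - P * c)) + P * (x - c) := by ring
    rw [mem_ball, dist_eq_norm] at hx
    rw [h2]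
    calc ‖((F x - P * x) - (F c - P * c)) + P * (x - c)‖
        ≤ 1 / 4 * ‖P‖ * ‖x - c‖ + ‖P‖ * ‖x - c‖ := by
          refine (norm_add_le _ _).trans ?_
          rw [norm_mul]
          gcongr
      _ = 5 / 4 * ‖P‖ * ‖x - c‖ := by ring
      _ ≤ 5 / 4 * ‖P‖ * ρ := by gcongr
  have hcov := lintegral_image_eq_lintegral_abs_det_fderiv_mul volume
    (measurableSet_ball (x := c) (ε := ρ))
    (f' := fun x => (ContinuousLinearMap.toSpanSingleton ℂ (F' x)).restrictScalars ℝ)
    (fun x hx => (((hF x hx).hasFDerivAt).restrictScalars ℝ).hasFDerivWithinAt) hinj g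
  calc ∫⁻ x in ball c ρ, g (F x)
      ≤ ∫⁻ x in ball c ρ, ENNReal.ofReal (2 / ‖P‖ ^ 2) *
          (ENNReal.ofReal |((ContinuousLinearMap.toSpanSingleton ℂ (F' x)).restrictScalars ℝ).det| *
            g (F x)) := by
        apply setLIntegral_mono' measurableSet_ball
        intro x hx
        rw [det_mul', ← mul_assoc, ← ENNReal.ofReal_mul (by positivity)]
        have h1 := hF' x hx
        have h2 : 3 / 4 * ‖P‖ ≤ ‖F' x‖ := by
          have := norm_sub_norm_le P (F' x)
          rw [norm_sub_rev] at this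
          linarith
        have h3 : 1 ≤ 2 / ‖P‖ ^ 2 * |‖F' x‖ ^ 2| := by
          rw [abs_of_nonneg (by positivity), div_mul_eq_mul_div, le_div_iff₀ (by positivity)]
          nlinarith
        calc g (F x) = 1 * g (F x) := (one_mul _).symm
          _ ≤ ENNReal.ofReal (2 / ‖P‖ ^ 2 * |‖F' x‖ ^ 2|) * g (F x) := by
              gcongr
              rw [← ENNReal.ofReal_one]
              exact ENNReal.ofReal_le_ofReal h3
    _ = ENNReal.ofReal (2 / ‖P‖ ^ 2) * ∫⁻ x in ball c ρ,
          (ENNReal.ofReal |((ContinuousLinearMap.toSpanSingleton ℂ (F' x)).restrictScalars ℝ).det| *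
            g (F x)) := lintegral_const_mul' _ _ ENNReal.ofReal_ne_top
    _ = ENNReal.ofReal (2 / ‖P‖ ^ 2) * ∫⁻ y in F '' ball c ρ, g y := by rw [hcov]
    _ ≤ _ := by
        gcongr

/-! ### Averaging -/

/-- Averaging over discs with slowly varying radii. -/
theorem average {g : ℂ → ℝ≥0∞} (hg : Measurable g) {ρ : ℂ → ℝ} (hρ : Measurable ρ) {T : Set ℂ}
    (h : ∀ x, g x ≠ 0 → 0 < ρ x ∧ ∀ c, ‖c - x‖ < ρ x / 2 → c ∈ T ∧ ρ x / 2 ≤ ρ c ∧ ρ c ≤ 2 * ρ x) :
    ∫⁻ x, g x ≤ 16 * ∫⁻ c in T, (volume (ball c (ρ c)))⁻¹ * ∫⁻ x in ball c (ρ c), g x := by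
  have hset : MeasurableSet {p : ℂ × ℂ | ‖p.1 - p.2‖ < ρ p.1} :=
    measurableSet_lt (by fun_prop) (hρ.comp measurable_fst)
  have hvol : ∀ c : ℂ, volume (ball c (ρ c)) = ENNReal.ofReal (ρ c) ^ 2 * NNReal.pi := by
    intro c; rw [Complex.volume_ball]
  have hmw : Measurable fun c : ℂ => (volume (ball c (ρ c)))⁻¹ := by
    simp only [hvol]
    fun_prop
  have h1 : ∫⁻ c in T, (volume (ball c (ρ c)))⁻¹ * ∫⁻ x in ball c (ρ c), g x =
      ∫⁻ c in T, ∫⁻ x, {p : ℂ × ℂ | ‖p.1 - p.2‖ < ρ p.1}.indicator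
        (fun p => (volume (ball p.1 (ρ p.1)))⁻¹ * g p.2) (c, x) := by
    apply lintegral_congr
    intro c
    rw [← lintegral_indicator measurableSet_ball, ← lintegral_const_mul _
      (hg.indicator measurableSet_ball)]
    apply lintegral_congr
    intro x
    by_cases hx : x ∈ ball c (ρ c)
    · rw [indicator_of_mem hx, indicator_of_mem]
      rw [mem_ball, dist_eq_norm, norm_sub_rev] at hx
      exact hx
    · rw [indicator_of_notMem hx, indicator_of_notMem, mul_zero]
      rw [mem_ball, dist_eq_norm, norm_sub_rev] at hx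
      exact hx
  have hmeas : Measurable ({p : ℂ × ℂ | ‖p.1 - p.2‖ < ρ p.1}.indicator
        (fun p => (volume (ball p.1 (ρ p.1)))⁻¹ * g p.2)) :=
    ((hmw.comp measurable_fst).mul (hg.comp measurable_snd)).indicator hset
  have hswap := lintegral_lintegral_swap (μ := volume.restrict T) (ν := (volume : Measure ℂ))
    (f := fun c x => {p : ℂ × ℂ | ‖p.1 - p.2‖ < ρ p.1}.indicator
      (fun p => (volume (ball p.1 (ρ p.1)))⁻¹ * g p.2) (c, x)) hmeas.aemeasurable
  rw [h1, hswap, ← lintegral_const_mul']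
  · apply lintegral_mono
    intro x
    simp only
    by_cases hx : g x = 0
    · rw [hx]; simp
    obtain ⟨hρx, hx2⟩ := h x hx
    have hsub : ball x (ρ x / 2) ⊆ T := by
      intro c hc
      rw [mem_ball, dist_eq_norm] at hc
      exact (hx2 c hc).1
    have hvx : volume (ball x (ρ x / 2)) = ENNReal.ofReal (ρ x / 2) ^ 2 * NNReal.pi :=
      Complex.volume_ball _ _
    have hpi : ((NNReal.pi : NNReal) : ℝ≥0∞) = ENNReal.ofReal π := by
      rw [← NNReal.coe_real_pi, ENNReal.ofReal_coe_nnreal]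
    calc g x = 16 * (ENNReal.ofReal (1 / (4 * ρ x ^ 2 * π)) *
          ENNReal.ofReal (ρ x ^ 2 / 4 * π)) * g x := by
          rw [← ENNReal.ofReal_mul (by positivity)]
          have : (16 : ℝ≥0∞) = ENNReal.ofReal 16 := by norm_num
          rw [this, ← ENNReal.ofReal_mul (by norm_num)]
          have h2 : 16 * (1 / (4 * ρ x ^ 2 * π) * (ρ x ^ 2 / 4 * π)) = 1 := by
            have hπ := Real.pi_pos
            field_simp
            norm_num
          rw [h2, ENNReal.ofReal_one, one_mul]
      _ = 16 * ∫⁻ c in ball x (ρ x / 2), ENNReal.ofReal (1 / (4 * ρ x ^ 2 * π)) * g x := by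
          have h6 : volume (ball x (ρ x / 2)) = ENNReal.ofReal (ρ x ^ 2 / 4 * π) := by
            rw [hvx, hpi, ← ENNReal.ofReal_pow (by positivity),
              ← ENNReal.ofReal_mul (by positivity)]
            congr 1
            ring
          rw [setLIntegral_const, h6]
          ring
      _ ≤ 16 * ∫⁻ c in ball x (ρ x / 2), {p : ℂ × ℂ | ‖p.1 - p.2‖ < ρ p.1}.indicator
            (fun p => (volume (ball p.1 (ρ p.1)))⁻¹ * g p.2) (c, x) := by
          gcongr 16 * ?_
          apply setLIntegral_mono' measurableSet_ball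
          intro c hc
          rw [mem_ball, dist_eq_norm] at hc
          obtain ⟨-, h3, h4⟩ := hx2 c hc
          rw [indicator_of_mem (show (c, x) ∈ {p : ℂ × ℂ | ‖p.1 - p.2‖ < ρ p.1} from
            hc.trans_le h3)]
          simp only
          gcongr
          rw [hvol, hpi]
          have hρc : 0 < ρ c := by linarith
          rw [← ENNReal.ofReal_pow hρc.le, ← ENNReal.ofReal_mul (by positivity),
            ← ENNReal.ofReal_inv_of_pos (by positivity)]
          apply ENNReal.ofReal_le_ofReal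
          rw [← one_div]
          have h5 : ρ c ^ 2 ≤ 4 * ρ x ^ 2 := by nlinarith
          gcongr
      _ ≤ 16 * ∫⁻ c in T, {p : ℂ × ℂ | ‖p.1 - p.2‖ < ρ p.1}.indicator
            (fun p => (volume (ball p.1 (ρ p.1)))⁻¹ * g p.2) (c, x) := by
          gcongr
  · norm_num

end Pool.Agent.H205.AR
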