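import Pool.Agent.H205.AR2
import Pool.Agent.H205.AR3

/-!
# Area of the non-hyperbolic parameters of `z ^ n + c`: the recursion
-/

set_option autoImplicit false
open Complex Metric Set Filter Topology MeasureTheory
open scoped ENNReal Real

namespace Pool.Agent.H205.AR

/-- The average over the disc of level `m` of a function of `u (m + 1)`. -/
theorem avg_le {n : ℕ} (hn : 2 ≤ n) {Λ : ℝ} (hΛ : 32 ≤ Λ) {m : ℕ} {c : ℂ} (h : Good n Λ m c)
    {φ : ℝ → ℝ≥0∞} (hφm : Measurable φ) (hφ0 : ∀ x : ℝ, 4 * n < x → φ x = 0) :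
    (volume (ball c (rad n m c)))⁻¹ * ∫⁻ x in ball c (rad n m c), φ (u n x (m + 1)) ≤
      ENNReal.ofReal (40000 / u n c m) * ∫⁻ h, φ (Real.exp h) := by
  have hΛ0 : 0 < Λ := by linarith
  have hn0 : (0:ℝ) < n := by exact_mod_cast (by omega : 0 < n)
  have hn1 : (0:ℝ) < ((n - 1 : ℕ) : ℝ) := by exact_mod_cast (by omega : 0 < n - 1)
  have hQ : 0 < Q n c (m + 1) := Q_pos fun j hj => h.u_pos hΛ0 (by omega)
  have hQm : 0 < Q n c m := Q_pos fun j hj => h.u_pos hΛ0 (by omega)
  have hum := h.u_pos hΛ0 le_rfl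
  have hvm := h.v_pos hn hΛ0 le_rfl
  have hρ := h.rad_pos hn hΛ0
  have hP : PP n c (m + 1) ≠ 0 := by
    rw [← norm_pos_iff, norm_PP]; exact hQ
  have h1 := lintegral_comp_le (F := fun x => v n x (m + 1)) (F' := fun x => DD n x (m + 1))
    (P := PP n c (m + 1)) (c := c) (ρ := rad n m c) hP
    (fun x _ => hasDerivAt_v n x (m + 1))
    (fun x hx => by
      rw [mem_ball, dist_eq_norm] at hx
      rw [norm_PP]
      exact core_deriv hn hΛ h hx.le) (fun y => φ (n * ‖y‖ ^ (n - 1)))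
  rw [norm_PP] at h1
  have h2 := lintegral_disc_le hn hφm (rm := 8 * ‖v n c m‖) (fun r hr hr2 => by
    apply hφ0
    by_contra hcon
    push Not at hcon
    have h3 : r ^ (n - 1) ≤ 4 := by
      by_contra h4
      push Not at h4
      have : (n:ℝ) * 4 < n * r ^ (n - 1) := by gcongr
      linarith
    have h5 : 1 ≤ n * ‖v n c m‖ ^ (n - 1) := by
      have := (h m le_rfl).1
      unfold u at this
      linarith
    exact absurd (norm_le_eight hn (norm_nonneg (v n c m)) h3 h5) (not_le.2 hr2))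
    (v n c (m + 1)) (R := 5 / 4 * Q n c (m + 1) * rad n m c) (by positivity)
  have hvol : volume (ball c (rad n m c)) = ENNReal.ofReal (π * rad n m c ^ 2) := by
    have hpi : ((NNReal.pi : NNReal) : ℝ≥0∞) = ENNReal.ofReal π := by
      rw [← NNReal.coe_real_pi, ENNReal.ofReal_coe_nnreal]
    rw [Complex.volume_ball, hpi, ← ENNReal.ofReal_pow hρ.le, mul_comm,
      ← ENNReal.ofReal_mul Real.pi_pos.le]
  have hπ := Real.pi_pos
  calc (volume (ball c (rad n m c)))⁻¹ * ∫⁻ x in ball c (rad n m c), φ (u n x (m + 1))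
      ≤ (volume (ball c (rad n m c)))⁻¹ * (ENNReal.ofReal (2 / Q n c (m + 1) ^ 2) *
        (ENNReal.ofReal (16 * (5 / 4 * Q n c (m + 1) * rad n m c) *
          (8 * ‖v n c m‖ / (n - 1 : ℕ))) * ∫⁻ h, φ (Real.exp h))) := by
        gcongr
        exact h1.trans (by gcongr)
    _ = ENNReal.ofReal ((π * rad n m c ^ 2)⁻¹ * (2 / Q n c (m + 1) ^ 2 *
          (16 * (5 / 4 * Q n c (m + 1) * rad n m c) * (8 * ‖v n c m‖ / (n - 1 : ℕ))))) *
          ∫⁻ h, φ (Real.exp h) := by
        rw [hvol, ← ENNReal.ofReal_inv_of_pos (by positivity), ← mul_assoc, ← mul_assoc,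
          ← ENNReal.ofReal_mul (by positivity), ← ENNReal.ofReal_mul (by positivity)]
        congr 2
        ring
    _ ≤ ENNReal.ofReal (40000 / u n c m) * ∫⁻ h, φ (Real.exp h) := by
        gcongr
        have h3 : (π * rad n m c ^ 2)⁻¹ * (2 / Q n c (m + 1) ^ 2 *
            (16 * (5 / 4 * Q n c (m + 1) * rad n m c) * (8 * ‖v n c m‖ / (n - 1 : ℕ)))) =
            51200 / π * (n / (n - 1 : ℕ)) / u n c m := by
          rw [Q_succ]
          unfold rad
          field_simp
          norm_num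
        rw [h3]
        have h4 : (n:ℝ) / (n - 1 : ℕ) ≤ 2 := by
          rw [div_le_iff₀ hn1, Nat.cast_sub (by omega)]
          have : (2:ℝ) ≤ n := by exact_mod_cast hn
          push_cast
          linarith
        gcongr
        have h5 : 3 < π := Real.pi_gt_three
        calc 51200 / π * (n / (n - 1 : ℕ)) ≤ 51200 / 3 * 2 := by gcongr
          _ ≤ 40000 := by norm_num

/-! ### The regions -/

/-- The region of level `m`. -/
def Om (n : ℕ) (Λ : ℝ) (E : Set ℂ) (m : ℕ) : Set ℂ :=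
  {c | c ∈ thickening ((1 / 2) ^ m / (16 * n)) E ∧ ∀ j ≤ m,
    Λ * (2 - (1 / 2) ^ (m - j)) ≤ u n c j ∧ u n c j ≤ 2 * n * (1 + (1 / 2) ^ (m - j))}

/-- The condition of level `m + 1` on the first `m + 1` points. -/
def Pre (n : ℕ) (Λ : ℝ) (E : Set ℂ) (m : ℕ) : Set ℂ :=
  {c | c ∈ thickening ((1 / 2) ^ (m + 1) / (16 * n)) E ∧ ∀ j ≤ m,
    Λ * (2 - (1 / 2) ^ (m + 1 - j)) ≤ u n c j ∧ u n c j ≤ 2 * n * (1 + (1 / 2) ^ (m + 1 - j))}

theorem measurableSet_Om (n : ℕ) (Λ : ℝ) (E : Set ℂ) (m : ℕ) : MeasurableSet (Om n Λ E m) := by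
  have h : Om n Λ E m = thickening ((1 / 2) ^ (m) / (16 * n)) E ∩ ⋂ j, ⋂ (_ : j ≤ m),
      ({c | Λ * (2 - (1 / 2) ^ (m - j)) ≤ u n c j} ∩
        {c | u n c j ≤ 2 * n * (1 + (1 / 2) ^ (m - j))}) := by
    ext c
    simp only [Om, mem_setOf_eq, mem_inter_iff, mem_iInter]
  rw [h]
  apply MeasurableSet.inter isOpen_thickening.measurableSet
  apply MeasurableSet.iInter; intro j
  apply MeasurableSet.iInter; intro _
  exact (measurableSet_le measurable_const (continuous_u n j).measurable).inter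
    (measurableSet_le (continuous_u n j).measurable measurable_const)

theorem measurableSet_Pre (n : ℕ) (Λ : ℝ) (E : Set ℂ) (m : ℕ) : MeasurableSet (Pre n Λ E m) := by
  have h : Pre n Λ E m = thickening ((1 / 2) ^ (m + 1) / (16 * n)) E ∩ ⋂ j, ⋂ (_ : j ≤ m),
      ({c | Λ * (2 - (1 / 2) ^ (m + 1 - j)) ≤ u n c j} ∩
        {c | u n c j ≤ 2 * n * (1 + (1 / 2) ^ (m + 1 - j))}) := by
    ext c
    simp only [Pre, mem_setOf_eq, mem_inter_iff, mem_iInter]
  rw [h]
  apply MeasurableSet.inter isOpen_thickening.measurableSet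
  apply MeasurableSet.iInter; intro j
  apply MeasurableSet.iInter; intro _
  exact (measurableSet_le measurable_const (continuous_u n j).measurable).inter
    (measurableSet_le (continuous_u n j).measurable measurable_const)

theorem half_pow_le (i : ℕ) : ((1:ℝ) / 2) ^ i ≤ 1 := pow_le_one₀ (by norm_num) (by norm_num)

theorem Good_of_Om {n : ℕ} {Λ : ℝ} (hΛ : 0 ≤ Λ) {E : Set ℂ} {m : ℕ} {c : ℂ}
    (h : c ∈ Om n Λ E m) : Good n Λ m c := by
  intro j hj
  obtain ⟨h1, h2⟩ := h.2 j hj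
  have h3 := half_pow_le (m - j)
  constructor
  · nlinarith
  · have hn0 : (0:ℝ) ≤ n := by positivity
    nlinarith

theorem Good_of_Pre {n : ℕ} {Λ : ℝ} (hΛ : 0 ≤ Λ) {E : Set ℂ} {m : ℕ} {c : ℂ}
    (h : c ∈ Pre n Λ E m) : Good n Λ m c := by
  intro j hj
  obtain ⟨h1, h2⟩ := h.2 j hj
  have h3 := half_pow_le (m + 1 - j)
  constructor
  · nlinarith
  · have hn0 : (0:ℝ) ≤ n := by positivity
    nlinarith

theorem Om_succ_subset_Pre (n : ℕ) (Λ : ℝ) (E : Set ℂ) (m : ℕ) :
    Om n Λ E (m + 1) ⊆ Pre n Λ E m := fun _ hc => ⟨hc.1, fun j hj => hc.2 j (by omega)⟩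

theorem exp_small {x : ℝ} (hx0 : 0 ≤ x) (hx : x ≤ 1 / 2) : Real.exp x ≤ 1 + 2 * x := by
  have h := Real.add_one_le_exp (-x)
  rw [Real.exp_neg] at h
  have h0 := Real.exp_pos x
  have h2 : (1 - x) * Real.exp x ≤ 1 := by
    calc (1 - x) * Real.exp x ≤ (Real.exp x)⁻¹ * Real.exp x := by gcongr; linarith
      _ = 1 := inv_mul_cancel₀ h0.ne'
  nlinarith

theorem rad_le {n : ℕ} (hn : 2 ≤ n) {Λ : ℝ} (hΛ : 32 ≤ Λ) {m : ℕ} {c : ℂ} (h : Good n Λ m c) :
    rad n m c ≤ (1 / 2) ^ (m + 1) / (16 * n) := by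
  have hΛ0 : 0 < Λ := by linarith
  have hn0 : (0:ℝ) < n := by exact_mod_cast (by omega : 0 < n)
  have hv : ‖v n c m‖ ≤ 4 := by
    have h1 := pow_le_four hn (h m le_rfl).2
    by_contra hcon
    push Not at hcon
    have h2 : (4:ℝ) ^ (n - 1) < ‖v n c m‖ ^ (n - 1) :=
      pow_lt_pow_left₀ hcon (by norm_num) (by omega)
    have h3 : (4:ℝ) ^ 1 ≤ 4 ^ (n - 1) := pow_le_pow_right₀ (by norm_num) (by omega)
    linarith
  have hQ : (2:ℝ) ^ m ≤ Q n c m := by
    have h1 := Q_lower hΛ0 (fun i (hi : i < m) => (h i hi.le).1) (Nat.zero_le m) (c := c) (n := n)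
    rw [Q_zero, one_mul, Nat.sub_zero] at h1
    refine le_trans ?_ h1
    gcongr
    linarith
  unfold rad
  calc ‖v n c m‖ / (160 * n * Q n c m) ≤ 4 / (160 * n * 2 ^ m) := by gcongr
    _ = (1 / 2) ^ m / (40 * n) := by rw [one_div_pow]; field_simp; norm_num
    _ ≤ (1 / 2) ^ m / (32 * n) := by gcongr; norm_num
    _ = _ := by rw [pow_succ]; field_simp; norm_num

/-- Points near a point of `Pre` are in `Om`. -/
theorem mem_Om_of_near {n : ℕ} (hn : 2 ≤ n) {Λ : ℝ} (hΛ : 32 ≤ Λ) {E : Set ℂ} {m : ℕ} {x c : ℂ}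
    (hx : x ∈ Pre n Λ E m) (hc : ‖c - x‖ ≤ rad n m x) : c ∈ Om n Λ E m := by
  have hΛ0 : 0 < Λ := by linarith
  have hn0 : (0:ℝ) < n := by exact_mod_cast (by omega : 0 < n)
  have hg := Good_of_Pre hΛ0.le hx
  refine ⟨?_, fun j hj => ?_⟩
  · obtain ⟨e, he, hxe⟩ := mem_thickening_iff.1 hx.1
    rw [mem_thickening_iff]
    refine ⟨e, he, ?_⟩
    have h1 : dist c x ≤ (1 / 2) ^ (m + 1) / (16 * n) := by
      rw [dist_eq_norm]; exact hc.trans (rad_le hn hΛ hg)
    calc dist c e ≤ dist c x + dist x e := dist_triangle _ _ _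
      _ < (1 / 2) ^ (m + 1) / (16 * n) + (1 / 2) ^ (m + 1) / (16 * n) :=
          add_lt_add_of_le_of_lt h1 hxe
      _ = (1 / 2) ^ m / (16 * n) := by rw [pow_succ]; ring
  · obtain ⟨h1, h2⟩ := hx.2 j hj
    have h3 := core_u_le hn hΛ hg hc hj
    have h4 := core_le_u hn hΛ hg hc hj
    have hee := ee_le m j
    have hee0 := ee_nonneg m j
    have hpow : ((1:ℝ) / 2) ^ (m + 1 - j) = 1 / 2 * (1 / 2) ^ (m - j) := by
      rw [show m + 1 - j = (m - j) + 1 by omega, pow_succ]; ring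
    have heq : ee m j = 1 / 16 * (1 / 2) ^ (m - j) := rfl
    have hp := half_pow_le (m - j)
    have hp0 : 0 < ((1:ℝ) / 2) ^ (m - j) := by positivity
    rw [hpow] at h1 h2
    set t := ((1:ℝ) / 2) ^ (m - j) with ht
    constructor
    · refine le_trans ?_ h4
      calc Λ * (2 - t) ≤ (1 - ee m j) * (Λ * (2 - 1 / 2 * t)) := by
            rw [heq]
            have : (2 - t) ≤ (1 - 1 / 16 * t) * (2 - 1 / 2 * t) := by nlinarith
            calc Λ * (2 - t) ≤ Λ * ((1 - 1 / 16 * t) * (2 - 1 / 2 * t)) := by gcongr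
              _ = _ := by ring
        _ ≤ (1 - ee m j) * u n x j := by
            gcongr
            linarith
    · refine h3.trans ?_
      calc Real.exp (ee m j) * u n x j ≤ (1 + 2 * ee m j) * (2 * n * (1 + 1 / 2 * t)) := by
            gcongr
            · have := u_nonneg n x j; linarith
            · exact exp_small hee0 (by linarith)
        _ ≤ 2 * n * (1 + t) := by
            rw [heq]
            have : (1 + 2 * (1 / 16 * t)) * (1 + 1 / 2 * t) ≤ 1 + t := by nlinarith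
            calc (1 + 2 * (1 / 16 * t)) * (2 * n * (1 + 1 / 2 * t))
                = 2 * n * ((1 + 2 * (1 / 16 * t)) * (1 + 1 / 2 * t)) := by ring
              _ ≤ 2 * n * (1 + t) := by gcongr

theorem Q_ratio {n : ℕ} (hn : 2 ≤ n) {Λ : ℝ} (hΛ : 32 ≤ Λ) {m : ℕ} {x c : ℂ}
    (hx : Good n Λ m x) (hc : ‖c - x‖ ≤ rad n m x) {k : ℕ} (hk : k ≤ m + 1) :
    Q n c k ≤ 5 / 4 * Q n x k ∧ 3 / 4 * Q n x k ≤ Q n c k := by
  have hΛ0 : 0 < Λ := by linarith
  have hx0 : ∀ j ∈ Finset.range k, 0 ≤ u n x j := fun j _ => u_nonneg n x j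
  constructor
  · calc Q n c k ≤ ∏ j ∈ Finset.range k, (Real.exp (ee m j) * u n x j) := by
          unfold Q
          apply Finset.prod_le_prod (fun j _ => u_nonneg n c j)
          intro j hj
          exact core_u_le hn hΛ hx hc (by have := Finset.mem_range.1 hj; omega)
      _ = Real.exp (∑ j ∈ Finset.range k, ee m j) * Q n x k := by
          rw [Finset.prod_mul_distrib, ← Real.exp_sum]; rfl
      _ ≤ 5 / 4 * Q n x k := by
          have h1 := sum_ee (m := m) hk
          have h2 : Real.exp (∑ j ∈ Finset.range k, ee m j) ≤ 5 / 4 :=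
            (Real.exp_le_exp.2 (by linarith)).trans exp_le_five_fourth
          have h3 : 0 ≤ Q n x k := Finset.prod_nonneg hx0
          gcongr
  · have hprod : ∀ k ≤ m + 1, 1 - 2 * ∑ j ∈ Finset.range k, ee m j ≤
        ∏ j ∈ Finset.range k, (1 - ee m j) := by
      intro k
      induction k with
      | zero => intro _; simp
      | succ k ih =>
        intro hk
        rw [Finset.sum_range_succ, Finset.prod_range_succ]
        have h1 := ih (by omega)
        have h2 := ee_le m k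
        have h3 := ee_nonneg m k
        have h4 := sum_ee (m := m) (j := k) (by omega)
        have h5 : 0 ≤ ∑ j ∈ Finset.range k, ee m j := Finset.sum_nonneg fun i _ => ee_nonneg m i
        nlinarith
    calc 3 / 4 * Q n x k ≤ (∏ j ∈ Finset.range k, (1 - ee m j)) * Q n x k := by
          have h3 : 0 ≤ Q n x k := Finset.prod_nonneg hx0
          have h4 := hprod k hk
          have h5 := sum_ee (m := m) hk
          gcongr
          linarith
      _ = ∏ j ∈ Finset.range k, ((1 - ee m j) * u n x j) := by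
          rw [Finset.prod_mul_distrib]; rfl
      _ ≤ Q n c k := by
          unfold Q
          apply Finset.prod_le_prod
          · intro j hj
            have := ee_le m j
            have h6 := hx0 j hj
            have : 0 ≤ 1 - ee m j := by linarith
            positivity
          · intro j hj
            exact core_le_u hn hΛ hx hc (by have := Finset.mem_range.1 hj; omega)

theorem rad_slow {n : ℕ} (hn : 2 ≤ n) {Λ : ℝ} (hΛ : 32 ≤ Λ) {m : ℕ} {x c : ℂ}
    (hx : Good n Λ m x) (hc : ‖c - x‖ ≤ rad n m x) :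
    rad n m x / 2 ≤ rad n m c ∧ rad n m c ≤ 2 * rad n m x := by
  have hΛ0 : 0 < Λ := by linarith
  have hn0 : (0:ℝ) < n := by exact_mod_cast (by omega : 0 < n)
  have hn1 : (1:ℝ) ≤ n := by exact_mod_cast (by omega : 1 ≤ n)
  obtain ⟨h1, h2⟩ := Q_ratio hn hΛ hx hc (k := m) (by omega)
  have hQ : 0 < Q n x m := Q_pos fun j hj => hx.u_pos hΛ0 hj.le
  have hQc : 0 < Q n c m := by linarith
  have h3 := core_track hn hΛ hx hc le_rfl
  have hee : ee m m = 1 / 16 := by unfold ee; simp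
  rw [hee] at h3
  have hv := hx.v_pos hn hΛ0 le_rfl
  have h4 : ‖v n c m - v n x m‖ ≤ 1 / 16 * ‖v n x m‖ := by
    have : 1 * ‖v n c m - v n x m‖ ≤ n * ‖v n c m - v n x m‖ := by gcongr
    linarith
  have h5 : 15 / 16 * ‖v n x m‖ ≤ ‖v n c m‖ := by
    have := norm_sub_norm_le (v n x m) (v n c m)
    rw [norm_sub_rev] at this
    linarith
  have h6 : ‖v n c m‖ ≤ 17 / 16 * ‖v n x m‖ := by
    have := norm_sub_norm_le (v n c m) (v n x m)
    linarith
  unfold rad
  constructor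
  · calc ‖v n x m‖ / (160 * n * Q n x m) / 2
        = (1 / 2 * ‖v n x m‖) / (160 * n * Q n x m) := by ring
      _ = (5 / 8 * ‖v n x m‖) / (160 * n * (5 / 4 * Q n x m)) := by field_simp; norm_num
      _ ≤ ‖v n c m‖ / (160 * n * Q n c m) := by
          gcongr
          linarith
  · calc ‖v n c m‖ / (160 * n * Q n c m) ≤ (3 / 2 * ‖v n x m‖) / (160 * n * (3 / 4 * Q n x m)) := by
          gcongr
          linarith
      _ = 2 * (‖v n x m‖ / (160 * n * Q n x m)) := by field_simp; norm_num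

/-- One step down. -/
theorem descend {n : ℕ} (hn : 2 ≤ n) {Λ : ℝ} (hΛ : 32 ≤ Λ) {E : Set ℂ} {m : ℕ} {g : ℂ → ℝ≥0∞}
    (hg : Measurable g) (hsupp : ∀ x, g x ≠ 0 → x ∈ Pre n Λ E m) {A : ℂ → ℝ≥0∞}
    {φ : ℂ → ℝ → ℝ≥0∞} (hφm : ∀ c, Measurable (φ c)) (hφ0 : ∀ c, ∀ x : ℝ, 4 * n < x → φ c x = 0)
    (hle : ∀ c, Good n Λ m c → ∀ x, ‖x - c‖ < rad n m c → g x ≤ A c * φ c (u n x (m + 1))) :
    ∫⁻ x, g x ≤ 640000 * ∫⁻ c in Om n Λ E m,
      A c * ENNReal.ofReal (1 / u n c m) * ∫⁻ h, φ c (Real.exp h) := by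
  have hΛ0 : 0 < Λ := by linarith
  have hrad : Measurable fun c => rad n m c := by
    unfold rad
    exact (continuous_v n m).norm.measurable.div
      (measurable_const.mul (continuous_Q n m).measurable)
  have h1 := average hg hrad (T := Om n Λ E m) (fun x hx => by
    have hP := hsupp x hx
    have hG := Good_of_Pre hΛ0.le hP
    refine ⟨hG.rad_pos hn hΛ0, fun c hc => ?_⟩
    have hpos := hG.rad_pos hn hΛ0
    have hc' : ‖c - x‖ ≤ rad n m x := by linarith
    exact ⟨mem_Om_of_near hn hΛ hP hc', rad_slow hn hΛ hG hc'⟩)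
  refine h1.trans ?_
  have h2 : (640000 : ℝ≥0∞) = 16 * 40000 := by norm_num
  rw [h2, mul_assoc]
  gcongr 16 * ?_
  rw [← lintegral_const_mul' _ _ (by norm_num)]
  apply setLIntegral_mono' (measurableSet_Om n Λ E m)
  intro c hc
  have hG := Good_of_Om hΛ0.le hc
  have hup := hG.u_pos hΛ0 le_rfl
  calc (volume (ball c (rad n m c)))⁻¹ * ∫⁻ x in ball c (rad n m c), g x
      ≤ (volume (ball c (rad n m c)))⁻¹ * ∫⁻ x in ball c (rad n m c), A c * φ c (u n x (m + 1)) := by
        apply mul_le_mul_right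
        apply setLIntegral_mono' measurableSet_ball
        intro x hx
        rw [mem_ball, dist_eq_norm] at hx
        exact hle c hG x hx
    _ = A c * ((volume (ball c (rad n m c)))⁻¹ * ∫⁻ x in ball c (rad n m c), φ c (u n x (m + 1))) := by
        have hm : Measurable fun x => φ c (u n x (m + 1)) :=
          (hφm c).comp (continuous_u n (m + 1)).measurable
        rw [lintegral_const_mul _ hm]
        ring
    _ ≤ A c * (ENNReal.ofReal (40000 / u n c m) * ∫⁻ h, φ c (Real.exp h)) := by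
        gcongr A c * ?_
        exact avg_le hn hΛ hG (hφm c) (hφ0 c)
    _ = 40000 * (A c * ENNReal.ofReal (1 / u n c m) * ∫⁻ h, φ c (Real.exp h)) := by
        have h3 : ENNReal.ofReal (40000 / u n c m) = 40000 * ENNReal.ofReal (1 / u n c m) := by
          have : (40000 : ℝ≥0∞) = ENNReal.ofReal 40000 := by norm_num
          rw [this, ← ENNReal.ofReal_mul (by norm_num)]
          congr 1
          ring
        rw [h3]
        ring

end Pool.Agent.H205.AR
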