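import Pool.Agent.H205.AR4

/-!
# Area of the non-hyperbolic parameters of `z ^ n + c`: weights, and the estimate of the bad set
-/

set_option autoImplicit false
open Complex Metric Set Filter Topology MeasureTheory
open scoped ENNReal Real

namespace Pool.Agent.H205.AR

/-! ### One-dimensional integrals -/

theorem one_add_le_exp_half {s : ℝ} : 1 + s ≤ 2 * Real.exp (s / 2) := by
  have := Real.add_one_le_exp (s / 2)
  linarith

theorem lintegral_tail {a : ℝ} (ha : 0 ≤ a) :
    ∫⁻ h in Ioi a, ENNReal.ofReal ((1 + h) * Real.exp (-h)) ≤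
      ENNReal.ofReal (4 * (1 + a) * Real.exp (-a)) := by
  have hint : IntegrableOn (fun h : ℝ => 2 * (1 + a) * Real.exp (-a / 2) * Real.exp (-(1/2) * h))
      (Ioi a) := (integrableOn_exp_mul_Ioi (by norm_num) a).const_mul _
  calc ∫⁻ h in Ioi a, ENNReal.ofReal ((1 + h) * Real.exp (-h))
      ≤ ∫⁻ h in Ioi a, ENNReal.ofReal (2 * (1 + a) * Real.exp (-a / 2) * Real.exp (-(1/2) * h)) := by
        apply setLIntegral_mono' measurableSet_Ioi
        intro h hh
        rw [mem_Ioi] at hh
        apply ENNReal.ofReal_le_ofReal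
        have h1 : 1 + h ≤ (1 + a) * (1 + (h - a)) := by nlinarith
        have h2 := one_add_le_exp_half (s := h - a)
        have h3 : Real.exp (-h) * Real.exp ((h - a) / 2) =
            Real.exp (-a / 2) * Real.exp (-(1/2) * h) := by
          rw [← Real.exp_add, ← Real.exp_add]; congr 1; ring
        calc (1 + h) * Real.exp (-h) ≤ ((1 + a) * (1 + (h - a))) * Real.exp (-h) := by gcongr
          _ ≤ ((1 + a) * (2 * Real.exp ((h - a) / 2))) * Real.exp (-h) := by gcongr
          _ = 2 * (1 + a) * (Real.exp (-h) * Real.exp ((h - a) / 2)) := by ring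
          _ = _ := by rw [h3]; ring
    _ = ENNReal.ofReal (∫ h in Ioi a, 2 * (1 + a) * Real.exp (-a / 2) * Real.exp (-(1/2) * h)) := by
        rw [← ofReal_integral_eq_lintegral_ofReal hint]
        exact Eventually.of_forall fun h => by positivity
    _ = ENNReal.ofReal (4 * (1 + a) * Real.exp (-a)) := by
        congr 1
        rw [integral_const_mul, integral_exp_mul_Ioi (by norm_num)]
        have h3 : Real.exp (-a / 2) * Real.exp (-(1/2) * a) = Real.exp (-a) := by
          rw [← Real.exp_add]; congr 1; ring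
        have h4 : 2 * (1 + a) * Real.exp (-a / 2) * (-Real.exp (-(1/2) * a) / -(1/2)) =
            4 * (1 + a) * (Real.exp (-a / 2) * Real.exp (-(1/2) * a)) := by ring
        rw [h4, h3]

/-- The function `(1 + log t) / t` on `[a, b]`. -/
noncomputable def φ1 (a b : ℝ) : ℝ → ℝ≥0∞ :=
  (Icc a b).indicator fun t => ENNReal.ofReal ((1 + Real.log t) / t)

theorem measurable_φ1 (a b : ℝ) : Measurable (φ1 a b) := by
  unfold φ1
  apply Measurable.indicator _ measurableSet_Icc
  fun_prop

theorem lintegral_φ1 {a b : ℝ} (ha : 1 ≤ a) :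
    ∫⁻ h, φ1 a b (Real.exp h) ≤ ENNReal.ofReal (4 * (1 + Real.log a) / a) := by
  have ha0 : 0 < a := by linarith
  have h1 := lintegral_tail (Real.log_nonneg ha)
  rw [Real.exp_neg, Real.exp_log ha0] at h1
  rw [div_eq_mul_inv]
  refine le_trans ?_ h1
  rw [← lintegral_indicator measurableSet_Ioi]
  have hae : ∀ᵐ h : ℝ, h ≠ Real.log a := by
    rw [ae_iff]
    simp
  apply lintegral_mono_ae
  filter_upwards [hae] with h hne
  by_cases hh : Real.exp h ∈ Icc a b
  · have h2 : h ∈ Ioi (Real.log a) := by
      rw [mem_Ioi]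
      apply lt_of_le_of_ne _ (Ne.symm hne)
      have := Real.log_le_log ha0 hh.1
      rwa [Real.log_exp] at this
    unfold φ1
    rw [indicator_of_mem hh, indicator_of_mem h2, Real.log_exp, Real.exp_neg, div_eq_mul_inv]
  · unfold φ1
    rw [indicator_of_notMem hh]
    exact bot_le

/-- The function `1` on `[a, b]`. -/
noncomputable def φ2 (a b : ℝ) : ℝ → ℝ≥0∞ := (Icc a b).indicator fun _ => 1

theorem measurable_φ2 (a b : ℝ) : Measurable (φ2 a b) := by
  unfold φ2
  exact measurable_const.indicator measurableSet_Icc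

theorem lintegral_φ2 {a b : ℝ} (ha : 0 < a) :
    ∫⁻ h, φ2 a b (Real.exp h) ≤ ENNReal.ofReal (Real.log b - Real.log a) := by
  rw [← Real.volume_Icc, ← lintegral_indicator_one measurableSet_Icc]
  apply lintegral_mono
  intro h
  by_cases hh : Real.exp h ∈ Icc a b
  · have h2 : h ∈ Icc (Real.log a) (Real.log b) := by
      constructor
      · have := Real.log_le_log ha hh.1
        rwa [Real.log_exp] at this
      · have := Real.log_le_log (Real.exp_pos h) hh.2
        rwa [Real.log_exp] at this
    unfold φ2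
    beta_reduce
    rw [indicator_of_mem hh, indicator_of_mem h2]
    exact le_rfl
  · unfold φ2
    beta_reduce
    rw [indicator_of_notMem hh]
    exact bot_le

/-! ### Weights -/

/-- The weight of level `m`. -/
noncomputable def W (n m : ℕ) (c : ℂ) : ℝ := ∏ j ∈ Finset.range (m + 1), (1 + Real.log (u n c j))

theorem measurable_W (n m : ℕ) : Measurable fun c => W n m c := by
  unfold W
  apply Finset.measurable_prod
  intro j _
  exact measurable_const.add (Real.measurable_log.comp (continuous_u n j).measurable)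

theorem W_succ (n m : ℕ) (c : ℂ) : W n (m + 1) c = W n m c * (1 + Real.log (u n c (m + 1))) := by
  unfold W; rw [Finset.prod_range_succ]

theorem one_add_log_Q_le_W {n : ℕ} {Λ : ℝ} (hΛ : 1 ≤ Λ) {m : ℕ} {c : ℂ} (h : Good n Λ m c) :
    1 + Real.log (Q n c (m + 1)) ≤ W n m c ∧ 1 ≤ Q n c (m + 1) := by
  induction m with
  | zero =>
    have := (h 0 le_rfl).1
    unfold W Q
    simp
    linarith
  | succ m ih =>
    have hm : Good n Λ m c := fun j hj => h j (by omega)
    obtain ⟨h1, h2⟩ := ih hm
    have h3 := (h (m + 1) le_rfl).1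
    have h4 : 1 ≤ u n c (m + 1) := hΛ.trans h3
    rw [Q_succ, W_succ]
    constructor
    · rw [Real.log_mul (by linarith) (by linarith)]
      have h5 := Real.log_nonneg h2
      have h6 := Real.log_nonneg h4
      nlinarith
    · exact one_le_mul_of_one_le_of_one_le h2 h4

theorem W_var {n : ℕ} (hn : 2 ≤ n) {Λ : ℝ} (hΛ : 32 ≤ Λ) {m : ℕ} {c x : ℂ} (h : Good n Λ m c)
    (hx : ‖x - c‖ ≤ rad n m c) : W n m x ≤ 2 * W n m c := by
  have hΛ0 : 0 < Λ := by linarith
  calc W n m x ≤ ∏ j ∈ Finset.range (m + 1),
        (Real.exp (ee m j) * (1 + Real.log (u n c j))) := by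
        unfold W
        apply Finset.prod_le_prod
        · intro j hj
          have hjm : j ≤ m := by have := Finset.mem_range.1 hj; omega
          have h1 := core_le_u hn hΛ h hx hjm
          have h2 := (h j hjm).1
          have h3 := ee_le m j
          have h4 : 1 ≤ u n x j := by nlinarith
          have := Real.log_nonneg h4
          linarith
        · intro j hj
          have hjm : j ≤ m := by have := Finset.mem_range.1 hj; omega
          have h1 := core_u_le hn hΛ h hx hjm
          have h1' := core_le_u hn hΛ h hx hjm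
          have h2 := (h j hjm).1
          have h3 := ee_le m j
          have h3' := ee_nonneg m j
          have hux : 0 < u n x j := by nlinarith
          have huc : 0 < u n c j := by linarith
          have h4 := Real.log_le_log hux h1
          rw [Real.log_mul (Real.exp_pos _).ne' huc.ne', Real.log_exp] at h4
          have h5 : 0 ≤ Real.log (u n c j) := Real.log_nonneg (by linarith)
          have h6 := Real.add_one_le_exp (ee m j)
          calc 1 + Real.log (u n x j) ≤ (1 + ee m j) * (1 + Real.log (u n c j)) := by nlinarith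
            _ ≤ Real.exp (ee m j) * (1 + Real.log (u n c j)) := by gcongr; linarith
    _ = Real.exp (∑ j ∈ Finset.range (m + 1), ee m j) * W n m c := by
        rw [Finset.prod_mul_distrib, ← Real.exp_sum]; rfl
    _ ≤ 2 * W n m c := by
        have h1 := sum_ee (m := m) le_rfl
        have h2 : Real.exp (∑ j ∈ Finset.range (m + 1), ee m j) ≤ 5 / 4 :=
          (Real.exp_le_exp.2 (by linarith)).trans exp_le_five_fourth
        obtain ⟨h3, h4⟩ := one_add_log_Q_le_W (by linarith) h
        have h5 := Real.log_nonneg h4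
        have h6 : 0 ≤ W n m c := by linarith
        gcongr
        linarith

/-- The integral of level `m`. -/
noncomputable def II (n : ℕ) (Λ : ℝ) (E : Set ℂ) (m : ℕ) : ℝ≥0∞ :=
  ∫⁻ c in Om n Λ E m, ENNReal.ofReal (W n m c) * ENNReal.ofReal (1 / u n c m)

theorem II_succ {n : ℕ} (hn : 2 ≤ n) {Λ : ℝ} (hΛ : 32 ≤ Λ) (E : Set ℂ) (m : ℕ) :
    II n Λ E (m + 1) ≤ ENNReal.ofReal (5120000 * (1 + Real.log Λ) / Λ) * II n Λ E m := by
  have hΛ0 : 0 < Λ := by linarith
  have hΛ1 : 1 ≤ Λ := by linarith
  have hmeas : Measurable ((Om n Λ E (m + 1)).indicator fun x =>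
      ENNReal.ofReal (W n (m + 1) x) * ENNReal.ofReal (1 / u n x (m + 1))) := by
    apply Measurable.indicator _ (measurableSet_Om _ _ _ _)
    exact (ENNReal.measurable_ofReal.comp (measurable_W n (m + 1))).mul
      (ENNReal.measurable_ofReal.comp (measurable_const.div (continuous_u n (m + 1)).measurable))
  have h1 := descend hn hΛ (E := E) (m := m) hmeas (fun x hx => by
    apply Om_succ_subset_Pre
    by_contra hcon
    exact hx (indicator_of_notMem hcon _)) (A := fun c => ENNReal.ofReal (2 * W n m c))
    (φ := fun _ => φ1 Λ (4 * n)) (fun _ => measurable_φ1 _ _)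
    (fun _ x hx => indicator_of_notMem (fun h => absurd h.2 (not_le.2 hx)) _)
    (fun c hc x hx => by
      by_cases hxO : x ∈ Om n Λ E (m + 1)
      · rw [indicator_of_mem hxO]
        have hG := Good_of_Om hΛ0.le hxO
        obtain ⟨h2, h3⟩ := hG (m + 1) le_rfl
        have h4 : 1 ≤ u n x (m + 1) := by linarith
        have h5 := Real.log_nonneg h4
        unfold φ1
        rw [indicator_of_mem (show u n x (m + 1) ∈ Icc Λ (4 * n) from ⟨h2, h3⟩),
          ← ENNReal.ofReal_mul' (by positivity), ← ENNReal.ofReal_mul' (by positivity)]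
        apply ENNReal.ofReal_le_ofReal
        rw [W_succ]
        have h6 := W_var hn hΛ hc hx.le
        calc W n m x * (1 + Real.log (u n x (m + 1))) * (1 / u n x (m + 1))
            = W n m x * ((1 + Real.log (u n x (m + 1))) / u n x (m + 1)) := by ring
          _ ≤ 2 * W n m c * ((1 + Real.log (u n x (m + 1))) / u n x (m + 1)) := by gcongr
      · rw [indicator_of_notMem hxO]
        exact bot_le)
  rw [lintegral_indicator (measurableSet_Om _ _ _ _)] at h1
  unfold II
  refine h1.trans ?_
  have h7 := lintegral_φ1 (b := 4 * n) hΛ1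
  have hlog := Real.log_nonneg hΛ1
  calc 640000 * ∫⁻ c in Om n Λ E m, ENNReal.ofReal (2 * W n m c) * ENNReal.ofReal (1 / u n c m) *
        ∫⁻ h, φ1 Λ (4 * n) (Real.exp h)
      ≤ 640000 * ∫⁻ c in Om n Λ E m, ENNReal.ofReal (2 * W n m c) * ENNReal.ofReal (1 / u n c m) *
        ENNReal.ofReal (4 * (1 + Real.log Λ) / Λ) := by
        gcongr
    _ = 640000 * ∫⁻ c in Om n Λ E m, ENNReal.ofReal (2 * (4 * (1 + Real.log Λ) / Λ)) *
          (ENNReal.ofReal (W n m c) * ENNReal.ofReal (1 / u n c m)) := by
        congr 1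
        apply lintegral_congr
        intro c
        rw [ENNReal.ofReal_mul (by norm_num : (0:ℝ) ≤ 2),
          ENNReal.ofReal_mul (by norm_num : (0:ℝ) ≤ 2)]
        ring
    _ = ENNReal.ofReal (5120000 * (1 + Real.log Λ) / Λ) *
          ∫⁻ c in Om n Λ E m, ENNReal.ofReal (W n m c) * ENNReal.ofReal (1 / u n c m) := by
        rw [lintegral_const_mul' _ _ ENNReal.ofReal_ne_top, ← mul_assoc]
        congr 1
        have : (640000 : ℝ≥0∞) = ENNReal.ofReal 640000 := by norm_num
        rw [this, ← ENNReal.ofReal_mul (by norm_num)]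
        congr 1
        ring

/-- The bad set of level `m + 1`. -/
def NN (n : ℕ) (Λ : ℝ) (E : Set ℂ) (m : ℕ) : Set ℂ :=
  {x | x ∈ Pre n Λ E m ∧ u n x (m + 1) < 2 * Λ ∧ u n x (m + 1) ≤ 4 * n ∧ 1 / 6 < Q n x (m + 2)}

theorem measurableSet_NN (n : ℕ) (Λ : ℝ) (E : Set ℂ) (m : ℕ) : MeasurableSet (NN n Λ E m) :=
  (measurableSet_Pre n Λ E m).inter
    ((measurableSet_lt (continuous_u n (m + 1)).measurable measurable_const).inter
      ((measurableSet_le (continuous_u n (m + 1)).measurable measurable_const).inter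
        (measurableSet_lt measurable_const (continuous_Q n (m + 2)).measurable)))

theorem volume_NN {n : ℕ} (hn : 2 ≤ n) {Λ : ℝ} (hΛ : 32 ≤ Λ) (E : Set ℂ) (m : ℕ) :
    volume (NN n Λ E m) ≤ ENNReal.ofReal (640000 * Real.log (24 * Λ)) * II n Λ E m := by
  have hΛ0 : 0 < Λ := by linarith
  have hΛ1 : 1 ≤ Λ := by linarith
  have hmeas : Measurable ((NN n Λ E m).indicator (1 : ℂ → ℝ≥0∞)) :=
    measurable_one.indicator (measurableSet_NN _ _ _ _)
  have h1 := descend hn hΛ (E := E) (m := m) hmeas (fun x hx => by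
    have : x ∈ NN n Λ E m := by
      by_contra hcon
      exact hx (indicator_of_notMem hcon _)
    exact this.1) (A := fun _ => 1)
    (φ := fun c => φ2 (1 / (12 * Q n c (m + 1))) (min (2 * Λ) (4 * n)))
    (fun _ => measurable_φ2 _ _)
    (fun _ x hx => indicator_of_notMem (fun h => absurd (h.2.trans (min_le_right _ _))
      (not_le.2 hx)) _)
    (fun c hc x hx => by
      by_cases hxN : x ∈ NN n Λ E m
      · rw [indicator_of_mem hxN]
        obtain ⟨hP, h2, h3, h4⟩ := hxN
        have hQc : 0 < Q n c (m + 1) := Q_pos fun j hj => hc.u_pos hΛ0 (by omega)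
        obtain ⟨h5, h6⟩ := Q_ratio hn hΛ hc hx.le (k := m + 1) le_rfl
        have hQx : 0 < Q n x (m + 1) := by linarith
        unfold φ2
        rw [indicator_of_mem, one_mul]
        · exact le_rfl
        · refine ⟨?_, le_min h2.le h3⟩
          rw [div_le_iff₀ (by positivity)]
          rw [Q_succ] at h4
          have h7 := u_nonneg n x (m + 1)
          nlinarith
      · rw [indicator_of_notMem hxN]
        exact bot_le)
  rw [lintegral_indicator_one (measurableSet_NN _ _ _ _)] at h1
  refine h1.trans ?_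
  have h24 : 1 ≤ Real.log (24 * Λ) := by
    rw [Real.le_log_iff_exp_le (by positivity)]
    have := Real.exp_one_lt_d9
    linarith
  calc 640000 * ∫⁻ c in Om n Λ E m, 1 * ENNReal.ofReal (1 / u n c m) *
        ∫⁻ h, φ2 (1 / (12 * Q n c (m + 1))) (min (2 * Λ) (4 * n)) (Real.exp h)
      ≤ 640000 * ∫⁻ c in Om n Λ E m, ENNReal.ofReal (Real.log (24 * Λ)) *
          (ENNReal.ofReal (W n m c) * ENNReal.ofReal (1 / u n c m)) := by
        gcongr 640000 * ?_
        apply setLIntegral_mono' (measurableSet_Om _ _ _ _)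
        intro c hc
        have hG := Good_of_Om hΛ0.le hc
        have hQc : 0 < Q n c (m + 1) := Q_pos fun j hj => hG.u_pos hΛ0 (by omega)
        obtain ⟨h2, h3⟩ := one_add_log_Q_le_W hΛ1 hG
        have h4 := Real.log_nonneg h3
        have hn0 : (0:ℝ) < n := by exact_mod_cast (by omega : 0 < n)
        calc 1 * ENNReal.ofReal (1 / u n c m) *
              ∫⁻ h, φ2 (1 / (12 * Q n c (m + 1))) (min (2 * Λ) (4 * n)) (Real.exp h)
            ≤ 1 * ENNReal.ofReal (1 / u n c m) *
                ENNReal.ofReal (Real.log (24 * Λ) * W n m c) := by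
              gcongr
              refine (lintegral_φ2 (by positivity)).trans (ENNReal.ofReal_le_ofReal ?_)
              have h5 : Real.log (min (2 * Λ) (4 * n)) ≤ Real.log (2 * Λ) :=
                Real.log_le_log (by positivity) (min_le_left _ _)
              rw [one_div, Real.log_inv, Real.log_mul (by norm_num) hQc.ne']
              have h6 : Real.log (24 * Λ) = Real.log (2 * Λ) + Real.log 12 := by
                rw [← Real.log_mul (by positivity) (by norm_num)]; congr 1; ring
              nlinarith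
          _ = _ := by
              rw [ENNReal.ofReal_mul (by linarith)]; ring
    _ = ENNReal.ofReal (640000 * Real.log (24 * Λ)) * II n Λ E m := by
        rw [lintegral_const_mul' _ _ ENNReal.ofReal_ne_top, ← mul_assoc]
        congr 1
        have : (640000 : ℝ≥0∞) = ENNReal.ofReal 640000 := by norm_num
        rw [this, ← ENNReal.ofReal_mul (by norm_num)]

/-- The survivors of level `m + 1`. -/
def SS (n : ℕ) (Λ : ℝ) (E : Set ℂ) (m : ℕ) : Set ℂ :=
  {x | x ∈ Pre n Λ E m ∧ Λ ≤ u n x (m + 1) ∧ u n x (m + 1) ≤ 4 * n}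

theorem measurableSet_SS (n : ℕ) (Λ : ℝ) (E : Set ℂ) (m : ℕ) : MeasurableSet (SS n Λ E m) :=
  (measurableSet_Pre n Λ E m).inter
    ((measurableSet_le measurable_const (continuous_u n (m + 1)).measurable).inter
      (measurableSet_le (continuous_u n (m + 1)).measurable measurable_const))

theorem volume_SS {n : ℕ} (hn : 2 ≤ n) {Λ : ℝ} (hΛ : 32 ≤ Λ) (E : Set ℂ) (m : ℕ) :
    volume (SS n Λ E m) ≤ ENNReal.ofReal (640000 * Real.log (4 * n)) * II n Λ E m := by
  have hΛ0 : 0 < Λ := by linarith
  have hΛ1 : 1 ≤ Λ := by linarith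
  have hn1 : (1:ℝ) ≤ n := by exact_mod_cast (by omega : 1 ≤ n)
  have hmeas : Measurable ((SS n Λ E m).indicator (1 : ℂ → ℝ≥0∞)) :=
    measurable_one.indicator (measurableSet_SS _ _ _ _)
  have h1 := descend hn hΛ (E := E) (m := m) hmeas (fun x hx => by
    have : x ∈ SS n Λ E m := by
      by_contra hcon
      exact hx (indicator_of_notMem hcon _)
    exact this.1) (A := fun _ => 1)
    (φ := fun _ => φ2 1 (4 * n))
    (fun _ => measurable_φ2 _ _)
    (fun _ x hx => indicator_of_notMem (fun h => absurd h.2 (not_le.2 hx)) _)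
    (fun c hc x hx => by
      by_cases hxN : x ∈ SS n Λ E m
      · rw [indicator_of_mem hxN]
        obtain ⟨hP, h2, h3⟩ := hxN
        unfold φ2
        rw [indicator_of_mem (show u n x (m + 1) ∈ Icc 1 (4 * (n:ℝ)) from ⟨by linarith, h3⟩),
          one_mul]
        exact le_rfl
      · rw [indicator_of_notMem hxN]
        exact bot_le)
  rw [lintegral_indicator_one (measurableSet_SS _ _ _ _)] at h1
  refine h1.trans ?_
  calc 640000 * ∫⁻ c in Om n Λ E m, 1 * ENNReal.ofReal (1 / u n c m) *
        ∫⁻ h, φ2 1 (4 * n) (Real.exp h)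
      ≤ 640000 * ∫⁻ c in Om n Λ E m, ENNReal.ofReal (Real.log (4 * n)) *
          (ENNReal.ofReal (W n m c) * ENNReal.ofReal (1 / u n c m)) := by
        gcongr 640000 * ?_
        apply setLIntegral_mono' (measurableSet_Om _ _ _ _)
        intro c hc
        have hG := Good_of_Om hΛ0.le hc
        obtain ⟨h2, h3⟩ := one_add_log_Q_le_W hΛ1 hG
        have h4 := Real.log_nonneg h3
        calc 1 * ENNReal.ofReal (1 / u n c m) * ∫⁻ h, φ2 1 (4 * n) (Real.exp h)
            ≤ ENNReal.ofReal (W n m c) * ENNReal.ofReal (1 / u n c m) *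
                ENNReal.ofReal (Real.log (4 * n)) := by
              gcongr
              · rw [← ENNReal.ofReal_one]
                exact ENNReal.ofReal_le_ofReal (by linarith)
              · refine (lintegral_φ2 (by norm_num)).trans (ENNReal.ofReal_le_ofReal ?_)
                rw [Real.log_one, sub_zero]
          _ = _ := by ring
    _ = ENNReal.ofReal (640000 * Real.log (4 * n)) * II n Λ E m := by
        rw [lintegral_const_mul' _ _ ENNReal.ofReal_ne_top, ← mul_assoc]
        congr 1
        have : (640000 : ℝ≥0∞) = ENNReal.ofReal 640000 := by norm_num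
        rw [this, ← ENNReal.ofReal_mul (by norm_num)]

end Pool.Agent.H205.AR
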