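import Pool.Agent.H205.AR5

/-!
# Area of the non-hyperbolic parameters of `z ^ n + c`: the main inequality
-/

set_option autoImplicit false
open Complex Metric Set Filter Topology MeasureTheory
open scoped ENNReal Real

namespace Pool.Agent.H205.AR

/-- The bad set. -/
def Bad (n : ℕ) (Λ : ℝ) (E : Set ℂ) : Set ℂ :=
  {c | c ∈ E ∧ 2 * Λ ≤ u n c 0 ∧ (∀ j, u n c j ≤ 2 * n) ∧
    ∀ k, (∀ j < k, Λ ≤ u n c j) → 1 / 6 < Q n c (k + 1)}

theorem mem_Pre {n : ℕ} (hn : 2 ≤ n) {Λ : ℝ} (hΛ : 0 < Λ) {E : Set ℂ} {c : ℂ} (hc : c ∈ E)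
    (h2 : ∀ j, u n c j ≤ 2 * n) {m : ℕ} (hm : ∀ j ≤ m, 2 * Λ ≤ u n c j) : c ∈ Pre n Λ E m := by
  have hn0 : (0:ℝ) < n := by exact_mod_cast (by omega : 0 < n)
  refine ⟨self_subset_thickening (by positivity) E hc, fun j hj => ?_⟩
  have hp : 0 < ((1:ℝ) / 2) ^ (m + 1 - j) := by positivity
  constructor
  · have := hm j hj
    nlinarith
  · have := h2 j
    nlinarith

theorem Bad_subset {n : ℕ} (hn : 2 ≤ n) {Λ : ℝ} (hΛ : 32 ≤ Λ) (E : Set ℂ) :
    Bad n Λ E ⊆ (⋃ m, NN n Λ E m) ∪ ⋂ m, SS n Λ E m := by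
  classical
  have hΛ0 : 0 < Λ := by linarith
  have hn0 : (0:ℝ) < n := by exact_mod_cast (by omega : 0 < n)
  rintro c ⟨hcE, h0, h2, hQ⟩
  by_cases hall : ∀ j, 2 * Λ ≤ u n c j
  · right
    rw [mem_iInter]
    intro m
    have h3 := h2 (m + 1)
    refine ⟨mem_Pre hn hΛ0 hcE h2 fun j _ => hall j, ?_, by linarith⟩
    have := hall (m + 1)
    linarith
  · left
    push Not at hall
    have hk := Nat.find_spec hall
    have hmin : ∀ j < Nat.find hall, 2 * Λ ≤ u n c j := fun j hj => by
      have := Nat.find_min hall hj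
      push Not at this
      exact this
    set k := Nat.find hall with hkdef
    have hk0 : k ≠ 0 := by
      intro h
      rw [h] at hk
      linarith
    obtain ⟨m, hm⟩ : ∃ m, k = m + 1 := ⟨k - 1, by omega⟩
    rw [mem_iUnion]
    refine ⟨m, mem_Pre hn hΛ0 hcE h2 fun j hj => hmin j (by omega), ?_, ?_, ?_⟩
    · rw [← hm]; exact hk
    · have := h2 (m + 1); linarith
    · apply hQ
      intro j hj
      have := hmin j (by omega)
      linarith

theorem II_zero_lt_top {n : ℕ} (hn : 2 ≤ n) {Λ : ℝ} (hΛ : 32 ≤ Λ) (E : Set ℂ) :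
    II n Λ E 0 < ⊤ := by
  have hΛ0 : 0 < Λ := by linarith
  have hsub : Om n Λ E 0 ⊆ closedBall 0 4 := by
    intro c hc
    have h1 := pow_le_four hn (Good_of_Om hΛ0.le hc 0 le_rfl).2
    rw [v_zero] at h1
    rw [mem_closedBall, dist_zero_right]
    by_contra hcon
    push Not at hcon
    have h2 : (4:ℝ) ^ (n - 1) < ‖c‖ ^ (n - 1) :=
      pow_lt_pow_left₀ hcon (by norm_num) (by omega)
    have h3 : (4:ℝ) ^ 1 ≤ 4 ^ (n - 1) := pow_le_pow_right₀ (by norm_num) (by omega)
    linarith
  calc II n Λ E 0 ≤ ∫⁻ c in Om n Λ E 0, 1 := by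
        unfold II
        apply setLIntegral_mono' (measurableSet_Om _ _ _ _)
        intro c hc
        have h1 := (Good_of_Om hΛ0.le hc 0 le_rfl).1
        have h2 : 0 < u n c 0 := by linarith
        rw [← ENNReal.ofReal_mul' (by positivity), ← ENNReal.ofReal_one]
        apply ENNReal.ofReal_le_ofReal
        unfold W
        rw [zero_add, Finset.range_one, Finset.prod_singleton, mul_one_div, div_le_one h2]
        have := Real.log_le_sub_one_of_pos h2
        linarith
    _ = volume (Om n Λ E 0) := by simp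
    _ ≤ volume (closedBall (0:ℂ) 4) := measure_mono hsub
    _ < ⊤ := measure_closedBall_lt_top

theorem II_le {n : ℕ} (hn : 2 ≤ n) {Λ : ℝ} (hΛ : 32 ≤ Λ)
    (hq : 5120000 * (1 + Real.log Λ) / Λ ≤ 1 / 2) (E : Set ℂ) (m : ℕ) :
    II n Λ E m ≤ 2⁻¹ ^ m * II n Λ E 0 := by
  induction m with
  | zero => simp
  | succ m ih =>
    calc II n Λ E (m + 1) ≤ ENNReal.ofReal (5120000 * (1 + Real.log Λ) / Λ) * II n Λ E m :=
          II_succ hn hΛ E m
      _ ≤ 2⁻¹ * (2⁻¹ ^ m * II n Λ E 0) := by
          gcongr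
          have : (2⁻¹ : ℝ≥0∞) = ENNReal.ofReal (1 / 2) := by
            rw [one_div, ENNReal.ofReal_inv_of_pos (by norm_num)]
            norm_num
          rw [this]
          exact ENNReal.ofReal_le_ofReal hq
      _ = _ := by rw [pow_succ]; ring

theorem volume_Bad {n : ℕ} (hn : 2 ≤ n) {Λ : ℝ} (hΛ : 32 ≤ Λ)
    (hq : 5120000 * (1 + Real.log Λ) / Λ ≤ 1 / 2) (E : Set ℂ) :
    volume (Bad n Λ E) ≤ ENNReal.ofReal (1280000 * Real.log (24 * Λ)) * II n Λ E 0 := by
  have hI := II_zero_lt_top hn hΛ E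
  have hS : volume (⋂ m, SS n Λ E m) = 0 := by
    have h1 : ∀ m, volume (⋂ m, SS n Λ E m) ≤
        2⁻¹ ^ m * (ENNReal.ofReal (640000 * Real.log (4 * n)) * II n Λ E 0) := by
      intro m
      calc volume (⋂ m, SS n Λ E m) ≤ volume (SS n Λ E m) := measure_mono (iInter_subset _ m)
        _ ≤ ENNReal.ofReal (640000 * Real.log (4 * n)) * II n Λ E m := volume_SS hn hΛ E m
        _ ≤ ENNReal.ofReal (640000 * Real.log (4 * n)) * (2⁻¹ ^ m * II n Λ E 0) := by
            gcongr
            exact II_le hn hΛ hq E m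
        _ = _ := by ring
    have h2 : Tendsto (fun m : ℕ => (2⁻¹ : ℝ≥0∞) ^ m *
        (ENNReal.ofReal (640000 * Real.log (4 * n)) * II n Λ E 0)) atTop (𝓝 0) := by
      have h3 := ENNReal.tendsto_pow_atTop_nhds_zero_of_lt_one (r := 2⁻¹) (by norm_num)
      have h4 := ENNReal.Tendsto.mul_const (b := ENNReal.ofReal (640000 * Real.log (4 * n)) *
        II n Λ E 0) h3 (Or.inr (ENNReal.mul_ne_top ENNReal.ofReal_ne_top hI.ne))
      rwa [zero_mul] at h4
    exact le_antisymm (ge_of_tendsto' h2 h1) bot_le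
  calc volume (Bad n Λ E) ≤ volume ((⋃ m, NN n Λ E m) ∪ ⋂ m, SS n Λ E m) :=
        measure_mono (Bad_subset hn hΛ E)
    _ ≤ volume (⋃ m, NN n Λ E m) + volume (⋂ m, SS n Λ E m) := measure_union_le _ _
    _ = volume (⋃ m, NN n Λ E m) := by rw [hS, add_zero]
    _ ≤ ∑' m, volume (NN n Λ E m) := measure_iUnion_le _
    _ ≤ ∑' m : ℕ, 2⁻¹ ^ m * (ENNReal.ofReal (640000 * Real.log (24 * Λ)) * II n Λ E 0) := by
        apply ENNReal.tsum_le_tsum
        intro m
        calc volume (NN n Λ E m) ≤ ENNReal.ofReal (640000 * Real.log (24 * Λ)) * II n Λ E m :=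
              volume_NN hn hΛ E m
          _ ≤ ENNReal.ofReal (640000 * Real.log (24 * Λ)) * (2⁻¹ ^ m * II n Λ E 0) := by
              gcongr
              exact II_le hn hΛ hq E m
          _ = _ := by ring
    _ = 2 * (ENNReal.ofReal (640000 * Real.log (24 * Λ)) * II n Λ E 0) := by
        rw [ENNReal.tsum_mul_right, ENNReal.tsum_geometric]
        congr 1
        rw [ENNReal.one_sub_inv_two, inv_inv]
    _ = _ := by
        rw [← mul_assoc]
        congr 1
        have : (2 : ℝ≥0∞) = ENNReal.ofReal 2 := by norm_num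
        rw [this, ← ENNReal.ofReal_mul (by norm_num)]
        congr 1
        ring

/-! ### The main inequality -/

open N62a1eb23

/-- The parameters with an attracting cycle. -/
def hyp (n : ℕ) : Set ℂ := {c | ∃ m z, IsAttractingCycle (fun z => z ^ n + c) m z}

/-- The weight of the main inequality. -/
noncomputable def om (t : ℝ) : ℝ := (1 + Real.log (max 1 t)) / max 1 t

theorem om_nonneg (t : ℝ) : 0 ≤ om t := by
  unfold om
  have h : 1 ≤ max 1 t := le_max_left _ _
  have := Real.log_nonneg h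
  positivity

theorem measurable_om : Measurable om := by
  unfold om
  fun_prop

theorem v_eq {n : ℕ} (hn : 2 ≤ n) (c : ℂ) (j : ℕ) :
    v n c j = (Pool.Agent.H712R2.P n (j + 1) c) := by
  induction j with
  | zero => rw [zero_add, Pool.Agent.H712R2.P_one hn]; rfl
  | succ j ih => rw [Pool.Agent.H712R2.P_succ, ← ih]; rfl

theorem u_le_of_mem {n : ℕ} (hn : 2 ≤ n) {c : ℂ} (hc : c ∈ multibrotSet n) (j : ℕ) :
    u n c j ≤ 2 * n := by
  have h := Pool.Agent.H462R2.CD.pow_le_two hn hc (j + 1)
  rw [← v_eq hn] at h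
  unfold u
  have hn0 : (0:ℝ) ≤ n := by positivity
  nlinarith

/-- The constant `Λ`. -/
noncomputable def Lam : ℝ := 2 ^ 30

theorem Lam_ge : 32 ≤ Lam := by unfold Lam; norm_num

theorem Lam_q : 5120000 * (1 + Real.log Lam) / Lam ≤ 1 / 2 := by
  unfold Lam
  rw [Real.log_pow]
  have := Real.log_two_lt_d9
  rw [div_le_iff₀ (by positivity)]
  push_cast
  norm_num
  linarith

/-- The region of integration. -/
def Reg (n : ℕ) (E : Set ℂ) : Set ℂ :=
  {c | c ∈ thickening (1 / (16 * n)) E ∧ 1 / 6 ≤ u n c 0 ∧ u n c 0 ≤ 4 * n}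

theorem measurableSet_Reg (n : ℕ) (E : Set ℂ) : MeasurableSet (Reg n E) :=
  isOpen_thickening.measurableSet.inter
    ((measurableSet_le measurable_const (continuous_u n 0).measurable).inter
      (measurableSet_le (continuous_u n 0).measurable measurable_const))

theorem main_ineq : ∃ C : ℝ, 0 < C ∧ ∀ n : ℕ, 2 ≤ n → ∀ E : Set ℂ,
    volume ((multibrotSet n \ hyp n) ∩ E) ≤
      ENNReal.ofReal C * ∫⁻ c in Reg n E, ENNReal.ofReal (om (u n c 0)) := by
  have hΛ := Lam_ge
  have hΛ0 : 0 < Lam := by linarith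
  have hlog : 0 < Real.log (24 * Lam) := Real.log_pos (by linarith)
  refine ⟨2 * Lam + 1280000 * Real.log (24 * Lam), by positivity, ?_⟩
  intro n hn E
  have hn0 : (0:ℝ) < n := by exact_mod_cast (by omega : 0 < n)
  have hnot : ∀ c ∈ multibrotSet n \ hyp n, ∀ k, (∀ j < k, Lam ≤ u n c j) →
      1 / 6 < Q n c (k + 1) := by
    intro c hc k hk
    by_contra hcon
    push Not at hcon
    obtain ⟨z, hz⟩ := criterion hn hΛ hk hcon
    exact hc.2 ⟨k + 1, z, hz⟩
  set A : Set ℂ := {c | c ∈ Reg n E ∧ u n c 0 ≤ 2 * Lam} with hA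
  have hAm : MeasurableSet A := (measurableSet_Reg n E).inter
    (measurableSet_le (continuous_u n 0).measurable measurable_const)
  have hsub : (multibrotSet n \ hyp n) ∩ E ⊆ A ∪ Bad n Lam E := by
    rintro c ⟨hc, hcE⟩
    have h2 := u_le_of_mem hn hc.1
    rcases le_or_gt (2 * Lam) (u n c 0) with h | h
    · right
      exact ⟨hcE, h, h2, hnot c hc⟩
    · left
      have h3 := hnot c hc 0 (by intro j hj; omega)
      rw [Q_succ, Q_zero, one_mul] at h3
      refine ⟨⟨self_subset_thickening (by positivity) E hcE, h3.le, ?_⟩, h.le⟩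
      have := h2 0
      linarith
  have h1 : volume A ≤ ENNReal.ofReal (2 * Lam) * ∫⁻ c in Reg n E, ENNReal.ofReal (om (u n c 0)) := by
    calc volume A = ∫⁻ c in A, 1 := by simp
      _ ≤ ∫⁻ c in A, ENNReal.ofReal (2 * Lam) * ENNReal.ofReal (om (u n c 0)) := by
          apply setLIntegral_mono' hAm
          intro c hc
          rw [← ENNReal.ofReal_mul (by positivity), ← ENNReal.ofReal_one]
          apply ENNReal.ofReal_le_ofReal
          unfold om
          have h3 : max 1 (u n c 0) ≤ 2 * Lam := max_le (by linarith) hc.2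
          have h4 : 1 ≤ max 1 (u n c 0) := le_max_left _ _
          have h5 := Real.log_nonneg h4
          rw [← mul_div_assoc, le_div_iff₀ (by linarith)]
          nlinarith
      _ = ENNReal.ofReal (2 * Lam) * ∫⁻ c in A, ENNReal.ofReal (om (u n c 0)) :=
          lintegral_const_mul' _ _ ENNReal.ofReal_ne_top
      _ ≤ _ := by
          gcongr
          exact fun c hc => hc.1
  have h2 : II n Lam E 0 ≤ ∫⁻ c in Reg n E, ENNReal.ofReal (om (u n c 0)) := by
    have hOm : Om n Lam E 0 ⊆ Reg n E := by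
      intro c hc
      have hG := Good_of_Om hΛ0.le hc 0 le_rfl
      refine ⟨?_, by linarith [hG.1], hG.2⟩
      have := hc.1
      rwa [pow_zero] at this
    calc II n Lam E 0 ≤ ∫⁻ c in Om n Lam E 0, ENNReal.ofReal (om (u n c 0)) := by
          unfold II
          apply setLIntegral_mono' (measurableSet_Om _ _ _ _)
          intro c hc
          have hG := Good_of_Om hΛ0.le hc 0 le_rfl
          have h3 : 1 ≤ u n c 0 := by linarith [hG.1]
          rw [← ENNReal.ofReal_mul' (by positivity)]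
          apply ENNReal.ofReal_le_ofReal
          unfold W om
          rw [max_eq_right h3, zero_add, Finset.range_one, Finset.prod_singleton, mul_one_div]
      _ ≤ _ := lintegral_mono_set hOm
  calc volume ((multibrotSet n \ hyp n) ∩ E) ≤ volume (A ∪ Bad n Lam E) := measure_mono hsub
    _ ≤ volume A + volume (Bad n Lam E) := measure_union_le _ _
    _ ≤ ENNReal.ofReal (2 * Lam) * (∫⁻ c in Reg n E, ENNReal.ofReal (om (u n c 0))) +
          ENNReal.ofReal (1280000 * Real.log (24 * Lam)) *
            (∫⁻ c in Reg n E, ENNReal.ofReal (om (u n c 0))) := by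
        gcongr
        exact (volume_Bad hn hΛ Lam_q E).trans (by gcongr)
    _ = _ := by
        rw [← add_mul, ← ENNReal.ofReal_add (by positivity) (by positivity)]

/-! ### Integrals over discs -/

theorem log_six : Real.log 6 ≤ 2 := by
  rw [Real.log_le_iff_le_exp (by norm_num)]
  have h1 : (2.7 : ℝ) ≤ Real.exp 1 := by have := Real.exp_one_gt_d9; linarith
  have h2 : Real.exp 2 = Real.exp 1 * Real.exp 1 := by rw [← Real.exp_add]; norm_num
  rw [h2]
  nlinarith

theorem lintegral_om_exp {t : ℝ} (ht : 1 / 6 ≤ t) (b : ℝ) :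
    ∫⁻ h, (Icc t b).indicator (fun t => ENNReal.ofReal (om t)) (Real.exp h) ≤
      ENNReal.ofReal (6 * om t) := by
  have ht0 : 0 < t := by linarith
  rcases le_or_gt 1 t with h1 | h1
  · have h2 := lintegral_φ1 (b := b) h1
    have h3 : ∀ h : ℝ, (Icc t b).indicator (fun t => ENNReal.ofReal (om t)) (Real.exp h) =
        φ1 t b (Real.exp h) := by
      intro h
      unfold φ1
      by_cases hh : Real.exp h ∈ Icc t b
      · rw [indicator_of_mem hh, indicator_of_mem hh]
        unfold om
        rw [max_eq_right (h1.trans hh.1)]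
      · rw [indicator_of_notMem hh, indicator_of_notMem hh]
    rw [lintegral_congr h3]
    refine h2.trans (ENNReal.ofReal_le_ofReal ?_)
    unfold om
    rw [max_eq_right h1, mul_div_assoc]
    have h4 := Real.log_nonneg h1
    gcongr
    norm_num
  · have h2 := lintegral_φ1 (a := 1) (b := b) le_rfl
    have h3 := lintegral_φ2 (a := t) (b := 1) ht0
    calc ∫⁻ h, (Icc t b).indicator (fun t => ENNReal.ofReal (om t)) (Real.exp h)
        ≤ ∫⁻ h, (φ2 t 1 (Real.exp h) + φ1 1 b (Real.exp h)) := by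
          apply lintegral_mono
          intro h
          beta_reduce
          by_cases hh : Real.exp h ∈ Icc t b
          · rw [indicator_of_mem hh]
            rcases le_or_gt 1 (Real.exp h) with h4 | h4
            · refine le_trans ?_ le_add_self
              unfold φ1 om
              rw [indicator_of_mem (show Real.exp h ∈ Icc 1 b from ⟨h4, hh.2⟩), max_eq_right h4]
            · refine le_trans ?_ le_self_add
              unfold φ2 om
              rw [indicator_of_mem (show Real.exp h ∈ Icc t 1 from ⟨hh.1, h4.le⟩),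
                max_eq_left h4.le]
              simp
          · rw [indicator_of_notMem hh]
            exact bot_le
      _ = (∫⁻ h, φ2 t 1 (Real.exp h)) + ∫⁻ h, φ1 1 b (Real.exp h) :=
          lintegral_add_left ((measurable_φ2 t 1).comp Real.measurable_exp) _
      _ ≤ ENNReal.ofReal (Real.log 1 - Real.log t) + ENNReal.ofReal (4 * (1 + Real.log 1) / 1) :=
          add_le_add h3 h2
      _ ≤ ENNReal.ofReal (6 * om t) := by
          have h5 : Real.log t ≤ 0 := Real.log_nonpos ht0.le h1.le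
          rw [← ENNReal.ofReal_add (by rw [Real.log_one]; linarith)
            (by rw [Real.log_one]; norm_num)]
          apply ENNReal.ofReal_le_ofReal
          unfold om
          rw [max_eq_left h1.le, Real.log_one]
          have h6 : Real.log (1 / 6) ≤ Real.log t := Real.log_le_log (by norm_num) ht
          rw [one_div, Real.log_inv] at h6
          have := log_six
          linarith

theorem lintegral_ball_le {n : ℕ} (hn : 2 ≤ n) {S : Set ℂ} {c₀ : ℂ} {R t : ℝ}
    (hR : 0 ≤ R) (ht : 1 / 6 ≤ t)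
    (hS2 : ∀ c ∈ S, c ∈ closedBall c₀ R ∧ t ≤ u n c 0 ∧ u n c 0 ≤ 4 * n) :
    ∫⁻ c in S, ENNReal.ofReal (om (u n c 0)) ≤ ENNReal.ofReal (768 * R * om t / n) := by
  have hn0 : (0:ℝ) < n := by exact_mod_cast (by omega : 0 < n)
  have hn1 : (0:ℝ) < ((n - 1 : ℕ) : ℝ) := by exact_mod_cast (by omega : 0 < n - 1)
  have hm : Measurable ((Icc t (4 * (n:ℝ))).indicator (fun t => ENNReal.ofReal (om t))) :=
    Measurable.indicator (ENNReal.measurable_ofReal.comp measurable_om) measurableSet_Icc
  have h1 := lintegral_disc_le hn hm (rm := 4) (fun r hr hr4 => by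
    apply indicator_of_notMem
    intro hmem
    have h2 : (4:ℝ) < r ^ (n - 1) := by
      calc (4:ℝ) < r := hr4
        _ = r ^ 1 := (pow_one r).symm
        _ ≤ r ^ (n - 1) := pow_le_pow_right₀ (by linarith) (by omega)
    have h3 := hmem.2
    nlinarith) c₀ hR
  calc ∫⁻ c in S, ENNReal.ofReal (om (u n c 0))
      ≤ ∫⁻ c in closedBall c₀ R, (Icc t (4 * (n:ℝ))).indicator
          (fun t => ENNReal.ofReal (om t)) (n * ‖c‖ ^ (n - 1)) := by
        have hset : MeasurableSet {c : ℂ | c ∈ closedBall c₀ R ∧ t ≤ u n c 0 ∧ u n c 0 ≤ 4 * n} :=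
          measurableSet_closedBall.inter
            ((measurableSet_le measurable_const (continuous_u n 0).measurable).inter
              (measurableSet_le (continuous_u n 0).measurable measurable_const))
        calc ∫⁻ c in S, ENNReal.ofReal (om (u n c 0))
            ≤ ∫⁻ c in {c : ℂ | c ∈ closedBall c₀ R ∧ t ≤ u n c 0 ∧ u n c 0 ≤ 4 * n},
                ENNReal.ofReal (om (u n c 0)) := lintegral_mono_set hS2
          _ ≤ ∫⁻ c in {c : ℂ | c ∈ closedBall c₀ R ∧ t ≤ u n c 0 ∧ u n c 0 ≤ 4 * n},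
                (Icc t (4 * (n:ℝ))).indicator (fun t => ENNReal.ofReal (om t))
                  (n * ‖c‖ ^ (n - 1)) := by
              apply setLIntegral_mono' hset
              intro c hc
              rw [indicator_of_mem (show n * ‖c‖ ^ (n - 1) ∈ Icc t (4 * (n:ℝ)) from hc.2)]
              exact le_rfl
          _ ≤ _ := lintegral_mono_set fun c hc => hc.1
    _ ≤ ENNReal.ofReal (16 * R * (4 / (n - 1 : ℕ))) * ENNReal.ofReal (6 * om t) := by
        refine h1.trans ?_
        gcongr
        exact lintegral_om_exp ht _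
    _ ≤ ENNReal.ofReal (768 * R * om t / n) := by
        rw [← ENNReal.ofReal_mul (by positivity)]
        apply ENNReal.ofReal_le_ofReal
        have h2 : (4:ℝ) / (n - 1 : ℕ) ≤ 8 / n := by
          rw [div_le_div_iff₀ hn1 hn0, Nat.cast_sub (by omega)]
          have : (2:ℝ) ≤ n := by exact_mod_cast hn
          push_cast
          linarith
        have h3 := om_nonneg t
        calc 16 * R * (4 / (n - 1 : ℕ)) * (6 * om t) ≤ 16 * R * (8 / n) * (6 * om t) := by gcongr
          _ = 768 * R * om t / n := by ring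

theorem om_scale {X θ : ℝ} (hX : 1 ≤ X) (hθ : 0 < θ) (hθ1 : θ ≤ 1) :
    om (θ * X) ≤ 1 / θ * ((1 + Real.log X) / X) := by
  have hX0 : 0 < X := by linarith
  have hl := Real.log_nonneg hX
  unfold om
  rcases le_or_gt 1 (θ * X) with h | h
  · rw [max_eq_right h]
    have h1 : Real.log (θ * X) ≤ Real.log X := Real.log_le_log (by positivity) (by nlinarith)
    calc (1 + Real.log (θ * X)) / (θ * X) ≤ (1 + Real.log X) / (θ * X) := by gcongr
      _ = _ := by field_simp
  · rw [max_eq_left h.le, Real.log_one]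
    rw [div_mul_div_comm, le_div_iff₀ (by positivity)]
    nlinarith

end Pool.Agent.H205.AR
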