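import Mathlib

/-!
# A lower bound for the Hausdorff dimension of the limit set of a tree of balls
-/

set_option autoImplicit false
open Metric Set Filter Topology MeasureTheory
open scoped ENNReal NNReal

namespace Pool.Agent.H205.DL

section tree

variable {X σ : Type*} [MetricSpace X] [CompleteSpace X] {V : σ → Prop} {Fam : σ → Set σ}
  {ctr : σ → X} {rad left len : σ → ℝ} {s K : ℝ}

open Classical in
/-- The next state for the label `t`. -/
noncomputable def nxt (Fam : σ → Set σ) (left len : σ → ℝ) (t : ℝ) (S : σ) : σ :=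
  if h : ∃ S' ∈ Fam S, t ∈ Ico (left S') (left S' + len S') then h.choose else S

/-- The states for the label `t`. -/
noncomputable def seqS (Fam : σ → Set σ) (left len : σ → ℝ) (S₀ : σ) (t : ℝ) : ℕ → σ
  | 0 => S₀
  | k + 1 => nxt Fam left len t (seqS Fam left len S₀ t k)

theorem dimH_tree (hs : 0 < s) (hK : 0 ≤ K)
    (hrad : ∀ S, V S → 0 ≤ rad S)
    (hV : ∀ S, V S → ∀ S' ∈ Fam S, V S' ∧ closedBall (ctr S') (rad S') ⊆
      closedBall (ctr S) (rad S) ∧ rad S' ≤ rad S / 2)
    (hsep : ∀ S, V S → ∀ S' ∈ Fam S, ∀ S'' ∈ Fam S, S' ≠ S'' → ∀ x ∈ closedBall (ctr S') (rad S'),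
      ∀ y ∈ closedBall (ctr S'') (rad S''), len S ≤ K * dist x y ^ s)
    (hcov : ∀ S, V S → ∀ t ∈ Ico (left S) (left S + len S),
      ∃ S' ∈ Fam S, t ∈ Ico (left S') (left S' + len S'))
    (hlen : ∀ S, V S → len S ≤ K * rad S ^ s) {S₀ : σ} (h0 : V S₀) (hlen0 : 0 < len S₀) :
    ENNReal.ofReal s ≤ dimH {x | ∃ S : ℕ → σ, S 0 = S₀ ∧ (∀ k, S (k + 1) ∈ Fam (S k)) ∧
      ∀ k, x ∈ closedBall (ctr (S k)) (rad (S k))} := by
  set I := Ico (left S₀) (left S₀ + len S₀) with hI
  set T := seqS Fam left len S₀ with hT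
  have hinv : ∀ t ∈ I, ∀ k, V (T t k) ∧ t ∈ Ico (left (T t k)) (left (T t k) + len (T t k)) ∧
      T t (k + 1) ∈ Fam (T t k) := by
    intro t ht
    have step : ∀ k, V (T t k) → t ∈ Ico (left (T t k)) (left (T t k) + len (T t k)) →
        T t (k + 1) ∈ Fam (T t k) ∧
        t ∈ Ico (left (T t (k + 1))) (left (T t (k + 1)) + len (T t (k + 1))) := by
      intro k h1 h2
      have h3 := hcov _ h1 t h2
      have h4 : T t (k + 1) = h3.choose := by
        show nxt Fam left len t (T t k) = _
        unfold nxt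
        rw [dif_pos h3]
      rw [h4]
      exact h3.choose_spec
    intro k
    have h5 : V (T t k) ∧ t ∈ Ico (left (T t k)) (left (T t k) + len (T t k)) := by
      induction k with
      | zero => exact ⟨h0, ht⟩
      | succ k ih =>
        have h6 := step k ih.1 ih.2
        exact ⟨(hV _ ih.1 _ h6.1).1, h6.2⟩
    exact ⟨h5.1, h5.2, (step k h5.1 h5.2).1⟩
  have hradk : ∀ t ∈ I, ∀ k, rad (T t k) ≤ rad S₀ / 2 ^ k := by
    intro t ht k
    induction k with
    | zero => simp [hT, seqS]
    | succ k ih =>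
      have h1 := (hV _ (hinv t ht k).1 _ (hinv t ht k).2.2).2.2
      rw [pow_succ]
      calc rad (T t (k + 1)) ≤ rad (T t k) / 2 := h1
        _ ≤ (rad S₀ / 2 ^ k) / 2 := by linarith
        _ = _ := by rw [div_div]
  have hnest : ∀ t ∈ I, ∀ k i, closedBall (ctr (T t (k + i))) (rad (T t (k + i))) ⊆
      closedBall (ctr (T t k)) (rad (T t k)) := by
    intro t ht k i
    induction i with
    | zero => exact subset_refl _
    | succ i ih => exact ((hV _ (hinv t ht (k + i)).1 _ (hinv t ht (k + i)).2.2).2.1).trans ih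
  have hex : ∀ t, ∃ x : X, t ∈ I → ∀ k, x ∈ closedBall (ctr (T t k)) (rad (T t k)) := by
    intro t
    by_cases ht : t ∈ I
    · have hc : ∀ k, dist (ctr (T t k)) (ctr (T t (k + 1))) ≤ 2 * rad S₀ / 2 / 2 ^ k := by
        intro k
        have h1 := hnest t ht k 1 (mem_closedBall_self (hrad _ (hinv t ht (k + 1)).1))
        rw [mem_closedBall, dist_comm] at h1
        refine h1.trans ((hradk t ht k).trans (le_of_eq ?_))
        ring
      have hcs := cauchySeq_of_le_geometric_two hc
      obtain ⟨x, hx⟩ := cauchySeq_tendsto_of_complete hcs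
      refine ⟨x, fun _ k => ?_⟩
      refine isClosed_closedBall.mem_of_tendsto hx ?_
      filter_upwards [eventually_ge_atTop k] with i hi
      obtain ⟨i, rfl⟩ := Nat.exists_eq_add_of_le hi
      exact hnest t ht k i (mem_closedBall_self (hrad _ (hinv t ht (k + i)).1))
    · exact ⟨ctr S₀, fun h => absurd h ht⟩
  choose x hx using hex
  have hrad0 := hrad _ h0
  have hmain : ∀ t ∈ I, ∀ t' ∈ I, |t - t'| ≤ K * dist (x t) (x t') ^ s := by
    intro t ht t' ht'
    by_cases hall : ∀ k, T t k = T t' k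
    · have h1 : ∀ k : ℕ, |t - t'| ≤ K * (rad S₀ / 2 ^ k) ^ s := by
        intro k
        have h2 := (hinv t ht k).2.1
        have h3 := (hinv t' ht' k).2.1
        rw [← hall k] at h3
        have h4 : |t - t'| ≤ len (T t k) := by
          rw [abs_le]
          constructor <;> linarith [h2.1, h2.2, h3.1, h3.2]
        refine h4.trans ((hlen _ (hinv t ht k).1).trans ?_)
        have := hrad _ (hinv t ht k).1
        have := hradk t ht k
        gcongr
      have h5 : Tendsto (fun k : ℕ => K * (rad S₀ / 2 ^ k) ^ s) atTop (𝓝 0) := by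
        have h6 : Tendsto (fun k : ℕ => rad S₀ / 2 ^ k) atTop (𝓝 0) :=
          tendsto_const_nhds.div_atTop (tendsto_pow_atTop_atTop_of_one_lt (by norm_num))
        have h7 := (h6.rpow_const (Or.inr hs.le)).const_mul K
        rwa [Real.zero_rpow hs.ne', mul_zero] at h7
      have h8 : |t - t'| ≤ 0 := ge_of_tendsto' h5 h1
      have h9 : 0 ≤ K * dist (x t) (x t') ^ s := by positivity
      linarith
    · push Not at hall
      classical
      have hk := Nat.find_spec hall
      set k := Nat.find hall with hkdef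
      have hk0 : k ≠ 0 := by
        intro h
        rw [h] at hk
        exact hk rfl
      obtain ⟨i, hi⟩ := Nat.exists_eq_succ_of_ne_zero hk0
      have hprev : T t i = T t' i := by
        by_contra hcon
        have := Nat.find_min' hall hcon
        omega
      rw [hi] at hk
      have h1 := (hinv t ht i)
      have h2 := (hinv t' ht' i)
      have h3 : |t - t'| ≤ len (T t i) := by
        have h4 := h1.2.1
        have h5 := h2.2.1
        rw [← hprev] at h5
        rw [abs_le]
        constructor <;> linarith [h4.1, h4.2, h5.1, h5.2]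
      refine h3.trans (hsep _ h1.1 _ h1.2.2 (T t' (i + 1)) (by rw [hprev]; exact h2.2.2) hk _
        (hx t ht (i + 1)) _ (hx t' ht' (i + 1)))
  have hinj : ∀ t ∈ I, ∀ t' ∈ I, x t = x t' → t = t' := by
    intro t ht t' ht' h
    have h1 := hmain t ht t' ht'
    rw [h, dist_self, Real.zero_rpow hs.ne', mul_zero] at h1
    have := abs_nonneg (t - t')
    have h2 : |t - t'| = 0 := by linarith
    rw [abs_eq_zero] at h2
    linarith
  have hne : Nonempty ℝ := ⟨0⟩
  set g := Function.invFunOn x I with hg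
  have hgx : ∀ t ∈ I, g (x t) = t := by
    intro t ht
    have h1 : ∃ a ∈ I, x a = x t := ⟨t, ht, rfl⟩
    exact hinj _ (Function.invFunOn_mem h1) t ht (Function.invFunOn_eq h1)
  have hHol : HolderOnWith (Real.toNNReal K) (Real.toNNReal s) g (x '' I) := by
    rintro _ ⟨t, ht, rfl⟩ _ ⟨t', ht', rfl⟩
    rw [hgx t ht, hgx t' ht', edist_dist, edist_dist, Real.dist_eq,
      Real.coe_toNNReal s hs.le, ENNReal.ofReal_rpow_of_nonneg dist_nonneg hs.le]
    have : ((Real.toNNReal K : ℝ≥0) : ℝ≥0∞) = ENNReal.ofReal K := rfl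
    rw [this, ← ENNReal.ofReal_mul hK]
    exact ENNReal.ofReal_le_ofReal (hmain t ht t' ht')
  have hdim := hHol.dimH_image_le (Real.toNNReal_pos.2 hs)
  have himg : g '' (x '' I) = I := by
    rw [image_image]
    ext t
    constructor
    · rintro ⟨a, ha, rfl⟩
      show g (x a) ∈ I
      rw [hgx a ha]
      exact ha
    · intro ht
      exact ⟨t, ht, hgx t ht⟩
  rw [himg] at hdim
  have hI1 : dimH I = 1 := by
    have h1 : (interior I).Nonempty := by
      rw [hI, interior_Ico]
      exact ⟨left S₀ + len S₀ / 2, by constructor <;> linarith⟩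
    rw [Real.dimH_of_nonempty_interior h1]
    simp
  rw [hI1] at hdim
  have hs2 : ((Real.toNNReal s : ℝ≥0) : ℝ≥0∞) = ENNReal.ofReal s := rfl
  rw [hs2, ENNReal.le_div_iff_mul_le (Or.inl (by simpa using hs)) (Or.inl ENNReal.ofReal_ne_top),
    one_mul] at hdim
  refine hdim.trans (dimH_mono ?_)
  rintro _ ⟨t, ht, rfl⟩
  exact ⟨T t, rfl, fun k => (hinv t ht k).2.2, fun k => hx t ht k⟩

end tree

/-- Intervals of given lengths cover an interval. -/
theorem cover_intervals {ι : Type*} [DecidableEq ι] (F : Finset ι) (μ : ι → ℝ) (a : ℝ) :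
    ∃ α : ι → ℝ, ∀ t ∈ Ico a (a + ∑ i ∈ F, μ i), ∃ i ∈ F, t ∈ Ico (α i) (α i + μ i) := by
  induction F using Finset.induction_on with
  | empty => exact ⟨fun _ => 0, fun t ht => by simp at ht⟩
  | insert i F hi ih =>
    obtain ⟨α, hα⟩ := ih
    refine ⟨Function.update α i (a + ∑ i ∈ F, μ i), fun t ht => ?_⟩
    rw [Finset.sum_insert hi] at ht
    rcases lt_or_ge t (a + ∑ i ∈ F, μ i) with h | h
    · obtain ⟨j, hj, hj2⟩ := hα t ⟨ht.1, h⟩
      refine ⟨j, Finset.mem_insert_of_mem hj, ?_⟩
      rw [Function.update_of_ne (by rintro rfl; exact hi hj)]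
      exact hj2
    · refine ⟨i, Finset.mem_insert_self _ _, ?_⟩
      rw [Function.update_self]
      exact ⟨h, by linarith [ht.2]⟩

end Pool.Agent.H205.DL
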