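import Pool.Agent.H205.LD3

/-!
# Local density of hyperbolicity in `z ^ n + c`: discs of hyperbolic parameters
-/

set_option autoImplicit false
open Complex Metric Set Filter Topology MeasureTheory
open scoped ENNReal Real NNReal

namespace Pool.Agent.H205.LD

open Pool.Agent.H205.AR N62a1eb23

theorem approx_aux {F F' : ℂ → ℂ} {P c : ℂ} {r : ℝ}
    (hF : ∀ x ∈ closedBall c r, HasDerivAt F (F' x) x)
    (hF' : ∀ x ∈ closedBall c r, ‖F' x - P‖ ≤ 1 / 4 * ‖P‖) {x y : ℂ} (hx : x ∈ closedBall c r)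
    (hy : y ∈ closedBall c r) : ‖F x - F y - P * (x - y)‖ ≤ 1 / 4 * ‖P‖ * ‖x - y‖ := by
  have h := (convex_closedBall c r).norm_image_sub_le_of_norm_hasDerivWithin_le
      (f := fun x => F x - P * x) (f' := fun x => F' x - P)
      (fun z hz => by
        have h1 := (hF z hz).sub ((hasDerivAt_id z).const_mul P)
        rw [mul_one] at h1
        exact h1.hasDerivWithinAt) hF' hy hx
  have e : F x - F y - P * (x - y) = (F x - P * x) - (F y - P * y) := by ring
  rw [e]
  exact h

theorem surj_aux {F F' : ℂ → ℂ} {P c : ℂ} {r : ℝ} (hP : P ≠ 0) (hr : 0 ≤ r)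
    (hF : ∀ x ∈ closedBall c r, HasDerivAt F (F' x) x)
    (hF' : ∀ x ∈ closedBall c r, ‖F' x - P‖ ≤ 1 / 4 * ‖P‖) {y : ℂ}
    (hy : ‖y - F c‖ ≤ 3 / 4 * ‖P‖ * r) : ∃ x, ‖x - c‖ ≤ r ∧ F x = y := by
  have hP0 : 0 < ‖P‖ := norm_pos_iff.2 hP
  have happ : ApproximatesLinearOn F (ContinuousLinearMap.toSpanSingleton ℂ P) (closedBall c r)
      (1 / 4 * ‖P‖₊) := by
    intro x hx y hy
    have h := approx_aux hF hF' hx hy
    simp only [ContinuousLinearMap.toSpanSingleton_apply, smul_eq_mul]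
    rw [mul_comm (x - y) P]
    simpa using h
  have hinv : (ContinuousLinearMap.toSpanSingleton ℂ P).NonlinearRightInverse :=
    { toFun := fun y => P⁻¹ * y
      nnnorm := ‖P‖₊⁻¹
      bound' := fun y => by
        rw [norm_mul, norm_inv]
        simp
      right_inv' := fun y => by
        simp only [ContinuousLinearMap.toSpanSingleton_apply, smul_eq_mul]
        field_simp }
  have hs := happ.surjOn_closedBall_of_nonlinearRightInverse
    { toFun := fun y => P⁻¹ * y
      nnnorm := ‖P‖₊⁻¹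
      bound' := fun y => by
        rw [norm_mul, norm_inv]
        simp
      right_inv' := fun y => by
        simp only [ContinuousLinearMap.toSpanSingleton_apply, smul_eq_mul]
        field_simp } hr (subset_refl _)
  have hy' : y ∈ closedBall (F c) ((((‖P‖₊⁻¹ : ℝ≥0) : ℝ)⁻¹ - ((1 / 4 * ‖P‖₊ : ℝ≥0) : ℝ)) * r) := by
    rw [mem_closedBall, dist_eq_norm]
    refine hy.trans (le_of_eq ?_)
    push_cast
    rw [inv_inv]
    ring
  obtain ⟨x, hx, hxy⟩ := hs hy'
  rw [mem_closedBall, dist_eq_norm] at hx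
  exact ⟨x, hx, hxy⟩

theorem log_le_aux {N : ℝ} (hN : 2 ^ 20 ≤ N) : Real.log (8 * N) ≤ N - 1 := by
  have h1 := Real.quadratic_le_exp_of_nonneg (show 0 ≤ N - 1 by linarith)
  rw [Real.log_le_iff_le_exp (by linarith)]
  refine le_trans ?_ h1
  nlinarith

theorem porous {n : ℕ} (hn : 2 ≤ n) {c₀ : ℂ} {m : ℕ}
    (hc₀ : ∀ j ≤ m, 4 * Lam ≤ u n c₀ j ∧ u n c₀ j ≤ 2 * n) (hlast : u n c₀ (m + 1) ≤ 2 * n)
    {ρ : ℝ} (hρ1 : 64 * (1 + Real.log (max (Q n c₀ (m + 1)) (Q n c₀ (m + 2)))) /
      (n * Q n c₀ (m + 1)) ≤ ρ) (hρr : ρ ≤ rad n m c₀ / 2) :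
    ∃ c₁, ball c₁ (ρ / 10) ⊆ ball c₀ ρ ∧ ∀ c ∈ ball c₁ (ρ / 10),
      ∃ z, IsAttractingCycle (fun z => z ^ n + c) (m + 2) z := by
  have hΛ := Lam_ge
  have hΛ0 : 0 < Lam := by linarith
  have hn0 : (0:ℝ) < n := by exact_mod_cast (by omega : 0 < n)
  have hn1 : (0:ℝ) < (n:ℝ) - 1 := by
    have : (2:ℝ) ≤ n := by exact_mod_cast hn
    linarith
  have hG : Good n Lam m c₀ := fun j hj => ⟨by have := (hc₀ j hj).1; linarith,
    by have := (hc₀ j hj).2; linarith⟩
  have hQ : 0 < Q n c₀ (m + 1) := Q_pos fun j hj => hG.u_pos hΛ0 (by omega)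
  have hQm : 0 < Q n c₀ m := Q_pos fun j hj => hG.u_pos hΛ0 (by omega)
  have hQ1 := one_le_Q (by linarith) hG (k := m + 1) le_rfl
  have hnbig : (2:ℝ) ^ 20 ≤ n := by
    have h1 := (hc₀ m le_rfl).1
    have h2 := (hc₀ m le_rfl).2
    unfold Lam at h1
    linarith
  set q := Q n c₀ (m + 1) with hq
  set L := Real.log (max q (Q n c₀ (m + 2))) with hL
  have hmax : 1 ≤ max q (Q n c₀ (m + 2)) := hQ1.trans (le_max_left _ _)
  have hL0 : 0 ≤ L := Real.log_nonneg hmax
  have hρ0 : 0 < ρ := lt_of_lt_of_le (by positivity) hρ1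
  have hrad0 := hG.rad_pos hn hΛ0
  -- the image radius
  set R := q * ρ with hR
  have hR0 : 0 < R := by positivity
  have hR1 : 64 * (1 + L) / n ≤ R := by
    calc 64 * (1 + L) / n = q * (64 * (1 + L) / (n * q)) := by field_simp
      _ ≤ q * ρ := by gcongr
  have hR2 : R ≤ 1 / 20 := by
    have hv := Good.norm_v_le hn hG le_rfl
    have hu := (hc₀ m le_rfl).2
    have hu0 := u_nonneg n c₀ m
    calc R ≤ q * (rad n m c₀ / 2) := by rw [hR]; gcongr
      _ = ‖v n c₀ m‖ * u n c₀ m / (320 * n) := by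
          rw [hq, Q_succ]
          unfold rad
          field_simp
          ring
      _ ≤ 4 * (2 * n) / (320 * n) := by gcongr
      _ ≤ 1 / 20 := by
          rw [div_le_div_iff₀ (by positivity) (by norm_num)]
          linarith
  -- the target disc
  obtain ⟨s, hs0, hs⟩ : ∃ s : ℝ, 0 < s ∧ n * s ^ (n - 1) = 1 / (8 * q) := by
    refine ⟨(1 / (8 * q) / n) ^ (1 / ((n - 1 : ℕ) : ℝ)), by positivity, ?_⟩
    rw [← Real.rpow_natCast, ← Real.rpow_mul (by positivity), one_div_mul_cancel
      (by exact_mod_cast (by omega : n - 1 ≠ 0)), Real.rpow_one]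
    field_simp
  have hcast : ((n - 1 : ℕ) : ℝ) = (n:ℝ) - 1 := by
    rw [Nat.cast_sub (by omega)]; push_cast; ring
  have hlogs : ((n:ℝ) - 1) * Real.log s = - Real.log (8 * n * q) := by
    have h1 : s ^ (n - 1) = (8 * n * q)⁻¹ := by
      have : s ^ (n - 1) = (1 / (8 * q)) / n := by rw [← hs]; field_simp
      rw [this]; field_simp
    have h2 := congrArg Real.log h1
    rw [Real.log_pow, Real.log_inv, hcast] at h2
    exact h2
  have hs8 : R / 8 ≤ s := by
    have h1 : Real.log (8 * n * q) ≤ 2 * ((n:ℝ) - 1) := by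
      rw [Real.log_mul (by positivity) hQ.ne']
      have h2 := log_le_aux hnbig
      have h3 : Real.log q ≤ L := Real.log_le_log hQ (le_max_left _ _)
      have h4 : 1 + L ≤ n / 1280 := by
        have h5 := hR1.trans hR2
        rw [div_le_div_iff₀ hn0 (by norm_num)] at h5
        linarith
      linarith
    have h2 : -2 ≤ Real.log s := by
      have h3 : -(2 * ((n:ℝ) - 1)) ≤ ((n:ℝ) - 1) * Real.log s := by rw [hlogs]; linarith
      by_contra hcon
      push Not at hcon
      nlinarith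
    have h3 : Real.exp (-2) ≤ s := by
      rw [← Real.exp_log hs0]
      exact Real.exp_le_exp.2 h2
    have h4 : (1:ℝ) / 9 ≤ Real.exp (-2) := by
      rw [Real.exp_neg, one_div]
      apply inv_anti₀ (Real.exp_pos _)
      have h5 : Real.exp 2 = Real.exp 1 * Real.exp 1 := by rw [← Real.exp_add]; norm_num
      rw [h5]
      have h6 : Real.exp 1 ≤ 3 := by have := Real.exp_one_lt_d9; linarith
      have h7 := Real.exp_pos 1
      nlinarith
    linarith
  set w := v n c₀ (m + 1) with hw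
  obtain ⟨y₁, hy1, hy2⟩ : ∃ y₁ : ℂ, ‖y₁‖ ≤ s - R / 8 ∧ ‖y₁ - w‖ ≤ R / 2 := by
    rcases le_or_gt ‖w‖ (s - R / 8) with hcase | hcase
    · exact ⟨w, hcase, by rw [sub_self, norm_zero]; positivity⟩
    · have hw0 : 0 < ‖w‖ := by linarith
      refine ⟨((s - R / 8) / ‖w‖ : ℝ) • w, ?_, ?_⟩
      · rw [norm_smul, Real.norm_eq_abs, abs_of_nonneg (by
          apply div_nonneg _ hw0.le; linarith), div_mul_cancel₀ _ hw0.ne']
      · have e : ((s - R / 8) / ‖w‖ : ℝ) • w - w = (((s - R / 8) / ‖w‖ - 1 : ℝ)) • w := by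
          rw [sub_smul, one_smul]
        rw [e, norm_smul, Real.norm_eq_abs, abs_sub_comm, abs_of_nonneg (by
          rw [sub_nonneg, div_le_one hw0]; linarith), sub_mul, one_mul,
          div_mul_cancel₀ _ hw0.ne']
        -- `‖w‖ - s ≤ 3/8 R`
        have hws : ‖w‖ - s ≤ 3 / 8 * R := by
          rcases le_or_gt ‖w‖ s with h1 | h1
          · linarith [hR0]
          · have hu1 : u n c₀ (m + 1) = n * ‖w‖ ^ (n - 1) := rfl
            have hw4 : ‖w‖ ≤ 4 := by
              by_contra hcon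
              push Not at hcon
              have h2 : (4:ℝ) ^ (n - 1) < ‖w‖ ^ (n - 1) :=
                pow_lt_pow_left₀ hcon (by norm_num) (by omega)
              have h3 : (4:ℝ) ^ 1 ≤ 4 ^ (n - 1) := pow_le_pow_right₀ (by norm_num) (by omega)
              rw [hu1] at hlast
              nlinarith
            have hQ2 : Q n c₀ (m + 2) = q * (n * ‖w‖ ^ (n - 1)) := by
              rw [show m + 2 = m + 1 + 1 by ring, Q_succ, hu1]
            have hlogw : ((n:ℝ) - 1) * (Real.log ‖w‖ - Real.log s) =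
                Real.log (8 * Q n c₀ (m + 2)) := by
              have h2 : 8 * Q n c₀ (m + 2) = (8 * n * q) * ‖w‖ ^ (n - 1) := by rw [hQ2]; ring
              rw [h2, Real.log_mul (by positivity) (by positivity), Real.log_pow, hcast, mul_sub,
                hlogs]
              ring
            have hpos : 0 < Q n c₀ (m + 2) := by rw [hQ2]; positivity
            have h8 : Real.log (8 * Q n c₀ (m + 2)) ≤ 3 * (1 + L) := by
              rw [Real.log_mul (by norm_num) hpos.ne']
              have h3 : Real.log (Q n c₀ (m + 2)) ≤ L := Real.log_le_log hpos (le_max_right _ _)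
              have h4 : Real.log 8 ≤ 3 := by
                have : (8:ℝ) = 2 ^ 3 := by norm_num
                rw [this, Real.log_pow]
                have := Real.log_two_lt_d9
                push_cast
                linarith
              linarith
            have h9 : Real.log ‖w‖ - Real.log s ≤ 3 * (1 + L) / ((n:ℝ) - 1) := by
              rw [le_div_iff₀ hn1]; linarith
            have h10 : 1 - s / ‖w‖ ≤ Real.log ‖w‖ - Real.log s := by
              have h11 := Real.log_le_sub_one_of_pos (show 0 < s / ‖w‖ by positivity)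
              rw [Real.log_div hs0.ne' hw0.ne'] at h11
              linarith
            have h12 : ‖w‖ - s ≤ 4 * (3 * (1 + L) / ((n:ℝ) - 1)) := by
              calc ‖w‖ - s = ‖w‖ * (1 - s / ‖w‖) := by field_simp
                _ ≤ 4 * (3 * (1 + L) / ((n:ℝ) - 1)) := by
                    gcongr
                    · rw [sub_nonneg, div_le_one hw0]; exact h1.le
                    · linarith
            have h13 : 4 * (3 * (1 + L) / ((n:ℝ) - 1)) ≤ 24 * (1 + L) / n := by
              rw [← mul_div_assoc, div_le_div_iff₀ hn1 hn0]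
              have : (2:ℝ) ≤ n := by exact_mod_cast hn
              nlinarith
            have h14 : 24 * (1 + L) / n = 3 / 8 * (64 * (1 + L) / n) := by ring
            rw [h14] at h13
            linarith
        linarith
  -- the preimage
  have hPne : PP n c₀ (m + 1) ≠ 0 := by
    rw [← norm_pos_iff, norm_PP]; exact hQ
  have hder : ∀ x ∈ closedBall c₀ (rad n m c₀), HasDerivAt (fun x => v n x (m + 1))
      (DD n x (m + 1)) x := fun x _ => hasDerivAt_v n x (m + 1)
  have hder' : ∀ x ∈ closedBall c₀ (rad n m c₀),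
      ‖DD n x (m + 1) - PP n c₀ (m + 1)‖ ≤ 1 / 4 * ‖PP n c₀ (m + 1)‖ := by
    intro x hx
    rw [mem_closedBall, dist_eq_norm] at hx
    rw [norm_PP]
    exact core_deriv hn hΛ hG hx
  have hρ23 : 2 / 3 * ρ ≤ rad n m c₀ := by linarith
  obtain ⟨c₁, hc1, hc1y⟩ := surj_aux (F := fun x => v n x (m + 1))
    (F' := fun x => DD n x (m + 1)) (P := PP n c₀ (m + 1)) (c := c₀) (r := 2 / 3 * ρ) (y := y₁)
    hPne (by positivity)
    (fun x hx => hder x (closedBall_subset_closedBall hρ23 hx))
    (fun x hx => hder' x (closedBall_subset_closedBall hρ23 hx))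
    (by rw [norm_PP]; refine hy2.trans (le_of_eq ?_); rw [hR]; ring)
  have hc1y' : v n c₁ (m + 1) = y₁ := hc1y
  refine ⟨c₁, ?_, ?_⟩
  · intro x hx
    rw [mem_ball, dist_eq_norm] at hx ⊢
    calc ‖x - c₀‖ = ‖(x - c₁) + (c₁ - c₀)‖ := by ring_nf
      _ ≤ ‖x - c₁‖ + ‖c₁ - c₀‖ := norm_add_le _ _
      _ < ρ / 10 + 2 / 3 * ρ := by linarith
      _ ≤ ρ := by linarith
  · intro c hc
    rw [mem_ball, dist_eq_norm] at hc
    have hcc : ‖c - c₀‖ ≤ rad n m c₀ := by
      calc ‖c - c₀‖ = ‖(c - c₁) + (c₁ - c₀)‖ := by ring_nf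
        _ ≤ ‖c - c₁‖ + ‖c₁ - c₀‖ := norm_add_le _ _
        _ ≤ ρ / 10 + 2 / 3 * ρ := by linarith
        _ ≤ rad n m c₀ := by linarith
    have h1 := approx_aux hder hder' (x := c) (y := c₁)
      (by rw [mem_closedBall, dist_eq_norm]; exact hcc)
      (by rw [mem_closedBall, dist_eq_norm]; linarith)
    rw [norm_PP] at h1
    have h2 : ‖v n c (m + 1) - y₁‖ ≤ R / 8 := by
      calc ‖v n c (m + 1) - y₁‖
          = ‖(v n c (m + 1) - v n c₁ (m + 1) - PP n c₀ (m + 1) * (c - c₁)) +
              PP n c₀ (m + 1) * (c - c₁)‖ := by rw [hc1y']; ring_nf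
        _ ≤ 1 / 4 * Q n c₀ (m + 1) * ‖c - c₁‖ + Q n c₀ (m + 1) * ‖c - c₁‖ := by
            refine (norm_add_le _ _).trans ?_
            rw [norm_mul, norm_PP]
            gcongr
        _ = 5 / 4 * q * ‖c - c₁‖ := by rw [← hq]; ring
        _ ≤ 5 / 4 * q * (ρ / 10) := by gcongr
        _ = R / 8 := by rw [hR]; ring
    have h3 : ‖v n c (m + 1)‖ ≤ s := by
      have := norm_add_le (v n c (m + 1) - y₁) y₁
      rw [sub_add_cancel] at this
      linarith
    have h4 : u n c (m + 1) ≤ 1 / (8 * q) := by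
      rw [← hs]
      unfold u
      gcongr
    obtain ⟨h5, h6⟩ := Q_ratio hn hΛ hG hcc (k := m + 1) le_rfl
    have h7 := criterion hn hΛ (k := m + 1) (c := c) (fun j hj => by
      have h8 := core_le_u hn hΛ hG hcc (j := j) (by omega)
      have h9 := ee_le m j
      have h10 := (hc₀ j (by omega)).1
      nlinarith) (by
      rw [show m + 1 + 1 = (m + 1) + 1 by ring, Q_succ]
      have h11 := u_nonneg n c (m + 1)
      calc Q n c (m + 1) * u n c (m + 1) ≤ (5 / 4 * q) * (1 / (8 * q)) := by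
            gcongr
        _ = 5 / 32 := by field_simp; norm_num
        _ ≤ 1 / 6 := by norm_num)
    exact h7

end Pool.Agent.H205.LD
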