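import Pool.Agent.H205.DL1
import Pool.Agent.H205.LD4

/-!
# Roots of complex numbers: existence near a point, and separation
-/

set_option autoImplicit false
open Complex Metric Set Filter Topology MeasureTheory
open scoped ENNReal Real NNReal

namespace Pool.Agent.H205.DL

/-- Roots of `w` near a point. -/
theorem roots_near {n : ℕ} (hn : 0 < n) {w y z : ℂ} (hy0 : y ≠ 0) (hy : y ^ n = w) {N : ℕ}
    (hN : N ≤ n) :
    ∃ f : ℕ → ℂ, (∀ k < N, f k ^ n = w ∧ ‖f k‖ = ‖y‖ ∧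
      ‖f k - z‖ ≤ |‖y‖ - ‖z‖| + ‖y‖ * (2 * π * N / n)) ∧ InjOn f (Iio N) := by
  have hn0 : (0:ℝ) < n := by exact_mod_cast hn
  have hnC : (n:ℂ) ≠ 0 := by exact_mod_cast hn.ne'
  have hy0' : 0 < ‖y‖ := norm_pos_iff.2 hy0
  set α := arg z with hα
  set β := arg y with hβ
  set k0 : ℤ := round ((α - β) * n / (2 * π)) with hk0
  have hpi := Real.pi_pos
  have hk0' : |(k0 : ℝ) - (α - β) * n / (2 * π)| ≤ 1 / 2 := by
    rw [abs_sub_comm]
    exact abs_sub_round _
  set γ : ℕ → ℝ := fun k => β + 2 * π * (k0 + k) / n with hγ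
  have hyexp : (‖y‖ : ℂ) * exp (I * β) = y := by
    rw [mul_comm I]; exact norm_mul_exp_arg_mul_I y
  have hzexp : (‖z‖ : ℂ) * exp (I * α) = z := by
    rw [mul_comm I]; exact norm_mul_exp_arg_mul_I z
  refine ⟨fun k => ‖y‖ * exp (I * (γ k : ℝ)), ?_, ?_⟩
  · intro k hk
    refine ⟨?_, ?_, ?_⟩
    · have h1 : (‖y‖ * exp (I * (γ k : ℝ))) ^ n = ((‖y‖ : ℂ) * exp (I * β)) ^ n *
          exp (((k0 + k : ℤ) : ℂ) * (2 * π * I)) := by
        rw [mul_pow, mul_pow, ← exp_nat_mul, ← exp_nat_mul, mul_assoc, ← exp_add]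
        congr 2
        rw [hγ]
        push_cast
        field_simp
      rw [h1, exp_int_mul_two_pi_mul_I, mul_one, hyexp, hy]
    · rw [norm_mul, norm_exp_I_mul_ofReal, mul_one, norm_real, Real.norm_eq_abs,
        abs_of_pos hy0']
    · have h1 : (‖y‖ : ℂ) * exp (I * (γ k : ℝ)) - z =
          ‖y‖ * exp (I * α) * (exp (I * ((γ k - α : ℝ) : ℂ)) - 1) +
            ((‖y‖ - ‖z‖ : ℝ) : ℂ) * exp (I * α) := by
        have h2 : exp (I * (γ k : ℝ)) = exp (I * α) * exp (I * ((γ k - α : ℝ) : ℂ)) := by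
          rw [← exp_add]
          congr 1
          push_cast
          ring
        conv_lhs => rw [← hzexp, h2]
        push_cast
        ring
      have h3 : |γ k - α| ≤ 2 * π * N / n := by
        have e : γ k - α = 2 * π / n * ((k0 - (α - β) * n / (2 * π)) + k) := by
          rw [hγ]
          field_simp
          ring
        have hk' : (k:ℝ) + 1 ≤ N := by exact_mod_cast hk
        rw [e, abs_mul, abs_of_pos (by positivity)]
        have h4 : |((k0:ℝ) - (α - β) * n / (2 * π)) + k| ≤ N := by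
          refine (abs_add_le _ _).trans ?_
          have h44 : |(k:ℝ)| = k := abs_of_nonneg (Nat.cast_nonneg k)
          rw [h44]
          linarith
        calc 2 * π / n * |((k0:ℝ) - (α - β) * n / (2 * π)) + k| ≤ 2 * π / n * N := by gcongr
          _ = _ := by ring
      calc ‖(‖y‖ : ℂ) * exp (I * (γ k : ℝ)) - z‖
          ≤ ‖(‖y‖ : ℂ) * exp (I * α) * (exp (I * ((γ k - α : ℝ) : ℂ)) - 1)‖ +
            ‖((‖y‖ - ‖z‖ : ℝ) : ℂ) * exp (I * α)‖ := by rw [h1]; exact norm_add_le _ _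
        _ ≤ ‖y‖ * (2 * π * N / n) + |‖y‖ - ‖z‖| := by
            rw [norm_mul, norm_mul, norm_mul, norm_exp_I_mul_ofReal, norm_real, norm_real,
              mul_one, mul_one, Real.norm_eq_abs, Real.norm_eq_abs, abs_of_pos hy0']
            have h5 : ‖exp (I * ((γ k - α : ℝ) : ℂ)) - 1‖ ≤ 2 * π * N / n :=
              (Real.norm_exp_I_mul_ofReal_sub_one_le).trans h3
            gcongr
        _ = _ := by ring
  · intro k hk k' hk' h
    simp only at h
    have h1 : exp (I * (γ k : ℝ)) = exp (I * (γ k' : ℝ)) :=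
      mul_left_cancel₀ (by exact_mod_cast hy0'.ne') h
    rw [exp_eq_exp_iff_exists_int] at h1
    obtain ⟨m, hm⟩ := h1
    have h2 : (γ k : ℂ) = γ k' + m * (2 * π) := by
      have h3 : I * (γ k : ℂ) = I * (γ k' + m * (2 * π)) := by rw [hm]; ring
      exact mul_left_cancel₀ I_ne_zero h3
    have h4 : γ k = γ k' + m * (2 * π) := by exact_mod_cast h2
    rw [hγ] at h4
    simp only at h4
    have h5 : (k:ℝ) = k' + m * n := by
      field_simp at h4
      nlinarith [hpi]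
    have h6 : (k:ℤ) = k' + m * n := by exact_mod_cast h5
    simp only [mem_Iio] at hk hk'
    have h7 : (k:ℤ) < n := by exact_mod_cast hk.trans_le hN
    have h8 : (k':ℤ) < n := by exact_mod_cast hk'.trans_le hN
    have h9 : m = 0 := by
      by_contra hm0
      rcases lt_or_gt_of_ne hm0 with h | h
      · have : m * n ≤ -1 * n := by
          apply mul_le_mul_of_nonneg_right (by omega) (by positivity)
        omega
      · have : 1 * n ≤ m * n := by
          apply mul_le_mul_of_nonneg_right (by omega) (by positivity)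
        omega
    rw [h9] at h6
    omega

theorem roots_sep_same {n : ℕ} (hn : 0 < n) {y y' : ℂ} (h : y ^ n = y' ^ n) (hne : y ≠ y') :
    ‖y‖ ≤ n * ‖y - y'‖ := by
  have hn0 : (0:ℝ) < n := by exact_mod_cast hn
  by_cases hy : y = 0
  · rw [hy, norm_zero]; positivity
  have hy0' : 0 < ‖y‖ := norm_pos_iff.2 hy
  set ζ := y' / y with hζ
  have hζn : ζ ^ n = 1 := by rw [hζ, div_pow, ← h, div_self (pow_ne_zero _ hy)]
  have hζ1 : ζ ≠ 1 := by
    intro h1
    rw [hζ, div_eq_one_iff_eq hy] at h1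
    exact hne h1.symm
  have hnorm : ‖ζ‖ = 1 := norm_eq_one_of_pow_eq_one hζn hn.ne'
  have hi : ∀ i : ℕ, ‖ζ ^ i - 1‖ ≤ i * ‖ζ - 1‖ := by
    intro i
    induction i with
    | zero => simp
    | succ i ih =>
      have e : ζ ^ (i + 1) - 1 = ζ * (ζ ^ i - 1) + (ζ - 1) := by ring
      rw [e]
      refine (norm_add_le _ _).trans ?_
      rw [norm_mul, hnorm, one_mul]
      push_cast
      linarith
  have hsum : ∑ i ∈ Finset.range n, ζ ^ i = 0 := by
    have := mul_geom_sum ζ n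
    rw [hζn, sub_self] at this
    exact (mul_eq_zero.1 this).resolve_left (sub_ne_zero.2 hζ1)
  have h2 : (n:ℝ) ≤ ∑ i ∈ Finset.range n, ‖ζ ^ i - 1‖ := by
    have h3 : ∑ i ∈ Finset.range n, (ζ ^ i - 1) = -(n:ℂ) := by
      rw [Finset.sum_sub_distrib, hsum]; simp
    have h4 := norm_sum_le (Finset.range n) (fun i => ζ ^ i - 1)
    rw [h3, norm_neg, norm_natCast] at h4
    exact h4
  have h3 : ∑ i ∈ Finset.range n, ‖ζ ^ i - 1‖ ≤ n * (n * ‖ζ - 1‖) := by
    calc ∑ i ∈ Finset.range n, ‖ζ ^ i - 1‖ ≤ ∑ i ∈ Finset.range n, (n * ‖ζ - 1‖) := by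
          apply Finset.sum_le_sum
          intro i hi'
          have : (i:ℝ) ≤ n := by exact_mod_cast (Finset.mem_range.1 hi').le
          exact (hi i).trans (by gcongr)
      _ = _ := by rw [Finset.sum_const, Finset.card_range, nsmul_eq_mul]
  have h4 : 1 ≤ n * ‖ζ - 1‖ := by
    have h5 : (n:ℝ) * 1 ≤ n * (n * ‖ζ - 1‖) := by linarith
    exact le_of_mul_le_mul_left h5 hn0
  have h5 : ‖y - y'‖ = ‖y‖ * ‖ζ - 1‖ := by
    rw [← norm_mul, norm_sub_rev, hζ]
    congr 1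
    field_simp
  rw [h5]
  calc ‖y‖ = ‖y‖ * 1 := by ring
    _ ≤ ‖y‖ * (n * ‖ζ - 1‖) := by gcongr
    _ = _ := by ring

theorem one_add_pow_le_four {n : ℕ} (hn : 0 < n) : (1 + 1 / (n:ℝ)) ^ n < 4 := by
  have hn0 : (0:ℝ) < n := by exact_mod_cast hn
  have h1 : 1 + 1 / (n:ℝ) ≤ Real.exp (1 / n) := by linarith [Real.add_one_le_exp (1 / (n:ℝ))]
  calc (1 + 1 / (n:ℝ)) ^ n ≤ Real.exp (1 / n) ^ n := by gcongr
    _ = Real.exp 1 := by rw [← Real.exp_nat_mul]; congr 1; field_simp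
    _ < 4 := by linarith [Real.exp_one_lt_d9]

theorem roots_sep_diff {n : ℕ} (hn : 0 < n) {b : ℝ} (hb : 0 < b) {y y' : ℂ} {j j' : ℕ}
    (h : ‖y‖ ^ n = b * 4 ^ j) (h' : ‖y'‖ ^ n = b * 4 ^ j') (hj : j < j') :
    ‖y‖ ≤ n * ‖y - y'‖ := by
  have hn0 : (0:ℝ) < n := by exact_mod_cast hn
  have h1 : ‖y‖ * (1 + 1 / n) ≤ ‖y'‖ := by
    by_contra hcon
    push Not at hcon
    have h2 : ‖y'‖ ^ n < b * 4 ^ j * 4 := by
      calc ‖y'‖ ^ n ≤ (‖y‖ * (1 + 1 / n)) ^ n := by gcongr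
        _ = b * 4 ^ j * (1 + 1 / (n:ℝ)) ^ n := by rw [mul_pow, h]
        _ < b * 4 ^ j * 4 := by
            have := one_add_pow_le_four hn
            gcongr
    have h3 : b * 4 ^ j * 4 ≤ b * 4 ^ j' := by
      rw [mul_assoc, ← pow_succ]
      have : (4:ℝ) ^ (j + 1) ≤ 4 ^ j' := pow_le_pow_right₀ (by norm_num) hj
      gcongr
    rw [h'] at h2
    linarith
  have h2 : ‖y'‖ - ‖y‖ ≤ ‖y - y'‖ := by
    rw [norm_sub_rev]; exact norm_sub_norm_le _ _
  have h3 : ‖y‖ / n ≤ ‖y - y'‖ := by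
    have : ‖y‖ * (1 + 1 / n) = ‖y‖ + ‖y‖ / n := by ring
    linarith
  calc ‖y‖ = n * (‖y‖ / n) := by field_simp
    _ ≤ _ := by gcongr

theorem four_pow_le {n j : ℕ} (hn : 0 < n) (hj : 3 * j ≤ n) : (4:ℝ) ^ j ≤ (1 + 3 * j / n) ^ n := by
  have hn0 : (0:ℝ) < n := by exact_mod_cast hn
  have hj' : 3 * (j:ℝ) ≤ n := by exact_mod_cast hj
  set x : ℝ := 3 * j / n with hx
  have hx0 : 0 ≤ x := by positivity
  have hx1 : x ≤ 1 := by rw [hx, div_le_one hn0]; exact hj'
  have h1 : Real.exp (x / 2) ≤ 1 + x := by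
    have h2 := Real.add_one_le_exp (-(x / 2))
    have h3 : Real.exp (x / 2) * Real.exp (-(x / 2)) = 1 := by rw [← Real.exp_add]; simp
    have h4 := Real.exp_pos (x / 2)
    nlinarith
  have h15 : (4:ℝ) ≤ Real.exp (3 / 2) := by
    have h2 : Real.exp (3 / 2) ^ 2 = Real.exp 1 ^ 3 := by
      rw [← Real.exp_nat_mul, ← Real.exp_nat_mul]; norm_num
    have h3 : (2.7182818283:ℝ) ^ 3 ≤ Real.exp 1 ^ 3 := by
      have := Real.exp_one_gt_d9.le
      gcongr
    have h4 : (4:ℝ) ^ 2 ≤ Real.exp (3 / 2) ^ 2 := by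
      rw [h2]
      refine le_trans ?_ h3
      norm_num
    exact le_of_pow_le_pow_left₀ two_ne_zero (Real.exp_pos _).le h4
  calc (4:ℝ) ^ j ≤ Real.exp (3 / 2) ^ j := by gcongr
    _ = Real.exp (x / 2) ^ n := by
        rw [← Real.exp_nat_mul, ← Real.exp_nat_mul]
        congr 1
        rw [hx]
        field_simp
    _ ≤ _ := by gcongr

end Pool.Agent.H205.DL
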