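import Pool.Agent.H205.DL2

/-!
# The targets and the states of the tree of parameters
-/

set_option autoImplicit false
open Complex Metric Set Filter Topology MeasureTheory
open scoped ENNReal Real NNReal

namespace Pool.Agent.H205.DL

open Pool.Agent.H205.AR

theorem Q_le_Q {n : ℕ} {c : ℂ} {Λ : ℝ} (hΛ : 1 ≤ Λ) {m i : ℕ} (h : Good n Λ m c) (hi : i ≤ m) :
    Q n c i ≤ Q n c m := by
  have h1 := Q_lower (by linarith : 0 < Λ) (k := m) (j := i) (fun l hl => (h l hl.le).1) hi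
  have hQ : 0 < Q n c i := Q_pos fun l hl => h.u_pos (by linarith) (by omega)
  have h2 : 1 ≤ Λ ^ (m - i) := one_le_pow₀ hΛ
  nlinarith

/-- The iterates are nearly linear in the parameter on small discs. -/
theorem lin_bound {n : ℕ} (hn : 2 ≤ n) {Λ : ℝ} (hΛ : 32 ≤ Λ) {m : ℕ} {c : ℂ} (h : Good n Λ m c)
    (hv : ∀ i ≤ m, 1 / 2 ≤ ‖v n c i‖) {x x' : ℂ} (hx : ‖x - c‖ ≤ 1 / (320 * n * Q n c m))
    (hx' : ‖x' - c‖ ≤ 1 / (320 * n * Q n c m)) {i : ℕ} (hi : i ≤ m + 1) :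
    ‖v n x i - v n x' i - PP n c i * (x - x')‖ ≤ 1 / 4 * Q n c i * ‖x - x'‖ := by
  rcases i with _ | k
  · simp [v_zero, PP_zero]
    have : 0 ≤ Q n c 0 := by rw [Q_zero]; norm_num
    positivity
  · have hn0 : (0:ℝ) < n := by exact_mod_cast (by omega : 0 < n)
    have hk : Good n Λ k c := fun j hj => h j (by omega)
    have hQk : 0 < Q n c k := Q_pos fun j hj => h.u_pos (by linarith) (by omega)
    have hQm : 0 < Q n c m := Q_pos fun j hj => h.u_pos (by linarith) (by omega)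
    have hr : 1 / (320 * n * Q n c m) ≤ rad n k c := by
      unfold rad
      have h1 := hv k (by omega)
      have h2 := Q_le_Q (by linarith) h (i := k) (by omega)
      calc 1 / (320 * n * Q n c m) ≤ 1 / (320 * n * Q n c k) := by gcongr
        _ = (1 / 2) / (160 * n * Q n c k) := by field_simp; norm_num
        _ ≤ _ := by gcongr
    have hc : ∀ z ∈ closedBall c (1 / (320 * n * Q n c m)), ‖z - c‖ ≤ rad n k c := by
      intro z hz
      rw [mem_closedBall, dist_eq_norm] at hz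
      linarith
    have := LD.approx_aux (F := fun x => v n x (k + 1)) (F' := fun x => DD n x (k + 1))
      (P := PP n c (k + 1)) (c := c) (r := 1 / (320 * n * Q n c m))
      (fun z _ => hasDerivAt_v n z (k + 1))
      (fun z hz => by rw [norm_PP]; exact core_deriv hn hΛ hk (hc z hz))
      (x := x) (y := x') (by rw [mem_closedBall, dist_eq_norm]; exact hx)
      (by rw [mem_closedBall, dist_eq_norm]; exact hx')
    rw [norm_PP] at this
    exact this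

theorem lin_upper {n : ℕ} (hn : 2 ≤ n) {Λ : ℝ} (hΛ : 32 ≤ Λ) {m : ℕ} {c : ℂ} (h : Good n Λ m c)
    (hv : ∀ i ≤ m, 1 / 2 ≤ ‖v n c i‖) {x x' : ℂ} (hx : ‖x - c‖ ≤ 1 / (320 * n * Q n c m))
    (hx' : ‖x' - c‖ ≤ 1 / (320 * n * Q n c m)) {i : ℕ} (hi : i ≤ m + 1) :
    ‖v n x i - v n x' i‖ ≤ 5 / 4 * Q n c i * ‖x - x'‖ := by
  have h1 := lin_bound hn hΛ h hv hx hx' hi
  have h2 : ‖v n x i - v n x' i‖ ≤ ‖v n x i - v n x' i - PP n c i * (x - x')‖ +
      ‖PP n c i * (x - x')‖ := by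
    have := norm_add_le (v n x i - v n x' i - PP n c i * (x - x')) (PP n c i * (x - x'))
    rwa [sub_add_cancel] at this
  rw [norm_mul, norm_PP] at h2
  linarith

/-- The constants of the construction. -/
structure Setup (n : ℕ) (Λ : ℝ) (J : ℕ) (cs : ℂ) : Prop where
  hn : 2 ≤ n
  hcs : cs ^ (n - 1) = I * ((Λ / n : ℝ) : ℂ)
  hΛ : 10 ^ 6 ≤ Λ
  hJ1 : 1 ≤ J
  hJ : 10 ^ 5 * (J:ℝ) ≤ Λ
  hbig : (4 ^ J * Λ) ^ 2 ≤ n

/-- The targets. -/
noncomputable def ww (n : ℕ) (Λ : ℝ) (cs : ℂ) (j : ℕ) : ℂ := I * cs * ((4 ^ j * Λ / n : ℝ) : ℂ)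

namespace Setup

variable {n : ℕ} {Λ : ℝ} {J : ℕ} {cs : ℂ} (h : Setup n Λ J cs)

include h

theorem n_pos : (0:ℝ) < n := by exact_mod_cast (by have := h.hn; omega : 0 < n)

theorem Lpos : 0 < Λ := by have := h.hΛ; linarith

theorem big' {j : ℕ} (hj : j ≤ J) : (4:ℝ) ^ j * Λ ≤ n ∧ ((4:ℝ) ^ j * Λ) ^ 2 ≤ n := by
  have h1 : (4:ℝ) ^ j ≤ 4 ^ J := pow_le_pow_right₀ (by norm_num) hj
  have hL := h.Lpos
  have h2 : ((4:ℝ) ^ j * Λ) ^ 2 ≤ n := by
    refine le_trans ?_ h.hbig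
    gcongr
  have h3 : (1:ℝ) ≤ 4 ^ j * Λ := by
    have : (1:ℝ) ≤ 4 ^ j := one_le_pow₀ (by norm_num)
    have := h.hΛ
    nlinarith
  exact ⟨by nlinarith, h2⟩

theorem norm_pow : ‖cs‖ ^ (n - 1) = Λ / n := by
  have h1 := congrArg norm h.hcs
  have hn := h.n_pos
  have hL := h.Lpos
  rw [_root_.norm_pow, norm_mul, norm_I, one_mul, norm_real, Real.norm_eq_abs,
    abs_of_pos (by positivity)] at h1
  exact h1

theorem norm_pow_n : ‖cs‖ ^ n = ‖cs‖ * (Λ / n) := by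
  have h2 := h.hn
  obtain ⟨k, rfl⟩ : ∃ k, n = k + 1 := ⟨n - 1, by omega⟩
  rw [pow_succ, mul_comm]
  congr 1
  have := h.norm_pow
  simpa using this

theorem a_le : ‖cs‖ ≤ 1 := by
  by_contra hcon
  push Not at hcon
  have h1 : 1 < ‖cs‖ ^ (n - 1) := one_lt_pow₀ hcon (by have := h.hn; omega)
  rw [h.norm_pow] at h1
  have h2 := (h.big' (j := 0) (by omega)).1
  have hn := h.n_pos
  rw [pow_zero, one_mul] at h2
  rw [lt_div_iff₀ hn] at h1
  linarith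

theorem le_a : 3 / 4 ≤ ‖cs‖ := by
  by_contra hcon
  push Not at hcon
  have hn2 := h.hn
  have hn := h.n_pos
  have h1 : ‖cs‖ ^ (n - 1) ≤ (3 / 4) ^ (n - 1) := by gcongr
  rw [h.norm_pow] at h1
  have h2 := one_add_mul_le_pow (a := (1:ℝ) / 3) (by norm_num) (n - 1)
  have h3 : (1 + (1:ℝ) / 3) ^ (n - 1) * (3 / 4) ^ (n - 1) = 1 := by
    rw [← mul_pow]; norm_num
  have h4 : ((n - 1 : ℕ) : ℝ) = n - 1 := by push_cast [Nat.cast_sub (by omega : 1 ≤ n)]; ring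
  rw [h4] at h2
  have h5 : (0:ℝ) < (3 / 4) ^ (n - 1) := by positivity
  have h6 : (1 + ((n:ℝ) - 1) * (1 / 3)) * (3 / 4) ^ (n - 1) ≤ 1 := by nlinarith
  rw [div_le_iff₀ hn] at h1
  have h7 := h.hΛ
  nlinarith

theorem a_pos : 0 < ‖cs‖ := by have := h.le_a; linarith

theorem norm_ww (j : ℕ) : ‖ww n Λ cs j‖ = ‖cs‖ ^ n * 4 ^ j := by
  have hn := h.n_pos
  have hL := h.Lpos
  unfold ww
  rw [norm_mul, norm_mul, norm_I, one_mul, norm_real, Real.norm_eq_abs, abs_of_pos (by positivity),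
    h.norm_pow_n]
  ring

theorem norm_root {j : ℕ} {y : ℂ} (hy : y ^ n = ww n Λ cs j) : ‖y‖ ^ n = ‖cs‖ ^ n * 4 ^ j := by
  rw [← _root_.norm_pow, hy, h.norm_ww]

theorem le_root {j : ℕ} {y : ℂ} (hy : y ^ n = ww n Λ cs j) : ‖cs‖ ≤ ‖y‖ := by
  have h1 := h.norm_root hy
  have h2 : ‖cs‖ ^ n ≤ ‖y‖ ^ n := by
    rw [h1]
    have : (1:ℝ) ≤ 4 ^ j := one_le_pow₀ (by norm_num)
    have h3 : 0 ≤ ‖cs‖ ^ n := by positivity
    nlinarith
  exact le_of_pow_le_pow_left₀ (by have := h.hn; omega) (norm_nonneg _) h2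

theorem root_le {j : ℕ} (hj : j < J) {y : ℂ} (hy : y ^ n = ww n Λ cs j) :
    ‖y‖ ≤ ‖cs‖ * (1 + 3 * j / n) := by
  have hn := h.n_pos
  have h1 := h.norm_root hy
  have h3j : 3 * j ≤ n := by
    have h4 := h.hJ
    have h5 := (h.big' (j := 0) (by omega)).1
    rw [pow_zero, one_mul] at h5
    have h6 : (j:ℝ) ≤ J := by exact_mod_cast hj.le
    have : (3:ℝ) * j ≤ n := by
      have : (0:ℝ) ≤ J := by positivity
      nlinarith
    exact_mod_cast this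
  have h2 := four_pow_le (by have := h.hn; omega) h3j
  have h4 : ‖y‖ ^ n ≤ (‖cs‖ * (1 + 3 * j / n)) ^ n := by
    rw [h1, mul_pow]
    gcongr
  exact le_of_pow_le_pow_left₀ (by have := h.hn; omega) (by positivity) h4

theorem root_le_two {j : ℕ} (hj : j < J) {y : ℂ} (hy : y ^ n = ww n Λ cs j) :
    ‖y‖ ≤ ‖cs‖ + 3 * J / n ∧ ‖y‖ ≤ 2 * ‖cs‖ := by
  have hn := h.n_pos
  have h1 := h.root_le hj hy
  have ha := h.a_le
  have ha0 := h.a_pos
  have hj' : (j:ℝ) ≤ J := by exact_mod_cast hj.le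
  have hx : 3 * (j:ℝ) / n ≤ 3 * J / n := by gcongr
  have hx0 : 0 ≤ 3 * (j:ℝ) / n := by positivity
  have hx1 : 3 * (J:ℝ) / n ≤ 1 := by
    rw [div_le_one hn]
    have h4 := h.hJ
    have h5 := (h.big' (j := 0) (by omega)).1
    rw [pow_zero, one_mul] at h5
    have : (0:ℝ) ≤ J := by positivity
    nlinarith
  constructor
  · nlinarith
  · nlinarith

theorem ww_ne (j : ℕ) : ww n Λ cs j ≠ 0 := by
  rw [← norm_pos_iff, h.norm_ww]
  have := h.a_pos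
  positivity

theorem root_ne {j : ℕ} {y : ℂ} (hy : y ^ n = ww n Λ cs j) : y ≠ 0 := by
  rw [← norm_pos_iff]
  exact h.a_pos.trans_le (h.le_root hy)

theorem sep_root {j j' : ℕ} {y y' : ℂ} (hy : y ^ n = ww n Λ cs j) (hy' : y' ^ n = ww n Λ cs j')
    (hne : y ≠ y') : 3 / 4 ≤ n * ‖y - y'‖ := by
  have hn1 : 0 < n := by have := h.hn; omega
  have ha := h.le_a
  have hb : 0 < ‖cs‖ ^ n := by have := h.a_pos; positivity
  rcases lt_trichotomy j j' with hj | hj | hj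
  · have := roots_sep_diff hn1 hb (h.norm_root hy) (h.norm_root hy') hj
    linarith [h.le_root hy]
  · subst hj
    have := roots_sep_same hn1 (hy.trans hy'.symm) hne
    linarith [h.le_root hy]
  · have := roots_sep_diff hn1 hb (h.norm_root hy') (h.norm_root hy) hj
    rw [norm_sub_rev] at this
    linarith [h.le_root hy']

/-- The derivative at a root. -/
theorem root_u {j : ℕ} {y : ℂ} (hy : y ^ n = ww n Λ cs j) :
    n * ‖y‖ ^ (n - 1) * ‖y‖ = ‖cs‖ * (4 ^ j * Λ) := by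
  have hn := h.n_pos
  have h1 := h.norm_root hy
  rw [h.norm_pow_n] at h1
  have h2 : ‖y‖ ^ (n - 1) * ‖y‖ = ‖y‖ ^ n := by
    rw [← pow_succ]
    congr 1
    have := h.hn
    omega
  rw [mul_assoc, h2, h1]
  field_simp

theorem root_u_le {j : ℕ} {y : ℂ} (hy : y ^ n = ww n Λ cs j) :
    n * ‖y‖ ^ (n - 1) ≤ 4 ^ j * Λ := by
  have h1 := h.root_u hy
  have h2 := h.le_root hy
  have ha := h.a_pos
  have hL := h.Lpos
  have h3 : n * ‖y‖ ^ (n - 1) * ‖cs‖ ≤ (4 ^ j * Λ) * ‖cs‖ := by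
    calc n * ‖y‖ ^ (n - 1) * ‖cs‖ ≤ n * ‖y‖ ^ (n - 1) * ‖y‖ := by gcongr
      _ = _ := by rw [h1]; ring
  exact le_of_mul_le_mul_right h3 ha

theorem le_root_u {j : ℕ} (hj : j < J) {y : ℂ} (hy : y ^ n = ww n Λ cs j) :
    4 ^ j * Λ / 2 ≤ n * ‖y‖ ^ (n - 1) ∧ Λ ≤ n * ‖y‖ ^ (n - 1) := by
  have h1 := h.root_u hy
  have h2 := h.root_le_two hj hy
  have h3 := h.root_le hj hy
  have ha := h.a_pos
  have hL := h.Lpos
  have hn := h.n_pos
  have hy0 : 0 < ‖y‖ := ha.trans_le (h.le_root hy)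
  constructor
  · have h4 : (4 ^ j * Λ / 2) * ‖y‖ ≤ n * ‖y‖ ^ (n - 1) * ‖y‖ := by
      rw [h1]
      calc 4 ^ j * Λ / 2 * ‖y‖ ≤ 4 ^ j * Λ / 2 * (2 * ‖cs‖) := by gcongr; exact h2.2
        _ = _ := by ring
    exact le_of_mul_le_mul_right h4 hy0
  · have h4 : Λ * ‖y‖ ≤ n * ‖y‖ ^ (n - 1) * ‖y‖ := by
      rw [h1]
      have h5 := one_add_mul_le_pow (a := (3:ℝ)) (by norm_num) j
      have h6 : 3 * (j:ℝ) / n ≤ j * 3 := by
        rw [div_le_iff₀ hn]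
        have : (1:ℝ) ≤ n := by exact_mod_cast (by have := h.hn; omega : 1 ≤ n)
        have : (0:ℝ) ≤ j * 3 := by positivity
        nlinarith
      have h7 : 1 + 3 * (j:ℝ) / n ≤ 4 ^ j := by
        have : (1 + (3:ℝ)) ^ j = 4 ^ j := by norm_num
        linarith
      calc Λ * ‖y‖ ≤ Λ * (‖cs‖ * (1 + 3 * j / n)) := by gcongr
        _ ≤ Λ * (‖cs‖ * 4 ^ j) := by gcongr
        _ = _ := by ring
    exact le_of_mul_le_mul_right h4 hy0

/-- Points near the roots. -/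
theorem near_root {j : ℕ} (hj : j < J) {y : ℂ} (hy : y ^ n = ww n Λ cs j) {z : ℂ}
    (hz : ‖z - y‖ ≤ 1 / (100 * n)) :
    1 / 2 ≤ ‖z‖ ∧ ‖z‖ ≤ 3 ∧ Λ / 2 ≤ n * ‖z‖ ^ (n - 1) ∧ n * ‖z‖ ^ (n - 1) ≤ 4 * n := by
  have hn := h.n_pos
  have hn1 : (1:ℝ) ≤ n := by exact_mod_cast (by have := h.hn; omega : 1 ≤ n)
  have ha := h.le_a
  have ha1 := h.a_le
  have h1 := h.le_root hy
  have h2 := (h.root_le_two hj hy).2
  have hL := h.Lpos
  have hz1 : 1 / (100 * (n:ℝ)) ≤ 1 / 100 := by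
    rw [div_le_div_iff₀ (by positivity) (by norm_num)]
    linarith
  have h3 : ‖y‖ - 1 / (100 * n) ≤ ‖z‖ := by
    have := norm_sub_norm_le y z
    rw [norm_sub_rev] at this
    linarith
  have h4 : ‖z‖ ≤ ‖y‖ + 1 / (100 * n) := by
    have := norm_sub_norm_le z y
    linarith
  have hy34 : 3 / 4 ≤ ‖y‖ := by linarith
  have h5 : 1 / (100 * (n:ℝ)) ≤ ‖y‖ * (1 / (50 * n)) := by
    have : 1 / (100 * (n:ℝ)) = 1 / 2 * (1 / (50 * n)) := by field_simp; norm_num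
    rw [this]
    gcongr
    linarith
  have hnn : ((n - 1 : ℕ) : ℝ) = n - 1 := by
    push_cast [Nat.cast_sub (by have := h.hn; omega : 1 ≤ n)]; ring
  refine ⟨by linarith, by linarith, ?_, ?_⟩
  · have h6 : ‖y‖ * (1 + -(1 / (50 * n))) ≤ ‖z‖ := by
      have : ‖y‖ * (1 + -(1 / (50 * n))) = ‖y‖ - ‖y‖ * (1 / (50 * n)) := by ring
      linarith
    have h50 : 1 / (50 * (n:ℝ)) ≤ 1 / 50 := by
      rw [div_le_div_iff₀ (by positivity) (by norm_num)]
      linarith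
    have h7 := one_add_mul_le_pow (a := -(1 / (50 * (n:ℝ)))) (by linarith) (n - 1)
    have h8 : (1:ℝ) / 2 ≤ 1 + ((n - 1 : ℕ) : ℝ) * -(1 / (50 * n)) := by
      rw [hnn]
      have : ((n:ℝ) - 1) * -(1 / (50 * n)) = -(1 / 50) + 1 / (50 * n) := by field_simp; ring
      rw [this]
      have : 0 < 1 / (50 * (n:ℝ)) := by positivity
      linarith
    have h9 : 0 ≤ 1 + -(1 / (50 * (n:ℝ))) := by linarith
    calc Λ / 2 = Λ * (1 / 2) := by ring
      _ ≤ (n * ‖y‖ ^ (n - 1)) * (1 + -(1 / (50 * n))) ^ (n - 1) := by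
          have := (h.le_root_u hj hy).2
          gcongr
          linarith
      _ = n * (‖y‖ * (1 + -(1 / (50 * n)))) ^ (n - 1) := by rw [mul_pow]; ring
      _ ≤ _ := by gcongr
  · have h6 : ‖z‖ ≤ ‖y‖ * Real.exp (1 / (50 * n)) := by
      have : 1 + 1 / (50 * (n:ℝ)) ≤ Real.exp (1 / (50 * n)) := by
        linarith [Real.add_one_le_exp (1 / (50 * (n:ℝ)))]
      nlinarith
    have h7 : Real.exp (1 / (50 * n)) ^ (n - 1) ≤ 4 := by
      rw [← Real.exp_nat_mul, hnn]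
      have : ((n:ℝ) - 1) * (1 / (50 * n)) ≤ 1 := by
        have h10 : ((n:ℝ) - 1) * (1 / (50 * n)) = 1 / 50 - 1 / (50 * n) := by field_simp
        rw [h10]
        have : 0 < 1 / (50 * (n:ℝ)) := by positivity
        linarith
      calc Real.exp (((n:ℝ) - 1) * (1 / (50 * n))) ≤ Real.exp 1 := Real.exp_le_exp.2 this
        _ ≤ 4 := by linarith [Real.exp_one_lt_d9]
    calc n * ‖z‖ ^ (n - 1) ≤ n * (‖y‖ * Real.exp (1 / (50 * n))) ^ (n - 1) := by gcongr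
      _ = (n * ‖y‖ ^ (n - 1)) * Real.exp (1 / (50 * n)) ^ (n - 1) := by rw [mul_pow]; ring
      _ ≤ n * 4 := by
          have := h.root_u_le hy
          have := (h.big' hj.le).1
          gcongr
          linarith
      _ = _ := by ring

end Setup

end Pool.Agent.H205.DL
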