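import Pool.Agent.H205.DL3

/-!
# The children of a state
-/

set_option autoImplicit false
open Complex Metric Set Filter Topology MeasureTheory
open scoped ENNReal Real NNReal

namespace Pool.Agent.H205.DL

open Pool.Agent.H205.AR

/-- The states: the centre, the level, the scale of the last point, the left end of the interval. -/
abbrev St := ℂ × ℕ × ℕ × ℝ

/-- The radius of a state. -/
noncomputable def rho (n : ℕ) (S : St) : ℝ := 1 / (1000 * n * Q n S.1 S.2.1)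

/-- The length of the interval of a state. -/
noncomputable def len (n : ℕ) (Λ s : ℝ) (S : St) : ℝ :=
  (Q n S.1 S.2.1) ^ (-s) * (4 ^ S.2.2.1 * Λ) ^ (1 - s)

/-- The valid states. -/
structure Val (n : ℕ) (Λ : ℝ) (J : ℕ) (cs : ℂ) (S : St) : Prop where
  hjJ : S.2.2.1 < J
  hroot : (v n S.1 S.2.1) ^ n = ww n Λ cs S.2.2.1
  hnear : ∀ i ≤ S.2.1, ∃ j < J, ∃ y, y ^ n = ww n Λ cs j ∧
    ‖v n S.1 i - y‖ ≤ (1 - (1 / 2) ^ (S.2.1 - i)) / (200 * n)
  hball : closedBall S.1 (rho n S) ⊆ closedBall cs (1 / (1000 * n))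

section step

set_option linter.unusedSectionVars false

variable {n : ℕ} {Λ : ℝ} {J : ℕ} {cs : ℂ} (h : Setup n Λ J cs) {S : St} (hS : Val n Λ J cs S)

include h hS

theorem near_facts {i : ℕ} (hi : i ≤ S.2.1) : 1 / 2 ≤ ‖v n S.1 i‖ ∧ ‖v n S.1 i‖ ≤ 3 ∧
    Λ / 2 ≤ u n S.1 i ∧ u n S.1 i ≤ 4 * n := by
  obtain ⟨j, hj, y, hy, hz⟩ := hS.hnear i hi
  refine h.near_root hj hy (hz.trans ?_)
  have hn := h.n_pos
  have h1 : (0:ℝ) < (1 / 2) ^ (S.2.1 - i) := by positivity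
  calc (1 - (1 / 2 : ℝ) ^ (S.2.1 - i)) / (200 * n) ≤ 1 / (200 * n) := by gcongr; linarith
    _ ≤ 1 / (100 * n) := by gcongr; norm_num

theorem good : Good n (Λ / 2) S.2.1 S.1 := fun _ hi =>
  ⟨(near_facts h hS hi).2.2.1, (near_facts h hS hi).2.2.2⟩

theorem L32 : 32 ≤ Λ / 2 := by have := h.hΛ; linarith

theorem Qm_pos {i : ℕ} (hi : i ≤ S.2.1 + 1) : 0 < Q n S.1 i :=
  Q_pos fun j hj => (good h hS).u_pos (by linarith [L32 h hS]) (by omega)

theorem rho_pos : 0 < rho n S := by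
  have hn := h.n_pos
  have := Qm_pos h hS (i := S.2.1) (by omega)
  unfold rho
  positivity

theorem rho_le : rho n S ≤ 1 / (320 * n * Q n S.1 S.2.1) := by
  have hn := h.n_pos
  have := Qm_pos h hS (i := S.2.1) (by omega)
  unfold rho
  gcongr
  norm_num

/-- The last derivative. -/
theorem u_facts : u n S.1 S.2.1 ≤ 4 ^ S.2.2.1 * Λ ∧ 4 ^ S.2.2.1 * Λ / 2 ≤ u n S.1 S.2.1 ∧
    Λ ≤ u n S.1 S.2.1 :=
  ⟨h.root_u_le hS.hroot, (h.le_root_u hS.hjJ hS.hroot).1, (h.le_root_u hS.hjJ hS.hroot).2⟩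

theorem Q_next : Q n S.1 (S.2.1 + 1) = Q n S.1 S.2.1 * u n S.1 S.2.1 := Q_succ _ _ _

/-- Existence of the children. -/
theorem exists_child {y : ℂ} (hy : ‖y - v n S.1 (S.2.1 + 1)‖ ≤ 3 * u n S.1 S.2.1 / (8000 * n)) :
    ∃ c', ‖c' - S.1‖ ≤ rho n S / 2 ∧ v n c' (S.2.1 + 1) = y := by
  have hn := h.n_pos
  have hQ := Qm_pos h hS (i := S.2.1) (by omega)
  have hQ1 := Qm_pos h hS (i := S.2.1 + 1) le_rfl
  have hρ := rho_pos h hS
  have hr : rho n S / 2 ≤ rad n S.2.1 S.1 := by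
    have h1 := (near_facts h hS (i := S.2.1) le_rfl).1
    have h2 := rho_le h hS
    unfold rad
    calc rho n S / 2 ≤ 1 / (320 * n * Q n S.1 S.2.1) := by linarith
      _ = (1 / 2) / (160 * n * Q n S.1 S.2.1) := by field_simp; norm_num
      _ ≤ _ := by gcongr
  have hP : PP n S.1 (S.2.1 + 1) ≠ 0 := by
    rw [← norm_pos_iff, norm_PP]; exact hQ1
  refine LD.surj_aux (F := fun x => v n x (S.2.1 + 1)) (F' := fun x => DD n x (S.2.1 + 1)) hP
    (by linarith) (fun x _ => hasDerivAt_v n x _) (fun x hx => ?_) ?_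
  · rw [norm_PP]
    rw [mem_closedBall, dist_eq_norm] at hx
    exact core_deriv h.hn (L32 h hS) (good h hS) (hx.trans hr)
  · rw [norm_PP]
    refine hy.trans (le_of_eq ?_)
    rw [Q_next h hS]
    unfold rho
    field_simp
    ring

/-- The child is valid. -/
theorem child_valid {c' : ℂ} (hc : ‖c' - S.1‖ ≤ rho n S / 2) {j : ℕ} (hj : j < J)
    (hr : (v n c' (S.2.1 + 1)) ^ n = ww n Λ cs j) (l : ℝ) :
    Val n Λ J cs (c', S.2.1 + 1, j, l) ∧ rho n (c', S.2.1 + 1, j, l) ≤ rho n S / 2 ∧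
    rho n (c', S.2.1 + 1, j, l) ≤ 1 / (750 * n * Q n S.1 (S.2.1 + 1)) ∧
    closedBall c' (rho n (c', S.2.1 + 1, j, l)) ⊆ closedBall S.1 (rho n S) ∧
    Q n c' (S.2.1 + 1) ≤ 5 / 4 * Q n S.1 (S.2.1 + 1) := by
  have hn := h.n_pos
  have hQ := Qm_pos h hS (i := S.2.1) (by omega)
  have hQ1 := Qm_pos h hS (i := S.2.1 + 1) le_rfl
  have hρ := rho_pos h hS
  have hρ2 := rho_le h hS
  have hrad : rho n S / 2 ≤ rad n S.2.1 S.1 := by
    have h1 := (near_facts h hS (i := S.2.1) le_rfl).1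
    unfold rad
    calc rho n S / 2 ≤ 1 / (320 * n * Q n S.1 S.2.1) := by linarith
      _ = (1 / 2) / (160 * n * Q n S.1 S.2.1) := by field_simp; norm_num
      _ ≤ _ := by gcongr
  have hratio := Q_ratio h.hn (L32 h hS) (good h hS) (hc.trans hrad) (k := S.2.1 + 1) le_rfl
  have hQ' : 0 < Q n c' (S.2.1 + 1) := by linarith
  have hu := (u_facts h hS).2.2
  have hΛ := h.hΛ
  have hρ' : rho n (c', S.2.1 + 1, j, l) ≤ 1 / (750 * n * Q n S.1 (S.2.1 + 1)) := by
    unfold rho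
    simp only
    calc 1 / (1000 * n * Q n c' (S.2.1 + 1)) ≤ 1 / (1000 * n * (3 / 4 * Q n S.1 (S.2.1 + 1))) := by
          gcongr
          exact hratio.2
      _ = _ := by field_simp; norm_num
  have hρ'' : rho n (c', S.2.1 + 1, j, l) ≤ rho n S / 2 := by
    refine hρ'.trans ?_
    rw [Q_next h hS]
    unfold rho
    calc 1 / (750 * n * (Q n S.1 S.2.1 * u n S.1 S.2.1)) ≤ 1 / (750 * n * (Q n S.1 S.2.1 * 10 ^ 6)) := by
          gcongr
          linarith
      _ ≤ 1 / (2000 * n * Q n S.1 S.2.1) := by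
          apply one_div_le_one_div_of_le (by positivity)
          have : 0 < n * Q n S.1 S.2.1 := by positivity
          nlinarith
      _ = _ := by field_simp; norm_num
  have hsub : closedBall c' (rho n (c', S.2.1 + 1, j, l)) ⊆ closedBall S.1 (rho n S) := by
    apply closedBall_subset_closedBall'
    rw [dist_eq_norm]
    linarith
  refine ⟨⟨hj, hr, ?_, ?_⟩, hρ'', hρ', hsub, hratio.1⟩
  · intro i hi
    simp only at hi ⊢
    rcases Nat.lt_or_ge i (S.2.1 + 1) with hi' | hi'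
    · obtain ⟨j', hj', y, hy, hz⟩ := hS.hnear i (by omega)
      refine ⟨j', hj', y, hy, ?_⟩
      have h1 : ‖v n c' i - v n S.1 i‖ ≤ 5 / 4 * Q n S.1 i * ‖c' - S.1‖ :=
        lin_upper h.hn (L32 h hS) (good h hS) (fun i hi => (near_facts h hS hi).1)
          (by linarith) (by rw [sub_self, norm_zero]; positivity) (by omega)
      have h2 := Q_lower (by linarith [L32 h hS] : 0 < Λ / 2) (k := S.2.1) (j := i)
        (fun l hl => ((good h hS) l hl.le).1) (by omega)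
      have h3 : (2:ℝ) ^ (S.2.1 - i) ≤ (Λ / 2) ^ (S.2.1 - i) := by
        gcongr
        linarith
      have hQi := Qm_pos h hS (i := i) (by omega)
      have h4 : Q n S.1 i * 2 ^ (S.2.1 - i) ≤ Q n S.1 S.2.1 :=
        (mul_le_mul_of_nonneg_left h3 hQi.le).trans h2
      have h5 : ‖v n c' i - v n S.1 i‖ ≤ (1 / 2) ^ (S.2.1 - i) / (1600 * n) := by
        calc ‖v n c' i - v n S.1 i‖ ≤ 5 / 4 * Q n S.1 i * (rho n S / 2) :=
              h1.trans (by gcongr)
          _ = Q n S.1 i / (1600 * n * Q n S.1 S.2.1) := by unfold rho; field_simp; norm_num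
          _ ≤ Q n S.1 i / (1600 * n * (Q n S.1 i * 2 ^ (S.2.1 - i))) := by gcongr
          _ = _ := by
              rw [one_div_pow]
              field_simp
      have h6 : v n c' i - y = (v n c' i - v n S.1 i) + (v n S.1 i - y) := by ring
      have h7 : (1 / 2 : ℝ) ^ (S.2.1 + 1 - i) = (1 / 2) ^ (S.2.1 - i) / 2 := by
        rw [Nat.sub_add_comm (by omega : i ≤ S.2.1), pow_succ]
        ring
      rw [h6, h7]
      refine (norm_add_le _ _).trans ?_
      set q : ℝ := (1 / 2) ^ (S.2.1 - i) with hq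
      have hq0 : 0 < q := by rw [hq]; positivity
      calc ‖v n c' i - v n S.1 i‖ + ‖v n S.1 i - y‖ ≤ q / (1600 * n) + (1 - q) / (200 * n) :=
            add_le_add h5 hz
        _ ≤ q / (400 * n) + (1 - q) / (200 * n) := by gcongr; norm_num
        _ = _ := by field_simp; ring
    · have hi2 : i = S.2.1 + 1 := by omega
      subst hi2
      refine ⟨j, hj, v n c' (S.2.1 + 1), hr, ?_⟩
      rw [sub_self, norm_zero, Nat.sub_self, pow_zero, sub_self, zero_div]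
  · exact hsub.trans hS.hball

/-- The children are separated. -/
theorem child_sep {c₁ c₂ : ℂ} (hc₁ : ‖c₁ - S.1‖ ≤ rho n S / 2) (hc₂ : ‖c₂ - S.1‖ ≤ rho n S / 2)
    {j₁ j₂ : ℕ} (hr₁ : (v n c₁ (S.2.1 + 1)) ^ n = ww n Λ cs j₁)
    (hr₂ : (v n c₂ (S.2.1 + 1)) ^ n = ww n Λ cs j₂)
    (hne : v n c₁ (S.2.1 + 1) ≠ v n c₂ (S.2.1 + 1)) :
    1 / (2 * n * Q n S.1 (S.2.1 + 1)) + 2 * (1 / (750 * n * Q n S.1 (S.2.1 + 1))) ≤ ‖c₁ - c₂‖ := by
  have hn := h.n_pos
  have hQ1 := Qm_pos h hS (i := S.2.1 + 1) le_rfl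
  have hρ := rho_pos h hS
  have hρ2 := rho_le h hS
  have h1 := lin_upper h.hn (L32 h hS) (good h hS) (fun i hi => (near_facts h hS hi).1)
    (x := c₁) (x' := c₂) (by linarith) (by linarith) (i := S.2.1 + 1) le_rfl
  have h2 := h.sep_root hr₁ hr₂ hne
  have h3 : 3 / 4 ≤ n * (5 / 4 * Q n S.1 (S.2.1 + 1) * ‖c₁ - c₂‖) := h2.trans (by gcongr)
  have h4 : 1 / (2 * n * Q n S.1 (S.2.1 + 1)) + 2 * (1 / (750 * n * Q n S.1 (S.2.1 + 1))) =
      (1 / 2 + 2 / 750) / (n * Q n S.1 (S.2.1 + 1)) := by field_simp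
  rw [h4, div_le_iff₀ (by positivity)]
  nlinarith

end step

end Pool.Agent.H205.DL
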