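import Pool.Agent.H205.DL4

/-!
# The family of the children of a state
-/

set_option autoImplicit false
open Complex Metric Set Filter Topology MeasureTheory
open scoped ENNReal Real NNReal

namespace Pool.Agent.H205.DL

open Pool.Agent.H205.AR

section step

set_option linter.unusedSectionVars false

variable {n : ℕ} {Λ : ℝ} {J : ℕ} {cs : ℂ} (h : Setup n Λ J cs) {S : St} (hS : Val n Λ J cs S)

include h hS

theorem norm_next : |‖v n S.1 (S.2.1 + 1)‖ - ‖cs‖| ≤ 2 / n := by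
  have hn := h.n_pos
  have hL := h.Lpos
  have hb := h.big' hS.hjJ.le
  have ha := h.a_le
  have ha0 := h.a_pos
  set V : ℝ := 4 ^ S.2.2.1 * Λ with hV
  have hV0 : 0 < V := by rw [hV]; positivity
  have hc : ‖S.1 - cs‖ ≤ 1 / (1000 * n) := by
    have := hS.hball (mem_closedBall_self (rho_pos h hS).le)
    rwa [mem_closedBall, dist_eq_norm] at this
  have h1 : v n S.1 (S.2.1 + 1) = cs * (1 + I * ((V / n : ℝ) : ℂ)) + (S.1 - cs) := by
    rw [v_succ, hS.hroot]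
    unfold ww
    rw [← hV]
    ring
  have hsq : ‖(1:ℂ) + I * ((V / n : ℝ) : ℂ)‖ ^ 2 = 1 + (V / n) ^ 2 := by
    rw [Complex.sq_norm, Complex.normSq_apply]
    simp
    ring
  have hX : (V / n) ^ 2 ≤ 1 / n := by
    rw [div_pow, div_le_div_iff₀ (by positivity) hn]
    nlinarith [hb.2]
  have hX0 : 0 ≤ (V / n) ^ 2 := by positivity
  set Y := ‖(1:ℂ) + I * ((V / n : ℝ) : ℂ)‖ with hY
  have hY0 : 0 ≤ Y := norm_nonneg _
  have hY1 : 1 ≤ Y := by nlinarith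
  have hY2 : Y ≤ 1 + 1 / n := by
    have : (0:ℝ) < 1 / n := by positivity
    nlinarith
  have h2 : ‖v n S.1 (S.2.1 + 1)‖ ≤ ‖cs‖ * Y + 1 / (1000 * n) := by
    rw [h1]
    refine (norm_add_le _ _).trans ?_
    rw [norm_mul]
    linarith
  have h3 : ‖cs‖ * Y - 1 / (1000 * n) ≤ ‖v n S.1 (S.2.1 + 1)‖ := by
    rw [h1]
    have := norm_sub_norm_le (cs * (1 + I * ((V / n : ℝ) : ℂ))) (-(S.1 - cs))
    rw [norm_neg, sub_neg_eq_add, norm_mul] at this
    linarith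
  have h4 : 1 / (1000 * (n:ℝ)) ≤ 1 / n := by
    apply one_div_le_one_div_of_le hn
    linarith
  have h5 : 2 / (n:ℝ) = 1 / n + 1 / n := by ring
  have h6 : 0 < 1 / (n:ℝ) := by positivity
  rw [abs_le]
  constructor
  · nlinarith
  · have : ‖cs‖ * Y ≤ ‖cs‖ + 1 / n := by
      calc ‖cs‖ * Y ≤ ‖cs‖ * (1 + 1 / n) := by gcongr
        _ = ‖cs‖ + ‖cs‖ * (1 / n) := by ring
        _ ≤ ‖cs‖ + 1 * (1 / n) := by gcongr
        _ = _ := by ring
    linarith

/-- The targets near the next point. -/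
theorem exists_targets : ∃ y : ℕ × ℕ → ℂ,
    (∀ i ∈ Finset.range J ×ˢ Finset.range ⌊4 ^ S.2.2.1 * Λ / 10 ^ 5⌋₊,
      (y i) ^ n = ww n Λ cs i.1 ∧ ‖y i - v n S.1 (S.2.1 + 1)‖ ≤ 3 * u n S.1 S.2.1 / (8000 * n)) ∧
    (∀ i ∈ Finset.range J ×ˢ Finset.range ⌊4 ^ S.2.2.1 * Λ / 10 ^ 5⌋₊,
      ∀ i' ∈ Finset.range J ×ˢ Finset.range ⌊4 ^ S.2.2.1 * Λ / 10 ^ 5⌋₊, y i = y i' → i = i') := by
  have hn := h.n_pos
  have hn1 : 0 < n := by have := h.hn; omega
  have hL := h.Lpos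
  have hLL := h.hΛ
  have hb := h.big' hS.hjJ.le
  have hN1 : (1:ℝ) ≤ 4 ^ S.2.2.1 := one_le_pow₀ (by norm_num)
  set V : ℝ := 4 ^ S.2.2.1 * Λ with hV
  have hVL : Λ ≤ V := by rw [hV]; nlinarith
  set N := ⌊V / 10 ^ 5⌋₊ with hN
  have hNV : (N:ℝ) ≤ V / 10 ^ 5 := Nat.floor_le (by positivity)
  have hNn : N ≤ n := by
    have : (N:ℝ) ≤ n := by linarith
    exact_mod_cast this
  have hex : ∀ j : ℕ, ∃ f : ℕ → ℂ, j < J → (∀ k < N, f k ^ n = ww n Λ cs j ∧
      ‖f k - v n S.1 (S.2.1 + 1)‖ ≤ 3 * u n S.1 S.2.1 / (8000 * n)) ∧ InjOn f (Iio N) := by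
    intro j
    by_cases hj : j < J
    · obtain ⟨y0, hy0⟩ := IsAlgClosed.exists_pow_nat_eq (ww n Λ cs j) hn1
      obtain ⟨f, hf, hinj⟩ := roots_near hn1 (h.root_ne hy0) hy0 (z := v n S.1 (S.2.1 + 1)) hNn
      refine ⟨f, fun _ => ⟨fun k hk => ⟨(hf k hk).1, ?_⟩, hinj⟩⟩
      refine (hf k hk).2.2.trans ?_
      have h1 := norm_next h hS
      have h2 := (h.root_le_two hj hy0).1
      have h3 := h.le_root hy0
      have h4 := (u_facts h hS).2.1
      have ha := h.a_le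
      have h2' := (h.root_le_two hj hy0).2
      have hJ := h.hJ
      have hJ1 : (1:ℝ) ≤ J := by exact_mod_cast h.hJ1
      have h5 : |‖y0‖ - ‖v n S.1 (S.2.1 + 1)‖| ≤ (3 * J + 2) / n := by
        rw [abs_le] at h1 ⊢
        have e1 : (3 * (J:ℝ) + 2) / n = 3 * J / n + 2 / n := by ring
        have e2 : 0 ≤ 3 * (J:ℝ) / n := by positivity
        rw [e1]
        constructor <;> linarith [h1.1, h1.2]
      have h6 : ‖y0‖ * (2 * π * N / n) ≤ 13 * N / n := by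
        have hpi := Real.pi_lt_d2
        calc ‖y0‖ * (2 * π * N / n) ≤ 2 * (2 * 3.15 * N / n) := by
              gcongr
              linarith
          _ = 12.6 * N / n := by ring
          _ ≤ 13 * N / n := by
              gcongr
              norm_num
      calc |‖y0‖ - ‖v n S.1 (S.2.1 + 1)‖| + ‖y0‖ * (2 * π * N / n)
          ≤ (3 * J + 2) / n + 13 * N / n := add_le_add h5 h6
        _ = (3 * J + 2 + 13 * N) / n := by ring
        _ ≤ (3 * (4 ^ S.2.2.1 * Λ / 2) / 8000) / n := by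
            gcongr
            rw [← hV]
            linarith
        _ ≤ (3 * u n S.1 S.2.1 / 8000) / n := by gcongr
        _ = _ := by rw [div_div]
    · exact ⟨fun _ => 0, fun h => absurd h hj⟩
  choose f hf using hex
  refine ⟨fun i => f i.1 i.2, ?_, ?_⟩
  · rintro ⟨j, k⟩ hi
    rw [Finset.mem_product, Finset.mem_range, Finset.mem_range] at hi
    exact (hf j hi.1).1 k hi.2
  · rintro ⟨j, k⟩ hi ⟨j', k'⟩ hi' he
    rw [Finset.mem_product, Finset.mem_range, Finset.mem_range] at hi hi'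
    simp only at hi hi' he
    have h1 := ((hf j hi.1).1 k hi.2).1
    have h2 := ((hf j' hi'.1).1 k' hi'.2).1
    have hjj : j = j' := by
      have h3 := h.norm_root h1
      have h4 := h.norm_root h2
      rw [he, h4] at h3
      have h5 : (4:ℝ) ^ j' = 4 ^ j := by
        have hb : ‖cs‖ ^ n ≠ 0 := by have := h.a_pos; positivity
        exact mul_left_cancel₀ hb h3
      exact (pow_right_injective₀ (by norm_num) (by norm_num) h5).symm
    subst hjj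
    have := (hf j hi.1).2 hi.2 hi'.2 he
    simp only [Prod.mk.injEq, true_and]
    exact this

/-- The family of the children. -/
theorem family {s : ℝ} (hs1 : 1 ≤ s) (hs2 : s ≤ 2)
    (hsum : 10 ^ 6 ≤ ∑ j ∈ Finset.range J, ((4:ℝ) ^ j * Λ) ^ (1 - s)) :
    ∃ F : Set St, (∀ S' ∈ F, Val n Λ J cs S' ∧ closedBall S'.1 (rho n S') ⊆
        closedBall S.1 (rho n S) ∧ rho n S' ≤ rho n S / 2 ∧ S'.2.1 = S.2.1 + 1) ∧
      (∀ S' ∈ F, ∀ S'' ∈ F, S' ≠ S'' → ∀ x ∈ closedBall S'.1 (rho n S'),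
        ∀ y ∈ closedBall S''.1 (rho n S''), len n Λ s S ≤ (1000 * (n:ℝ) ^ 2) ^ s * dist x y ^ s) ∧
      ∀ t ∈ Ico S.2.2.2 (S.2.2.2 + len n Λ s S),
        ∃ S' ∈ F, t ∈ Ico S'.2.2.2 (S'.2.2.2 + len n Λ s S') := by
  have hn := h.n_pos
  have hL := h.Lpos
  have hLL := h.hΛ
  have hb := h.big' hS.hjJ.le
  have hN1 : (1:ℝ) ≤ 4 ^ S.2.2.1 := one_le_pow₀ (by norm_num)
  have hQ := Qm_pos h hS (i := S.2.1) (by omega)
  have hQ1 := Qm_pos h hS (i := S.2.1 + 1) le_rfl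
  obtain ⟨hu1, hu2, hu3⟩ := u_facts h hS
  have hu0 : 0 < u n S.1 S.2.1 := by linarith
  obtain ⟨y, hy, hyinj⟩ := exists_targets h hS
  set F0 := Finset.range J ×ˢ Finset.range ⌊4 ^ S.2.2.1 * Λ / 10 ^ 5⌋₊ with hF0
  have hex : ∀ i : ℕ × ℕ, ∃ c' : ℂ, i ∈ F0 → ‖c' - S.1‖ ≤ rho n S / 2 ∧
      v n c' (S.2.1 + 1) = y i := by
    intro i
    by_cases hi : i ∈ F0
    · obtain ⟨c', hc'⟩ := exists_child h hS (hy i hi).2
      exact ⟨c', fun _ => hc'⟩
    · exact ⟨0, fun h => absurd h hi⟩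
  choose c' hc' using hex
  have hJ' : ∀ i ∈ F0, i.1 < J := fun i hi => Finset.mem_range.1 (Finset.mem_product.1 hi).1
  have hr : ∀ i ∈ F0, (v n (c' i) (S.2.1 + 1)) ^ n = ww n Λ cs i.1 := by
    intro i hi
    rw [(hc' i hi).2]
    exact (hy i hi).1
  set V : ℝ := 4 ^ S.2.2.1 * Λ with hV
  have hVL : Λ ≤ V := by rw [hV]; nlinarith
  have hV0 : 0 < V := by linarith
  have hlenS : len n Λ s S = (Q n S.1 S.2.1) ^ (-s) * V ^ (1 - s) := rfl
  set μ : ℕ × ℕ → ℝ := fun i => (Q n (c' i) (S.2.1 + 1)) ^ (-s) * (4 ^ i.1 * Λ) ^ (1 - s) with hμ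
  obtain ⟨α, hα⟩ := cover_intervals F0 μ S.2.2.2
  have hQQ : 0 ≤ (Q n S.1 S.2.1) ^ (-s) := Real.rpow_nonneg hQ.le _
  have hμsum : len n Λ s S ≤ ∑ i ∈ F0, μ i := by
    have h1 : ∀ i ∈ F0, (5 / 4 * Q n S.1 (S.2.1 + 1)) ^ (-s) * (4 ^ i.1 * Λ) ^ (1 - s) ≤ μ i := by
      intro i hi
      have hv := child_valid h hS (hc' i hi).1 (hJ' i hi) (hr i hi) 0
      have hpos := Qm_pos h hv.1 (i := S.2.1 + 1) (by simp)
      simp only at hpos
      have h2 : (5 / 4 * Q n S.1 (S.2.1 + 1)) ^ (-s) ≤ (Q n (c' i) (S.2.1 + 1)) ^ (-s) :=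
        Real.rpow_le_rpow_of_nonpos hpos hv.2.2.2.2 (by linarith)
      rw [hμ]
      simp only
      gcongr
    have hN2 : V / (2 * 10 ^ 5) ≤ (⌊V / 10 ^ 5⌋₊ : ℝ) := by
      have := Nat.lt_floor_add_one (V / 10 ^ 5)
      have h3 : V / 10 ^ 5 = V / (2 * 10 ^ 5) + V / (2 * 10 ^ 5) := by ring
      have h4 : 1 ≤ V / (2 * 10 ^ 5) := by
        rw [le_div_iff₀ (by norm_num)]
        linarith
      linarith
    have hcst : (16 / 25 : ℝ) ≤ (5 / 4 : ℝ) ^ (-s) := by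
      have h3 : (5 / 4 : ℝ) ^ (-2 : ℝ) ≤ (5 / 4 : ℝ) ^ (-s) :=
        Real.rpow_le_rpow_of_exponent_le (by norm_num) (by linarith)
      have h4 : (5 / 4 : ℝ) ^ (-2 : ℝ) = 16 / 25 := by
        rw [Real.rpow_neg (by norm_num), show (2:ℝ) = ((2:ℕ):ℝ) by norm_num, Real.rpow_natCast]
        norm_num
      linarith
    have hVs : V * V ^ (-s) = V ^ (1 - s) := by
      rw [sub_eq_add_neg, Real.rpow_add hV0, Real.rpow_one]
    have huV : V ^ (-s) ≤ (u n S.1 S.2.1) ^ (-s) :=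
      Real.rpow_le_rpow_of_nonpos hu0 hu1 (by linarith)
    have hVV : 0 ≤ V ^ (-s) := Real.rpow_nonneg hV0.le _
    calc len n Λ s S = (Q n S.1 S.2.1) ^ (-s) * (V * V ^ (-s)) := by rw [hlenS, hVs]
      _ ≤ (V / (2 * 10 ^ 5)) * (16 / 25 * (Q n S.1 S.2.1) ^ (-s) * V ^ (-s)) * 10 ^ 6 := by
          have : 0 ≤ (Q n S.1 S.2.1) ^ (-s) * (V * V ^ (-s)) := by positivity
          nlinarith
      _ ≤ (⌊V / 10 ^ 5⌋₊ : ℝ) * ((5 / 4 : ℝ) ^ (-s) * (Q n S.1 S.2.1) ^ (-s) *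
            (u n S.1 S.2.1) ^ (-s)) * ∑ j ∈ Finset.range J, ((4:ℝ) ^ j * Λ) ^ (1 - s) := by
          gcongr
      _ = (⌊V / 10 ^ 5⌋₊ : ℝ) * (5 / 4 * Q n S.1 (S.2.1 + 1)) ^ (-s) *
            ∑ j ∈ Finset.range J, ((4:ℝ) ^ j * Λ) ^ (1 - s) := by
          rw [Q_next h hS, Real.mul_rpow (by norm_num) (by positivity),
            Real.mul_rpow hQ.le hu0.le]
          ring
      _ = ∑ i ∈ F0, (5 / 4 * Q n S.1 (S.2.1 + 1)) ^ (-s) * (4 ^ i.1 * Λ) ^ (1 - s) := by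
          rw [hF0, Finset.sum_product]
          simp only [Finset.sum_const, Finset.card_range, nsmul_eq_mul]
          rw [Finset.mul_sum]
          refine Finset.sum_congr rfl fun j _ => ?_
          ring
      _ ≤ ∑ i ∈ F0, μ i := Finset.sum_le_sum h1
  refine ⟨{S' | ∃ i ∈ F0, S' = (c' i, S.2.1 + 1, i.1, α i)}, ?_, ?_, ?_⟩
  · rintro _ ⟨i, hi, rfl⟩
    have hv := child_valid h hS (hc' i hi).1 (hJ' i hi) (hr i hi) (α i)
    exact ⟨hv.1, hv.2.2.2.1, hv.2.1, rfl⟩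
  · rintro _ ⟨i, hi, rfl⟩ _ ⟨i', hi', rfl⟩ hne x hx x' hx'
    have hii : i ≠ i' := by
      rintro rfl
      exact hne rfl
    have hyy : v n (c' i) (S.2.1 + 1) ≠ v n (c' i') (S.2.1 + 1) := by
      rw [(hc' i hi).2, (hc' i' hi').2]
      exact fun he => hii (hyinj i hi i' hi' he)
    have h1 := child_sep h hS (hc' i hi).1 (hc' i' hi').1 (hr i hi) (hr i' hi') hyy
    have hv := (child_valid h hS (hc' i hi).1 (hJ' i hi) (hr i hi) (α i)).2.2.1
    have hv' := (child_valid h hS (hc' i' hi').1 (hJ' i' hi') (hr i' hi') (α i')).2.2.1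
    rw [mem_closedBall] at hx hx'
    have h2 : ‖c' i - c' i'‖ ≤ dist x x' + dist x (c' i) + dist x' (c' i') := by
      rw [← dist_eq_norm]
      calc dist (c' i) (c' i') ≤ dist (c' i) x + dist x (c' i') := dist_triangle _ _ _
        _ ≤ dist (c' i) x + (dist x x' + dist x' (c' i')) := by
            gcongr; exact dist_triangle _ _ _
        _ = _ := by rw [dist_comm (c' i) x]; ring
    simp only at hx hx'
    have h3 : 1 / (2 * n * Q n S.1 (S.2.1 + 1)) ≤ dist x x' := by linarith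
    have h4 : 1 / (2 * (n:ℝ) ^ 2 * Q n S.1 S.2.1) ≤ dist x x' := by
      refine le_trans ?_ h3
      rw [Q_next h hS]
      apply one_div_le_one_div_of_le (by positivity)
      have : u n S.1 S.2.1 ≤ n := by linarith [hb.1]
      calc 2 * n * (Q n S.1 S.2.1 * u n S.1 S.2.1) ≤ 2 * n * (Q n S.1 S.2.1 * n) := by gcongr
        _ = _ := by ring
    have hV1 : V ^ (1 - s) ≤ 1 := Real.rpow_le_one_of_one_le_of_nonpos (by linarith) (by linarith)
    calc len n Λ s S ≤ (Q n S.1 S.2.1) ^ (-s) * 1 := by rw [hlenS]; gcongr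
      _ = (1 / Q n S.1 S.2.1) ^ s := by
          rw [mul_one, Real.rpow_neg hQ.le, one_div, Real.inv_rpow hQ.le]
      _ ≤ (1000 * (n:ℝ) ^ 2 * (1 / (2 * (n:ℝ) ^ 2 * Q n S.1 S.2.1))) ^ s := by
          apply Real.rpow_le_rpow (by positivity) _ (by linarith)
          have e : 1000 * (n:ℝ) ^ 2 * (1 / (2 * (n:ℝ) ^ 2 * Q n S.1 S.2.1)) =
            500 * (1 / Q n S.1 S.2.1) := by field_simp; norm_num
          rw [e]
          have : 0 < 1 / Q n S.1 S.2.1 := by positivity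
          linarith
      _ ≤ (1000 * (n:ℝ) ^ 2 * dist x x') ^ s := by
          apply Real.rpow_le_rpow (by positivity) _ (by linarith)
          gcongr
      _ = _ := by rw [Real.mul_rpow (by positivity) dist_nonneg]
  · intro t ht
    obtain ⟨i, hi, hti⟩ := hα t ⟨ht.1, ht.2.trans_le (by linarith)⟩
    exact ⟨_, ⟨i, hi, rfl⟩, hti⟩

end step

end Pool.Agent.H205.DL
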