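import Pool.Agent.H205.DL5
import Pool.Prelude.Def_F_c31e40fa

/-!
# The lower bound of the dimension
-/

set_option autoImplicit false
open Complex Metric Set Filter Topology MeasureTheory
open scoped ENNReal Real NNReal

namespace Pool.Agent.H205.DL

open Pool.Agent.H205.AR

theorem mem_multibrot {n : ℕ} (hn : 2 ≤ n) {c : ℂ} {B : ℝ} (hc : ∀ j, ‖v n c j‖ ≤ B) :
    c ∈ N62a1eb23.multibrotSet n := by
  intro hT
  have h1 : ∀ k, (fun z : ℂ => z ^ n + c)^[k + 1] 0 = v n c k := by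
    intro k
    induction k with
    | zero =>
      show (0:ℂ) ^ n + c = c
      rw [zero_pow (by omega), zero_add]
    | succ k ih =>
      rw [Function.iterate_succ_apply', ih]
      rfl
  have h2 : Tendsto (fun k => ‖(fun z : ℂ => z ^ n + c)^[k + 1] 0‖) atTop atTop :=
    tendsto_norm_cobounded_atTop.comp (hT.comp (tendsto_add_atTop_nat 1))
  obtain ⟨k, hk⟩ := (h2.eventually (eventually_gt_atTop B)).exists
  rw [h1 k] at hk
  exact absurd hk (not_lt.2 (hc k))

theorem lower {n : ℕ} {Λ : ℝ} {J : ℕ} {cs : ℂ} (h : Setup n Λ J cs) {s : ℝ} (hs1 : 1 ≤ s)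
    (hs2 : s ≤ 2) (hsum : 10 ^ 6 ≤ ∑ j ∈ Finset.range J, ((4:ℝ) ^ j * Λ) ^ (1 - s)) :
    ENNReal.ofReal s ≤ dimH {c | c ∈ N62a1eb23.multibrotSet n ∧ ∀ j, Λ / 2 ≤ u n c j} := by
  have hn := h.n_pos
  have hn1 : (1:ℝ) ≤ n := by exact_mod_cast (by have := h.hn; omega : 1 ≤ n)
  have hex : ∀ S : St, ∃ F : Set St, Val n Λ J cs S →
      (∀ S' ∈ F, Val n Λ J cs S' ∧ closedBall S'.1 (rho n S') ⊆
        closedBall S.1 (rho n S) ∧ rho n S' ≤ rho n S / 2 ∧ S'.2.1 = S.2.1 + 1) ∧
      (∀ S' ∈ F, ∀ S'' ∈ F, S' ≠ S'' → ∀ x ∈ closedBall S'.1 (rho n S'),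
        ∀ y ∈ closedBall S''.1 (rho n S''), len n Λ s S ≤ (1000 * (n:ℝ) ^ 2) ^ s * dist x y ^ s) ∧
      ∀ t ∈ Ico S.2.2.2 (S.2.2.2 + len n Λ s S),
        ∃ S' ∈ F, t ∈ Ico S'.2.2.2 (S'.2.2.2 + len n Λ s S') := by
    intro S
    by_cases hS : Val n Λ J cs S
    · obtain ⟨F, hF⟩ := family h hS hs1 hs2 hsum
      exact ⟨F, fun _ => hF⟩
    · exact ⟨∅, fun h => absurd h hS⟩
  choose Fam hFam using hex
  have h0 : Val n Λ J cs (cs, 0, 0, 0) := by
    have hcs : cs ^ n = ww n Λ cs 0 := by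
      have h2 := h.hn
      obtain ⟨k, rfl⟩ : ∃ k, n = k + 1 := ⟨n - 1, by omega⟩
      have h3 := h.hcs
      rw [Nat.add_sub_cancel] at h3
      rw [pow_succ, h3]
      unfold ww
      rw [pow_zero, one_mul]
      ring
    refine ⟨h.hJ1, hcs, ?_, ?_⟩
    · intro i hi
      simp only at hi ⊢
      obtain rfl : i = 0 := by omega
      refine ⟨0, h.hJ1, cs, hcs, ?_⟩
      rw [v_zero, sub_self, norm_zero]
      simp
    · unfold rho
      simp only
      rw [Q_zero, mul_one]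
  have hmain := dimH_tree (V := Val n Λ J cs) (Fam := Fam) (ctr := fun S : St => S.1)
    (rad := rho n) (left := fun S : St => S.2.2.2) (len := len n Λ s) (s := s)
    (K := (1000 * (n:ℝ) ^ 2) ^ s) (by linarith) (by positivity)
    (fun S hS => (rho_pos h hS).le)
    (fun S hS S' hS' => ⟨((hFam S hS).1 S' hS').1, ((hFam S hS).1 S' hS').2.1,
      ((hFam S hS).1 S' hS').2.2.1⟩)
    (fun S hS => (hFam S hS).2.1) (fun S hS => (hFam S hS).2.2)
    (fun S hS => by
      have hQ := Qm_pos h hS (i := S.2.1) (by omega)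
      have hLL := h.hΛ
      have hN1 : (1:ℝ) ≤ 4 ^ S.2.2.1 := one_le_pow₀ (by norm_num)
      have hV1 : (1:ℝ) ≤ 4 ^ S.2.2.1 * Λ := by nlinarith
      have hV : (4 ^ S.2.2.1 * Λ) ^ (1 - s) ≤ 1 :=
        Real.rpow_le_one_of_one_le_of_nonpos hV1 (by linarith)
      have hQQ : 0 ≤ (Q n S.1 S.2.1) ^ (-s) := Real.rpow_nonneg hQ.le _
      calc len n Λ s S ≤ (Q n S.1 S.2.1) ^ (-s) * 1 := by unfold len; gcongr
        _ = (1 / Q n S.1 S.2.1) ^ s := by
            rw [mul_one, Real.rpow_neg hQ.le, one_div, Real.inv_rpow hQ.le]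
        _ ≤ (1000 * (n:ℝ) ^ 2 * rho n S) ^ s := by
            apply Real.rpow_le_rpow (by positivity) _ (by linarith)
            have e : 1000 * (n:ℝ) ^ 2 * rho n S = n * (1 / Q n S.1 S.2.1) := by
              unfold rho; field_simp
            rw [e]
            have : 0 < 1 / Q n S.1 S.2.1 := by positivity
            nlinarith
        _ = _ := by rw [Real.mul_rpow (by positivity) (rho_pos h hS).le])
    (S₀ := (cs, 0, 0, 0)) h0 (by
      unfold len
      have := h.Lpos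
      simp only
      rw [Q_zero]
      positivity)
  refine hmain.trans (dimH_mono ?_)
  rintro x ⟨T, hT0, hT1, hT2⟩
  have hVal : ∀ k, Val n Λ J cs (T k) ∧ (T k).2.1 = k := by
    intro k
    induction k with
    | zero => rw [hT0]; exact ⟨h0, rfl⟩
    | succ k ih =>
      have := (hFam (T k) ih.1).1 _ (hT1 k)
      exact ⟨this.1, by rw [this.2.2.2, ih.2]⟩
  have hx : ∀ k, ‖v n x k‖ ≤ 3 ∧ Λ / 2 ≤ u n x k := by
    intro k
    have hS := (hVal k).1
    have hk := (hVal k).2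
    obtain ⟨j, hj, y, hy, hz⟩ := hS.hnear k (by omega)
    rw [hk, Nat.sub_self, pow_zero, sub_self, zero_div] at hz
    have h1 := hT2 k
    simp only [mem_closedBall, dist_eq_norm] at h1
    have hρ2 := rho_le h hS
    have hQ := Qm_pos h hS (i := k) (by omega)
    have h2 : ‖v n x k - v n (T k).1 k‖ ≤ 5 / 4 * Q n (T k).1 k * ‖x - (T k).1‖ :=
      lin_upper h.hn (L32 h hS) (good h hS) (fun i hi => (near_facts h hS hi).1)
        (by linarith) (by
          rw [sub_self, norm_zero]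
          exact (rho_pos h hS).le.trans hρ2) (by omega)
    have h3 : ‖v n x k - v n (T k).1 k‖ ≤ 1 / (800 * n) := by
      calc ‖v n x k - v n (T k).1 k‖ ≤ 5 / 4 * Q n (T k).1 k * rho n (T k) := h2.trans (by gcongr)
        _ = 1 / (800 * n) := by
            unfold rho
            rw [hk]
            field_simp
            norm_num
    have h4 : ‖v n x k - y‖ ≤ 1 / (100 * n) := by
      have e : v n x k - y = (v n x k - v n (T k).1 k) + (v n (T k).1 k - y) := by ring
      rw [e]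
      refine (norm_add_le _ _).trans ?_
      have : 1 / (800 * (n:ℝ)) ≤ 1 / (100 * n) := by gcongr; norm_num
      linarith
    have h5 := h.near_root hj hy h4
    exact ⟨h5.2.1, h5.2.2.1⟩
  exact ⟨mem_multibrot h.hn fun j => (hx j).1, fun j => (hx j).2⟩

end Pool.Agent.H205.DL
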