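import Pool.Agent.H205.LD1

/-!
# Dimension of the parameters of `z ^ n + c` with expanding critical orbits: the recursion
-/

set_option autoImplicit false
open Complex Metric Set Filter Topology MeasureTheory
open scoped ENNReal Real

namespace Pool.Agent.H205.DM

open Pool.Agent.H205.AR Pool.Agent.H205.LD

/-- The trivial sets. -/
def TU : ℕ → Set ℂ := fun _ => univ

theorem TU_meas (k : ℕ) : MeasurableSet (TU k) := MeasurableSet.univ

theorem adm_TU (n : ℕ) (Λ : ℝ) (k : ℕ) : Adm n Λ TU k := fun _ _ _ _ _ => mem_univ _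

theorem rpow_five_fourth {x p : ℝ} (hx : 0 ≤ x) (hp0 : 0 ≤ p) (hp1 : p ≤ 1) :
    (5 / 4 * x) ^ p ≤ 2 * x ^ p := by
  rw [Real.mul_rpow (by norm_num) hx]
  have h1 : (5 / 4 : ℝ) ^ p ≤ (5 / 4) ^ (1:ℝ) := Real.rpow_le_rpow_of_exponent_le (by norm_num) hp1
  rw [Real.rpow_one] at h1
  have h2 : 0 ≤ x ^ p := Real.rpow_nonneg hx p
  nlinarith

theorem rpow_three_fourth {x p : ℝ} (hx : 0 ≤ x) (hp0 : 0 ≤ p) (hp1 : p ≤ 1) :
    1 / 2 * x ^ p ≤ (3 / 4 * x) ^ p := by
  rw [Real.mul_rpow (by norm_num) hx]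
  have h1 : (3 / 4 : ℝ) ^ (1:ℝ) ≤ (3 / 4) ^ p :=
    Real.rpow_le_rpow_of_exponent_ge (by norm_num) (by norm_num) hp1
  rw [Real.rpow_one] at h1
  have h2 : 0 ≤ x ^ p := Real.rpow_nonneg hx p
  nlinarith

/-- The function `t ^ p / t` on `[a, b]`. -/
noncomputable def φ3 (p a b : ℝ) : ℝ → ℝ≥0∞ :=
  (Icc a b).indicator fun t => ENNReal.ofReal (t ^ p / t)

theorem measurable_φ3 (p a b : ℝ) : Measurable (φ3 p a b) := by
  unfold φ3
  apply Measurable.indicator _ measurableSet_Icc
  fun_prop

theorem lintegral_φ3 {p a b : ℝ} (hp : p < 1) (ha : 0 < a) :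
    ∫⁻ h, φ3 p a b (Real.exp h) ≤ ENNReal.ofReal (a ^ p / a / (1 - p)) := by
  have hp' : p - 1 < 0 := by linarith
  have hint : IntegrableOn (fun h : ℝ => Real.exp ((p - 1) * h)) (Ioi (Real.log a)) :=
    integrableOn_exp_mul_Ioi hp' _
  have hae : ∀ᵐ h : ℝ, h ≠ Real.log a := by
    rw [ae_iff]
    simp
  calc ∫⁻ h, φ3 p a b (Real.exp h)
      ≤ ∫⁻ h in Ioi (Real.log a), ENNReal.ofReal (Real.exp ((p - 1) * h)) := by
        rw [← lintegral_indicator measurableSet_Ioi]
        apply lintegral_mono_ae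
        filter_upwards [hae] with h hne
        by_cases hh : Real.exp h ∈ Icc a b
        · have h2 : h ∈ Ioi (Real.log a) := by
            rw [mem_Ioi]
            apply lt_of_le_of_ne _ (Ne.symm hne)
            have := Real.log_le_log ha hh.1
            rwa [Real.log_exp] at this
          unfold φ3
          rw [indicator_of_mem hh, indicator_of_mem h2]
          apply ENNReal.ofReal_le_ofReal
          rw [← Real.exp_mul, ← Real.exp_sub]
          apply Real.exp_le_exp.2
          linarith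
        · unfold φ3
          rw [indicator_of_notMem hh]
          exact bot_le
    _ = ENNReal.ofReal (∫ h in Ioi (Real.log a), Real.exp ((p - 1) * h)) := by
        rw [← ofReal_integral_eq_lintegral_ofReal hint]
        exact Eventually.of_forall fun h => (Real.exp_pos _).le
    _ = ENNReal.ofReal (a ^ p / a / (1 - p)) := by
        congr 1
        rw [integral_exp_mul_Ioi hp']
        have h3 : Real.exp ((p - 1) * Real.log a) = a ^ p / a := by
          rw [mul_comm, ← Real.rpow_def_of_pos ha, Real.rpow_sub ha, Real.rpow_one]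
        rw [h3, neg_div, ← div_neg]
        congr 1
        ring

section rec

variable {n : ℕ} (hn : 2 ≤ n) {Λ : ℝ} (hΛ : 32 ≤ Λ) {p : ℝ} (hp0 : 0 ≤ p) (hp1 : p < 1)

/-- The integral of level `k`. -/
noncomputable def JJ (n : ℕ) (Λ p : ℝ) (k : ℕ) : ℝ≥0∞ :=
  ∫⁻ c in Om n Λ TU k, ENNReal.ofReal ((n * Q n c (k + 1)) ^ p) * ENNReal.ofReal (1 / u n c k)

/-- The integral of the radii of level `k`. -/
noncomputable def LL (n : ℕ) (Λ p : ℝ) (k : ℕ) : ℝ≥0∞ :=
  ∫⁻ c in Om n Λ TU k, ENNReal.ofReal ((n * Q n c k) ^ p)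

include hn hΛ hp0 hp1

theorem JJ_succ (k : ℕ) :
    JJ n Λ p (k + 1) ≤ ENNReal.ofReal (1280000 * (Λ ^ p / Λ / (1 - p))) * JJ n Λ p k := by
  have hΛ0 : 0 < Λ := by linarith
  have hn0 : (0:ℝ) < n := by exact_mod_cast (by omega : 0 < n)
  have hmeas : Measurable ((Om n Λ TU (k + 1)).indicator fun x =>
      ENNReal.ofReal ((n * Q n x (k + 1 + 1)) ^ p) * ENNReal.ofReal (1 / u n x (k + 1))) := by
    apply Measurable.indicator _ (measurableSet_Om _ _ TU_meas _)
    exact (ENNReal.measurable_ofReal.comp ((measurable_const.mul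
      (continuous_Q n (k + 1 + 1)).measurable).pow_const p)).mul
      (ENNReal.measurable_ofReal.comp (measurable_const.div (continuous_u n (k + 1)).measurable))
  have h1 := descend hn hΛ (T := TU) (m := k) TU_meas (adm_TU n Λ k) hmeas (fun x hx => by
    apply LD.Om_succ_subset_Pre
    by_contra hcon
    exact hx (indicator_of_notMem hcon _))
    (A := fun c => ENNReal.ofReal (2 * (n * Q n c (k + 1)) ^ p))
    (φ := fun _ => φ3 p Λ (4 * n)) (fun _ => measurable_φ3 _ _ _)
    (fun _ x hx => indicator_of_notMem (fun h => absurd h.2 (not_le.2 hx)) _)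
    (fun c hcO x hx => by
      have hc := Good_of_Om hΛ0.le hcO
      by_cases hxO : x ∈ Om n Λ TU (k + 1)
      · rw [indicator_of_mem hxO]
        have hG := Good_of_Om hΛ0.le hxO
        obtain ⟨h2, h3⟩ := hG (k + 1) le_rfl
        have hu0 : 0 < u n x (k + 1) := by linarith
        have hQc : 0 < Q n c (k + 1) := Q_pos fun j hj => hc.u_pos hΛ0 (by omega)
        obtain ⟨h5, h6⟩ := Q_ratio hn hΛ hc hx.le (k := k + 1) le_rfl
        have hQx : 0 < Q n x (k + 1) := by linarith
        unfold φ3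
        rw [indicator_of_mem (show u n x (k + 1) ∈ Icc Λ (4 * n) from ⟨h2, h3⟩),
          ← ENNReal.ofReal_mul' (by positivity), ← ENNReal.ofReal_mul' (by positivity)]
        apply ENNReal.ofReal_le_ofReal
        rw [Q_succ, ← mul_assoc, Real.mul_rpow (by positivity) hu0.le]
        have h7 : (n * Q n x (k + 1)) ^ p ≤ 2 * (n * Q n c (k + 1)) ^ p := by
          refine le_trans ?_ (rpow_five_fourth (by positivity) hp0 hp1.le)
          apply Real.rpow_le_rpow (by positivity) _ hp0
          calc n * Q n x (k + 1) ≤ n * (5 / 4 * Q n c (k + 1)) := by gcongr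
            _ = _ := by ring
        calc (n * Q n x (k + 1)) ^ p * u n x (k + 1) ^ p * (1 / u n x (k + 1))
            = (n * Q n x (k + 1)) ^ p * (u n x (k + 1) ^ p / u n x (k + 1)) := by ring
          _ ≤ _ := by gcongr
      · rw [indicator_of_notMem hxO]
        exact bot_le)
  rw [lintegral_indicator (measurableSet_Om _ _ TU_meas _)] at h1
  unfold JJ
  refine h1.trans ?_
  have h7 := lintegral_φ3 (b := 4 * n) hp1 hΛ0
  have h1p : 0 < 1 - p := by linarith
  calc 640000 * ∫⁻ c in Om n Λ TU k, ENNReal.ofReal (2 * (n * Q n c (k + 1)) ^ p) *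
        ENNReal.ofReal (1 / u n c k) * ∫⁻ h, φ3 p Λ (4 * n) (Real.exp h)
      ≤ 640000 * ∫⁻ c in Om n Λ TU k, ENNReal.ofReal (2 * (n * Q n c (k + 1)) ^ p) *
        ENNReal.ofReal (1 / u n c k) * ENNReal.ofReal (Λ ^ p / Λ / (1 - p)) := by
        gcongr
    _ = 640000 * ∫⁻ c in Om n Λ TU k, ENNReal.ofReal (2 * (Λ ^ p / Λ / (1 - p))) *
          (ENNReal.ofReal ((n * Q n c (k + 1)) ^ p) * ENNReal.ofReal (1 / u n c k)) := by
        congr 1
        apply lintegral_congr
        intro c
        rw [ENNReal.ofReal_mul (by norm_num : (0:ℝ) ≤ 2),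
          ENNReal.ofReal_mul (by norm_num : (0:ℝ) ≤ 2)]
        ring
    _ = _ := by
        rw [lintegral_const_mul' _ _ ENNReal.ofReal_ne_top, ← mul_assoc]
        congr 1
        have : (640000 : ℝ≥0∞) = ENNReal.ofReal 640000 := by norm_num
        rw [this, ← ENNReal.ofReal_mul (by norm_num)]
        congr 1
        ring

theorem LL_succ (k : ℕ) :
    LL n Λ p (k + 1) ≤ ENNReal.ofReal (1280000 * Real.log (4 * n)) * JJ n Λ p k := by
  have hΛ0 : 0 < Λ := by linarith
  have hn0 : (0:ℝ) < n := by exact_mod_cast (by omega : 0 < n)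
  have hmeas : Measurable ((Om n Λ TU (k + 1)).indicator fun x =>
      ENNReal.ofReal ((n * Q n x (k + 1)) ^ p)) := by
    apply Measurable.indicator _ (measurableSet_Om _ _ TU_meas _)
    exact (ENNReal.measurable_ofReal.comp ((measurable_const.mul
      (continuous_Q n (k + 1)).measurable).pow_const p))
  have h1 := descend hn hΛ (T := TU) (m := k) TU_meas (adm_TU n Λ k) hmeas (fun x hx => by
    apply LD.Om_succ_subset_Pre
    by_contra hcon
    exact hx (indicator_of_notMem hcon _))
    (A := fun c => ENNReal.ofReal (2 * (n * Q n c (k + 1)) ^ p))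
    (φ := fun _ => φ2 1 (4 * n)) (fun _ => measurable_φ2 _ _)
    (fun _ x hx => indicator_of_notMem (fun h => absurd h.2 (not_le.2 hx)) _)
    (fun c hcO x hx => by
      have hc := Good_of_Om hΛ0.le hcO
      by_cases hxO : x ∈ Om n Λ TU (k + 1)
      · rw [indicator_of_mem hxO]
        have hG := Good_of_Om hΛ0.le hxO
        obtain ⟨h2, h3⟩ := hG (k + 1) le_rfl
        have hQc : 0 < Q n c (k + 1) := Q_pos fun j hj => hc.u_pos hΛ0 (by omega)
        obtain ⟨h5, h6⟩ := Q_ratio hn hΛ hc hx.le (k := k + 1) le_rfl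
        have hQx : 0 < Q n x (k + 1) := by linarith
        unfold φ2
        rw [indicator_of_mem (show u n x (k + 1) ∈ Icc 1 (4 * (n:ℝ)) from ⟨by linarith, h3⟩),
          mul_one]
        apply ENNReal.ofReal_le_ofReal
        refine le_trans ?_ (rpow_five_fourth (by positivity) hp0 hp1.le)
        apply Real.rpow_le_rpow (by positivity) _ hp0
        calc n * Q n x (k + 1) ≤ n * (5 / 4 * Q n c (k + 1)) := by gcongr
          _ = _ := by ring
      · rw [indicator_of_notMem hxO]
        exact bot_le)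
  rw [lintegral_indicator (measurableSet_Om _ _ TU_meas _)] at h1
  unfold LL JJ
  refine h1.trans ?_
  have h7 := lintegral_φ2 (a := 1) (b := 4 * n) (by norm_num)
  rw [Real.log_one, sub_zero] at h7
  calc 640000 * ∫⁻ c in Om n Λ TU k, ENNReal.ofReal (2 * (n * Q n c (k + 1)) ^ p) *
        ENNReal.ofReal (1 / u n c k) * ∫⁻ h, φ2 1 (4 * n) (Real.exp h)
      ≤ 640000 * ∫⁻ c in Om n Λ TU k, ENNReal.ofReal (2 * (n * Q n c (k + 1)) ^ p) *
        ENNReal.ofReal (1 / u n c k) * ENNReal.ofReal (Real.log (4 * n)) := by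
        gcongr
    _ = 640000 * ∫⁻ c in Om n Λ TU k, ENNReal.ofReal (2 * Real.log (4 * n)) *
          (ENNReal.ofReal ((n * Q n c (k + 1)) ^ p) * ENNReal.ofReal (1 / u n c k)) := by
        congr 1
        apply lintegral_congr
        intro c
        rw [ENNReal.ofReal_mul (by norm_num : (0:ℝ) ≤ 2),
          ENNReal.ofReal_mul (by norm_num : (0:ℝ) ≤ 2)]
        ring
    _ = _ := by
        rw [lintegral_const_mul' _ _ ENNReal.ofReal_ne_top, ← mul_assoc]
        congr 1
        have : (640000 : ℝ≥0∞) = ENNReal.ofReal 640000 := by norm_num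
        rw [this, ← ENNReal.ofReal_mul (by norm_num)]
        congr 1
        ring

theorem JJ_zero_lt_top : JJ n Λ p 0 < ⊤ := by
  have hΛ0 : 0 < Λ := by linarith
  have hn0 : (0:ℝ) < n := by exact_mod_cast (by omega : 0 < n)
  have hn1 : (1:ℝ) ≤ n := by exact_mod_cast (by omega : 1 ≤ n)
  have hsub : Om n Λ TU 0 ⊆ closedBall 0 4 := by
    intro c hc
    have h1 := Good.norm_v_le hn (Good_of_Om hΛ0.le hc) le_rfl
    rw [v_zero] at h1
    rwa [mem_closedBall, dist_zero_right]
  calc JJ n Λ p 0 ≤ ∫⁻ c in Om n Λ TU 0, ENNReal.ofReal (4 * n ^ 2) := by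
        unfold JJ
        apply setLIntegral_mono' (measurableSet_Om _ _ TU_meas _)
        intro c hc
        obtain ⟨h1, h2⟩ := Good_of_Om hΛ0.le hc 0 le_rfl
        have h3 : 1 ≤ u n c 0 := by linarith
        rw [← ENNReal.ofReal_mul' (by positivity)]
        apply ENNReal.ofReal_le_ofReal
        rw [Q_succ, Q_zero, one_mul]
        have h4 : 1 ≤ n * u n c 0 := by nlinarith
        have h5 : (n * u n c 0) ^ p ≤ (n * u n c 0) ^ (1:ℝ) :=
          Real.rpow_le_rpow_of_exponent_le h4 hp1.le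
        rw [Real.rpow_one] at h5
        calc (n * u n c 0) ^ p * (1 / u n c 0) ≤ (n * u n c 0) * 1 := by
              gcongr
              rw [div_le_one (by linarith)]; exact h3
          _ ≤ n * (4 * n) * 1 := by gcongr
          _ = _ := by ring
    _ = ENNReal.ofReal (4 * n ^ 2) * volume (Om n Λ TU 0) := by
        rw [setLIntegral_const]
    _ ≤ ENNReal.ofReal (4 * n ^ 2) * volume (closedBall (0:ℂ) 4) := by
        gcongr
    _ < ⊤ := ENNReal.mul_lt_top ENNReal.ofReal_lt_top measure_closedBall_lt_top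

end rec

end Pool.Agent.H205.DM
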