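import Pool.Agent.H205.LD2

/-!
# Local density of hyperbolicity in `z ^ n + c`: the area estimate
-/

set_option autoImplicit false
open Complex Metric Set Filter Topology MeasureTheory
open scoped ENNReal Real

namespace Pool.Agent.H205.LD

open Pool.Agent.H205.AR N62a1eb23

/-- The radius of the first neighbourhood. -/
noncomputable def del (n : ℕ) (c₀ : ℂ) (m : ℕ) : ℝ := 1 / (15 * n * Q n c₀ (m + 1))

/-- The neighbourhoods. -/
noncomputable def TT (n : ℕ) (c₀ : ℂ) (m : ℕ) (ρ : ℝ) (k : ℕ) : Set ℂ :=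
  thickening (del n c₀ m * (1 / 2) ^ (k - (m + 1))) (ball c₀ ρ)

theorem TT_meas (n : ℕ) (c₀ : ℂ) (m : ℕ) (ρ : ℝ) (k : ℕ) : MeasurableSet (TT n c₀ m ρ k) :=
  isOpen_thickening.measurableSet

section base

variable {n : ℕ} (hn : 2 ≤ n) {Λ : ℝ} (hΛ : 32 ≤ Λ) {m : ℕ} {c₀ : ℂ} (h : Good n Λ m c₀)

include hn hΛ h

theorem del_pos : 0 < del n c₀ m := by
  have hn0 : (0:ℝ) < n := by exact_mod_cast (by omega : 0 < n)
  have hQ : 0 < Q n c₀ (m + 1) := Q_pos fun j hj => h.u_pos (by linarith) (by omega)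
  unfold del
  positivity

theorem v_ge : 1 / 8 ≤ ‖v n c₀ m‖ := by
  have h1 := (h m le_rfl).1
  have h2 := norm_le_eight hn (norm_nonneg (v n c₀ m)) (a := 1) (by simp) (by
    unfold u at h1; linarith)
  linarith

theorem del_le (hu : 96 ≤ u n c₀ m) : del n c₀ m ≤ rad n m c₀ / 1 := by
  have hn0 : (0:ℝ) < n := by exact_mod_cast (by omega : 0 < n)
  have hQm : 0 < Q n c₀ m := Q_pos fun j hj => h.u_pos (by linarith) (by omega)
  have hv := v_ge hn hΛ h
  unfold del rad
  rw [Q_succ, div_one, div_le_div_iff₀ (by positivity) (by positivity)]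
  have h1 : 1280 ≤ 15 * u n c₀ m := by linarith
  calc 1 * (160 * n * Q n c₀ m) = (1 / 8) * (1280 * (n * Q n c₀ m)) := by ring
    _ ≤ ‖v n c₀ m‖ * (15 * u n c₀ m * (n * Q n c₀ m)) := by gcongr
    _ = _ := by ring

theorem TT_subset {ρ R : ℝ} (hρ : ρ + del n c₀ m ≤ R) (k : ℕ) : TT n c₀ m ρ k ⊆ ball c₀ R := by
  intro x hx
  obtain ⟨e, he, hxe⟩ := mem_thickening_iff.1 hx
  rw [mem_ball] at he ⊢
  have hd := del_pos hn hΛ h
  have h1 : del n c₀ m * (1 / 2) ^ (k - (m + 1)) ≤ del n c₀ m := by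
    have := half_pow_le (k - (m + 1))
    nlinarith
  calc dist x c₀ ≤ dist x e + dist e c₀ := dist_triangle _ _ _
    _ < del n c₀ m + ρ := by linarith
    _ ≤ R := by linarith

theorem adm {ρ R : ℝ} (hρ : ρ + del n c₀ m ≤ R) (hR : R ≤ rad n m c₀) {k : ℕ} (hk : m + 1 ≤ k) :
    Adm n Λ (TT n c₀ m ρ) k := by
  intro x c hx hG hc
  have hn0 : (0:ℝ) < n := by exact_mod_cast (by omega : 0 < n)
  have hΛ0 : 0 < Λ := by linarith
  have hxb := TT_subset hn hΛ h hρ (k + 1) hx
  rw [mem_ball, dist_eq_norm] at hxb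
  obtain ⟨-, h6⟩ := Q_ratio hn hΛ h (hxb.le.trans hR) (k := m + 1) le_rfl
  have hQ : 0 < Q n c₀ (m + 1) := Q_pos fun j hj => h.u_pos hΛ0 (by omega)
  have hd := del_pos hn hΛ h
  obtain ⟨i, rfl⟩ : ∃ i, k = m + 1 + i := ⟨k - (m + 1), by omega⟩
  have h7 := Q_lower (c := x) (n := n) hΛ0 (k := m + 1 + i) (j := m + 1)
    (fun j (hj : j < m + 1 + i) => (hG j hj.le).1) (Nat.le_add_right (m + 1) i)
  rw [Nat.add_sub_cancel_left] at h7
  have h8 : 3 / 4 * Q n c₀ (m + 1) * 2 ^ i ≤ Q n x (m + 1 + i) := by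
    refine le_trans ?_ h7
    gcongr <;> linarith
  have h9 : rad n (m + 1 + i) x ≤ del n c₀ m * (1 / 2) ^ (i + 1) := by
    unfold rad del
    calc ‖v n x (m + 1 + i)‖ / (160 * n * Q n x (m + 1 + i))
        ≤ 4 / (160 * n * (3 / 4 * Q n c₀ (m + 1) * 2 ^ i)) := by
          gcongr
          exact Good.norm_v_le hn hG le_rfl
      _ = 1 / (15 * n * Q n c₀ (m + 1)) * (1 / 2) ^ (i + 1) := by
          rw [one_div_pow, pow_succ]
          field_simp
          norm_num
  obtain ⟨e, he, hxe⟩ := mem_thickening_iff.1 hx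
  unfold TT
  rw [mem_thickening_iff]
  refine ⟨e, he, ?_⟩
  rw [show m + 1 + i + 1 - (m + 1) = i + 1 by omega] at hxe
  rw [show m + 1 + i - (m + 1) = i by omega]
  have h1 : dist c x ≤ del n c₀ m * (1 / 2) ^ (i + 1) := by
    rw [dist_eq_norm]; exact hc.trans h9
  calc dist c e ≤ dist c x + dist x e := dist_triangle _ _ _
    _ < del n c₀ m * (1 / 2) ^ (i + 1) + del n c₀ m * (1 / 2) ^ (i + 1) :=
        add_lt_add_of_le_of_lt h1 hxe
    _ = del n c₀ m * (1 / 2) ^ i := by rw [pow_succ]; ring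

end base

theorem bad_subset {n : ℕ} (hn : 2 ≤ n) {Λ : ℝ} (hΛ : 32 ≤ Λ) {m : ℕ} {T : ℕ → Set ℂ} {S : Set ℂ}
    (hST : ∀ k, m + 1 ≤ k → S ⊆ T k)
    (hS : ∀ c ∈ S, (∀ j ≤ m, 2 * Λ ≤ u n c j) ∧ (∀ j, u n c j ≤ 2 * n) ∧
      ∀ k, (∀ j < k, Λ ≤ u n c j) → 1 / 6 < Q n c (k + 1)) :
    S ⊆ (⋃ i, NN n Λ T (m + i)) ∪ ⋂ i, SS n Λ T (m + i) := by
  classical
  have hΛ0 : 0 < Λ := by linarith
  have hn0 : (0:ℝ) < n := by exact_mod_cast (by omega : 0 < n)
  intro c hcS
  obtain ⟨h0, h2, hQ⟩ := hS c hcS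
  have hPre : ∀ k, m ≤ k → (∀ j ≤ k, 2 * Λ ≤ u n c j) → c ∈ Pre n Λ T k := by
    intro k hk hj
    refine ⟨hST _ (by omega) hcS, fun j hjk => ?_⟩
    have hp : 0 < ((1:ℝ) / 2) ^ (k + 1 - j) := by positivity
    have h3 := hj j hjk
    have h4 := h2 j
    constructor
    · nlinarith
    · nlinarith
  by_cases hall : ∀ j, 2 * Λ ≤ u n c j
  · right
    rw [mem_iInter]
    intro i
    have h3 := h2 (m + i + 1)
    refine ⟨hPre _ (by omega) fun j _ => hall j, ?_, by linarith⟩
    have := hall (m + i + 1)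
    linarith
  · left
    push Not at hall
    have hk := Nat.find_spec hall
    have hmin : ∀ j < Nat.find hall, 2 * Λ ≤ u n c j := fun j hj => by
      have := Nat.find_min hall hj
      push Not at this
      exact this
    set k := Nat.find hall with hkdef
    have hkm : m < k := by
      by_contra hcon
      push Not at hcon
      have := h0 k hcon
      linarith
    obtain ⟨i, hi⟩ : ∃ i, k = m + i + 1 := ⟨k - m - 1, by omega⟩
    rw [mem_iUnion]
    refine ⟨i, hPre _ (by omega) fun j hj => hmin j (by omega), ?_, ?_, ?_⟩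
    · rw [← hi]; exact hk
    · have := h2 (m + i + 1); linarith
    · apply hQ
      intro j hj
      have := hmin j (by omega)
      linarith

theorem four_Lam : (32:ℝ) ≤ 4 * Lam := by unfold Lam; norm_num

theorem area_local : ∃ C : ℝ, 0 < C ∧ ∀ n : ℕ, 2 ≤ n → ∀ (c₀ : ℂ) (m : ℕ),
    (∀ j ≤ m, 4 * Lam ≤ u n c₀ j ∧ u n c₀ j ≤ 2 * n) → ∀ ρ : ℝ, 0 < ρ → ρ ≤ rad n m c₀ / 2 →
    volume ((multibrotSet n \ hyp n) ∩ ball c₀ ρ) ≤
      ENNReal.ofReal (C * ρ * (1 + Real.log (Q n c₀ (m + 1))) / (n * Q n c₀ (m + 1))) := by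
  have hΛ := Lam_ge
  have hΛ0 : 0 < Lam := by linarith
  have hlog : 1 ≤ Real.log (24 * Lam) := by
    rw [Real.le_log_iff_exp_le (by positivity)]
    have := Real.exp_one_lt_d9
    linarith
  have hlogL := Real.log_nonneg (show (1:ℝ) ≤ Lam by linarith)
  set A₁ : ℝ := 2560 * 2 * Real.log (24 * Lam) with hA₁
  set A₂ : ℝ := 2560 * 2 * (4 * (1 + Real.log Lam) / Lam) * (2 * 640000 * Real.log (24 * Lam) * 2)
    with hA₂
  have hA₁0 : 0 < A₁ := by positivity
  have hA₂0 : 0 < A₂ := by positivity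
  refine ⟨A₁ + A₂ + 1, by positivity, ?_⟩
  intro n hn c₀ m hc₀ ρ hρ hρr
  have hn0 : (0:ℝ) < n := by exact_mod_cast (by omega : 0 < n)
  have hG : Good n Lam m c₀ := fun j hj => ⟨by have := (hc₀ j hj).1; linarith,
    by have := (hc₀ j hj).2; linarith⟩
  have hQ : 0 < Q n c₀ (m + 1) := Q_pos fun j hj => hG.u_pos hΛ0 (by omega)
  have hQ1 := one_le_Q (by linarith) hG (k := m + 1) le_rfl
  have hlQ := Real.log_nonneg hQ1
  have hd := del_pos hn hΛ hG
  have hum : 96 ≤ u n c₀ m := by
    have := (hc₀ m le_rfl).1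
    unfold Lam at this
    linarith
  rcases le_or_gt ρ (del n c₀ m) with hρd | hρd
  · -- small discs
    have hpi : ((NNReal.pi : NNReal) : ℝ≥0∞) = ENNReal.ofReal π := by
      rw [← NNReal.coe_real_pi, ENNReal.ofReal_coe_nnreal]
    calc volume ((multibrotSet n \ hyp n) ∩ ball c₀ ρ) ≤ volume (ball c₀ ρ) :=
          measure_mono inter_subset_right
      _ = ENNReal.ofReal (ρ ^ 2 * π) := by
          rw [Complex.volume_ball, hpi, ← ENNReal.ofReal_pow hρ.le, ← ENNReal.ofReal_mul (by positivity)]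
      _ ≤ _ := by
          apply ENNReal.ofReal_le_ofReal
          have hπ := Real.pi_le_four
          have h1 : ρ ^ 2 * π ≤ ρ * del n c₀ m * 4 := by
            have : ρ * ρ ≤ ρ * del n c₀ m := by gcongr
            nlinarith [Real.pi_pos]
          refine h1.trans ?_
          unfold del
          calc ρ * (1 / (15 * n * Q n c₀ (m + 1))) * 4 = 4 / 15 * ρ * 1 / (n * Q n c₀ (m + 1)) := by
                field_simp
            _ ≤ (A₁ + A₂ + 1) * ρ * (1 + Real.log (Q n c₀ (m + 1))) / (n * Q n c₀ (m + 1)) := by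
                gcongr
                · linarith
                · linarith
  · set R : ℝ := 2 * ρ with hR
    have hR0 : 0 < R := by positivity
    have hRr : R ≤ rad n m c₀ := by linarith
    have hρR : ρ + del n c₀ m ≤ R := by linarith
    set T := TT n c₀ m ρ with hT
    have hTm : ∀ k, MeasurableSet (T k) := TT_meas n c₀ m ρ
    have hTs : ∀ k, T k ⊆ ball c₀ R := TT_subset hn hΛ hG hρR
    have hadm : ∀ k, m + 1 ≤ k → Adm n Lam T k := fun k hk => adm hn hΛ hG hρR hRr hk
    set I₀ := II n Lam T m (m + 1) with hI₀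
    have hI : ∀ i, II n Lam T m (m + 1 + i) ≤ 2⁻¹ ^ i * I₀ := by
      intro i
      induction i with
      | zero => simp [hI₀]
      | succ i ih =>
        calc II n Lam T m (m + 1 + i + 1)
            ≤ ENNReal.ofReal (5120000 * (1 + Real.log Lam) / Lam) * II n Lam T m (m + 1 + i) :=
              II_succ hn hΛ hTm (by omega) (hadm _ (by omega))
          _ ≤ 2⁻¹ * (2⁻¹ ^ i * I₀) := by
              gcongr
              have : (2⁻¹ : ℝ≥0∞) = ENNReal.ofReal (1 / 2) := by
                rw [one_div, ENNReal.ofReal_inv_of_pos (by norm_num)]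
                norm_num
              rw [this]
              exact ENNReal.ofReal_le_ofReal Lam_q
          _ = _ := by rw [pow_succ]; ring
    have hI₀le := II_first hn hΛ hTm hG hR0 hRr (hTs (m + 1))
    have hI₀fin : I₀ ≠ ⊤ := ne_top_of_le_ne_top (by finiteness) hI₀le
    set κ : ℝ := 2 * (1 + Real.log (Q n c₀ (m + 1))) with hκ
    have hκ0 : 0 ≤ κ := by positivity
    have hκb : ∀ k, m + 1 ≤ k → ∀ c ∈ Om n Lam T k, 1 + Real.log (Q n c (m + 1)) ≤ κ := by
      intro k hk c hc
      have hcb := hTs k hc.1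
      rw [mem_ball, dist_eq_norm] at hcb
      obtain ⟨h5, h6⟩ := Q_ratio hn hΛ hG (hcb.le.trans hRr) (k := m + 1) le_rfl
      have hQc : 0 < Q n c (m + 1) := by linarith
      have h7 := Real.log_le_log hQc h5
      rw [Real.log_mul (by norm_num) hQ.ne'] at h7
      have h8 : Real.log (5 / 4) ≤ 1 := by
        have := Real.log_le_sub_one_of_pos (show (0:ℝ) < 5 / 4 by norm_num)
        linarith
      rw [hκ]
      linarith
    -- the bad set
    set S := (multibrotSet n \ hyp n) ∩ ball c₀ ρ with hS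
    have hST : ∀ k, m + 1 ≤ k → S ⊆ T k := fun k _ c hc =>
      self_subset_thickening (by positivity) _ hc.2
    have hsub := bad_subset hn hΛ (m := m) (T := T) (S := S) hST (by
      rintro c ⟨hc, hcb⟩
      rw [mem_ball, dist_eq_norm] at hcb
      have hcr : ‖c - c₀‖ ≤ rad n m c₀ := by linarith
      refine ⟨fun j hj => ?_, u_le_of_mem hn hc.1, ?_⟩
      · have h1 := core_le_u hn hΛ hG hcr hj
        have h2 := ee_le m j
        have h3 := (hc₀ j hj).1
        nlinarith
      · intro k hk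
        by_contra hcon
        push Not at hcon
        obtain ⟨z, hz⟩ := criterion hn hΛ hk hcon
        exact hc.2 ⟨k + 1, z, hz⟩)
    have hSS : volume (⋂ i, SS n Lam T (m + i)) = 0 := by
      have h1 : ∀ i : ℕ, volume (⋂ i, SS n Lam T (m + i)) ≤
          2⁻¹ ^ i * (ENNReal.ofReal (640000 * Real.log (4 * n)) * I₀) := by
        intro i
        calc volume (⋂ i, SS n Lam T (m + i)) ≤ volume (SS n Lam T (m + (1 + i))) :=
              measure_mono (iInter_subset _ (1 + i))
          _ ≤ ENNReal.ofReal (640000 * Real.log (4 * n)) * II n Lam T m (m + (1 + i)) :=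
              volume_SS hn hΛ hTm (by omega) (hadm _ (by omega))
          _ ≤ ENNReal.ofReal (640000 * Real.log (4 * n)) * (2⁻¹ ^ i * I₀) := by
              gcongr
              rw [← add_assoc]
              exact hI i
          _ = _ := by ring
      have h2 : Tendsto (fun i : ℕ => (2⁻¹ : ℝ≥0∞) ^ i *
          (ENNReal.ofReal (640000 * Real.log (4 * n)) * I₀)) atTop (𝓝 0) := by
        have h3 := ENNReal.tendsto_pow_atTop_nhds_zero_of_lt_one (r := 2⁻¹) (by norm_num)
        have h4 := ENNReal.Tendsto.mul_const (b := ENNReal.ofReal (640000 * Real.log (4 * n)) *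
          I₀) h3 (Or.inr (ENNReal.mul_ne_top ENNReal.ofReal_ne_top hI₀fin))
        rwa [zero_mul] at h4
      exact le_antisymm (ge_of_tendsto' h2 h1) bot_le
    have hU : (⋃ i, NN n Lam T (m + i)) ⊆ NN n Lam T m ∪ ⋃ i, NN n Lam T (m + 1 + i) := by
      intro x hx
      obtain ⟨i, hi⟩ := mem_iUnion.1 hx
      rcases i with _ | i
      · left; exact hi
      · right
        rw [mem_iUnion]
        refine ⟨i, ?_⟩
        rwa [show m + 1 + i = m + (i + 1) by ring]
    have hNN0 := volume_NN_first hn hΛ hTm hG hR0 hRr (hTs (m + 1))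
    have hNN : volume (⋃ i, NN n Lam T (m + 1 + i)) ≤
        2 * (ENNReal.ofReal (640000 * Real.log (24 * Lam) * κ) * I₀) := by
      calc volume (⋃ i, NN n Lam T (m + 1 + i)) ≤ ∑' i, volume (NN n Lam T (m + 1 + i)) :=
            measure_iUnion_le _
        _ ≤ ∑' i : ℕ, 2⁻¹ ^ i * (ENNReal.ofReal (640000 * Real.log (24 * Lam) * κ) * I₀) := by
            apply ENNReal.tsum_le_tsum
            intro i
            calc volume (NN n Lam T (m + 1 + i))
                ≤ ENNReal.ofReal (640000 * Real.log (24 * Lam) * κ) * II n Lam T m (m + 1 + i) :=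
                  volume_NN hn hΛ hTm (by omega) (hadm _ (by omega)) hκ0 (hκb _ (by omega))
              _ ≤ ENNReal.ofReal (640000 * Real.log (24 * Lam) * κ) * (2⁻¹ ^ i * I₀) := by
                  gcongr
                  exact hI i
              _ = _ := by ring
        _ = _ := by
            rw [ENNReal.tsum_mul_right, ENNReal.tsum_geometric]
            congr 1
            rw [ENNReal.one_sub_inv_two, inv_inv]
    calc volume S ≤ volume ((⋃ i, NN n Lam T (m + i)) ∪ ⋂ i, SS n Lam T (m + i)) :=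
          measure_mono hsub
      _ ≤ volume (⋃ i, NN n Lam T (m + i)) + volume (⋂ i, SS n Lam T (m + i)) :=
          measure_union_le _ _
      _ = volume (⋃ i, NN n Lam T (m + i)) := by rw [hSS, add_zero]
      _ ≤ volume (NN n Lam T m) + volume (⋃ i, NN n Lam T (m + 1 + i)) :=
          (measure_mono hU).trans (measure_union_le _ _)
      _ ≤ ENNReal.ofReal (2560 * R / (n * Q n c₀ (m + 1))) *
            ENNReal.ofReal (Real.log (24 * Lam) * (1 + Real.log (Q n c₀ (m + 1)))) +
          2 * (ENNReal.ofReal (640000 * Real.log (24 * Lam) * κ) *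
            (ENNReal.ofReal (2560 * R / (n * Q n c₀ (m + 1))) *
              ENNReal.ofReal (4 * (1 + Real.log Lam) / Lam))) := by
          gcongr
          exact hNN.trans (by gcongr)
      _ = ENNReal.ofReal ((A₁ + A₂) * ρ * (1 + Real.log (Q n c₀ (m + 1))) /
            (n * Q n c₀ (m + 1))) := by
          have h2 : (2 : ℝ≥0∞) = ENNReal.ofReal 2 := by norm_num
          rw [h2, ← ENNReal.ofReal_mul (by positivity), ← ENNReal.ofReal_mul (by positivity),
            ← ENNReal.ofReal_mul (by positivity), ← ENNReal.ofReal_mul (by positivity),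
            ← ENNReal.ofReal_add (by positivity) (by positivity)]
          congr 1
          rw [hA₁, hA₂, hκ, hR]
          field_simp
      _ ≤ _ := by
          apply ENNReal.ofReal_le_ofReal
          have hA : A₁ + A₂ ≤ A₁ + A₂ + 1 := by linarith
          apply div_le_div_of_nonneg_right _ (by positivity)
          apply mul_le_mul_of_nonneg_right _ (by positivity)
          exact mul_le_mul_of_nonneg_right hA hρ.le

end Pool.Agent.H205.LD
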