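import Pool.Agent.H205.DM1
import Pool.Agent.H205.LD3

/-!
# Dimension of the parameters of `z ^ n + c` with expanding critical orbits: coverings
-/

set_option autoImplicit false
open Complex Metric Set Filter Topology MeasureTheory
open scoped ENNReal Real NNReal

namespace Pool.Agent.H205.DM

open Pool.Agent.H205.AR Pool.Agent.H205.LD

theorem ediam_cb {x : ℂ} {r : ℝ} (hr : 0 ≤ r) : ediam (closedBall x r) ≤ ENNReal.ofReal (2 * r) := by
  apply ediam_le_of_forall_dist_le
  intro y hy z hz
  rw [mem_closedBall] at hy hz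
  have := dist_triangle_right y z x
  linarith

/-- The parameters whose critical orbit stays in the region where `|f'| ≥ Λ`. -/
def EE (n : ℕ) (Λ : ℝ) : Set ℂ := {c | ∀ j, Λ ≤ u n c j ∧ u n c j ≤ 2 * n}

section cov

variable {n : ℕ} (hn : 2 ≤ n) {Λ : ℝ} (hΛ : 32 ≤ Λ) {p : ℝ} (hp0 : 0 ≤ p) (hp1 : p < 1)

include hn hΛ

theorem mem_Pre_of_EE {c : ℂ} (hc : c ∈ EE n (2 * Λ)) (k : ℕ) : c ∈ Pre n Λ TU k := by
  have hn0 : (0:ℝ) < n := by exact_mod_cast (by omega : 0 < n)
  refine ⟨mem_univ _, fun j hj => ?_⟩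
  have hp : 0 < ((1:ℝ) / 2) ^ (k + 1 - j) := by positivity
  obtain ⟨h1, h2⟩ := hc j
  constructor
  · nlinarith
  · nlinarith

include hp0 hp1

theorem cover (k : ℕ) : ∃ S : Set ℂ, S.Countable ∧ S ⊆ EE n (2 * Λ) ∧
    (EE n (2 * Λ) ⊆ ⋃ c ∈ S, closedBall c (5 * (rad n k c / 2))) ∧
    ∑' c : S, ENNReal.ofReal (rad n k c) ^ (2 - p) ≤ 10240 * LL n Λ p k := by
  have hΛ0 : 0 < Λ := by linarith
  have hn0 : (0:ℝ) < n := by exact_mod_cast (by omega : 0 < n)
  have hn1 : (1:ℝ) ≤ n := by exact_mod_cast (by omega : 1 ≤ n)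
  have hG : ∀ c ∈ EE n (2 * Λ), Good n Λ k c := fun c hc =>
    Good_of_Pre hΛ0.le (mem_Pre_of_EE hn hΛ hc k)
  obtain ⟨S, hS1, hS2, hS3⟩ := Vitali.exists_disjoint_subfamily_covering_enlargement_closedBall
    (EE n (2 * Λ)) (fun c : ℂ => c) (fun c => rad n k c / 2) 1 (fun c hc => by
      have h1 := rad_le hn hΛ (hG c hc)
      have h2 := half_pow_le (k + 1)
      have h3 : ((1:ℝ) / 2) ^ (k + 1) / (16 * n) ≤ 1 / (16 * 1) := by gcongr
      linarith) 5 (by norm_num)
  have hrad : ∀ c ∈ S, 0 < rad n k c := fun c hc => (hG c (hS1 hc)).rad_pos hn hΛ0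
  have hcount : S.Countable := hS2.countable_of_nonempty_interior (fun c hc => by
    have h1 := hrad c hc
    exact ⟨c, mem_interior_iff_mem_nhds.2 (closedBall_mem_nhds c (by linarith))⟩)
  refine ⟨S, hcount, hS1, ?_, ?_⟩
  · intro c hc
    obtain ⟨b, hb, hcb⟩ := hS3 c hc
    simp only [mem_iUnion]
    refine ⟨b, hb, hcb (mem_closedBall_self ?_)⟩
    have := (hG c hc).rad_pos hn hΛ0
    linarith
  · have hterm : ∀ c ∈ S, ENNReal.ofReal (rad n k c) ^ (2 - p) ≤
        10240 * ∫⁻ x in closedBall c (rad n k c / 2), ENNReal.ofReal ((n * Q n x k) ^ p) := by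
      intro c hc
      have hGc := hG c (hS1 hc)
      have hr := hrad c hc
      have hv := v_ge hn hΛ hGc
      have hQ : 0 < Q n c k := Q_pos fun j hj => hGc.u_pos hΛ0 hj.le
      have hpi : ((NNReal.pi : NNReal) : ℝ≥0∞) = ENNReal.ofReal π := by
        rw [← NNReal.coe_real_pi, ENNReal.ofReal_coe_nnreal]
      have hvol : volume (closedBall c (rad n k c / 2)) =
          ENNReal.ofReal ((rad n k c / 2) ^ 2 * π) := by
        rw [Complex.volume_closedBall, hpi, ← ENNReal.ofReal_pow (by positivity),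
          ← ENNReal.ofReal_mul (by positivity)]
      have hnQ : 1 / (1280 * rad n k c) ≤ n * Q n c k := by
        rw [div_le_iff₀ (by positivity)]
        unfold rad
        have h1 : n * Q n c k * (1280 * (‖v n c k‖ / (160 * n * Q n c k))) = 8 * ‖v n c k‖ := by
          field_simp
          norm_num
        rw [h1]
        linarith
      have h2 : 1 / 2 * (1 / (1280 * rad n k c)) ^ p ≤ (3 / 4 * (n * Q n c k)) ^ p := by
        refine (rpow_three_fourth (by positivity) hp0 hp1.le).trans ?_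
        apply Real.rpow_le_rpow (by positivity) _ hp0
        gcongr
      have h3 : ∀ x ∈ closedBall c (rad n k c / 2),
          ENNReal.ofReal (1 / 2 * (1 / (1280 * rad n k c)) ^ p) ≤
            ENNReal.ofReal ((n * Q n x k) ^ p) := by
        intro x hx
        rw [mem_closedBall, dist_eq_norm] at hx
        obtain ⟨-, h6⟩ := Q_ratio hn hΛ hGc (show ‖x - c‖ ≤ rad n k c by linarith) (k := k)
          (by omega)
        apply ENNReal.ofReal_le_ofReal
        refine h2.trans ?_
        apply Real.rpow_le_rpow (by positivity) _ hp0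
        calc 3 / 4 * (n * Q n c k) = n * (3 / 4 * Q n c k) := by ring
          _ ≤ n * Q n x k := by gcongr
      calc ENNReal.ofReal (rad n k c) ^ (2 - p)
          = ENNReal.ofReal (rad n k c ^ (2 - p)) := ENNReal.ofReal_rpow_of_pos hr
        _ ≤ 10240 * (ENNReal.ofReal (1 / 2 * (1 / (1280 * rad n k c)) ^ p) *
              ENNReal.ofReal ((rad n k c / 2) ^ 2 * π)) := by
            have h10 : (10240 : ℝ≥0∞) = ENNReal.ofReal 10240 := by norm_num
            rw [h10, ← ENNReal.ofReal_mul (by positivity), ← ENNReal.ofReal_mul (by positivity)]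
            apply ENNReal.ofReal_le_ofReal
            have h4 : rad n k c ^ (2 - p) = rad n k c ^ 2 * (1 / rad n k c) ^ p := by
              rw [Real.rpow_sub hr, Real.div_rpow (by norm_num) hr.le, Real.one_rpow]
              norm_num
              rw [div_eq_mul_inv]
            have h5 : (1 / (1280 * rad n k c)) ^ p = (1 / 1280) ^ p * (1 / rad n k c) ^ p := by
              rw [← Real.mul_rpow (by norm_num) (by positivity)]
              congr 1
              field_simp
            have h6 : (1 / 1280 : ℝ) ≤ (1 / 1280) ^ p := by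
              have := Real.rpow_le_rpow_of_exponent_ge (x := 1 / 1280) (by norm_num) (by norm_num)
                hp1.le
              rwa [Real.rpow_one] at this
            rw [h4, h5]
            have h7 : 0 ≤ (1 / rad n k c) ^ p := by positivity
            have hπ := Real.pi_gt_three
            have h8 : 1 ≤ 10240 * (1 / 2 * (1 / 1280 : ℝ) ^ p * (1 / 4 * π)) := by
              calc (1:ℝ) ≤ 10240 * (1 / 2 * (1 / 1280) * (1 / 4 * 3)) := by norm_num
                _ ≤ _ := by gcongr
            calc rad n k c ^ 2 * (1 / rad n k c) ^ p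
                = 1 * (rad n k c ^ 2 * (1 / rad n k c) ^ p) := (one_mul _).symm
              _ ≤ (10240 * (1 / 2 * (1 / 1280 : ℝ) ^ p * (1 / 4 * π))) *
                    (rad n k c ^ 2 * (1 / rad n k c) ^ p) := by gcongr
              _ = _ := by ring
        _ = 10240 * ∫⁻ x in closedBall c (rad n k c / 2),
              ENNReal.ofReal (1 / 2 * (1 / (1280 * rad n k c)) ^ p) := by
            rw [setLIntegral_const, hvol]
        _ ≤ _ := by
            gcongr 10240 * ?_
            exact setLIntegral_mono' measurableSet_closedBall h3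
    have : Countable S := hcount.to_subtype
    calc ∑' c : S, ENNReal.ofReal (rad n k c) ^ (2 - p)
        ≤ ∑' c : S, 10240 * ∫⁻ x in closedBall (c : ℂ) (rad n k c / 2),
            ENNReal.ofReal ((n * Q n x k) ^ p) := ENNReal.tsum_le_tsum fun c => hterm c c.2
      _ = 10240 * ∑' c : S, ∫⁻ x in closedBall (c : ℂ) (rad n k c / 2),
            ENNReal.ofReal ((n * Q n x k) ^ p) := ENNReal.tsum_mul_left
      _ = 10240 * ∫⁻ x in ⋃ c : S, closedBall (c : ℂ) (rad n k c / 2),
            ENNReal.ofReal ((n * Q n x k) ^ p) := by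
          congr 1
          rw [lintegral_iUnion (fun c => measurableSet_closedBall)]
          intro a b hab
          exact hS2 a.2 b.2 (fun h => hab (Subtype.ext h))
      _ ≤ 10240 * LL n Λ p k := by
          unfold LL
          gcongr 10240 * ?_
          apply lintegral_mono_set
          apply iUnion_subset
          intro c x hx
          rw [mem_closedBall, dist_eq_norm] at hx
          have := hrad c c.2
          exact mem_Om_of_near hn hΛ (adm_TU n Λ k) (mem_Pre_of_EE hn hΛ (hS1 c.2) k)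
            (by linarith)

theorem hausdorff_zero (hq : 1280000 * (Λ ^ p / Λ / (1 - p)) ≤ 1 / 2) :
    μH[2 - p] (EE n (2 * Λ)) = 0 := by
  have hΛ0 : 0 < Λ := by linarith
  have hn0 : (0:ℝ) < n := by exact_mod_cast (by omega : 0 < n)
  have hn1 : (1:ℝ) ≤ n := by exact_mod_cast (by omega : 1 ≤ n)
  have hJ : ∀ k, JJ n Λ p k ≤ 2⁻¹ ^ k * JJ n Λ p 0 := by
    intro k
    induction k with
    | zero => simp
    | succ k ih =>
      calc JJ n Λ p (k + 1) ≤ ENNReal.ofReal (1280000 * (Λ ^ p / Λ / (1 - p))) * JJ n Λ p k :=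
            JJ_succ hn hΛ hp0 hp1 k
        _ ≤ 2⁻¹ * (2⁻¹ ^ k * JJ n Λ p 0) := by
            gcongr
            have : (2⁻¹ : ℝ≥0∞) = ENNReal.ofReal (1 / 2) := by
              rw [one_div, ENNReal.ofReal_inv_of_pos (by norm_num)]
              norm_num
            rw [this]
            exact ENNReal.ofReal_le_ofReal hq
        _ = _ := by rw [pow_succ]; ring
  choose S hS1 hS2 hS3 hS4 using fun k => cover hn hΛ hp0 hp1 k
  have : ∀ k, Countable (S k) := fun k => (hS1 k).to_subtype
  set K : ℝ≥0∞ := (ENNReal.ofReal 5) ^ (2 - p) * (10240 *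
    (ENNReal.ofReal (1280000 * Real.log (4 * n)) * JJ n Λ p 0)) with hK
  have hKfin : K ≠ ⊤ := by
    have h1 := (JJ_zero_lt_top hn hΛ hp0 hp1).ne
    have h2 : (ENNReal.ofReal 5) ^ (2 - p) ≠ ⊤ :=
      ENNReal.rpow_ne_top_of_nonneg (by linarith) ENNReal.ofReal_ne_top
    rw [hK]
    finiteness
  have hmain : μH[2 - p] (EE n (2 * Λ)) ≤ liminf (fun k => ∑' c : S (k + 1),
      ediam (closedBall (c : ℂ) (5 * (rad n (k + 1) c / 2))) ^ (2 - p)) atTop := by
    apply Measure.hausdorffMeasure_le_liminf_tsum (2 - p) (EE n (2 * Λ))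
      (fun k : ℕ => ENNReal.ofReal ((1 / 2) ^ (k + 1 + 1)))
      _ (fun k (c : S (k + 1)) => closedBall (c : ℂ) (5 * (rad n (k + 1) c / 2)))
    · refine Eventually.of_forall fun k c => ?_
      have hG := Good_of_Pre hΛ0.le (mem_Pre_of_EE hn hΛ (hS2 (k + 1) c.2) (k + 1))
      have h1 := rad_le hn hΛ hG
      have h2 : ((1:ℝ) / 2) ^ (k + 1 + 1) / (16 * n) ≤ (1 / 2) ^ (k + 1 + 1) / (16 * 1) := by
        gcongr
      have h3 : 0 ≤ 5 * (rad n (k + 1) c / 2) := by
        have := hG.rad_pos hn hΛ0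
        positivity
      refine (ediam_cb h3).trans ?_
      apply ENNReal.ofReal_le_ofReal
      have h4 : (0:ℝ) < (1 / 2) ^ (k + 1 + 1) := by positivity
      linarith
    · refine Eventually.of_forall fun k c hc => ?_
      have h1 := hS3 (k + 1) hc
      simp only [mem_iUnion] at h1 ⊢
      obtain ⟨b, hb, hcb⟩ := h1
      exact ⟨⟨b, hb⟩, hcb⟩
    · have h1 : Tendsto (fun k : ℕ => ((1:ℝ) / 2) ^ (k + 1 + 1)) atTop (𝓝 0) :=
        ((tendsto_pow_atTop_nhds_zero_of_lt_one (by norm_num) (by norm_num)).comp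
          (tendsto_add_atTop_nat 2))
      have h2 := ENNReal.tendsto_ofReal h1
      rwa [ENNReal.ofReal_zero] at h2
  have hle : ∀ k, ∑' c : S (k + 1), ediam (closedBall (c : ℂ) (5 * (rad n (k + 1) c / 2))) ^ (2 - p)
      ≤ 2⁻¹ ^ k * K := by
    intro k
    calc ∑' c : S (k + 1), ediam (closedBall (c : ℂ) (5 * (rad n (k + 1) c / 2))) ^ (2 - p)
        ≤ ∑' c : S (k + 1), (ENNReal.ofReal 5) ^ (2 - p) *
            ENNReal.ofReal (rad n (k + 1) c) ^ (2 - p) := by
          apply ENNReal.tsum_le_tsum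
          intro c
          have hG := Good_of_Pre hΛ0.le (mem_Pre_of_EE hn hΛ (hS2 (k + 1) c.2) (k + 1))
          have hr := hG.rad_pos hn hΛ0
          rw [← ENNReal.mul_rpow_of_nonneg _ _ (by linarith : (0:ℝ) ≤ 2 - p),
            ← ENNReal.ofReal_mul (by norm_num)]
          apply ENNReal.rpow_le_rpow _ (by linarith)
          refine (ediam_cb (by positivity)).trans ?_
          apply ENNReal.ofReal_le_ofReal
          linarith
      _ = (ENNReal.ofReal 5) ^ (2 - p) * ∑' c : S (k + 1),
            ENNReal.ofReal (rad n (k + 1) c) ^ (2 - p) := ENNReal.tsum_mul_left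
      _ ≤ (ENNReal.ofReal 5) ^ (2 - p) * (10240 * LL n Λ p (k + 1)) := by
          gcongr
          exact hS4 (k + 1)
      _ ≤ (ENNReal.ofReal 5) ^ (2 - p) * (10240 *
            (ENNReal.ofReal (1280000 * Real.log (4 * n)) * (2⁻¹ ^ k * JJ n Λ p 0))) := by
          gcongr
          exact (LL_succ hn hΛ hp0 hp1 k).trans (by gcongr; exact hJ k)
      _ = 2⁻¹ ^ k * K := by rw [hK]; ring
  have hlim : Tendsto (fun k : ℕ => (2⁻¹ : ℝ≥0∞) ^ k * K) atTop (𝓝 0) := by
    have h3 := ENNReal.tendsto_pow_atTop_nhds_zero_of_lt_one (r := 2⁻¹) (by norm_num)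
    have h4 := ENNReal.Tendsto.mul_const (b := K) h3 (Or.inr hKfin)
    rwa [zero_mul] at h4
  have hlim2 : Tendsto (fun k => ∑' c : S (k + 1),
      ediam (closedBall (c : ℂ) (5 * (rad n (k + 1) c / 2))) ^ (2 - p)) atTop (𝓝 0) :=
    tendsto_of_tendsto_of_tendsto_of_le_of_le tendsto_const_nhds hlim (fun _ => bot_le) hle
  rw [hlim2.liminf_eq] at hmain
  exact le_antisymm hmain bot_le

end cov

end Pool.Agent.H205.DM
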