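import Mathlib

/-!
# John accessibility: infinite concatenation of paths
-/

set_option autoImplicit false
open Metric Set Filter Topology

namespace Pool.Agent.H205.JA

theorem joined_of_continuousOn {S : Set ℂ} {f : ℝ → ℂ} {a b : ℝ} (hab : a ≤ b)
    (hf : ContinuousOn f (Icc a b)) (hS : ∀ t ∈ Icc a b, f t ∈ S) : JoinedIn S (f a) (f b) := by
  have h1 : IsPathConnected (Icc a b) := (convex_Icc a b).isPathConnected ⟨a, le_rfl, hab⟩
  have h2 := h1.image' hf
  have h3 := h2.joinedIn (f a) ⟨a, ⟨le_rfl, hab⟩, rfl⟩ (f b) ⟨b, ⟨hab, le_rfl⟩, rfl⟩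
  exact h3.mono (by rintro _ ⟨t, ht, rfl⟩; exact hS t ht)

theorem line_of_joined {S : Set ℂ} {x y : ℂ} (h : JoinedIn S x y) :
    ∃ f : ℝ → ℂ, Continuous f ∧ f 0 = x ∧ f 1 = y ∧ ∀ t, f t ∈ S := by
  obtain ⟨p, hp⟩ := h
  refine ⟨p.extend, p.continuous_extend, p.extend_zero, p.extend_one, fun t => ?_⟩
  have : p.extend t ∈ range p.extend := ⟨t, rfl⟩
  rw [p.extend_range] at this
  obtain ⟨s, hs⟩ := this
  rw [← hs]
  exact hp s

theorem concat_aux {S : ℕ → Set ℂ} {x : ℕ → ℂ} (h : ∀ k, JoinedIn (S k) (x k) (x (k + 1))) :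
    ∃ δ : ℝ → ℂ, ContinuousOn δ (Ici 0) ∧ δ 0 = x 0 ∧ ∀ t : ℝ, 0 ≤ t → δ t ∈ S ⌊t⌋₊ := by
  choose f hf hf0 hf1 hfS using fun k => line_of_joined (h k)
  refine ⟨fun t => f ⌊t⌋₊ (t - ⌊t⌋₊), ?_, ?_, fun t _ => hfS _ _⟩
  · have h1 : ∀ N : ℕ, ContinuousOn (fun t : ℝ => f ⌊t⌋₊ (t - ⌊t⌋₊)) (Icc (N:ℝ) (N + 1)) := by
      intro N
      have h2 : ContinuousOn (fun t : ℝ => f N (t - N)) (Icc (N:ℝ) (N + 1)) :=
        ((hf N).comp (continuous_id.sub continuous_const)).continuousOn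
      refine h2.congr ?_
      intro t ht
      rcases eq_or_lt_of_le ht.2 with h3 | h3
      · have h4 : ⌊t⌋₊ = N + 1 := by
          rw [h3]
          exact_mod_cast Nat.floor_natCast (N + 1)
        simp only [h4]
        rw [h3]
        push_cast
        rw [sub_self, hf0, add_sub_cancel_left, hf1]
      · have h4 : ⌊t⌋₊ = N := by
          rw [Nat.floor_eq_iff ((Nat.cast_nonneg N).trans ht.1)]
          exact ⟨ht.1, h3⟩
        simp only [h4]
    have h2 : ∀ N : ℕ, ContinuousOn (fun t : ℝ => f ⌊t⌋₊ (t - ⌊t⌋₊)) (Icc (0:ℝ) N) := by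
      intro N
      induction N with
      | zero => simp
      | succ N ih =>
        have h3 := ih.union_of_isClosed (h1 N) isClosed_Icc isClosed_Icc
        rw [Icc_union_Icc_eq_Icc (by positivity) (by linarith)] at h3
        exact_mod_cast h3
    intro t ht
    obtain ⟨N, hN⟩ := exists_nat_gt t
    refine ((h2 N) t ⟨ht, hN.le⟩).mono_of_mem_nhdsWithin ?_
    rw [mem_nhdsWithin]
    exact ⟨Iio (N:ℝ), isOpen_Iio, hN, fun y hy => ⟨hy.2, le_of_lt hy.1⟩⟩
  · simp [hf0]

theorem concat {U : Set ℂ} {c₀ : ℂ} {x : ℕ → ℂ} {r : ℕ → ℝ} (hr : Tendsto r atTop (𝓝 0))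
    (h : ∀ k, JoinedIn (U ∩ closedBall c₀ (r k)) (x k) (x (k + 1)))
    {o : ℝ → ℂ} (ho : ContinuousOn o (Ici 1)) (ho1 : o 1 = x 0) (hoU : ∀ t, 1 ≤ t → o t ∈ U)
    (hoi : Tendsto (fun t => ‖o t‖) atTop atTop) :
    ∃ γ : ℝ → ℂ, ContinuousOn γ (Ici 0) ∧ γ 0 = c₀ ∧ Tendsto (fun t => ‖γ t‖) atTop atTop ∧
      ∀ s, 0 < s → γ s ∈ U := by
  obtain ⟨δ, hδ, hδ0, hδU⟩ := concat_aux h
  set γ : ℝ → ℂ := fun s => if s ≤ 0 then c₀ else if s ≤ 1 then δ (1 / s - 1) else o s with hγ
  have g0 : γ 0 = c₀ := by simp [hγ]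
  have g1 : ∀ s, 0 < s → s ≤ 1 → γ s = δ (1 / s - 1) := by
    intro s hs hs1
    simp only [hγ, not_le.2 hs, hs1, if_true, if_false]
  have g2 : ∀ s, 1 ≤ s → γ s = o s := by
    intro s hs
    rcases eq_or_lt_of_le hs with h1 | h1
    · rw [← h1, g1 1 one_pos le_rfl, ho1, ← hδ0]; norm_num
    · simp only [hγ, not_le.2 h1, not_le.2 (one_pos.trans h1), if_false]
  refine ⟨γ, ?_, g0, ?_, ?_⟩
  · have c1 : ContinuousOn γ (Icc 0 1) := by
      intro s hs
      rcases eq_or_lt_of_le hs.1 with h0 | h0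
      · rw [← h0]
        unfold ContinuousWithinAt
        rw [g0, Metric.tendsto_nhdsWithin_nhds]
        intro ε hε
        obtain ⟨N, hN⟩ := (Metric.tendsto_atTop.1 hr) ε hε
        refine ⟨1 / (N + 1), by positivity, ?_⟩
        intro t ht htd
        rcases eq_or_lt_of_le ht.1 with h2 | h2
        · rw [← h2, g0, dist_self]; exact hε
        · rw [Real.dist_eq, sub_zero, abs_of_pos h2] at htd
          rw [g1 t h2 ht.2]
          have h3 : (N:ℝ) ≤ 1 / t - 1 := by
            have : (N:ℝ) + 1 < 1 / t := by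
              rw [lt_div_iff₀ h2]
              have := (lt_div_iff₀ (by positivity : (0:ℝ) < N + 1)).1 htd
              linarith
            linarith
          have h4 : N ≤ ⌊1 / t - 1⌋₊ := Nat.le_floor h3
          have h5 := (hδU (1 / t - 1) ((Nat.cast_nonneg N).trans h3)).2
          have h6 := hN _ h4
          rw [Real.dist_eq, sub_zero] at h6
          exact (mem_closedBall.1 h5).trans_lt ((le_abs_self _).trans_lt h6)
      · have h2 : ContinuousWithinAt (fun s : ℝ => δ (1 / s - 1)) (Icc 0 1 ∩ Ioi 0) s := by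
          apply ContinuousWithinAt.comp (t := Ici 0)
          · apply hδ
            have : 1 ≤ 1 / s := by rw [le_div_iff₀ h0]; linarith [hs.2]
            simpa using this
          · apply ContinuousAt.continuousWithinAt
            have : s ≠ 0 := h0.ne'
            fun_prop (disch := assumption)
          · intro t ht
            have h3 : (0:ℝ) < t := ht.2
            have : 1 ≤ 1 / t := by rw [le_div_iff₀ h3]; linarith [ht.1.2]
            simpa using this
        have h3 : ContinuousWithinAt γ (Icc 0 1 ∩ Ioi 0) s :=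
          h2.congr (fun t ht => g1 t ht.2 ht.1.2) (g1 s h0 hs.2)
        refine h3.mono_of_mem_nhdsWithin ?_
        exact inter_mem self_mem_nhdsWithin (mem_nhdsWithin_of_mem_nhds (Ioi_mem_nhds h0))
    have c2 : ContinuousOn γ (Ici 1) := ho.congr fun t ht => g2 t ht
    have c3 := c1.union_of_isClosed c2 isClosed_Icc isClosed_Ici
    rwa [Icc_union_Ici_eq_Ici zero_le_one] at c3
  · refine hoi.congr' ?_
    filter_upwards [eventually_ge_atTop (1:ℝ)] with t ht
    rw [g2 t ht]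
  · intro s hs
    rcases le_total s 1 with h1 | h1
    · rw [g1 s hs h1]
      have : 1 ≤ 1 / s := by rw [le_div_iff₀ hs]; linarith
      exact (hδU (1 / s - 1) (by linarith)).1
    · rw [g2 s h1]; exact hoU s h1

end Pool.Agent.H205.JA
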