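import Pool.Agent.H205.JA1
import Pool.Agent.H205.LD4

/-!
# John accessibility: coordinates
-/

set_option autoImplicit false
open Complex Metric Set Filter Topology

namespace Pool.Agent.H205.JA

open Pool.Agent.H205.AR N62a1eb23

/-- The size of the collars. -/
noncomputable def tau (n : ℕ) (M : ℝ) : ℝ := M / n

/-- The hypothesis on the parameter. -/
structure Hy (n : ℕ) (c₀ : ℂ) (M : ℝ) : Prop where
  hn : 2 ≤ n
  hc : c₀ ∈ multibrotSet n
  hM : 1 ≤ M
  hM2 : M ≤ 1 + Real.log n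
  hu : ∀ j, 2 ^ 20 * M ≤ u n c₀ j
  hu2 : ∀ j, n * Real.exp (-M) ≤ u n c₀ j

section basics

theorem v_le_of_mem {n : ℕ} (hn : 2 ≤ n) {x : ℂ} (hx : x ∈ multibrotSet n) (j : ℕ) :
    ‖v n x j‖ ≤ 1 + 2 / n := by
  have h := Pool.Agent.H462R2.CD.pow_le_two hn hx (j + 1)
  rw [← v_eq hn] at h
  by_contra hcon
  push Not at hcon
  have hn0 : (0:ℝ) < n := by exact_mod_cast (by omega : 0 < n)
  have hn2 : (2:ℝ) ≤ n := by exact_mod_cast hn
  have h1 : (1 + 2 / (n:ℝ)) ^ (n - 1) < ‖v n x j‖ ^ (n - 1) :=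
    pow_lt_pow_left₀ hcon (by positivity) (by omega)
  have h2 : 1 + ((n - 1 : ℕ) : ℝ) * (2 / n) ≤ (1 + 2 / (n:ℝ)) ^ (n - 1) :=
    one_add_mul_le_pow (by have : 0 < 2 / (n:ℝ) := by positivity
                           linarith) _
  have h3 : ((n - 1 : ℕ) : ℝ) = n - 1 := by
    rw [Nat.cast_sub (by omega)]; simp
  rw [h3] at h2
  have h4 : ((n:ℝ) - 1) * (2 / n) = 2 - 2 / n := by field_simp
  rw [h4] at h2
  have h5 : 2 / (n:ℝ) ≤ 1 := by rw [div_le_one hn0]; linarith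
  linarith

theorem not_mem_of_v {n : ℕ} (hn : 2 ≤ n) {x : ℂ} {j : ℕ} (h : 1 + 2 / n < ‖v n x j‖) :
    x ∉ multibrotSet n := fun hx => absurd (v_le_of_mem hn hx j) (not_le.2 h)

end basics

section hy

variable {n : ℕ} {c₀ : ℂ} {M : ℝ} (h : Hy n c₀ M)

include h

theorem L1 : 1 ≤ M := h.hM

theorem n_pos : (0:ℝ) < n := by exact_mod_cast (by have := h.hn; omega : 0 < n)

theorem n_ge : 2 ^ 19 * M ≤ (n:ℝ) := by
  have h1 := h.hu 0
  have h2 := u_le_of_mem h.hn h.hc 0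
  linarith

theorem tau_pos : 0 < tau n M := by
  have := L1 h
  have := n_pos h
  unfold tau; positivity

theorem inv_le_tau : 1 / (n:ℝ) ≤ tau n M := by
  have := L1 h
  have := n_pos h
  unfold tau; gcongr

theorem tau_le : tau n M ≤ 1 / 2 ^ 19 := by
  have := n_ge h
  have := n_pos h
  unfold tau
  rw [div_le_div_iff₀ this (by positivity)]
  linarith

theorem n_tau : n * tau n M = M := by
  have := n_pos h
  unfold tau; field_simp

theorem good (k : ℕ) : Good n (2 ^ 20) k c₀ := by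
  intro j _
  have h1 := h.hu j
  have h2 := L1 h
  have h3 := u_le_of_mem h.hn h.hc j
  have h4 := n_pos h
  constructor
  · linarith
  · linarith

theorem Qp (k : ℕ) : 0 < Q n c₀ k := Q_pos fun j _ => by
  have := ((good h j) j le_rfl).1; linarith

theorem Q_one (k : ℕ) : 1 ≤ Q n c₀ k := by
  refine LD.one_le_Q (Λ := 2 ^ 20) (by norm_num) (good h k) (k := k) (by omega)

theorem Q_grow (k : ℕ) : 2 ^ 20 * M * Q n c₀ k ≤ Q n c₀ (k + 1) := by
  rw [Q_succ]
  have h1 := h.hu k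
  have h2 := Qp h k
  nlinarith

theorem Q_two (k : ℕ) : 2 * Q n c₀ k ≤ Q n c₀ (k + 1) := by
  have h1 := Q_grow h k
  have h2 := Qp h k
  have h3 := L1 h
  nlinarith

theorem Q_ge_pow (k : ℕ) : 2 ^ k ≤ Q n c₀ k := by
  induction k with
  | zero => simp [Q_zero]
  | succ k ih => have := Q_two h k; rw [pow_succ]; linarith

theorem v_hi (j : ℕ) : ‖v n c₀ j‖ ≤ 1 + 2 / n := v_le_of_mem h.hn h.hc j

theorem v_low (j : ℕ) : 1 - 2 * tau n M ≤ ‖v n c₀ j‖ := by
  by_contra hcon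
  push Not at hcon
  have hn := h.hn
  have hn0 := n_pos h
  have h1 : ‖v n c₀ j‖ ^ (n - 1) < (1 - 2 * tau n M) ^ (n - 1) :=
    pow_lt_pow_left₀ hcon (norm_nonneg _) (by omega)
  have ht := tau_le h
  have ht0 := tau_pos h
  have h2 : 1 - 2 * tau n M ≤ Real.exp (-(2 * tau n M)) := by
    have := Real.add_one_le_exp (-(2 * tau n M)); linarith
  have h3 : (1 - 2 * tau n M) ^ (n - 1) ≤ Real.exp (-(2 * tau n M)) ^ (n - 1) := by
    apply pow_le_pow_left₀ _ h2
    have : (1:ℝ) / 2 ^ 19 ≤ 1 / 4 := by norm_num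
    linarith
  rw [← Real.exp_nat_mul] at h3
  have h4 : ((n - 1 : ℕ) : ℝ) = n - 1 := by
    rw [Nat.cast_sub (by omega)]; simp
  have hn2 : (2:ℝ) ≤ n := by exact_mod_cast hn
  have h5 : ((n - 1 : ℕ) : ℝ) * -(2 * tau n M) ≤ -M := by
    have h10 := n_tau h
    rw [h4]
    nlinarith
  have h6 := Real.exp_le_exp.2 h5
  have h7 := h.hu2 j
  unfold u at h7
  have h8 : ‖v n c₀ j‖ ^ (n - 1) < Real.exp (-M) := by linarith
  have h9 : n * ‖v n c₀ j‖ ^ (n - 1) < n * Real.exp (-M) := by gcongr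
  linarith

theorem v_low' (j : ℕ) : 99 / 100 ≤ ‖v n c₀ j‖ := by
  have h1 := v_low h j
  have h2 := tau_le h
  have : (1:ℝ) / 2 ^ 19 ≤ 1 / 200 := by norm_num
  linarith

theorem v_hi' (j : ℕ) : ‖v n c₀ j‖ ≤ 101 / 100 := by
  have h1 := v_hi h j
  have h2 := tau_le h
  have h3 := inv_le_tau h
  have : (1:ℝ) / 2 ^ 19 ≤ 1 / 200 := by norm_num
  have h4 : 2 / (n:ℝ) = 2 * (1 / n) := by ring
  linarith

theorem v_pos (j : ℕ) : 0 < ‖v n c₀ j‖ := by
  have := v_low' h j; linarith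

theorem v_ne (j : ℕ) : v n c₀ j ≠ 0 := norm_pos_iff.1 (v_pos h j)

theorem norm_pow_n (j : ℕ) : ‖v n c₀ j‖ ^ n = ‖v n c₀ j‖ ^ (n - 1) * ‖v n c₀ j‖ := by
  have := h.hn
  rw [← pow_succ]; congr 1; omega

theorem n_ell (j : ℕ) : n * ‖v n c₀ j‖ ^ n = u n c₀ j * ‖v n c₀ j‖ := by
  rw [norm_pow_n h]; unfold u; ring

theorem ell_low (j : ℕ) : 2 ^ 19 * tau n M ≤ ‖v n c₀ j‖ ^ n := by
  have h1 := n_ell h j
  have h2 := h.hu j
  have h3 := v_low' h j
  have h4 := L1 h
  have hn0 := n_pos h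
  have h5 : 2 ^ 19 * M ≤ n * ‖v n c₀ j‖ ^ n := by
    rw [h1]
    have h6 := u_nonneg n c₀ j
    calc 2 ^ 19 * M ≤ 2 ^ 20 * M * (99 / 100) := by linarith
      _ ≤ _ := by gcongr
  unfold tau
  rw [← mul_div_assoc, div_le_iff₀ hn0]
  linarith

theorem ell_low2 (j : ℕ) : 99 / 100 * Real.exp (-M) ≤ ‖v n c₀ j‖ ^ n := by
  have h1 := h.hu2 j
  have h3 := v_low' h j
  have hn0 := n_pos h
  unfold u at h1
  have h4 : Real.exp (-M) ≤ ‖v n c₀ j‖ ^ (n - 1) := le_of_mul_le_mul_left h1 hn0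
  rw [norm_pow_n h]
  calc 99 / 100 * Real.exp (-M) = Real.exp (-M) * (99 / 100) := by ring
    _ ≤ _ := by gcongr

theorem ell_hi (j : ℕ) : ‖v n c₀ j‖ ^ n ≤ 3 := by
  have h1 := v_hi' h j
  have h2 : ‖v n c₀ j‖ ^ (n - 1) ≤ 2 := by
    have := Pool.Agent.H462R2.CD.pow_le_two h.hn h.hc (j + 1)
    rwa [← v_eq h.hn] at this
  rw [norm_pow_n h]
  calc ‖v n c₀ j‖ ^ (n - 1) * ‖v n c₀ j‖ ≤ 2 * (101 / 100) := by gcongr
    _ ≤ 3 := by norm_num

/-- The radius of the coordinate of level `k`. -/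
noncomputable def R (n : ℕ) (c₀ : ℂ) (M : ℝ) (k : ℕ) : ℝ := 819 * tau n M / Q n c₀ k

theorem R_pos (k : ℕ) : 0 < R n c₀ M k := by
  have := tau_pos h
  have := Qp h k
  unfold R; positivity

theorem R_le (k : ℕ) : R n c₀ M (k + 1) ≤ rad n k c₀ := by
  have h1 := LD.v_ge h.hn (by norm_num) (good h k)
  have h2 := Qp h k
  have h3 := Q_grow h k
  have h4 := n_pos h
  have h5 := L1 h
  have h6 := Qp h (k + 1)
  unfold R rad
  rw [div_le_div_iff₀ h6 (by positivity)]
  have h7 : 819 * tau n M * (160 * n * Q n c₀ k) = 131040 * (M * Q n c₀ k) := by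
    unfold tau; field_simp; norm_num
  rw [h7]
  calc 131040 * (M * Q n c₀ k)
      ≤ 1 / 8 * (2 ^ 20 * M * Q n c₀ k) := by
        have : 0 < M * Q n c₀ k := by positivity
        linarith
    _ ≤ ‖v n c₀ k‖ * Q n c₀ (k + 1) := by gcongr

theorem deriv_close (k : ℕ) {x : ℂ} (hx : x ∈ closedBall c₀ (R n c₀ M k)) :
    ‖DD n x k - PP n c₀ k‖ ≤ 1 / 4 * ‖PP n c₀ k‖ := by
  rw [norm_PP]
  cases k with
  | zero =>
    rw [PP_zero, Q_zero]
    simp [DD]
  | succ k =>
    rw [mem_closedBall, dist_eq_norm] at hx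
    exact core_deriv h.hn (by norm_num) (good h k) (hx.trans (R_le h k))

theorem PP_ne (k : ℕ) : PP n c₀ k ≠ 0 := by
  rw [← norm_pos_iff, norm_PP]; exact Qp h k

theorem approx (k : ℕ) {x y : ℂ} (hx : x ∈ closedBall c₀ (R n c₀ M k))
    (hy : y ∈ closedBall c₀ (R n c₀ M k)) :
    ‖v n x k - v n y k - PP n c₀ k * (x - y)‖ ≤ 1 / 4 * Q n c₀ k * ‖x - y‖ := by
  have := LD.approx_aux (F := fun x => v n x k) (F' := fun x => DD n x k) (P := PP n c₀ k)
    (c := c₀) (r := R n c₀ M k) (fun x _ => hasDerivAt_v n x k)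
    (fun x hx => deriv_close h k hx) hx hy
  rwa [norm_PP] at this

theorem lip_up (k : ℕ) {x y : ℂ} (hx : x ∈ closedBall c₀ (R n c₀ M k))
    (hy : y ∈ closedBall c₀ (R n c₀ M k)) :
    ‖v n x k - v n y k‖ ≤ 5 / 4 * Q n c₀ k * ‖x - y‖ := by
  have h1 := approx h k hx hy
  have h2 : ‖v n x k - v n y k‖ ≤ ‖v n x k - v n y k - PP n c₀ k * (x - y)‖ +
      ‖PP n c₀ k * (x - y)‖ := by
    have := norm_add_le (v n x k - v n y k - PP n c₀ k * (x - y)) (PP n c₀ k * (x - y))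
    rwa [sub_add_cancel] at this
  rw [norm_mul, norm_PP] at h2
  linarith

theorem lip_low (k : ℕ) {x y : ℂ} (hx : x ∈ closedBall c₀ (R n c₀ M k))
    (hy : y ∈ closedBall c₀ (R n c₀ M k)) :
    3 / 4 * Q n c₀ k * ‖x - y‖ ≤ ‖v n x k - v n y k‖ := by
  have h1 := approx h k hx hy
  have h2 : ‖PP n c₀ k * (x - y)‖ ≤ ‖v n x k - v n y k - PP n c₀ k * (x - y)‖ +
      ‖v n x k - v n y k‖ := by
    have := norm_sub_le (v n x k - v n y k) (v n x k - v n y k - PP n c₀ k * (x - y))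
    rw [sub_sub_cancel] at this
    linarith
  rw [norm_mul, norm_PP] at h2
  linarith

theorem c_mem (k : ℕ) : c₀ ∈ closedBall c₀ (R n c₀ M k) := by
  rw [mem_closedBall, dist_self]; exact (R_pos h k).le

theorem exists_inv (k : ℕ) {y : ℂ} (hy : ‖y - v n c₀ k‖ ≤ 614 * tau n M) :
    ∃ x, x ∈ closedBall c₀ (R n c₀ M k) ∧ v n x k = y := by
  have h2 := Qp h k
  have := LD.surj_aux (F := fun x => v n x k) (F' := fun x => DD n x k) (P := PP n c₀ k)
    (c := c₀) (r := R n c₀ M k) (PP_ne h k) (R_pos h k).le (fun x _ => hasDerivAt_v n x k)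
    (fun x hx => deriv_close h k hx) (y := y) (by
      refine hy.trans ?_
      rw [norm_PP]
      unfold R
      have e : 3 / 4 * Q n c₀ k * (819 * tau n M / Q n c₀ k) = 3 / 4 * (819 * tau n M) := by
        field_simp
      rw [e]
      have := tau_pos h
      linarith)
  obtain ⟨x, hx, hxy⟩ := this
  exact ⟨x, by rwa [mem_closedBall, dist_eq_norm], hxy⟩

omit h in
/-- The inverse of the coordinate of level `k`. -/
noncomputable def G (n : ℕ) (c₀ : ℂ) (M : ℝ) (k : ℕ) (y : ℂ) : ℂ :=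
  open Classical in
  if hx : ∃ x, x ∈ closedBall c₀ (R n c₀ M k) ∧ v n x k = y then hx.choose else c₀

theorem G_mem (k : ℕ) {y : ℂ} (hy : ‖y - v n c₀ k‖ ≤ 614 * tau n M) :
    G n c₀ M k y ∈ closedBall c₀ (R n c₀ M k) := by
  have hx := exists_inv h k hy
  unfold G
  rw [dif_pos hx]
  exact hx.choose_spec.1

theorem v_G (k : ℕ) {y : ℂ} (hy : ‖y - v n c₀ k‖ ≤ 614 * tau n M) : v n (G n c₀ M k y) k = y := by
  have hx := exists_inv h k hy
  unfold G
  rw [dif_pos hx]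
  exact hx.choose_spec.2

theorem G_v (k : ℕ) {x : ℂ} (hx : x ∈ closedBall c₀ (R n c₀ M k))
    (hy : ‖v n x k - v n c₀ k‖ ≤ 614 * tau n M) : G n c₀ M k (v n x k) = x := by
  have h1 := lip_low h k (G_mem h k hy) hx
  rw [v_G h k hy, sub_self, norm_zero] at h1
  have h2 := Qp h k
  have h3 : ‖G n c₀ M k (v n x k) - x‖ = 0 := by
    have h4 := norm_nonneg (G n c₀ M k (v n x k) - x)
    by_contra hne
    have h5 : 0 < ‖G n c₀ M k (v n x k) - x‖ := lt_of_le_of_ne h4 (Ne.symm hne)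
    have : 0 < 3 / 4 * Q n c₀ k * ‖G n c₀ M k (v n x k) - x‖ := by positivity
    linarith
  rwa [norm_eq_zero, sub_eq_zero] at h3

theorem G_lip (k : ℕ) {y y' : ℂ} (hy : ‖y - v n c₀ k‖ ≤ 614 * tau n M)
    (hy' : ‖y' - v n c₀ k‖ ≤ 614 * tau n M) :
    ‖G n c₀ M k y - G n c₀ M k y'‖ ≤ 4 / 3 * ‖y - y'‖ / Q n c₀ k := by
  have h1 := lip_low h k (G_mem h k hy) (G_mem h k hy')
  rw [v_G h k hy, v_G h k hy'] at h1
  have h2 := Qp h k
  rw [le_div_iff₀ h2]
  linarith

theorem G_center (k : ℕ) : G n c₀ M k (v n c₀ k) = c₀ :=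
  G_v h k (c_mem h k) (by rw [sub_self, norm_zero]; have := tau_pos h; positivity)

theorem G_dist (k : ℕ) {y : ℂ} (hy : ‖y - v n c₀ k‖ ≤ 614 * tau n M) :
    ‖G n c₀ M k y - c₀‖ ≤ 4 / 3 * ‖y - v n c₀ k‖ / Q n c₀ k := by
  have h1 := G_lip h k hy (y' := v n c₀ k) (by
    rw [sub_self, norm_zero]; have := tau_pos h; positivity)
  rwa [G_center h k] at h1

theorem G_cont (k : ℕ) : ContinuousOn (G n c₀ M k) (closedBall (v n c₀ k) (614 * tau n M)) := by
  have h2 := Qp h k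
  have : LipschitzOnWith (Real.toNNReal (4 / 3 / Q n c₀ k)) (G n c₀ M k)
      (closedBall (v n c₀ k) (614 * tau n M)) := by
    apply LipschitzOnWith.of_dist_le_mul
    intro x hx y hy
    rw [mem_closedBall, dist_eq_norm] at hx hy
    rw [dist_eq_norm, dist_eq_norm, Real.coe_toNNReal _ (by positivity)]
    refine (G_lip h k hx hy).trans (le_of_eq ?_)
    ring
  exact this.continuousOn

/-! ### Orbits of nearby points for nearby parameters -/

omit h in
/-- The orbit of `w` under `z ^ n + c`. -/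
def orb2 (n : ℕ) (c w : ℂ) : ℕ → ℂ
  | 0 => w
  | j + 1 => (orb2 n c w j) ^ n + c

omit h in
theorem orb2_self (c : ℂ) (j : ℕ) : orb2 n c c j = v n c j := by
  induction j with
  | zero => rfl
  | succ j ih => rw [orb2, v, ih]

omit h in
theorem orb2_v (c : ℂ) (k j : ℕ) : orb2 n c (v n c k) j = v n c (k + j) := by
  induction j with
  | zero => rfl
  | succ j ih => rw [orb2, ← add_assoc, v, ih]

omit h in
theorem pow_sub_pow_le {a b : ℂ} {M : ℝ} (ha : ‖a‖ ≤ M) (hb : ‖b‖ ≤ M) :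
    ‖a ^ n - b ^ n‖ ≤ n * M ^ (n - 1) * ‖a - b‖ := by
  have h1 := (convex_closedBall (0:ℂ) M).norm_image_sub_le_of_norm_hasDerivWithin_le
      (f := fun x : ℂ => x ^ n) (f' := fun x : ℂ => (n:ℂ) * x ^ (n - 1)) (C := n * M ^ (n - 1))
      (fun z _ => (hasDerivAt_pow n z).hasDerivWithinAt)
      (fun z hz => by
        rw [mem_closedBall, dist_zero_right] at hz
        rw [norm_mul, norm_pow, Complex.norm_natCast]
        gcongr)
      (x := b) (y := a) (by rwa [mem_closedBall, dist_zero_right])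
      (by rwa [mem_closedBall, dist_zero_right])
  exact h1

theorem track2 (m : ℕ) {w c' : ℂ} (hw : w ∈ closedBall c₀ (R n c₀ M (m + 1)))
    (hc' : c' ∈ closedBall c₀ (R n c₀ M (m + 1))) {j : ℕ} (hj : j ≤ m) :
    n * ‖orb2 n c' w j - v n c₀ j‖ ≤ ee m j * ‖v n c₀ j‖ := by
  rw [mem_closedBall, dist_eq_norm] at hw hc'
  have hR := R_le h m
  have hR0 := (R_pos h (m + 1)).le
  have hn := h.hn
  have hG := good h m
  have h1 := track (n := n) (by omega) (c := c₀) (m := m) (Λ := 2 ^ 20) (by norm_num) (e := ee m)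
    (ee_nonneg m) (β := R n c₀ M (m + 1)) hR0 (fun i hi => (hG i hi.le).1)
    (fun i hi => cond_aux hn (by norm_num) hG hR0 hR hi.le) (x := fun i => orb2 n c' w i) hw
    (by
      intro i _
      have : orb2 n c' w (i + 1) - v n c₀ (i + 1) =
          (orb2 n c' w i ^ n - v n c₀ i ^ n) + (c' - c₀) := by
        rw [v_succ, orb2]; ring
      rw [this]
      exact (norm_add_le _ _).trans (by linarith)) j hj
  refine le_trans ?_ (cond_aux hn (by norm_num) hG hR0 hR hj)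
  gcongr

/-- The sum of the reciprocals. -/
theorem sum_inv (k : ℕ) : ∑ i ∈ Finset.range k, 1 / Q n c₀ (i + 1) ≤
    2 / (2 ^ 20 * M) * (1 - (1 / 2) ^ k) := by
  have hL := L1 h
  have hX : 0 < 2 ^ 20 * M := by positivity
  have hq : ∀ i : ℕ, 2 ^ 20 * M * 2 ^ i ≤ Q n c₀ (i + 1) := by
    intro i
    have h1 := Q_grow h i
    have h2 := Q_ge_pow h i
    calc 2 ^ 20 * M * 2 ^ i ≤ 2 ^ 20 * M * Q n c₀ i := by gcongr
      _ ≤ _ := h1
  induction k with
  | zero => simp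
  | succ k ih =>
    rw [Finset.sum_range_succ]
    have h1 : 1 / Q n c₀ (k + 1) ≤ 1 / (2 ^ 20 * M) * (1 / 2) ^ k := by
      rw [one_div_pow, ← one_div_mul_one_div_rev, ]
      rw [one_div_mul_one_div_rev, ]
      refine (one_div_le_one_div_of_le (by positivity) (hq k)).trans (le_of_eq ?_)
      field_simp
    have e : 2 / (2 ^ 20 * M) * (1 - (1 / 2) ^ (k + 1)) =
      2 / (2 ^ 20 * M) * (1 - (1 / 2) ^ k) +
        1 / (2 ^ 20 * M) * (1 / 2) ^ k := by
      rw [pow_succ]; field_simp; ring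
    rw [e]
    linarith

/-- Two nearby orbits. -/
theorem dist2 (k : ℕ) {x w c' : ℂ} (hx : x ∈ closedBall c₀ (R n c₀ M k))
    (hw : w ∈ closedBall c₀ (R n c₀ M k)) (hc' : c' ∈ closedBall c₀ (R n c₀ M k)) :
    ‖orb2 n c' w k - v n x k‖ ≤
      5 / 4 * Q n c₀ k * (‖w - x‖ + 2 / (2 ^ 20 * M) * ‖c' - x‖) := by
  have hL := L1 h
  cases k with
  | zero =>
    rw [Q_zero]
    have e : orb2 n c' w 0 - v n x 0 = w - x := rfl
    rw [e]
    have : 0 ≤ 2 / (2 ^ 20 * M) * ‖c' - x‖ := by positivity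
    have := norm_nonneg (w - x)
    linarith
  | succ m =>
    have key : ∀ j ≤ m + 1, ‖orb2 n c' w j - v n x j‖ ≤
        Real.exp (∑ i ∈ Finset.range j, ee m i) * Q n c₀ j *
          (‖w - x‖ + (∑ i ∈ Finset.range j, 1 / Q n c₀ (i + 1)) * ‖c' - x‖) := by
      intro j
      induction j with
      | zero =>
        intro _
        simp [Q_zero, orb2, v]
      | succ j ih =>
        intro hj
        have h1 := ih (by omega)
        have h2 := track2 h m hw hc' (j := j) (by omega)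
        have h3 := track2 h m hx hx (j := j) (by omega)
        rw [orb2_self] at h3
        have hn := h.hn
        have h4 := norm_pow_le' (n := n) (by omega) (ee_nonneg m j) h2
        have h5 := norm_pow_le' (n := n) (by omega) (ee_nonneg m j) h3
        have h6 : ‖orb2 n c' w j ^ n - v n x j ^ n‖ ≤
            Real.exp (ee m j) * u n c₀ j * ‖orb2 n c' w j - v n x j‖ := by
          rcases le_total ‖orb2 n c' w j‖ ‖v n x j‖ with h7 | h7
          · refine (pow_sub_pow_le h7 le_rfl).trans ?_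
            unfold u
            calc n * ‖v n x j‖ ^ (n - 1) * ‖orb2 n c' w j - v n x j‖
                ≤ n * (Real.exp (ee m j) * ‖v n c₀ j‖ ^ (n - 1)) * ‖orb2 n c' w j - v n x j‖ := by
                  gcongr
              _ = _ := by ring
          · refine (pow_sub_pow_le le_rfl h7).trans ?_
            unfold u
            calc n * ‖orb2 n c' w j‖ ^ (n - 1) * ‖orb2 n c' w j - v n x j‖
                ≤ n * (Real.exp (ee m j) * ‖v n c₀ j‖ ^ (n - 1)) * ‖orb2 n c' w j - v n x j‖ := by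
                  gcongr
              _ = _ := by ring
        have h8 : orb2 n c' w (j + 1) - v n x (j + 1) =
            (orb2 n c' w j ^ n - v n x j ^ n) + (c' - x) := by
          rw [v_succ, orb2]; ring
        have hQ1 := Qp h (j + 1)
        have hE : 1 ≤ Real.exp (∑ i ∈ Finset.range (j + 1), ee m i) :=
          Real.one_le_exp (Finset.sum_nonneg fun i _ => ee_nonneg m i)
        have hu0 := u_nonneg n c₀ j
        rw [h8]
        calc ‖(orb2 n c' w j ^ n - v n x j ^ n) + (c' - x)‖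
            ≤ Real.exp (ee m j) * u n c₀ j * (Real.exp (∑ i ∈ Finset.range j, ee m i) * Q n c₀ j *
                (‖w - x‖ + (∑ i ∈ Finset.range j, 1 / Q n c₀ (i + 1)) * ‖c' - x‖)) +
                1 * ‖c' - x‖ := by
              refine (norm_add_le _ _).trans (add_le_add (h6.trans ?_) (by rw [one_mul]))
              gcongr
          _ ≤ Real.exp (ee m j) * u n c₀ j * (Real.exp (∑ i ∈ Finset.range j, ee m i) * Q n c₀ j *
                (‖w - x‖ + (∑ i ∈ Finset.range j, 1 / Q n c₀ (i + 1)) * ‖c' - x‖)) +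
                (Real.exp (∑ i ∈ Finset.range (j + 1), ee m i) * Q n c₀ (j + 1) *
                  (1 / Q n c₀ (j + 1))) * ‖c' - x‖ := by
              gcongr
              rw [mul_assoc, mul_one_div_cancel hQ1.ne', mul_one]
              exact hE
          _ = _ := by
              rw [Finset.sum_range_succ, Finset.sum_range_succ, Real.exp_add, Q_succ]
              ring
    have h1 := key (m + 1) le_rfl
    have h2 : Real.exp (∑ i ∈ Finset.range (m + 1), ee m i) ≤ 5 / 4 := by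
      refine le_trans (Real.exp_le_exp.2 ?_) exp_le_five_fourth
      have := sum_ee (m := m) (j := m + 1) le_rfl
      linarith
    have h3 : ∑ i ∈ Finset.range (m + 1), 1 / Q n c₀ (i + 1) ≤ 2 / (2 ^ 20 * M) := by
      refine (sum_inv h (m + 1)).trans ?_
      have h4 : 0 ≤ 2 / (2 ^ 20 * M) := by positivity
      have h5 : 0 < (1 / 2 : ℝ) ^ (m + 1) := by positivity
      nlinarith
    have hQ := Qp h (m + 1)
    have hs0 : 0 ≤ ∑ i ∈ Finset.range (m + 1), 1 / Q n c₀ (i + 1) :=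
      Finset.sum_nonneg fun i _ => by have := Qp h (i + 1); positivity
    refine h1.trans ?_
    gcongr

end hy

end Pool.Agent.H205.JA
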