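import Pool.Agent.H205.JA2

/-!
# John accessibility: the long segment
-/

set_option autoImplicit false
open Complex Metric Set Filter Topology

namespace Pool.Agent.H205.JA

open Pool.Agent.H205.AR N62a1eb23

/-- The points with robust escape: all nearby points escape for all nearby parameters. -/
def U (n : ℕ) (c₀ : ℂ) (M : ℝ) : Set ℂ :=
  {x | x ≠ c₀ ∧ ∀ w c', ‖w - x‖ ≤ ‖x - c₀‖ / (4000 * M) →
    ‖c' - c₀‖ ≤ 2 * ‖x - c₀‖ → ∃ j, 1 + 2 / (n:ℝ) < ‖orb2 n c' w j‖}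

section hy

variable {n : ℕ} {c₀ : ℂ} {M : ℝ} (h : Hy n c₀ M)

include h

/-- The points of `U` are far from the Multibrot set. -/
theorem U_dist {x : ℂ} (hx : x ∈ U n c₀ M) {x' : ℂ} (hx' : x' ∈ multibrotSet n) :
    ‖x - c₀‖ ≤ 4000 * M * ‖x' - x‖ := by
  by_contra hcon
  push Not at hcon
  have hL := L1 h
  have h1 : ‖x' - x‖ ≤ ‖x - c₀‖ / (4000 * M) := by
    rw [le_div_iff₀ (by positivity)]
    linarith
  have h2 : ‖x' - c₀‖ ≤ 2 * ‖x - c₀‖ := by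
    have h3 : ‖x' - c₀‖ ≤ ‖x' - x‖ + ‖x - c₀‖ := by
      have := norm_add_le (x' - x) (x - c₀)
      rwa [sub_add_sub_cancel] at this
    have h4 : ‖x' - x‖ ≤ ‖x - c₀‖ := by
      refine h1.trans (div_le_self (norm_nonneg _) ?_)
      linarith
    linarith
  obtain ⟨j, hj⟩ := hx.2 x' x' h1 h2
  rw [orb2_self] at hj
  exact not_mem_of_v h.hn hj hx'

theorem mem_U_A (k : ℕ) {x : ℂ} (hx : ‖x - c₀‖ ≤ 36 * tau n M / Q n c₀ k)
    (hv : 1 + 7 / 2 * (1 / (n:ℝ)) ≤ ‖v n x k‖) : x ∈ U n c₀ M := by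
  have hn0 := n_pos h
  have hQ := Qp h k
  have ht := tau_pos h
  have hi := inv_le_tau h
  have hL := L1 h
  have hi0 : 0 < 1 / (n:ℝ) := by positivity
  have e2 : 2 / (n:ℝ) = 2 * (1 / n) := by ring
  refine ⟨?_, ?_⟩
  · intro hc
    rw [hc] at hv
    have := v_hi h k
    linarith
  · intro w c' hw hc'
    refine ⟨k, ?_⟩
    have hd1 : ‖w - x‖ ≤ 1 / 100 * (1 / n) / Q n c₀ k := by
      refine hw.trans ?_
      rw [div_le_iff₀ (by positivity)]
      refine hx.trans ?_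
      have e : 1 / 100 * (1 / n) / Q n c₀ k * (4000 * M) =
          40 * tau n M / Q n c₀ k := by
        unfold tau; field_simp; norm_num
      rw [e]
      refine div_le_div_of_nonneg_right ?_ hQ.le
      linarith
    have hd2 : ‖c' - c₀‖ ≤ 72 * tau n M / Q n c₀ k := by
      refine hc'.trans ?_
      calc 2 * ‖x - c₀‖ ≤ 2 * (36 * tau n M / Q n c₀ k) := by gcongr
        _ = _ := by ring
    have hd3 : ‖w - c₀‖ ≤ 312 * tau n M / Q n c₀ k := by
      have h3 : ‖w - c₀‖ ≤ ‖w - x‖ + ‖x - c₀‖ := by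
        have := norm_add_le (w - x) (x - c₀)
        rwa [sub_add_sub_cancel] at this
      refine h3.trans ((add_le_add hd1 hx).trans ?_)
      rw [← add_div]
      refine div_le_div_of_nonneg_right ?_ hQ.le
      linarith
    have hd4 : ‖c' - x‖ ≤ 108 * tau n M / Q n c₀ k := by
      have h3 : ‖c' - x‖ ≤ ‖c' - c₀‖ + ‖x - c₀‖ := by
        have := norm_sub_le (c' - c₀) (x - c₀)
        rwa [sub_sub_sub_cancel_right] at this
      refine h3.trans ((add_le_add hd2 hx).trans ?_)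
      rw [← add_div]
      refine div_le_div_of_nonneg_right ?_ hQ.le
      linarith
    have hR : ∀ t : ℝ, t ≤ 819 * tau n M → ∀ y : ℂ, ‖y - c₀‖ ≤ t / Q n c₀ k →
        y ∈ closedBall c₀ (R n c₀ M k) := by
      intro t ht y hy
      rw [mem_closedBall, dist_eq_norm]
      refine hy.trans ?_
      unfold R
      exact div_le_div_of_nonneg_right ht hQ.le
    have h1 := dist2 h k (hR (36 * tau n M) (by linarith) x hx) (hR (312 * tau n M) (by linarith) w hd3)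
      (hR (72 * tau n M) (by linarith) c' hd2)
    have h2 : 5 / 4 * Q n c₀ k * (‖w - x‖ + 2 / (2 ^ 20 * M) * ‖c' - x‖) ≤
        1 / 10 * (1 / n) := by
      calc 5 / 4 * Q n c₀ k * (‖w - x‖ + 2 / (2 ^ 20 * M) * ‖c' - x‖)
          ≤ 5 / 4 * Q n c₀ k * (1 / 100 * (1 / n) / Q n c₀ k +
            2 / (2 ^ 20 * M) * (108 * tau n M / Q n c₀ k)) := by gcongr
        _ = (5 / 4 * (1 / 100 + 2 / 2 ^ 20 * 108)) * (1 / (n:ℝ)) := by
            unfold tau; field_simp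
        _ ≤ 1 / 10 * (1 / (n:ℝ)) := by
            gcongr
            norm_num
    have h5 : ‖v n x k‖ ≤ ‖orb2 n c' w k‖ + ‖orb2 n c' w k - v n x k‖ := by
      have := norm_sub_le (orb2 n c' w k) (orb2 n c' w k - v n x k)
      rwa [sub_sub_cancel] at this
    rw [e2]
    linarith

/-- The point over the logarithmic coordinate `ζ`. -/
theorem YY_dist (k : ℕ) {ζ : ℂ} (hζ : ‖ζ‖ ≤ 12 * M) :
    ‖v n c₀ k * Complex.exp (ζ / n) - v n c₀ k‖ ≤ 9 / 4 * (‖ζ‖ / n) := by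
  have hn0 := n_pos h
  have ht := tau_pos h
  have ht1 := tau_le h
  have hv := v_hi' h k
  have h1 : ‖ζ / n‖ = ‖ζ‖ / n := by rw [norm_div, Complex.norm_natCast]
  have h2 : ‖ζ‖ / n ≤ 12 * tau n M := by
    rw [div_le_iff₀ hn0]
    have := n_tau h
    nlinarith
  have h3 : ‖ζ / n‖ ≤ 1 := by
    rw [h1]
    refine h2.trans ?_
    have : (1:ℝ) / 2 ^ 19 ≤ 1 / 12 := by norm_num
    linarith
  have h4 := Complex.norm_exp_sub_one_le h3
  rw [h1] at h4
  have e : v n c₀ k * Complex.exp (ζ / n) - v n c₀ k = v n c₀ k * (Complex.exp (ζ / n) - 1) := by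
    ring
  rw [e, norm_mul]
  have h5 : 0 ≤ ‖ζ‖ / n := by positivity
  calc ‖v n c₀ k‖ * ‖Complex.exp (ζ / n) - 1‖ ≤ 101 / 100 * (2 * (‖ζ‖ / n)) := by gcongr
    _ ≤ _ := by linarith

theorem YY_dist' (k : ℕ) {ζ : ℂ} (hζ : ‖ζ‖ ≤ 12 * M) :
    ‖v n c₀ k * Complex.exp (ζ / n) - v n c₀ k‖ ≤ 614 * tau n M := by
  have hn0 := n_pos h
  have ht := tau_pos h
  have h2 : ‖ζ‖ / n ≤ 12 * tau n M := by
    rw [div_le_iff₀ hn0]
    have := n_tau h
    nlinarith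
  have := YY_dist h k hζ
  linarith

theorem XX_dist (k : ℕ) {ζ : ℂ} (hζ : ‖ζ‖ ≤ 12 * M) :
    ‖G n c₀ M k (v n c₀ k * Complex.exp (ζ / n)) - c₀‖ ≤ 3 * (‖ζ‖ / n) / Q n c₀ k := by
  have hQ := Qp h k
  refine (G_dist h k (YY_dist' h k hζ)).trans ?_
  have := YY_dist h k hζ
  exact div_le_div_of_nonneg_right (by linarith) hQ.le

/-! ### The numbers of the long segment -/

omit h in
/-- The unit vector of the orbit point. -/
noncomputable def ev (n : ℕ) (c₀ : ℂ) (k : ℕ) : ℂ := v n c₀ k / (‖v n c₀ k‖ : ℂ)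

theorem norm_ev (k : ℕ) : ‖ev n c₀ k‖ = 1 := by
  unfold ev
  rw [norm_div, Complex.norm_real, norm_norm, div_self (v_pos h k).ne']

theorem ev_mul (k : ℕ) : (‖v n c₀ k‖ : ℂ) * ev n c₀ k = v n c₀ k := by
  unfold ev
  have : (‖v n c₀ k‖ : ℂ) ≠ 0 := by exact_mod_cast (v_pos h k).ne'
  field_simp

theorem norm_pt (k : ℕ) {s : ℝ} (hs : 0 ≤ s) : ‖((1 + s : ℝ) : ℂ) * ev n c₀ k‖ = 1 + s := by
  rw [norm_mul, norm_ev h, mul_one, Complex.norm_real, Real.norm_of_nonneg (by linarith)]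

omit h in
theorem norm_eta0 (k : ℕ) : ‖v n c₀ (k + 1) - c₀‖ = ‖v n c₀ k‖ ^ n := by
  rw [v_succ, add_sub_cancel_right, norm_pow]

theorem c_hi : ‖c₀‖ ≤ 1 + 2 / n := v_hi h 0

theorem c_low : 1 - 2 * tau n M ≤ ‖c₀‖ := v_low h 0

theorem two_div : 2 / (n:ℝ) ≤ 2 * tau n M := by
  have := inv_le_tau h
  have e : 2 / (n:ℝ) = 2 * (1 / n) := by ring
  linarith

variable {s : ℝ} (hs : 4 * (1 / (n:ℝ)) ≤ s)

include hs

theorem s_pos : 0 < s := by
  have := n_pos h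
  have : 0 < 1 / (n:ℝ) := by positivity
  linarith

theorem lam_low (k : ℕ) : s / 2 ≤ 1 + s - ‖v n c₀ k‖ := by
  have h1 := v_hi h k
  have e : 2 / (n:ℝ) = 2 * (1 / n) := by ring
  linarith

theorem lam_hi (k : ℕ) : 1 + s - ‖v n c₀ k‖ ≤ s + 2 * tau n M := by
  have h1 := v_low h k
  linarith

theorem pt_sub (k : ℕ) : ‖((1 + s : ℝ) : ℂ) * ev n c₀ k - v n c₀ k‖ = 1 + s - ‖v n c₀ k‖ := by
  have h1 := lam_low h hs k
  have h2 := s_pos h hs
  have e : ((1 + s : ℝ) : ℂ) * ev n c₀ k - v n c₀ k =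
      ((1 + s - ‖v n c₀ k‖ : ℝ) : ℂ) * ev n c₀ k := by
    have e3 : v n c₀ k = (‖v n c₀ k‖ : ℂ) * ev n c₀ k := (ev_mul h k).symm
    push_cast
    linear_combination (-1 : ℂ) * e3
  rw [e, norm_mul, norm_ev h, mul_one, Complex.norm_real, Real.norm_of_nonneg (by linarith)]

theorem eta_low (k : ℕ) : 3 / 8 * (‖v n c₀ k‖ ^ n) ≤ ‖((1 + s : ℝ) : ℂ) * ev n c₀ (k + 1) - c₀‖ ∧
    3 / 8 * (1 + s - ‖v n c₀ (k + 1)‖) ≤ ‖((1 + s : ℝ) : ℂ) * ev n c₀ (k + 1) - c₀‖ := by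
  have h1 := pt_sub h hs (k + 1)
  have h2 := lam_low h hs (k + 1)
  have h3 := lam_hi h hs (k + 1)
  have h4 := s_pos h hs
  have h5 := norm_eta0 (n := n) (c₀ := c₀) k
  have h6 := norm_pt h (k + 1) h4.le
  have h7 := c_hi h
  have h8 := two_div h
  have h9 := ell_low h k
  have h10 := tau_pos h
  have h11 : 1 + s - ‖c₀‖ ≤ ‖((1 + s : ℝ) : ℂ) * ev n c₀ (k + 1) - c₀‖ := by
    have := norm_sub_norm_le (((1 + s : ℝ) : ℂ) * ev n c₀ (k + 1)) c₀
    rwa [h6] at this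
  have h12 : ‖v n c₀ k‖ ^ n ≤ ‖((1 + s : ℝ) : ℂ) * ev n c₀ (k + 1) - c₀‖ +
      (1 + s - ‖v n c₀ (k + 1)‖) := by
    rw [← h5, ← h1]
    have := norm_sub_le (((1 + s : ℝ) : ℂ) * ev n c₀ (k + 1) - c₀)
      (((1 + s : ℝ) : ℂ) * ev n c₀ (k + 1) - v n c₀ (k + 1))
    rwa [sub_sub_sub_cancel_left] at this
  set lam := 1 + s - ‖v n c₀ (k + 1)‖ with hlam
  set ell := ‖v n c₀ k‖ ^ n with hell
  set η := ‖((1 + s : ℝ) : ℂ) * ev n c₀ (k + 1) - c₀‖ with hη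
  have h13 : lam - 4 * tau n M ≤ η := by linarith
  rcases le_or_gt (ell / 2) lam with h14 | h14
  · constructor <;> linarith
  · constructor <;> linarith

theorem eta_hi (k : ℕ) : ‖((1 + s : ℝ) : ℂ) * ev n c₀ (k + 1) - c₀‖ ≤
    ‖v n c₀ k‖ ^ n + (1 + s - ‖v n c₀ (k + 1)‖) := by
  rw [← norm_eta0 (n := n) (c₀ := c₀) k, ← pt_sub h hs (k + 1)]
  have := norm_add_le (v n c₀ (k + 1) - c₀) (((1 + s : ℝ) : ℂ) * ev n c₀ (k + 1) - v n c₀ (k + 1))
  rwa [sub_add_sub_cancel'] at this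

omit hs h in
/-- The ratio. -/
noncomputable def rho (n : ℕ) (c₀ : ℂ) (k : ℕ) (s : ℝ) : ℂ :=
  (((1 + s : ℝ) : ℂ) * ev n c₀ (k + 1) - c₀) / v n c₀ k ^ n

theorem rho_slit (k : ℕ) : rho n c₀ k s ∈ slitPlane := by
  by_contra hcon
  rw [Complex.mem_slitPlane_iff] at hcon
  push Not at hcon
  obtain ⟨h1, h2⟩ := hcon
  set t := -(rho n c₀ k s).re with ht
  have ht0 : 0 ≤ t := by linarith
  have h3 : rho n c₀ k s = -(t : ℂ) := by
    apply Complex.ext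
    · simp [ht]
    · simp [h2]
  have hv0 : v n c₀ k ^ n ≠ 0 := pow_ne_zero _ (v_ne h k)
  have h4 : ((1 + s : ℝ) : ℂ) * ev n c₀ (k + 1) - c₀ = -(t:ℂ) * (v n c₀ (k + 1) - c₀) := by
    rw [v_succ, add_sub_cancel_right, ← h3]
    unfold rho
    field_simp
  have h5 := s_pos h hs
  set w := ‖v n c₀ (k + 1)‖ with hw
  have hw0 : 0 < w := v_pos h (k + 1)
  have h6 : v n c₀ (k + 1) = (w : ℂ) * ev n c₀ (k + 1) := (ev_mul h (k + 1)).symm
  have ht1 : (1 + (t:ℂ)) ≠ 0 := by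
    have : (1 + t : ℝ) ≠ 0 := by positivity
    exact_mod_cast this
  have h7 : c₀ = (((1 + s + t * w) / (1 + t) : ℝ) : ℂ) * ev n c₀ (k + 1) := by
    have h8 : (1 + (t:ℂ)) * c₀ = (((1 + s + t * w) : ℝ) : ℂ) * ev n c₀ (k + 1) := by
      have h9 : (1 + (t:ℂ)) * c₀ = ((1 + s : ℝ) : ℂ) * ev n c₀ (k + 1) + t * v n c₀ (k + 1) := by
        linear_combination (-1 : ℂ) * h4
      rw [h9, h6]
      push_cast
      ring
    push_cast at h8 ⊢
    field_simp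
    linear_combination h8
  set a := (1 + s + t * w) / (1 + t) with ha
  have ha0 : 0 < a := by positivity
  have h8 : ‖c₀‖ = a := by
    rw [h7, norm_mul, norm_ev h, mul_one, Complex.norm_real, Real.norm_of_nonneg ha0.le]
  have h9 : ‖v n c₀ (k + 1) - c₀‖ = |w - a| := by
    have : v n c₀ (k + 1) - c₀ = ((w - a : ℝ) : ℂ) * ev n c₀ (k + 1) := by
      push_cast
      linear_combination h6 - h7
    rw [this, norm_mul, norm_ev h, mul_one, Complex.norm_real, Real.norm_eq_abs]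
  rw [norm_eta0 (n := n) (c₀ := c₀) k] at h9
  have h10 := ell_low h k
  have h11 := v_hi h (k + 1)
  have h12 := v_low h (k + 1)
  have h13 := c_hi h
  have h14 := c_low h
  have h15 := two_div h
  have h16 := tau_pos h
  have h17 : |w - a| ≤ 4 * tau n M := by
    rw [abs_le]
    constructor <;> linarith
  linarith

theorem norm_rho (k : ℕ) : ‖rho n c₀ k s‖ =
    ‖((1 + s : ℝ) : ℂ) * ev n c₀ (k + 1) - c₀‖ / ‖v n c₀ k‖ ^ n := by
  unfold rho
  rw [norm_div, norm_pow]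

theorem rho_norm_low (k : ℕ) : 3 / 8 ≤ ‖rho n c₀ k s‖ := by
  have hell : 0 < ‖v n c₀ k‖ ^ n := pow_pos (v_pos h k) n
  rw [norm_rho h hs, le_div_iff₀ hell]
  exact (eta_low h hs k).1

theorem rho_norm_hi (k : ℕ) : ‖rho n c₀ k s‖ ≤
    1 + (1 + s - ‖v n c₀ (k + 1)‖) / ‖v n c₀ k‖ ^ n := by
  have hell : 0 < ‖v n c₀ k‖ ^ n := pow_pos (v_pos h k) n
  rw [norm_rho h hs, div_le_iff₀ hell]
  have := eta_hi h hs k
  have e : (1 + (1 + s - ‖v n c₀ (k + 1)‖) / ‖v n c₀ k‖ ^ n) * ‖v n c₀ k‖ ^ n =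
      ‖v n c₀ k‖ ^ n + (1 + s - ‖v n c₀ (k + 1)‖) := by field_simp
  rw [e]; exact this

omit hs h in
theorem log_norm_aux {ρ : ℂ} {A : ℝ} (h1 : 3 / 8 ≤ ‖ρ‖) (h2 : Real.log ‖ρ‖ ≤ A) (hA : 0 ≤ A) :
    ‖Complex.log ρ‖ ≤ 1 + A + 16 / 5 := by
  have h3 := Complex.norm_le_abs_re_add_abs_im (Complex.log ρ)
  rw [Complex.log_re, Complex.log_im] at h3
  have h4 := Complex.abs_arg_le_pi ρ
  have h5 := Real.pi_lt_d2
  have h6 : -1 ≤ Real.log ‖ρ‖ := by
    rw [Real.le_log_iff_exp_le (by linarith)]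
    refine le_trans ?_ h1
    rw [Real.exp_neg, inv_le_comm₀ (Real.exp_pos _) (by norm_num)]
    have := Real.exp_one_gt_d9
    norm_num
    linarith
  have h7 : |Real.log ‖ρ‖| ≤ 1 + A := by
    rw [abs_le]; constructor <;> linarith
  linarith

theorem zeta_lin (k : ℕ) : ‖Complex.log (rho n c₀ k s)‖ ≤
    10 * ((1 + s - ‖v n c₀ (k + 1)‖) / ‖v n c₀ k‖ ^ n) := by
  have hell : 0 < ‖v n c₀ k‖ ^ n := pow_pos (v_pos h k) n
  have hlam := lam_low h hs (k + 1)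
  have hs0 := s_pos h hs
  have hv0 : v n c₀ k ^ n ≠ 0 := pow_ne_zero _ (v_ne h k)
  set lam := 1 + s - ‖v n c₀ (k + 1)‖ with hl
  have hlam0 : 0 < lam := by linarith
  set ell := ‖v n c₀ k‖ ^ n with he
  have hq : 0 < lam / ell := by positivity
  rcases le_or_gt (lam / ell) (1 / 2) with h1 | h1
  · set w := (((1 + s : ℝ) : ℂ) * ev n c₀ (k + 1) - v n c₀ (k + 1)) / v n c₀ k ^ n with hw
    have h2 : rho n c₀ k s = 1 + w := by
      rw [hw]
      unfold rho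
      have : v n c₀ (k + 1) = v n c₀ k ^ n + c₀ := rfl
      rw [this]
      field_simp
      ring
    have h3 : ‖w‖ = lam / ell := by
      rw [hw, norm_div, norm_pow, pt_sub h hs (k + 1)]
    have h4 := Complex.norm_log_one_add_half_le_self (z := w) (by rw [h3]; exact h1)
    rw [h2]
    rw [h3] at h4
    linarith
  · have h2 := rho_norm_hi h hs k
    have h3 := rho_norm_low h hs k
    have h4 : Real.log ‖rho n c₀ k s‖ ≤ lam / ell := by
      have := Real.log_le_sub_one_of_pos (by linarith : 0 < ‖rho n c₀ k s‖)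
      linarith
    have h5 := log_norm_aux h3 h4 hq.le
    linarith

theorem zeta_log (hs2 : s ≤ 200) (k : ℕ) : ‖Complex.log (rho n c₀ k s)‖ ≤ 11 * M := by
  have hell : 0 < ‖v n c₀ k‖ ^ n := pow_pos (v_pos h k) n
  have h1 := rho_norm_hi h hs k
  have h2 := rho_norm_low h hs k
  have h3 := lam_hi h hs (k + 1)
  have h4 := tau_le h
  have h5 := ell_low2 h k
  have h8 := L1 h
  have hE : 1 ≤ Real.exp M := Real.one_le_exp (by linarith)
  have h9 : (1 + s - ‖v n c₀ (k + 1)‖) / ‖v n c₀ k‖ ^ n ≤ 205 * Real.exp M := by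
    rw [div_le_iff₀ hell]
    have h10 : 205 * (99 / 100) ≤ 205 * Real.exp M * ‖v n c₀ k‖ ^ n := by
      calc 205 * (99 / 100 : ℝ) = 205 * Real.exp M * (99 / 100 * Real.exp (-M)) := by
            rw [Real.exp_neg]; field_simp
        _ ≤ _ := by gcongr
    have : (1:ℝ) / 2 ^ 19 ≤ 1 / 10 := by norm_num
    linarith
  have h10 : ‖rho n c₀ k s‖ ≤ 256 * Real.exp M := by linarith
  have h11 : Real.log ‖rho n c₀ k s‖ ≤ 28 / 5 + M := by
    refine (Real.log_le_log (by linarith) h10).trans ?_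
    rw [Real.log_mul (by norm_num) (Real.exp_pos M).ne', Real.log_exp]
    have e : (256:ℝ) = 2 ^ 8 := by norm_num
    rw [e, Real.log_pow]
    have := Real.log_two_lt_d9
    push_cast
    linarith
  have h12 := log_norm_aux h2 h11 (by linarith)
  linarith

end hy

end Pool.Agent.H205.JA
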