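import Pool.Agent.H205.JA3

/-!
# John accessibility: the chain of segments
-/

set_option autoImplicit false
open Complex Metric Set Filter Topology

namespace Pool.Agent.H205.JA

open Pool.Agent.H205.AR N62a1eb23

/-- The point of the long segment. -/
noncomputable def xx (n : ℕ) (c₀ : ℂ) (M : ℝ) (k : ℕ) (s : ℝ) : ℂ :=
  G n c₀ M k (v n c₀ k * Complex.exp (Complex.log (rho n c₀ k s) / n))

section hy

variable {n : ℕ} {c₀ : ℂ} {M : ℝ} (h : Hy n c₀ M)

include h

theorem exp_half_le : Real.exp (1 / 2) ≤ 17 / 10 := by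
  have h1 := Real.exp_one_lt_d9
  have h2 : Real.exp (1 / 2) ^ 2 = Real.exp 1 := by
    rw [← Real.exp_nat_mul]; norm_num
  have h3 := Real.exp_pos (1 / 2 : ℝ)
  nlinarith

variable {s : ℝ} (hs : 4 * (1 / (n:ℝ)) ≤ s) (hs2 : s ≤ 200)

include hs

theorem lam_L (k : ℕ) : 1 + s - ‖v n c₀ k‖ ≤ 3 / 2 * M * s := by
  have h1 := lam_hi h hs k
  have h2 := n_tau h
  have h3 := L1 h
  have hn0 := n_pos h
  have h4 : tau n M ≤ M * (s / 4) := by
    have h6 : 1 / (n:ℝ) ≤ s / 4 := by linarith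
    unfold tau
    rw [div_eq_mul_one_div]
    exact mul_le_mul_of_nonneg_left h6 (by linarith)
  have h5 := s_pos h hs
  nlinarith

include hs2

theorem zeta7 (k : ℕ) : ‖Complex.log (rho n c₀ k s)‖ ≤ 12 * M := by
  have := zeta_log h hs hs2 k
  have := L1 h
  linarith

theorem v_xx (k : ℕ) : v n (xx n c₀ M k s) k =
    v n c₀ k * Complex.exp (Complex.log (rho n c₀ k s) / n) :=
  v_G h k (YY_dist' h k (zeta7 h hs hs2 k))

theorem pow_xx (k : ℕ) : (v n c₀ k * Complex.exp (Complex.log (rho n c₀ k s) / n)) ^ n =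
    ((1 + s : ℝ) : ℂ) * ev n c₀ (k + 1) - c₀ := by
  have hn0 := n_pos h
  have hnc : (n:ℂ) ≠ 0 := by exact_mod_cast hn0.ne'
  have h1 : Complex.exp (Complex.log (rho n c₀ k s) / n) ^ n = rho n c₀ k s := by
    rw [← Complex.exp_nat_mul, mul_div_cancel₀ _ hnc, Complex.exp_log]
    exact Complex.slitPlane_ne_zero (rho_slit h hs k)
  rw [mul_pow, h1]
  unfold rho
  have hv0 : v n c₀ k ^ n ≠ 0 := pow_ne_zero _ (v_ne h k)
  field_simp

theorem v_xx_succ (k : ℕ) : v n (xx n c₀ M k s) (k + 1) =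
    ((1 + s : ℝ) : ℂ) * ev n c₀ (k + 1) + (xx n c₀ M k s - c₀) := by
  rw [v_succ, v_xx h hs hs2, pow_xx h hs hs2]
  ring

theorem xx_dist (k : ℕ) : ‖xx n c₀ M k s - c₀‖ ≤
    3 * (‖Complex.log (rho n c₀ k s)‖ / n) / Q n c₀ k :=
  XX_dist h k (zeta7 h hs hs2 k)

theorem xx_dist33 (k : ℕ) : ‖xx n c₀ M k s - c₀‖ ≤ 33 * tau n M / Q n c₀ k := by
  refine (xx_dist h hs hs2 k).trans ?_
  have hQ := Qp h k
  have hn0 := n_pos h
  refine div_le_div_of_nonneg_right ?_ hQ.le
  have h1 := zeta_log h hs hs2 k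
  have h2 : ‖Complex.log (rho n c₀ k s)‖ / n ≤ 11 * tau n M := by
    rw [div_le_iff₀ hn0]
    have := n_tau h
    linarith
  linarith

theorem xx_dist_s (k : ℕ) : ‖xx n c₀ M k s - c₀‖ ≤ s / 100 := by
  refine (xx_dist h hs hs2 k).trans ?_
  have hQ := Qp h k
  have hQ1 := Q_one h k
  have hn0 := n_pos h
  have h1 := zeta_lin h hs k
  have h2 := lam_L h hs (k + 1)
  have h3 := ell_low h k
  have hell : 0 < ‖v n c₀ k‖ ^ n := pow_pos (v_pos h k) n
  have h4 := n_tau h
  have hL := L1 h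
  have hs0 := s_pos h hs
  have h5 : 2 ^ 19 * M ≤ n * ‖v n c₀ k‖ ^ n := by
    calc 2 ^ 19 * M = n * (2 ^ 19 * tau n M) := by linear_combination (-(2:ℝ) ^ 19) * h4
      _ ≤ _ := by gcongr
  have h6 : ‖Complex.log (rho n c₀ k s)‖ / n ≤ s / 300 := by
    rw [div_le_iff₀ hn0]
    refine h1.trans ?_
    rw [← mul_div_assoc, div_le_iff₀ hell]
    calc 10 * (1 + s - ‖v n c₀ (k + 1)‖) ≤ 10 * (3 / 2 * M * s) := by gcongr
      _ ≤ s / 300 * (2 ^ 19 * M) := by
          have : 0 < M * s := by positivity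
          nlinarith
      _ ≤ s / 300 * (n * ‖v n c₀ k‖ ^ n) := by gcongr
      _ = _ := by ring
  rw [div_le_iff₀ hQ]
  have : s / 100 ≤ s / 100 * Q n c₀ k := le_mul_of_one_le_right (by positivity) hQ1
  linarith

/-- The product of the norms of `ζ` and `η`. -/
theorem zeta_eta (k : ℕ) : ‖Complex.log (rho n c₀ k s)‖ *
    ‖((1 + s : ℝ) : ℂ) * ev n c₀ (k + 1) - c₀‖ ≤ 33 * M * s := by
  have h1 := zeta_lin h hs k
  have h2 := zeta_log h hs hs2 k
  have h3 := eta_hi h hs k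
  have h4 := lam_L h hs (k + 1)
  have h5 := lam_hi h hs (k + 1)
  have h6 := ell_low h k
  have h7 := lam_low h hs (k + 1)
  have hs0 := s_pos h hs
  have ht := tau_pos h
  have hL := L1 h
  have hell : 0 < ‖v n c₀ k‖ ^ n := pow_pos (v_pos h k) n
  set lam := 1 + s - ‖v n c₀ (k + 1)‖ with hl
  set ell := ‖v n c₀ k‖ ^ n with he
  set η := ‖((1 + s : ℝ) : ℂ) * ev n c₀ (k + 1) - c₀‖ with hη
  have hη0 : 0 ≤ η := norm_nonneg _
  have hz0 : 0 ≤ ‖Complex.log (rho n c₀ k s)‖ := norm_nonneg _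
  have hlam0 : 0 < lam := by linarith
  rcases le_or_gt lam ell with h8 | h8
  · calc ‖Complex.log (rho n c₀ k s)‖ * η ≤ 10 * (lam / ell) * (2 * ell) := by
          gcongr
          linarith
      _ = 20 * lam := by field_simp; norm_num
      _ ≤ 20 * (3 / 2 * M * s) := by gcongr
      _ ≤ _ := by
          have : 0 < M * s := by positivity
          linarith
  · have h9 : lam ≤ 3 / 2 * s := by linarith
    calc ‖Complex.log (rho n c₀ k s)‖ * η ≤ 11 * M * (2 * lam) := by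
          gcongr
          linarith
      _ ≤ 11 * M * (2 * (3 / 2 * s)) := by gcongr
      _ ≤ _ := by
          have : 0 < M * s := by positivity
          linarith

theorem xx_mem_U (k : ℕ) : xx n c₀ M k s ∈ U n c₀ M := by
  have hn0 := n_pos h
  have hn := h.hn
  have hQ := Qp h k
  have hQ1 := Q_one h k
  have ht := tau_pos h
  have hL := L1 h
  have hs0 := s_pos h hs
  obtain ⟨he1, he2⟩ := eta_low h hs k
  have hlam := lam_low h hs (k + 1)
  have hpt := norm_pt h (k + 1) hs0.le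
  have hpow := pow_xx h hs hs2 k
  have hv := v_xx h hs hs2 k
  have hd33 := xx_dist33 h hs hs2 k
  have hds := xx_dist_s h hs hs2 k
  have hdz := xx_dist h hs hs2 k
  have hze := zeta_eta h hs hs2 k
  have hell := ell_low h k
  have htau1 := tau_le h
  have hinv := inv_le_tau h
  set y := v n c₀ k * Complex.exp (Complex.log (rho n c₀ k s) / n) with hy
  set x := xx n c₀ M k s with hx
  set z := ((1 + s : ℝ) : ℂ) * ev n c₀ (k + 1) with hz
  set η := ‖z - c₀‖ with hη
  have hη0 : 0 < η := by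
    have : 0 < ‖v n c₀ k‖ ^ n := pow_pos (v_pos h k) n
    linarith
  have hsη : s / η ≤ 16 / 3 := by
    rw [div_le_iff₀ hη0]; linarith
  have hnη : 2 ^ 17 ≤ n * η := by
    have h1 : (1:ℝ) ≤ n * tau n M := by rw [n_tau h]; exact hL
    calc (2 ^ 17 : ℝ) ≤ 2 ^ 17 * (n * tau n M) := le_mul_of_one_le_right (by norm_num) h1
      _ ≤ n * (3 / 8 * (2 ^ 19 * tau n M)) := by nlinarith
      _ ≤ n * η := by gcongr; linarith
  -- lower bound of `y`
  have hyd := YY_dist h k (zeta7 h hs hs2 k)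
  have hyn : 9 / 10 ≤ ‖y‖ := by
    have h1 := v_low' h k
    have h2 : ‖v n c₀ k‖ - ‖y‖ ≤ ‖y - v n c₀ k‖ := by
      rw [norm_sub_rev]; exact norm_sub_norm_le _ _
    have h3 : ‖Complex.log (rho n c₀ k s)‖ / n ≤ 12 * tau n M := by
      rw [div_le_iff₀ hn0]
      have := n_tau h
      have := zeta7 h hs hs2 k
      linarith
    have h4 : (1:ℝ) / 2 ^ 19 ≤ 1 / 1000 := by norm_num
    linarith
  set δ := s / (16 * n * η * Q n c₀ k) with hδ
  have hδ0 : 0 < δ := by rw [hδ]; positivity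
  have hδ1 : δ ≤ 1 / 3 * (1 / n) / Q n c₀ k := by
    rw [hδ]
    calc s / (16 * n * η * Q n c₀ k) = (s / η) * (1 / 16 * (1 / n) / Q n c₀ k) := by
          field_simp
      _ ≤ 16 / 3 * (1 / 16 * (1 / n) / Q n c₀ k) := by gcongr
      _ = _ := by ring
  have hδ2 : δ ≤ s / 100 := by
    rw [hδ, div_le_div_iff₀ (by positivity) (by norm_num)]
    have : 100 ≤ 16 * n * η * Q n c₀ k := by
      calc (100:ℝ) ≤ 16 * (n * η) * 1 := by linarith
        _ ≤ 16 * (n * η) * Q n c₀ k := by gcongr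
        _ = _ := by ring
    nlinarith
  have hratio : ‖x - c₀‖ ≤ 1600 * M * δ := by
    refine hdz.trans ?_
    have e1 : 3 * (‖Complex.log (rho n c₀ k s)‖ / n) / Q n c₀ k =
        3 * (‖Complex.log (rho n c₀ k s)‖ * η) / (n * η * Q n c₀ k) := by
      field_simp
    have e2 : 1600 * M * δ = 1600 / 16 * (M * s) / (n * η * Q n c₀ k) := by
      rw [hδ]; field_simp
    rw [e1, e2]
    refine div_le_div_of_nonneg_right ?_ (by positivity)
    have : 0 < M * s := by positivity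
    linarith
  have hi0 : 0 < 1 / (n:ℝ) := by positivity
  have e2n : 2 / (n:ℝ) = 2 * (1 / n) := by ring
  refine ⟨?_, ?_⟩
  · intro hc
    have h1 := v_xx_succ h hs hs2 k
    rw [← hx, hc, sub_self, add_zero, ← hz] at h1
    have h2 := v_hi h (k + 1)
    rw [h1, hpt] at h2
    linarith
  · intro w c' hw hc'
    refine ⟨k + 1, ?_⟩
    have hdw : ‖w - x‖ ≤ 1 / 2 * δ := by
      refine hw.trans ?_
      rw [div_le_iff₀ (by positivity)]
      have : 0 < M * δ := by positivity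
      linarith
    have hdc : ‖c' - c₀‖ ≤ 66 * tau n M / Q n c₀ k := by
      refine hc'.trans ?_
      calc 2 * ‖x - c₀‖ ≤ 2 * (33 * tau n M / Q n c₀ k) := by gcongr
        _ = _ := by ring
    have hdwc : ‖w - c₀‖ ≤ 34 * tau n M / Q n c₀ k := by
      have h3 : ‖w - c₀‖ ≤ ‖w - x‖ + ‖x - c₀‖ := by
        have := norm_add_le (w - x) (x - c₀)
        rwa [sub_add_sub_cancel] at this
      have h4 : 1 / 2 * δ ≤ 1 / 3 * (1 / n) / Q n c₀ k := by linarith
      refine h3.trans ((add_le_add (hdw.trans h4) hd33).trans ?_)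
      rw [← add_div]
      refine div_le_div_of_nonneg_right ?_ hQ.le
      linarith
    have hdx : ‖c' - x‖ ≤ 4800 * M * δ := by
      have h3 : ‖c' - x‖ ≤ ‖c' - c₀‖ + ‖x - c₀‖ := by
        have := norm_sub_le (c' - c₀) (x - c₀)
        rwa [sub_sub_sub_cancel_right] at this
      linarith
    have hR : ∀ t : ℝ, t ≤ 819 * tau n M → ∀ y : ℂ, ‖y - c₀‖ ≤ t / Q n c₀ k →
        y ∈ closedBall c₀ (R n c₀ M k) := by
      intro t ht y hy
      rw [mem_closedBall, dist_eq_norm]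
      refine hy.trans ?_
      unfold R
      exact div_le_div_of_nonneg_right ht hQ.le
    have h3 := dist2 h k (hR (33 * tau n M) (by linarith) x hd33)
      (hR (34 * tau n M) (by linarith) w hdwc) (hR (66 * tau n M) (by linarith) c' hdc)
    rw [hv] at h3
    have h3' : ‖orb2 n c' w k - y‖ ≤ 5 / 4 * Q n c₀ k * δ := by
      refine h3.trans ?_
      gcongr
      calc ‖w - x‖ + 2 / (2 ^ 20 * M) * ‖c' - x‖
          ≤ 1 / 2 * δ + 2 / (2 ^ 20 * M) * (4800 * M * δ) := by gcongr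
        _ = (1 / 2 + 2 / 2 ^ 20 * 4800) * δ := by field_simp
        _ ≤ 1 * δ := by gcongr; norm_num
        _ = δ := one_mul δ
    have h4 : n * ‖orb2 n c' w k - y‖ ≤ 5 / 64 * (s / η) := by
      calc n * ‖orb2 n c' w k - y‖ ≤ n * (5 / 4 * Q n c₀ k * δ) := by gcongr
        _ = 5 / 64 * (s / η) := by rw [hδ]; field_simp; norm_num
    have h5 : n * ‖orb2 n c' w k - y‖ ≤ 1 / 2 * ‖y‖ := by
      refine h4.trans ?_
      linarith
    have h6 := pow_diff (n := n) (by omega) (by norm_num : (0:ℝ) ≤ 1 / 2) h5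
    have h7 : ‖y‖ ^ (n - 1) ≤ 10 / 9 * η := by
      have h8 : ‖y‖ ^ n = η := by rw [← norm_pow, hpow]
      have h9 : ‖y‖ ^ n = ‖y‖ ^ (n - 1) * ‖y‖ := by rw [← pow_succ]; congr 1; omega
      have h10 : 0 ≤ ‖y‖ ^ (n - 1) := by positivity
      nlinarith
    have h8 : ‖orb2 n c' w k ^ n - y ^ n‖ ≤ s / 5 := by
      refine h6.trans ?_
      calc n * ‖y‖ ^ (n - 1) * ‖orb2 n c' w k - y‖ * Real.exp (1 / 2)
          = ‖y‖ ^ (n - 1) * (n * ‖orb2 n c' w k - y‖) * Real.exp (1 / 2) := by ring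
        _ ≤ (10 / 9 * η) * (5 / 64 * (s / η)) * (17 / 10) := by
            gcongr
            exact exp_half_le h
        _ = (10 / 9 * (5 / 64) * (17 / 10)) * s := by field_simp
        _ ≤ _ := by linarith
    have h9 : orb2 n c' w (k + 1) = z + ((orb2 n c' w k ^ n - y ^ n) + (c' - c₀)) := by
      rw [orb2, hpow]; ring
    have h10 : ‖z‖ ≤ ‖orb2 n c' w (k + 1)‖ + ‖(orb2 n c' w k ^ n - y ^ n) + (c' - c₀)‖ := by
      have := norm_sub_le (orb2 n c' w (k + 1)) ((orb2 n c' w k ^ n - y ^ n) + (c' - c₀))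
      rw [h9, add_sub_cancel_right, ← h9] at this
      exact this
    have h11 : ‖(orb2 n c' w k ^ n - y ^ n) + (c' - c₀)‖ ≤ s / 5 + s / 50 :=
      (norm_add_le _ _).trans (add_le_add h8 (hc'.trans (by linarith)))
    rw [e2n]
    linarith

end hy

end Pool.Agent.H205.JA
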