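import Pool.Agent.H205.JA4

/-!
# John accessibility: the theorem
-/

set_option autoImplicit false
open Complex Metric Set Filter Topology

namespace Pool.Agent.H205.JA

open Pool.Agent.H205.AR N62a1eb23

/-- The point of modulus `1 + 4 / n` in the direction of the orbit point. -/
noncomputable def yp (n : ℕ) (c₀ : ℂ) (k : ℕ) : ℂ := ((1 + 4 * (1 / (n:ℝ)) : ℝ) : ℂ) * ev n c₀ k

/-- The corresponding parameter. -/
noncomputable def xp (n : ℕ) (c₀ : ℂ) (M : ℝ) (k : ℕ) : ℂ := G n c₀ M k (yp n c₀ k)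

section hy

variable {n : ℕ} {c₀ : ℂ} {M : ℝ} (h : Hy n c₀ M)

include h

theorem i_pos : 0 < 1 / (n:ℝ) := by have := n_pos h; positivity

theorem i_le : 4 * (1 / (n:ℝ)) ≤ 200 := by
  have h1 := inv_le_tau h
  have h2 := tau_le h
  have : (1:ℝ) / 2 ^ 19 ≤ 1 := by norm_num
  linarith

theorem yp_sub (k : ℕ) : ‖yp n c₀ k - v n c₀ k‖ ≤ 6 * tau n M := by
  unfold yp
  rw [pt_sub h le_rfl]
  have h1 := lam_hi h (le_refl (4 * (1 / (n:ℝ)))) k
  have h2 := inv_le_tau h
  linarith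

theorem norm_yp (k : ℕ) : ‖yp n c₀ k‖ = 1 + 4 * (1 / (n:ℝ)) := by
  have := i_pos h
  unfold yp
  exact norm_pt h k (by positivity)

/-- The first short segment. -/
theorem seg1 (k : ℕ) : JoinedIn (U n c₀ M ∩ closedBall c₀ (36 * tau n M / Q n c₀ k))
    (xx n c₀ M k 200) (xp n c₀ M k) := by
  have hn0 := n_pos h
  have hi := i_pos h
  have hvp := v_pos h k
  have hQ := Qp h k
  have hL := L1 h
  have hnc : (n:ℂ) ≠ 0 := by exact_mod_cast hn0.ne'
  have hv1 := v_hi h k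
  have hv2 := v_low h k
  have hv3 := v_low' h k
  have ht := tau_pos h
  set ζa := Complex.log (rho n c₀ k 200) with hza
  set a : ℝ := Real.log ((1 + 4 * (1 / (n:ℝ))) / ‖v n c₀ k‖) with ha
  have h1 : (1:ℝ) < (1 + 4 * (1 / (n:ℝ))) / ‖v n c₀ k‖ := by
    rw [lt_div_iff₀ hvp, one_mul]
    have e : 2 / (n:ℝ) = 2 * (1 / n) := by ring
    linarith
  have ha0 : 0 < a := Real.log_pos h1
  have ha1 : n * a ≤ 12 * M := by
    have h2 : a ≤ (1 + 4 * (1 / (n:ℝ))) / ‖v n c₀ k‖ - 1 :=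
      Real.log_le_sub_one_of_pos (by linarith)
    have h3 : (1 + 4 * (1 / (n:ℝ))) / ‖v n c₀ k‖ - 1 ≤ 7 * tau n M := by
      rw [sub_le_iff_le_add, div_le_iff₀ hvp]
      have := inv_le_tau h
      nlinarith
    have hnt := n_tau h
    have : n * a ≤ n * (7 * tau n M) := by gcongr; linarith
    have := L1 h
    linarith
  set ζs : ℂ := ((n * a : ℝ) : ℂ) with hzs
  have hzs1 : ‖ζs‖ ≤ 12 * M := by
    rw [hzs, Complex.norm_real, Real.norm_of_nonneg (by positivity)]
    exact ha1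
  have hza1 : ‖ζa‖ ≤ 12 * M := zeta7 h (i_le h) le_rfl k
  have hza2 : n * a ≤ ζa.re := by
    rw [hza, Complex.log_re, norm_rho h (i_le h), ha,
      Real.log_div (by positivity) hvp.ne', mul_sub]
    have h4 : (198:ℝ) ≤ ‖((1 + 200 : ℝ) : ℂ) * ev n c₀ (k + 1) - c₀‖ := by
      have h5 := norm_sub_norm_le (((1 + 200 : ℝ) : ℂ) * ev n c₀ (k + 1)) c₀
      rw [norm_pt h (k + 1) (by norm_num)] at h5
      have := v_hi' h 0
      have e : v n c₀ 0 = c₀ := rfl
      rw [e] at this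
      linarith
    rw [Real.log_div (by linarith) (by positivity), Real.log_pow]
    have h6 : n * Real.log (1 + 4 * (1 / (n:ℝ))) ≤ 4 := by
      have := Real.log_le_sub_one_of_pos (show 0 < 1 + 4 * (1 / (n:ℝ)) by positivity)
      calc n * Real.log (1 + 4 * (1 / (n:ℝ))) ≤ n * (4 * (1 / (n:ℝ))) := by
            gcongr
            linarith
        _ = 4 := by field_simp
    have h7 : (4:ℝ) ≤ Real.log ‖((1 + 200 : ℝ) : ℂ) * ev n c₀ (k + 1) - c₀‖ := by
      rw [Real.le_log_iff_exp_le (by linarith)]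
      refine le_trans ?_ h4
      have h8 : Real.exp 4 = Real.exp 1 ^ 4 := by rw [← Real.exp_nat_mul]; norm_num
      rw [h8]
      have h9 := Real.exp_one_lt_d9
      have h10 := Real.exp_pos (1:ℝ)
      calc Real.exp 1 ^ 4 ≤ 3 ^ 4 := by gcongr; linarith
        _ ≤ 198 := by norm_num
    exact sub_le_sub_right (h6.trans h7) _
  have key : ∀ θ ∈ Icc (0:ℝ) 1, ‖ζa + θ * (ζs - ζa)‖ ≤ 12 * M ∧
      n * a ≤ (ζa + θ * (ζs - ζa)).re := by
    intro θ hθ
    constructor
    · have e : ζa + θ * (ζs - ζa) = ((1 - θ : ℝ) : ℂ) * ζa + (θ : ℂ) * ζs := by push_cast; ring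
      rw [e]
      refine (norm_add_le _ _).trans ?_
      rw [norm_mul, norm_mul, Complex.norm_real, Complex.norm_real, Real.norm_of_nonneg hθ.1,
        Real.norm_of_nonneg (by linarith [hθ.2])]
      have h1 : 0 ≤ 1 - θ := by linarith [hθ.2]
      calc (1 - θ) * ‖ζa‖ + θ * ‖ζs‖ ≤ (1 - θ) * (12 * M) +
            θ * (12 * M) :=
            add_le_add (mul_le_mul_of_nonneg_left hza1 h1) (mul_le_mul_of_nonneg_left hzs1 hθ.1)
        _ = _ := by ring
    · have e : (ζa + θ * (ζs - ζa)).re = (1 - θ) * ζa.re + θ * (n * a) := by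
        simp only [Complex.add_re, Complex.mul_re, Complex.ofReal_re, Complex.ofReal_im,
          Complex.sub_re, Complex.sub_im, zero_mul, sub_zero, hzs]
        ring
      rw [e]
      nlinarith [hθ.1, hθ.2]
  have hj := joined_of_continuousOn (S := U n c₀ M ∩ closedBall c₀ (36 * tau n M / Q n c₀ k))
    (f := fun θ : ℝ => G n c₀ M k (v n c₀ k * Complex.exp ((ζa + θ * (ζs - ζa)) / n)))
    (a := 0) (b := 1) zero_le_one ?_ ?_
  · have e1 : (fun θ : ℝ => G n c₀ M k (v n c₀ k * Complex.exp ((ζa + θ * (ζs - ζa)) / n))) 0 =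
        xx n c₀ M k 200 := by
      simp only [Complex.ofReal_zero, zero_mul, add_zero]
      rfl
    have e2 : (fun θ : ℝ => G n c₀ M k (v n c₀ k * Complex.exp ((ζa + θ * (ζs - ζa)) / n))) 1 =
        xp n c₀ M k := by
      simp only [Complex.ofReal_one, one_mul, add_sub_cancel]
      unfold xp
      congr 1
      have e3 : ζs / n = ((a : ℝ) : ℂ) := by
        rw [hzs]; push_cast; field_simp
      rw [e3, ← Complex.ofReal_exp, ha, Real.exp_log (by positivity)]
      unfold yp ev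
      push_cast
      have : (‖v n c₀ k‖ : ℂ) ≠ 0 := by exact_mod_cast hvp.ne'
      field_simp
    rw [← e1, ← e2]
    exact hj
  · refine (G_cont h k).comp ?_ ?_
    · apply Continuous.continuousOn
      fun_prop
    · intro θ hθ
      rw [mem_closedBall, dist_eq_norm]
      exact YY_dist' h k (key θ hθ).1
  · intro θ hθ
    obtain ⟨k1, k2⟩ := key θ hθ
    have hd := XX_dist h k k1
    have hd2 : ‖G n c₀ M k (v n c₀ k * Complex.exp ((ζa + θ * (ζs - ζa)) / n)) - c₀‖ ≤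
        36 * tau n M / Q n c₀ k := by
      refine hd.trans (div_le_div_of_nonneg_right ?_ hQ.le)
      have : ‖ζa + θ * (ζs - ζa)‖ / n ≤ 12 * tau n M := by
        rw [div_le_iff₀ hn0]
        have := n_tau h
        linarith
      linarith
    refine ⟨mem_U_A h k hd2 ?_, ?_⟩
    · rw [v_G h k (YY_dist' h k k1), norm_mul, Complex.norm_exp]
      have e4 : ((ζa + θ * (ζs - ζa)) / n).re = (ζa + θ * (ζs - ζa)).re / n := by
        rw [← Complex.ofReal_natCast, Complex.div_ofReal_re]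
      rw [e4]
      have h5 : a ≤ (ζa + θ * (ζs - ζa)).re / n := by
        rw [le_div_iff₀ hn0]; linarith
      calc 1 + 7 / 2 * (1 / (n:ℝ)) ≤ 1 + 4 * (1 / (n:ℝ)) := by linarith
        _ = ‖v n c₀ k‖ * Real.exp a := by
            rw [ha, Real.exp_log (by positivity)]; field_simp
        _ ≤ _ := by gcongr
    · rw [mem_closedBall, dist_eq_norm]; exact hd2

/-- The long segment. -/
theorem seg2 (k : ℕ) : JoinedIn (U n c₀ M ∩ closedBall c₀ (36 * tau n M / Q n c₀ k))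
    (xx n c₀ M k (4 * (1 / (n:ℝ)))) (xx n c₀ M k 200) := by
  have ht := tau_pos h
  have hQ := Qp h k
  refine joined_of_continuousOn (f := xx n c₀ M k) (i_le h) ?_ ?_
  · unfold xx
    refine (G_cont h k).comp ?_ ?_
    · refine ContinuousOn.mul continuousOn_const ?_
      refine Complex.continuous_exp.comp_continuousOn ?_
      refine ContinuousOn.div_const ?_ _
      refine ContinuousOn.clog ?_ ?_
      · apply Continuous.continuousOn
        unfold rho
        fun_prop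
      · intro s hs
        exact rho_slit h hs.1 k
    · intro s hs
      rw [mem_closedBall, dist_eq_norm]
      exact YY_dist' h k (zeta7 h hs.1 hs.2 k)
  · intro s hs
    refine ⟨xx_mem_U h hs.1 hs.2 k, ?_⟩
    rw [mem_closedBall, dist_eq_norm]
    refine (xx_dist33 h hs.1 hs.2 k).trans ?_
    refine div_le_div_of_nonneg_right ?_ hQ.le
    linarith

theorem xe_dist (k : ℕ) : ‖xx n c₀ M k (4 * (1 / (n:ℝ))) - c₀‖ ≤ 200 * tau n M / Q n c₀ (k + 1) := by
  have hn0 := n_pos h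
  have hQ := Qp h k
  have hQ1 := Qp h (k + 1)
  have h1 := xx_dist h le_rfl (i_le h) k
  have h2 := zeta_lin h (le_refl (4 * (1 / (n:ℝ)))) k
  have h3 := lam_hi h (le_refl (4 * (1 / (n:ℝ)))) (k + 1)
  have h4 := inv_le_tau h
  have hell : 0 < ‖v n c₀ k‖ ^ n := pow_pos (v_pos h k) n
  have ht := tau_pos h
  have h5 : ‖Complex.log (rho n c₀ k (4 * (1 / (n:ℝ))))‖ ≤ 60 * tau n M / ‖v n c₀ k‖ ^ n := by
    refine h2.trans ?_
    rw [← mul_div_assoc]
    refine div_le_div_of_nonneg_right ?_ hell.le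
    linarith
  refine h1.trans ?_
  have h6 : n * ‖v n c₀ k‖ ^ n * Q n c₀ k = Q n c₀ (k + 1) * ‖v n c₀ k‖ := by
    rw [Q_succ, n_ell h]; ring
  calc 3 * (‖Complex.log (rho n c₀ k (4 * (1 / (n:ℝ))))‖ / n) / Q n c₀ k
      ≤ 3 * (60 * tau n M / ‖v n c₀ k‖ ^ n / n) / Q n c₀ k := by gcongr
    _ = 180 * tau n M / (n * ‖v n c₀ k‖ ^ n * Q n c₀ k) := by field_simp; norm_num
    _ = 180 * tau n M / (Q n c₀ (k + 1) * ‖v n c₀ k‖) := by rw [h6]
    _ ≤ 200 * tau n M / Q n c₀ (k + 1) := by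
        rw [div_le_div_iff₀ (mul_pos hQ1 (v_pos h k)) hQ1]
        have h7 := v_low' h k
        have h8 : 0 < tau n M * Q n c₀ (k + 1) := by positivity
        nlinarith

theorem Q_big (k : ℕ) : 2 ^ 20 * M ≤ Q n c₀ (k + 1) := by
  have h1 := Q_grow h k
  have h2 := Q_one h k
  have h3 := L1 h
  nlinarith

/-- The last short segment. -/
theorem seg3 (k : ℕ) : JoinedIn (U n c₀ M ∩ closedBall c₀ (36 * tau n M / Q n c₀ k))
    (xx n c₀ M k (4 * (1 / (n:ℝ)))) (xp n c₀ M (k + 1)) := by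
  have hn0 := n_pos h
  have hi := i_pos h
  have hQ := Qp h k
  have hQ1 := Qp h (k + 1)
  have hQ2 := Q_two h k
  have hQ3 := Q_big h k
  have hL := L1 h
  have ht := tau_pos h
  have hit := inv_le_tau h
  have hed := xe_dist h k
  have hvs := v_xx_succ h le_rfl (i_le h) k
  set xe := xx n c₀ M k (4 * (1 / (n:ℝ))) with hxe
  set d := xe - c₀ with hd
  have hd1 : ‖d‖ ≤ 1 / 2 * (1 / n) := by
    refine hed.trans ?_
    rw [div_le_iff₀ hQ1]
    calc 200 * tau n M = 200 * (1 / n * M) := by unfold tau; ring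
      _ ≤ 1 / 2 * (1 / n) * (2 ^ 20 * M) := by
          have : 0 < 1 / (n:ℝ) * M := by positivity
          nlinarith
      _ ≤ _ := by gcongr
  have hyp : v n xe (k + 1) = yp n c₀ (k + 1) + d := hvs
  have hy6 := yp_sub h (k + 1)
  have hny := norm_yp h (k + 1)
  have hxem : xe ∈ closedBall c₀ (R n c₀ M (k + 1)) := by
    rw [mem_closedBall, dist_eq_norm]
    refine hed.trans ?_
    unfold R
    refine div_le_div_of_nonneg_right ?_ hQ1.le
    linarith
  have key : ∀ θ ∈ Icc (0:ℝ) 1, ‖((1 - θ : ℝ) : ℂ) * d‖ ≤ 1 / 2 * (1 / n) := by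
    intro θ hθ
    rw [norm_mul, Complex.norm_real, Real.norm_of_nonneg (by linarith [hθ.2])]
    have : (1 - θ) * ‖d‖ ≤ 1 * ‖d‖ := by
      gcongr
      linarith [hθ.1]
    linarith
  have key2 : ∀ θ ∈ Icc (0:ℝ) 1,
      ‖yp n c₀ (k + 1) + ((1 - θ : ℝ) : ℂ) * d - v n c₀ (k + 1)‖ ≤ 7 * tau n M := by
    intro θ hθ
    have h1 := key θ hθ
    have e : yp n c₀ (k + 1) + ((1 - θ : ℝ) : ℂ) * d - v n c₀ (k + 1) =
      (yp n c₀ (k + 1) - v n c₀ (k + 1)) + ((1 - θ : ℝ) : ℂ) * d := by ring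
    rw [e]
    refine (norm_add_le _ _).trans ?_
    linarith
  have hj := joined_of_continuousOn (S := U n c₀ M ∩ closedBall c₀ (36 * tau n M / Q n c₀ k))
    (f := fun θ : ℝ => G n c₀ M (k + 1) (yp n c₀ (k + 1) + ((1 - θ : ℝ) : ℂ) * d))
    (a := 0) (b := 1) zero_le_one ?_ ?_
  · have e1 : (fun θ : ℝ => G n c₀ M (k + 1) (yp n c₀ (k + 1) + ((1 - θ : ℝ) : ℂ) * d)) 0 = xe := by
      have h0 := key2 0 ⟨le_rfl, zero_le_one⟩
      simp only [sub_zero, Complex.ofReal_one, one_mul] at h0 ⊢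
      rw [← hyp] at h0 ⊢
      exact G_v h (k + 1) hxem (h0.trans (by linarith))
    have e2 : (fun θ : ℝ => G n c₀ M (k + 1) (yp n c₀ (k + 1) + ((1 - θ : ℝ) : ℂ) * d)) 1 =
        xp n c₀ M (k + 1) := by
      simp only [sub_self, Complex.ofReal_zero, zero_mul, add_zero]
      rfl
    rw [← e1, ← e2]
    exact hj
  · refine (G_cont h (k + 1)).comp ?_ ?_
    · apply Continuous.continuousOn
      fun_prop
    · intro θ hθ
      rw [mem_closedBall, dist_eq_norm]
      exact (key2 θ hθ).trans (by linarith)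
  · intro θ hθ
    have h1 := key θ hθ
    have h2 := key2 θ hθ
    have h3 := G_dist h (k + 1) (h2.trans (by linarith))
    have h4 : ‖G n c₀ M (k + 1) (yp n c₀ (k + 1) + ((1 - θ : ℝ) : ℂ) * d) - c₀‖ ≤
        36 * tau n M / Q n c₀ (k + 1) := by
      refine h3.trans (div_le_div_of_nonneg_right ?_ hQ1.le)
      linarith
    refine ⟨mem_U_A h (k + 1) h4 ?_, ?_⟩
    · rw [v_G h (k + 1) (h2.trans (by linarith))]
      have h5 : ‖yp n c₀ (k + 1)‖ - ‖((1 - θ : ℝ) : ℂ) * d‖ ≤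
          ‖yp n c₀ (k + 1) + ((1 - θ : ℝ) : ℂ) * d‖ := norm_sub_le_norm_add _ _
      linarith
    · rw [mem_closedBall, dist_eq_norm]
      refine h4.trans ?_
      refine div_le_div_of_nonneg_left (by positivity) hQ (by linarith)

theorem chain (k : ℕ) : JoinedIn (U n c₀ M ∩ closedBall c₀ (36 * tau n M / Q n c₀ k))
    (xp n c₀ M k) (xp n c₀ M (k + 1)) :=
  ((seg1 h k).symm.trans (seg2 h k).symm).trans (seg3 h k)

theorem outer {s : ℝ} (hs : 4 * (1 / (n:ℝ)) ≤ s) : ((1 + s : ℝ) : ℂ) * ev n c₀ 0 ∈ U n c₀ M := by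
  have hs0 := s_pos h hs
  have hn0 := n_pos h
  have h1 := norm_pt h 0 hs0.le
  have h2 := pt_sub h hs 0
  have h3 := lam_L h hs 0
  have hL := L1 h
  have e2 : v n c₀ 0 = c₀ := rfl
  rw [e2] at h2 h3
  have hi := i_pos h
  have e : 2 / (n:ℝ) = 2 * (1 / n) := by ring
  refine ⟨?_, ?_⟩
  · intro hc
    have h4 := v_hi h 0
    rw [e2] at h4
    rw [hc] at h1
    linarith
  · intro w c' hw _
    refine ⟨0, ?_⟩
    have h4 : ‖((1 + s : ℝ) : ℂ) * ev n c₀ 0‖ - ‖w‖ ≤ ‖w - ((1 + s : ℝ) : ℂ) * ev n c₀ 0‖ := by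
      rw [norm_sub_rev]; exact norm_sub_norm_le _ _
    have h5 : ‖w - ((1 + s : ℝ) : ℂ) * ev n c₀ 0‖ ≤ s / 4 := by
      refine hw.trans ?_
      rw [h2, div_le_iff₀ (by positivity)]
      refine h3.trans ?_
      have : 0 < M * s := by positivity
      linarith
    rw [h1] at h4
    have e2 : orb2 n c' w 0 = w := rfl
    rw [e, e2]
    linarith

/-- The complement of the Multibrot set satisfies the John condition at `c₀`. -/
theorem john : ∃ γ : ℝ → ℂ, ContinuousOn γ (Ici 0) ∧ γ 0 = c₀ ∧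
    Tendsto (fun t => ‖γ t‖) atTop atTop ∧ ∀ s, 0 < s → γ s ∈ U n c₀ M := by
  have hi := i_pos h
  have ht := tau_pos h
  refine concat (r := fun k => 36 * tau n M / Q n c₀ k) ?_ (chain h)
    (o := fun t => ((1 + (4 * (1 / (n:ℝ)) + (t - 1)) : ℝ) : ℂ) * ev n c₀ 0) ?_ ?_ ?_ ?_
  · have h1 : Tendsto (fun k : ℕ => 36 * tau n M * (1 / 2 : ℝ) ^ k) atTop (𝓝 0) := by
      have := (tendsto_pow_atTop_nhds_zero_of_lt_one (r := (1 / 2 : ℝ)) (by norm_num)
        (by norm_num)).const_mul (36 * tau n M)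
      rwa [mul_zero] at this
    refine squeeze_zero (fun k => ?_) (fun k => ?_) h1
    · have := Qp h k; positivity
    · have h2 := Q_ge_pow h k
      rw [one_div_pow, ← div_eq_mul_one_div]
      exact div_le_div_of_nonneg_left (by positivity) (by positivity) h2
  · apply Continuous.continuousOn
    fun_prop
  · have h0 : v n (xp n c₀ M 0) 0 = yp n c₀ 0 := by
      unfold xp
      exact v_G h 0 ((yp_sub h 0).trans (by linarith))
    have e2 : v n (xp n c₀ M 0) 0 = xp n c₀ M 0 := rfl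
    rw [← e2, h0]
    simp only [sub_self, add_zero]
    rfl
  · intro t ht1
    exact outer h (by linarith)
  · have h1 : ∀ t : ℝ, 1 ≤ t → ‖((1 + (4 * (1 / (n:ℝ)) + (t - 1)) : ℝ) : ℂ) * ev n c₀ 0‖ =
        1 + (4 * (1 / (n:ℝ)) + (t - 1)) := fun t ht1 => norm_pt h 0 (by linarith)
    refine tendsto_atTop_mono' atTop ?_ tendsto_id
    filter_upwards [eventually_ge_atTop (1:ℝ)] with t ht1
    rw [h1 t ht1]
    simp only [id]
    linarith

end hy

end Pool.Agent.H205.JA
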