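import Mathlib

/-!
# A continuous branch of the logarithm off a curve which tends to infinity
-/

set_option autoImplicit false
open Complex Metric Set Filter Topology

namespace Pool.Agent.H205.JA

/-- A curve from `c₀` to infinity in the complement of a compact set `K` gives a continuous branch
of `log (z - c₀)` on `K`. -/
theorem exists_log {γ : ℝ → ℂ} (hγ : ContinuousOn γ (Ici 0))
    (hinf : Tendsto (fun t => ‖γ t‖) atTop atTop) {K : Set ℂ} (hK : IsCompact K)
    (hKγ : ∀ z ∈ K, ∀ t, 0 ≤ t → z ≠ γ t) :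
    ∃ L : ℂ → ℂ, ContinuousOn L K ∧ ∀ z ∈ K, Complex.exp (L z) = z - γ 0 := by
  rcases K.eq_empty_or_nonempty with hE | hE
  · exact ⟨fun _ => 0, by rw [hE]; exact continuousOn_empty _, by rw [hE]; simp⟩
  obtain ⟨M, hM⟩ := hK.isBounded.exists_norm_le
  obtain ⟨T, hT0, hT⟩ : ∃ T : ℝ, 0 < T ∧ M < ‖γ T‖ := by
    have h1 := (hinf.eventually_gt_atTop M).and (eventually_gt_atTop (0:ℝ))
    obtain ⟨T, h2, h3⟩ := h1.exists
    exact ⟨T, h3, h2⟩
  have hM0 : 0 ≤ M := by
    obtain ⟨z, hz⟩ := hE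
    exact (norm_nonneg z).trans (hM z hz)
  have hγT : ContinuousOn γ (Icc 0 T) := hγ.mono fun t ht => ht.1
  -- the distance
  obtain ⟨ε, hε, hdist⟩ : ∃ ε : ℝ, 0 < ε ∧ ∀ z ∈ K, ∀ t ∈ Icc 0 T, ε ≤ ‖z - γ t‖ := by
    have hc : IsCompact (K ×ˢ Icc (0:ℝ) T) := hK.prod isCompact_Icc
    have hf : ContinuousOn (fun p : ℂ × ℝ => ‖p.1 - γ p.2‖) (K ×ˢ Icc (0:ℝ) T) := by
      apply ContinuousOn.norm
      apply ContinuousOn.sub continuousOn_fst
      exact hγT.comp continuousOn_snd fun p hp => hp.2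
    obtain ⟨p, hp, hmin⟩ := hc.exists_isMinOn (hE.prod ⟨0, le_rfl, hT0.le⟩) hf
    refine ⟨‖p.1 - γ p.2‖, ?_, ?_⟩
    · rw [norm_pos_iff, sub_ne_zero]
      exact hKγ p.1 hp.1 p.2 hp.2.1
    · intro z hz t ht
      exact hmin (show (z, t) ∈ K ×ˢ Icc (0:ℝ) T from ⟨hz, ht⟩)
  -- uniform continuity
  obtain ⟨δ, hδ, huc⟩ : ∃ δ : ℝ, 0 < δ ∧ ∀ t ∈ Icc 0 T, ∀ t' ∈ Icc 0 T, |t - t'| < δ →
      ‖γ t - γ t'‖ < ε := by
    have h1 := isCompact_Icc.uniformContinuousOn_of_continuous hγT
    rw [Metric.uniformContinuousOn_iff] at h1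
    obtain ⟨δ, hδ, h2⟩ := h1 ε hε
    refine ⟨δ, hδ, fun t ht t' ht' h3 => ?_⟩
    have := h2 t ht t' ht' (by rwa [Real.dist_eq])
    rwa [dist_eq_norm] at this
  obtain ⟨N, hN⟩ := exists_nat_gt (T / δ)
  have hN0 : (0:ℝ) < N := lt_of_le_of_lt (by positivity) hN
  have hstep : T / N < δ := by
    rw [div_lt_iff₀ hN0]
    rw [div_lt_iff₀ hδ] at hN
    linarith
  have key : ∀ i : ℕ, i ≤ N → ∃ L : ℂ → ℂ, ContinuousOn L K ∧
      ∀ z ∈ K, Complex.exp (L z) = z - γ (T - i * (T / N)) := by
    intro i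
    induction i with
    | zero =>
      intro _
      have hg0 : γ T ≠ 0 := by
        rw [← norm_pos_iff]; linarith
      have hslit : ∀ z ∈ K, 1 + -(z / γ T) ∈ slitPlane := by
        intro z hz
        apply Complex.mem_slitPlane_of_norm_lt_one
        rw [norm_neg, norm_div, div_lt_one (by linarith)]
        exact (hM z hz).trans_lt hT
      refine ⟨fun z => Complex.log (1 + -(z / γ T)) + Complex.log (-γ T), ?_, ?_⟩
      · refine ContinuousOn.add (ContinuousOn.clog (by fun_prop) hslit) continuousOn_const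
      · intro z hz
        rw [Complex.exp_add, Complex.exp_log (Complex.slitPlane_ne_zero (hslit z hz)),
          Complex.exp_log (neg_ne_zero.2 hg0)]
        simp only [Nat.cast_zero, zero_mul, sub_zero]
        field_simp
        ring
    | succ i ih =>
      intro hi
      obtain ⟨L, hL, hLe⟩ := ih (by omega)
      set t := T - i * (T / N) with ht
      set t' := T - ((i + 1 : ℕ) : ℝ) * (T / N) with ht'
      have hi1 : ((i:ℝ) + 1) ≤ N := by exact_mod_cast hi
      have hTN : 0 < T / N := by positivity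
      have ht0' : 0 ≤ t' := by
        have : ((i:ℝ) + 1) * (T / N) ≤ N * (T / N) := by gcongr
        have e : N * (T / N) = T := by field_simp
        rw [ht']; push_cast; linarith
      have htt : t = t' + T / N := by rw [ht, ht']; push_cast; ring
      have htT : t ≤ T := by
        have : 0 ≤ (i:ℝ) * (T / N) := by positivity
        rw [ht]; linarith
      have hmt : t ∈ Icc 0 T := ⟨by linarith, htT⟩
      have hmt' : t' ∈ Icc 0 T := ⟨ht0', by linarith⟩
      have hlt := huc t hmt t' hmt' (by rw [htt, add_sub_cancel_left, abs_of_pos hTN]; exact hstep)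
      have hne : ∀ z ∈ K, z - γ t ≠ 0 := fun z hz => sub_ne_zero.2 (hKγ z hz t hmt.1)
      have hslit : ∀ z ∈ K, 1 + (γ t - γ t') / (z - γ t) ∈ slitPlane := by
        intro z hz
        apply Complex.mem_slitPlane_of_norm_lt_one
        have := hdist z hz t hmt
        rw [norm_div, div_lt_one (by linarith)]
        linarith
      refine ⟨fun z => L z + Complex.log (1 + (γ t - γ t') / (z - γ t)), ?_, ?_⟩
      · refine hL.add (ContinuousOn.clog ?_ hslit)
        refine continuousOn_const.add (continuousOn_const.div ?_ hne)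
        fun_prop
      · intro z hz
        rw [Complex.exp_add, hLe z hz, Complex.exp_log (Complex.slitPlane_ne_zero (hslit z hz))]
        have := hne z hz
        field_simp
        ring
  obtain ⟨L, hL, hLe⟩ := key N le_rfl
  refine ⟨L, hL, fun z hz => ?_⟩
  have e : T - N * (T / N) = 0 := by field_simp; ring
  rw [hLe z hz, e]

/-- A continuous function on a connected set whose `n`-th power is one is constant. -/
theorem root_const {n : ℕ} (hn : 0 < n) {S : Set ℂ} (hS : IsPreconnected S) {g : ℂ → ℂ}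
    (hg : ContinuousOn g S) (h1 : ∀ z ∈ S, g z ^ n = 1) {x y : ℂ} (hx : x ∈ S) (hy : y ∈ S) :
    g x = g y := by
  have hfin : {z : ℂ | z ^ n = 1}.Finite := by
    have : {z : ℂ | z ^ n = 1} ⊆ ((Polynomial.nthRoots n (1:ℂ)).toFinset : Set ℂ) := by
      intro z hz
      simp only [Multiset.mem_toFinset, Finset.mem_coe]
      rw [Polynomial.mem_nthRoots hn]
      exact hz
    exact (Finset.finite_toSet _).subset this
  have hsub : (g '' S).Subsingleton :=
    hfin.countable.isTotallyDisconnected (g '' S) (by rintro _ ⟨z, hz, rfl⟩; exact h1 z hz)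
      (hS.image g hg)
  exact hsub ⟨x, hx, rfl⟩ ⟨y, hy, rfl⟩

end Pool.Agent.H205.JA
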