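import Pool.Agent.H205.JA5
import Pool.Agent.H205.JA6

/-!
# Superattracting parameters in adjacent teeth
-/

set_option autoImplicit false
open Complex Metric Set Filter Topology

namespace Pool.Agent.H205.JA

open Pool.Agent.H205.AR N62a1eb23

theorem iterate_v (n : ℕ) (hn : 2 ≤ n) (x : ℂ) (j : ℕ) :
    (fun z : ℂ => z ^ n + x)^[j + 1] 0 = v n x j := by
  induction j with
  | zero => simp [v]; omega
  | succ j ih => rw [Function.iterate_succ_apply', ih]; rfl

theorem mem_of_bounded {n : ℕ} (hn : 2 ≤ n) {x : ℂ} {B : ℝ} (hB : ∀ j, ‖v n x j‖ ≤ B) :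
    x ∈ multibrotSet n := by
  intro hT
  have h1 := (tendsto_norm_cobounded_atTop.comp hT).eventually_gt_atTop (max B 0)
  obtain ⟨j, hj⟩ := (h1.and (eventually_ge_atTop 1)).exists
  obtain ⟨i, rfl⟩ : ∃ i, j = i + 1 := ⟨j - 1, by omega⟩
  have h2 := hj.1
  simp only [Function.comp_apply] at h2
  rw [iterate_v n hn] at h2
  have := hB i
  exact absurd (h2.trans_le this) (not_lt.2 (le_max_left _ _))

theorem mem_of_zero {n : ℕ} (hn : 2 ≤ n) {x : ℂ} {k : ℕ} (hx : v n x k = 0) :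
    x ∈ multibrotSet n := by
  have hper : ∀ j, v n x (j + (k + 1)) = v n x j := by
    intro j
    induction j with
    | zero =>
      rw [zero_add, v_succ, hx, zero_pow (by omega), zero_add]; rfl
    | succ j ih =>
      rw [show j + 1 + (k + 1) = (j + (k + 1)) + 1 by ring, v_succ, ih]; rfl
  have hper2 : ∀ q r : ℕ, v n x (r + q * (k + 1)) = v n x r := by
    intro q
    induction q with
    | zero => intro r; simp
    | succ q ih =>
      intro r
      rw [show r + (q + 1) * (k + 1) = (r + q * (k + 1)) + (k + 1) by ring, hper, ih]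
  apply mem_of_bounded hn (B := ∑ i ∈ Finset.range (k + 1), ‖v n x i‖)
  intro j
  have h1 : v n x j = v n x (j % (k + 1)) := by
    conv_lhs => rw [← Nat.mod_add_div j (k + 1), mul_comm (k + 1)]
    exact hper2 _ _
  rw [h1]
  exact Finset.single_le_sum (f := fun i => ‖v n x i‖) (fun i _ => norm_nonneg _)
    (Finset.mem_range.2 (Nat.mod_lt _ (by omega)))

section hy

variable {n : ℕ} {c₀ : ℂ} {M : ℝ} (h : Hy n c₀ M)

include h

theorem tau_div_Q (k : ℕ) : tau n M / Q n c₀ (k + 1) ≤ 1 / 2 ^ 20 * (1 / n) := by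
  have hQ := Qp h (k + 1)
  have hn0 := n_pos h
  have h1 := Q_big h k
  rw [div_le_iff₀ hQ]
  calc tau n M = 1 / 2 ^ 20 * (1 / n) * (2 ^ 20 * M) := by
        unfold tau; field_simp
    _ ≤ _ := by gcongr

/-- A superattracting parameter near the parameter with `v_k = Y`, if `Y ^ n = - c₀`. -/
theorem center (m : ℕ) {Y : ℂ} (hY : Y ^ n = -c₀) (hYd : ‖Y - v n c₀ (m + 1)‖ ≤ 30 * tau n M) :
    ∃ x, x ∈ multibrotSet n ∧ v n x (m + 2) = 0 ∧ ‖x - c₀‖ ≤ 50 * tau n M / Q n c₀ (m + 1) ∧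
      ‖v n x (m + 1) - Y‖ ≤ 1 / 500 * (1 / n) := by
  have hn := h.hn
  have hn0 := n_pos h
  have hL := L1 h
  have ht := tau_pos h
  have ht1 := tau_le h
  have hQ := Qp h (m + 1)
  have hQb := Q_big h m
  have hi := i_pos h
  have hnge := n_ge h
  set k := m + 1 with hk
  have hYd2 : ‖Y - v n c₀ k‖ ≤ 614 * tau n M := hYd.trans (by linarith)
  set c := G n c₀ M k Y with hc
  have hcm := G_mem h k hYd2
  have hvc := v_G h k hYd2
  have hcd : ‖c - c₀‖ ≤ 40 * tau n M / Q n c₀ k := by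
    refine (G_dist h k hYd2).trans ?_
    refine div_le_div_of_nonneg_right ?_ hQ.le
    linarith
  rw [← hc] at hvc hcm
  have hcr : ‖c - c₀‖ ≤ rad n m c₀ := by
    rw [mem_closedBall, dist_eq_norm] at hcm
    exact hcm.trans (R_le h m)
  have hG0 := good h m
  have hQr := Q_ratio hn (by norm_num) hG0 hcr (k := m + 1) le_rfl
  rw [← hk] at hQr
  -- size of `Y`
  have hYn : ‖Y‖ ^ n = ‖c₀‖ := by rw [← norm_pow, hY, norm_neg]
  have hc1 := v_low' h 0
  have hc2 := v_hi' h 0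
  have e0 : v n c₀ 0 = c₀ := rfl
  rw [e0] at hc1 hc2
  have hv1 := v_low' h k
  have hv2 := v_hi' h k
  have h219 : (1:ℝ) / 2 ^ 19 ≤ 1 / 10000 := by norm_num
  have hY1 : 9 / 10 ≤ ‖Y‖ := by
    have h2 : ‖v n c₀ k‖ - ‖Y‖ ≤ ‖Y - v n c₀ k‖ := by
      rw [norm_sub_rev]; exact norm_sub_norm_le _ _
    linarith
  have hY2 : ‖Y‖ ≤ 11 / 10 := by
    have h2 : ‖Y‖ - ‖v n c₀ k‖ ≤ ‖Y - v n c₀ k‖ := norm_sub_norm_le _ _
    linarith
  have hYp : ‖Y‖ ^ n = ‖Y‖ ^ (n - 1) * ‖Y‖ := by rw [← pow_succ]; congr 1; omega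
  rw [hYp] at hYn
  have hp0 : 0 ≤ ‖Y‖ ^ (n - 1) := by positivity
  have hp1 : 4 / 5 ≤ ‖Y‖ ^ (n - 1) := by nlinarith
  have hp2 : ‖Y‖ ^ (n - 1) ≤ 6 / 5 := by nlinarith
  have huk : u n c k = n * ‖Y‖ ^ (n - 1) := by unfold u; rw [hvc]
  have hGc : Good n 32 k c := by
    intro j hj
    rcases Nat.lt_or_ge j k with h1 | h1
    · have hj' : j ≤ m := by omega
      have h2 := core_le_u hn (by norm_num) hG0 hcr hj'
      have h3 := core_u_le hn (by norm_num) hG0 hcr hj'
      have h4 := (hG0 j hj').1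
      have h5 := u_le_of_mem hn h.hc j
      have h6 := ee_le m j
      have h7 := ee_nonneg m j
      have h8 := exp_small h7 (by linarith)
      have h9 := u_nonneg n c₀ j
      constructor
      · refine le_trans ?_ h2
        nlinarith
      · refine h3.trans ?_
        calc Real.exp (ee m j) * u n c₀ j ≤ (1 + 2 * ee m j) * (2 * n) := by gcongr
          _ ≤ (1 + 2 * (1 / 16)) * (2 * n) := by gcongr
          _ ≤ 4 * n := by nlinarith
    · have hjk : j = k := le_antisymm hj h1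
      rw [hjk, huk]
      constructor
      · nlinarith
      · nlinarith
  have hPc : PP n c (k + 1) ≠ 0 := by
    rw [← norm_pos_iff, norm_PP]
    exact Q_pos fun j hj => hGc.u_pos (by norm_num) (by omega)
  have hQcp : 0 < Q n c k := Q_pos fun j hj => hGc.u_pos (by norm_num) hj.le
  have hQc : 1 / 2 * (n * Q n c₀ k) ≤ Q n c (k + 1) := by
    rw [Q_succ n c k, huk]
    calc 1 / 2 * (n * Q n c₀ k) ≤ (3 / 4 * Q n c₀ k) * (n * (4 / 5)) := by
          have : 0 < n * Q n c₀ k := by positivity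
          nlinarith
      _ ≤ Q n c k * (n * ‖Y‖ ^ (n - 1)) :=
          mul_le_mul hQr.2 (mul_le_mul_of_nonneg_left hp1 hn0.le) (by positivity) hQcp.le
  set r := 120 * tau n M / (n * Q n c₀ k ^ 2) with hr
  have hr0 : 0 < r := by rw [hr]; positivity
  have hrr : r ≤ 1 / 1200 * (1 / n) / Q n c₀ k := by
    have h1 := tau_div_Q h m
    rw [hr]
    calc 120 * tau n M / (n * Q n c₀ k ^ 2) = 120 * (tau n M / Q n c₀ k) * (1 / n) / Q n c₀ k := by
          field_simp
      _ ≤ 120 * (1 / 2 ^ 20 * (1 / n)) * (1 / n) / Q n c₀ k := by gcongr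
      _ = 120 * (1 / 2 ^ 20) * (1 / n) * (1 / n) / Q n c₀ k := by ring
      _ ≤ 1 / 1200 * 1 * (1 / n) / Q n c₀ k := by
          gcongr
          · norm_num
          · rw [div_le_one hn0]; linarith
      _ = _ := by ring
  have hrrad : r ≤ rad n k c := by
    refine hrr.trans ?_
    unfold rad
    rw [hvc, div_le_div_iff₀ hQ (by positivity)]
    calc 1 / 1200 * (1 / n) * (160 * n * Q n c k) = 2 / 15 * Q n c k := by field_simp; norm_num
      _ ≤ 2 / 15 * (5 / 4 * Q n c₀ k) := by gcongr; exact hQr.1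
      _ ≤ ‖Y‖ * Q n c₀ k := by nlinarith
  have hvk1 : v n c (k + 1) = c - c₀ := by rw [v_succ, hvc, hY]; ring
  obtain ⟨x, hx1, hx2⟩ := LD.surj_aux (F := fun x => v n x (k + 1)) (F' := fun x => DD n x (k + 1))
    (P := PP n c (k + 1)) (c := c) (r := r) hPc hr0.le (fun x _ => hasDerivAt_v n x (k + 1))
    (fun x hx => by
      rw [mem_closedBall, dist_eq_norm] at hx
      rw [norm_PP]
      exact core_deriv hn (by norm_num) hGc (hx.trans hrrad)) (y := 0) (by
      rw [hvk1, zero_sub, norm_neg, norm_PP]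
      refine hcd.trans ?_
      calc 40 * tau n M / Q n c₀ k ≤ 45 * tau n M / Q n c₀ k :=
            div_le_div_of_nonneg_right (by linarith) hQ.le
        _ = 3 / 4 * (1 / 2 * (n * Q n c₀ k)) * r := by rw [hr]; field_simp; norm_num
        _ ≤ 3 / 4 * Q n c (k + 1) * r := by gcongr)
  have hxd : ‖x - c₀‖ ≤ 50 * tau n M / Q n c₀ k := by
    have h3 : ‖x - c₀‖ ≤ ‖x - c‖ + ‖c - c₀‖ := by
      have := norm_add_le (x - c) (c - c₀)
      rwa [sub_add_sub_cancel] at this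
    refine h3.trans ((add_le_add (hx1.trans hrr) hcd).trans ?_)
    rw [← add_div]
    refine div_le_div_of_nonneg_right ?_ hQ.le
    have := inv_le_tau h
    linarith
  refine ⟨x, mem_of_zero hn hx2, hx2, hxd, ?_⟩
  have hxm : x ∈ closedBall c₀ (R n c₀ M k) := by
    rw [mem_closedBall, dist_eq_norm]
    refine hxd.trans ?_
    unfold R
    refine div_le_div_of_nonneg_right ?_ hQ.le
    linarith
  have h4 := lip_up h k hxm hcm
  rw [hvc] at h4
  refine h4.trans ?_
  calc 5 / 4 * Q n c₀ k * ‖x - c‖ ≤ 5 / 4 * Q n c₀ k * (1 / 1200 * (1 / n) / Q n c₀ k) := by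
        gcongr
        exact hx1.trans hrr
    _ = 5 / 4 * (1 / 1200) * (1 / n) := by field_simp
    _ ≤ 1 / 500 * (1 / n) := by nlinarith

/-- Two superattracting parameters in adjacent teeth. -/
theorem two_centers (m : ℕ) : ∃ Y : ℂ, ∃ x ∈ multibrotSet n, ∃ y ∈ multibrotSet n,
    v n x (m + 2) = 0 ∧ v n y (m + 2) = 0 ∧
    ‖x - c₀‖ ≤ 50 * tau n M / Q n c₀ (m + 1) ∧ ‖y - c₀‖ ≤ 50 * tau n M / Q n c₀ (m + 1) ∧
    ‖Y‖ ^ n = ‖c₀‖ ∧ 9 / 10 ≤ ‖Y‖ ∧ ‖v n x (m + 1) - Y‖ ≤ 1 / 500 * (1 / n) ∧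
    3 * (1 / (n:ℝ)) ≤ ‖v n x (m + 1) - v n y (m + 1)‖ ∧
    ‖v n x (m + 1) - v n y (m + 1)‖ ≤ 15 * (1 / (n:ℝ)) := by
  have hn := h.hn
  have hn0 := n_pos h
  have hnc : (n:ℂ) ≠ 0 := by exact_mod_cast hn0.ne'
  have hL := L1 h
  have ht := tau_pos h
  have ht1 := tau_le h
  have hi := i_pos h
  have hit := inv_le_tau h
  have hnge := n_ge h
  set e := ev n c₀ (m + 1) with he
  have hen : ‖e‖ = 1 := norm_ev h (m + 1)
  have he0 : e ≠ 0 := by rw [← norm_pos_iff, hen]; exact one_pos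
  have hc1 := v_low' h 0
  have hc2 := v_hi' h 0
  have e0 : v n c₀ 0 = c₀ := rfl
  rw [e0] at hc1 hc2
  set q := -c₀ / e ^ n with hq
  have hqn : ‖q‖ = ‖c₀‖ := by rw [hq, norm_div, norm_neg, norm_pow, hen, one_pow, div_one]
  have hq0 : q ≠ 0 := by rw [← norm_pos_iff, hqn]; linarith
  have hlog : ‖Complex.log q‖ ≤ 4 := by
    have h3 := Complex.norm_le_abs_re_add_abs_im (Complex.log q)
    rw [Complex.log_re, Complex.log_im, hqn] at h3
    have h4 := Complex.abs_arg_le_pi q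
    have h5 := Real.pi_lt_d2
    have h6 : |Real.log ‖c₀‖| ≤ 1 / 10 := by
      rw [abs_le]
      constructor
      · have := Real.one_sub_inv_le_log_of_pos (show 0 < ‖c₀‖ by linarith)
        have h7 : ‖c₀‖⁻¹ ≤ 100 / 99 := by
          rw [inv_le_comm₀ (by linarith) (by norm_num)]
          norm_num
          linarith
        linarith
      · have := Real.log_le_sub_one_of_pos (show 0 < ‖c₀‖ by linarith)
        linarith
    linarith
  have hnbig : (2:ℝ) ^ 19 ≤ n := by nlinarith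
  have hexp : ‖Complex.exp (Complex.log q / n) - 1‖ ≤ 8 * (1 / n) := by
    have h1 : ‖Complex.log q / n‖ = ‖Complex.log q‖ / n := by
      rw [norm_div, Complex.norm_natCast]
    have h2 : ‖Complex.log q‖ / n ≤ 4 * (1 / n) := by
      rw [div_eq_mul_one_div]; gcongr
    have h3 : 4 * (1 / (n:ℝ)) ≤ 1 := by
      rw [mul_one_div, div_le_one hn0]; linarith
    have h4 := Complex.norm_exp_sub_one_le (x := Complex.log q / n) (by rw [h1]; linarith)
    rw [h1] at h4
    linarith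
  set Y := e * Complex.exp (Complex.log q / n) with hYdef
  have hYn : Y ^ n = -c₀ := by
    rw [hYdef, mul_pow, ← Complex.exp_nat_mul, mul_div_cancel₀ _ hnc, Complex.exp_log hq0, hq]
    field_simp
  have hYe : ‖Y - e‖ ≤ 8 * (1 / n) := by
    have : Y - e = e * (Complex.exp (Complex.log q / n) - 1) := by rw [hYdef]; ring
    rw [this, norm_mul, hen, one_mul]; exact hexp
  have hev : ‖e - v n c₀ (m + 1)‖ ≤ 2 * tau n M := by
    have h1 : e - v n c₀ (m + 1) = ((1 - ‖v n c₀ (m + 1)‖ : ℝ) : ℂ) * e := by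
      have := ev_mul h (m + 1)
      push_cast
      linear_combination this
    rw [h1, norm_mul, hen, mul_one, Complex.norm_real, Real.norm_eq_abs, abs_le]
    have h2 := v_low h (m + 1)
    have h3 := v_hi h (m + 1)
    have h4 := two_div h
    constructor <;> linarith
  have hYv : ‖Y - v n c₀ (m + 1)‖ ≤ 10 * tau n M := by
    have h3 : ‖Y - v n c₀ (m + 1)‖ ≤ ‖Y - e‖ + ‖e - v n c₀ (m + 1)‖ := by
      have := norm_add_le (Y - e) (e - v n c₀ (m + 1))
      rwa [sub_add_sub_cancel] at this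
    linarith
  -- the rotation
  set ω := Complex.exp (2 * Real.pi * Complex.I / n) with hω
  have hωn : ω ^ n = 1 := by
    rw [hω, ← Complex.exp_nat_mul, mul_div_cancel₀ _ hnc, Complex.exp_two_pi_mul_I]
  have hπ3 := Real.pi_gt_three
  have hπ4 := Real.pi_lt_d2
  have hθ : (2 * Real.pi * Complex.I / n : ℂ) = ((2 * Real.pi / n : ℝ) : ℂ) * Complex.I := by
    push_cast; ring
  have hω1 : ‖ω - 1‖ ≤ 126 / 10 * (1 / n) := by
    have h1 : ‖(2 * Real.pi * Complex.I / n : ℂ)‖ = 2 * Real.pi / n := by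
      rw [hθ, norm_mul, Complex.norm_I, mul_one, Complex.norm_real, Real.norm_of_nonneg (by positivity)]
    have h3 : 2 * Real.pi / n ≤ 1 := by
      rw [div_le_one hn0]; linarith
    have h4 := Complex.norm_exp_sub_one_le (x := (2 * Real.pi * Complex.I / n : ℂ)) (by rw [h1]; exact h3)
    rw [h1] at h4
    rw [hω]
    refine h4.trans ?_
    have : 2 * (2 * Real.pi / n) = (4 * Real.pi) * (1 / n) := by ring
    rw [this]
    gcongr
    linarith
  have hω2 : 4 * (1 / (n:ℝ)) ≤ ‖ω - 1‖ := by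
    have h1 : ‖ω - 1‖ = 2 * |Real.sin (2 * Real.pi / n / 2)| := by
      rw [hω, hθ]
      have := Complex.norm_exp_I_mul_ofReal_sub_one (2 * Real.pi / n)
      rw [mul_comm Complex.I] at this
      rw [this, norm_mul]
      simp
    have h2 : (2 * Real.pi / n / 2 : ℝ) = Real.pi / n := by ring
    rw [h1, h2]
    have h3 : 0 ≤ Real.pi / n := by positivity
    have h4 : Real.pi / n ≤ Real.pi / 2 := by
      gcongr
      exact_mod_cast hn
    have h5 := Real.mul_le_sin h3 h4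
    have h6 : 2 / Real.pi * (Real.pi / n) = 2 * (1 / n) := by field_simp
    rw [h6] at h5
    have h7 := le_abs_self (Real.sin (Real.pi / n))
    linarith
  have hY1 : 99 / 100 ≤ ‖Y‖ := by
    have h2 : ‖v n c₀ (m + 1)‖ - ‖Y‖ ≤ ‖Y - v n c₀ (m + 1)‖ := by
      rw [norm_sub_rev]; exact norm_sub_norm_le _ _
    have h3 := v_low h (m + 1)
    have : (1:ℝ) / 2 ^ 19 ≤ 1 / 10000 := by norm_num
    linarith
  have hY2 : ‖Y‖ ≤ 101 / 100 := by
    have h2 : ‖Y‖ - ‖v n c₀ (m + 1)‖ ≤ ‖Y - v n c₀ (m + 1)‖ := norm_sub_norm_le _ _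
    have h3 := v_hi h (m + 1)
    have h4 := two_div h
    have : (1:ℝ) / 2 ^ 19 ≤ 1 / 10000 := by norm_num
    linarith
  have hYω : Y * ω - Y = Y * (ω - 1) := by ring
  have hd1 : ‖Y * ω - Y‖ ≤ 13 * (1 / n) := by
    rw [hYω, norm_mul]
    calc ‖Y‖ * ‖ω - 1‖ ≤ 101 / 100 * (126 / 10 * (1 / n)) := by gcongr
      _ ≤ _ := by linarith
  have hd2 : 39 / 10 * (1 / (n:ℝ)) ≤ ‖Y * ω - Y‖ := by
    rw [hYω, norm_mul]
    calc 39 / 10 * (1 / (n:ℝ)) ≤ 99 / 100 * (4 * (1 / n)) := by linarith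
      _ ≤ _ := by gcongr
  have hY2v : ‖Y * ω - v n c₀ (m + 1)‖ ≤ 30 * tau n M := by
    have h3 : ‖Y * ω - v n c₀ (m + 1)‖ ≤ ‖Y * ω - Y‖ + ‖Y - v n c₀ (m + 1)‖ := by
      have := norm_add_le (Y * ω - Y) (Y - v n c₀ (m + 1))
      rwa [sub_add_sub_cancel] at this
    linarith
  obtain ⟨x, hx1, hx2, hx3, hx4⟩ := center h m hYn (by linarith)
  obtain ⟨y, hy1, hy2, hy3, hy4⟩ := center h m (Y := Y * ω) (by rw [mul_pow, hωn, mul_one, hYn]) hY2v
  refine ⟨Y, x, hx1, y, hy1, hx2, hy2, hx3, hy3, by rw [← norm_pow, hYn, norm_neg], by linarith,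
    hx4, ?_, ?_⟩
  · have h1 : ‖Y * ω - Y‖ ≤ ‖v n x (m + 1) - Y‖ + ‖v n x (m + 1) - v n y (m + 1)‖ +
        ‖v n y (m + 1) - Y * ω‖ := by
      have e1 : Y * ω - Y = (v n x (m + 1) - Y) - (v n x (m + 1) - v n y (m + 1)) -
        (v n y (m + 1) - Y * ω) := by ring
      conv_lhs => rw [e1]
      exact (norm_sub_le _ _).trans (by gcongr; exact norm_sub_le _ _)
    linarith
  · have h1 : ‖v n x (m + 1) - v n y (m + 1)‖ ≤ ‖v n x (m + 1) - Y‖ + ‖Y * ω - Y‖ +
        ‖v n y (m + 1) - Y * ω‖ := by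
      have e1 : v n x (m + 1) - v n y (m + 1) = (v n x (m + 1) - Y) - (Y * ω - Y) -
        (v n y (m + 1) - Y * ω) := by ring
      conv_lhs => rw [e1]
      exact (norm_sub_le _ _).trans (by gcongr; exact norm_sub_le _ _)
    linarith

end hy

end Pool.Agent.H205.JA
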