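import Pool.Agent.H205.JA7

/-!
# The channels of the complement between adjacent teeth
-/

set_option autoImplicit false
open Complex Metric Set Filter Topology

namespace Pool.Agent.H205.JA

open Pool.Agent.H205.AR N62a1eb23

theorem small_mem {n : ℕ} (hn : 2 ≤ n) {z : ℂ} (hz : ‖z‖ ≤ 1 / 4) : z ∈ multibrotSet n := by
  apply mem_of_bounded hn (B := 1 / 2)
  intro j
  induction j with
  | zero => exact hz.trans (by norm_num)
  | succ j ih =>
    rw [v_succ]
    refine (norm_add_le _ _).trans ?_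
    rw [norm_pow]
    have h1 : ‖v n z j‖ ^ n ≤ (1 / 2) ^ n := by gcongr
    have h2 : ((1:ℝ) / 2) ^ n ≤ (1 / 2) ^ 2 := pow_le_pow_of_le_one (by norm_num) (by norm_num) hn
    norm_num at h1 h2 ⊢
    linarith

theorem one_sub_pow_ge {a : ℝ} (ha0 : 0 ≤ a) (ha : a ≤ 1 / 2) (n : ℕ) :
    Real.exp (-(2 * (n * a))) ≤ (1 - a) ^ n := by
  have h1 : Real.exp (-(2 * a)) ≤ 1 - a := by
    rw [Real.exp_neg]
    have h2 : 1 + 2 * a ≤ Real.exp (2 * a) := by
      have := Real.add_one_le_exp (2 * a); linarith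
    have h3 : 0 < 1 + 2 * a := by linarith
    calc (Real.exp (2 * a))⁻¹ ≤ (1 + 2 * a)⁻¹ := by gcongr
      _ ≤ 1 - a := by
        rw [inv_le_iff_one_le_mul₀ h3]
        nlinarith
  calc Real.exp (-(2 * (n * a))) = Real.exp (-(2 * a)) ^ n := by
        rw [← Real.exp_nat_mul]; congr 1; ring
    _ ≤ _ := by gcongr

section hy

variable {n : ℕ} {c₀ : ℂ} {M : ℝ} (h : Hy n c₀ M)

include h

theorem lip_big (m : ℕ) {x y : ℂ} (hx : x ∈ closedBall c₀ (rad n m c₀))
    (hy : y ∈ closedBall c₀ (rad n m c₀)) :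
    ‖v n x (m + 1) - v n y (m + 1)‖ ≤ 5 / 4 * Q n c₀ (m + 1) * ‖x - y‖ := by
  have h1 := LD.approx_aux (F := fun x => v n x (m + 1)) (F' := fun x => DD n x (m + 1))
    (P := PP n c₀ (m + 1)) (c := c₀) (r := rad n m c₀) (fun x _ => hasDerivAt_v n x (m + 1))
    (fun x hx => by
      rw [norm_PP]
      rw [mem_closedBall, dist_eq_norm] at hx
      exact core_deriv h.hn (by norm_num) (good h m) hx) hx hy
  rw [norm_PP] at h1
  have h2 : ‖v n x (m + 1) - v n y (m + 1)‖ ≤
      ‖v n x (m + 1) - v n y (m + 1) - PP n c₀ (m + 1) * (x - y)‖ +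
      ‖PP n c₀ (m + 1) * (x - y)‖ := by
    have := norm_add_le (v n x (m + 1) - v n y (m + 1) - PP n c₀ (m + 1) * (x - y))
      (PP n c₀ (m + 1) * (x - y))
    rwa [sub_add_cancel] at this
  rw [norm_mul, norm_PP] at h2
  linarith

/-- The depth of the channels. -/
theorem depth_aux (m : ℕ) {d : ℝ} (hd0 : 0 ≤ d)
    (hd1 : n * d ≤ Real.log (n * Q n c₀ (m + 1)) / 16) (hd2 : n * d ≤ u n c₀ m / 1000)
    {Y : ℝ} (hY : Y ^ n = ‖c₀‖) (hY1 : 9 / 10 ≤ Y) {t : ℝ}
    (ht : Y - 1 / 500 * (1 / n) - 5 / 4 * d ≤ t) :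
    4000 * M * ((50 * tau n M + d) / Q n c₀ (m + 1)) ≤ t ^ n := by
  have hn := h.hn
  have hn0 := n_pos h
  have hL := L1 h
  have hQ := Qp h (m + 1)
  have hQb := Q_big h m
  have hnge := n_ge h
  have hi := i_pos h
  set X := n * Q n c₀ (m + 1) with hX
  have hX0 : 0 < X := by positivity
  have hXL : 2 ^ 39 * M ^ 2 ≤ X := by
    calc 2 ^ 39 * M ^ 2 = (2 ^ 19 * M) * (2 ^ 20 * M) := by ring
      _ ≤ n * Q n c₀ (m + 1) := by gcongr
  set q := Real.exp (Real.log X / 4) with hq
  have hq0 : 0 < q := Real.exp_pos _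
  have hq4 : q ^ 4 = X := by
    rw [hq, ← Real.exp_nat_mul]
    have : ((4:ℕ):ℝ) * (Real.log X / 4) = Real.log X := by push_cast; ring
    rw [this, Real.exp_log hX0]
  have hq2 : 120000 * M ≤ q ^ 2 := by
    have h1 : (120000 * M) ^ 2 ≤ (q ^ 2) ^ 2 := by
      calc (120000 * M) ^ 2 = 14400000000 * M ^ 2 := by ring
        _ ≤ 2 ^ 39 * M ^ 2 := by gcongr; norm_num
        _ ≤ X := hXL
        _ = (q ^ 2) ^ 2 := by rw [← hq4]; ring
    exact (pow_le_pow_iff_left₀ (by positivity) (by positivity) (by norm_num)).1 h1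
  have hlogq : Real.log X ≤ q / 2 := by
    set p := Real.exp (Real.log X / 8) with hp
    have hp0 : 0 < p := Real.exp_pos _
    have hqp : q = p ^ 2 := by
      rw [hq, hp, ← Real.exp_nat_mul]; congr 1; push_cast; ring
    have hp16 : 16 ≤ p := by
      by_contra hc
      push Not at hc
      have h2 : p ^ 8 < 16 ^ 8 := by gcongr
      have h3 : p ^ 8 = X := by rw [← hq4, hqp]; ring
      have h4 : (16:ℝ) ^ 8 ≤ 2 ^ 39 * M ^ 2 := by
        have : 1 ≤ M ^ 2 := one_le_pow₀ hL
        calc (16:ℝ) ^ 8 ≤ 2 ^ 39 * 1 := by norm_num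
          _ ≤ _ := by gcongr
      linarith
    have h1 := Real.add_one_le_exp (Real.log X / 8)
    rw [← hp] at h1
    have h2 : 8 * p ≤ q / 2 := by rw [hqp]; nlinarith
    linarith
  have hLX : M ≤ Real.log X := by
    rw [hX, Real.log_mul hn0.ne' hQ.ne']
    have h1 : 1 ≤ Real.log (Q n c₀ (m + 1)) := by
      rw [Real.le_log_iff_exp_le hQ]
      have := Real.exp_one_lt_d9
      linarith
    have := h.hM2
    linarith
  -- the lower bound
  set a := 10 / 9 * (1 / 500 * (1 / n) + 5 / 4 * d) with ha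
  have ha0 : 0 ≤ a := by positivity
  have hna : n * a ≤ 1 / 400 + 25 / 18 * (n * d) := by
    have e : n * a = 10 / 9 * (1 / 500) + 25 / 18 * (n * d) := by
      rw [ha]; field_simp; ring
    rw [e]
    norm_num
  have hu2 := u_le_of_mem hn h.hc m
  have hnbig : (2:ℝ) ^ 19 ≤ n := by nlinarith
  have ha2 : a ≤ 1 / 2 := by
    have h1 : n * a ≤ n * (1 / 2) := by
      refine hna.trans ?_
      linarith
    exact le_of_mul_le_mul_left h1 hn0
  have h1 := one_sub_pow_ge ha0 ha2 n
  have hYa : Y * (1 - a) ≤ t := by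
    refine le_trans ?_ ht
    have h2 : 1 / 500 * (1 / n) + 5 / 4 * d ≤ Y * a := by
      rw [ha]
      have h3 : 0 ≤ 1 / 500 * (1 / (n:ℝ)) + 5 / 4 * d := by positivity
      nlinarith
    linarith
  have hc1 := v_low' h 0
  have e0 : v n c₀ 0 = c₀ := rfl
  rw [e0] at hc1
  have h2 : 9 / 10 * (1 / q) ≤ t ^ n := by
    calc 9 / 10 * (1 / q) ≤ 99 / 100 * (Real.exp (-(1 / 200)) * (1 / q)) := by
          have h3 := Real.add_one_le_exp (-(1 / 200 : ℝ))
          have h4 : 0 < 1 / q := by positivity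
          nlinarith
      _ = 99 / 100 * Real.exp (-(1 / 200) - Real.log X / 4) := by
          rw [sub_eq_add_neg (-(1 / 200 : ℝ)), Real.exp_add, Real.exp_neg (Real.log X / 4), ← hq,
            one_div q]
      _ ≤ ‖c₀‖ * (1 - a) ^ n := by
          gcongr
          refine le_trans (Real.exp_le_exp.2 ?_) h1
          linarith
      _ = (Y * (1 - a)) ^ n := by rw [mul_pow, hY]
      _ ≤ t ^ n := by
          have : 0 ≤ 1 - a := by linarith
          gcongr
  refine le_trans ?_ h2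
  have e1 : 4000 * M * ((50 * tau n M + d) / Q n c₀ (m + 1)) = 4000 * M * (50 * M + n * d) / q ^ 4 := by
    rw [hq4, hX]; unfold tau; field_simp
  rw [e1, mul_one_div, div_le_div_iff₀ (by positivity) hq0]
  have h3 : 50 * M + n * d ≤ 26 * q := by linarith
  calc 4000 * M * (50 * M + n * d) * q ≤ 4000 * M * (26 * q) * q := by gcongr
    _ ≤ 9 / 10 * (120000 * M) * q ^ 2 := by
        have : 0 < M * q ^ 2 := by positivity
        linarith
    _ ≤ 9 / 10 * q ^ 2 * q ^ 2 := by gcongr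
    _ = _ := by ring

theorem separation (m : ℕ) : ∃ x ∈ multibrotSet n, ∃ y ∈ multibrotSet n, x ≠ y ∧
    ‖x - c₀‖ ≤ 50 * tau n M / Q n c₀ (m + 1) ∧ ‖y - c₀‖ ≤ 50 * tau n M / Q n c₀ (m + 1) ∧
    ‖x - y‖ ≤ 20 * (1 / n) / Q n c₀ (m + 1) ∧
    ∀ S ⊆ multibrotSet n, IsPreconnected S → x ∈ S → y ∈ S →
      min (Real.log (n * Q n c₀ (m + 1)) / 16) (u n c₀ m / 1000) / (n * Q n c₀ (m + 1)) ≤ diam S := by
  obtain ⟨Y, x, hx, y, hy, hx0, hy0, hxd, hyd, hY, hY1, hxY, hlow, hup⟩ := two_centers h m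
  have hn := h.hn
  have hn0 := n_pos h
  have hnc : (n:ℂ) ≠ 0 := by exact_mod_cast hn0.ne'
  have hL := L1 h
  have ht := tau_pos h
  have ht1 := tau_le h
  have hi := i_pos h
  have hit := inv_le_tau h
  have hQ := Qp h (m + 1)
  have hQm := Qp h m
  have hQb := Q_big h m
  have hQ1 := Q_one h (m + 1)
  have hnge := n_ge h
  have h219 : (1:ℝ) / 2 ^ 19 ≤ 1 / 10000 := by norm_num
  have hR : ∀ z : ℂ, ‖z - c₀‖ ≤ 50 * tau n M / Q n c₀ (m + 1) → z ∈ closedBall c₀ (R n c₀ M (m + 1)) := by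
    intro z hz
    rw [mem_closedBall, dist_eq_norm]
    refine hz.trans ?_
    unfold R
    refine div_le_div_of_nonneg_right ?_ hQ.le
    linarith
  refine ⟨x, hx, y, hy, ?_, hxd, hyd, ?_, ?_⟩
  · intro hxy
    rw [hxy, sub_self, norm_zero] at hlow
    linarith
  · have h1 := lip_low h (m + 1) (hR x hxd) (hR y hyd)
    rw [le_div_iff₀ hQ]
    linarith
  intro S hS hSc hxS hyS
  by_contra hcon
  push Not at hcon
  set d := min (Real.log (n * Q n c₀ (m + 1)) / 16) (u n c₀ m / 1000) / n with hd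
  have hnd : n * d = min (Real.log (n * Q n c₀ (m + 1)) / 16) (u n c₀ m / 1000) := by
    rw [hd]; field_simp
  have hX1 : 1 ≤ n * Q n c₀ (m + 1) := by
    have : (1:ℝ) ≤ n := by linarith
    nlinarith
  have hmin0 : 0 ≤ min (Real.log (n * Q n c₀ (m + 1)) / 16) (u n c₀ m / 1000) := by
    apply le_min
    · have := Real.log_nonneg hX1; positivity
    · have := u_nonneg n c₀ m; positivity
  have hd0 : 0 ≤ d := by rw [hd]; positivity
  have hd1 : n * d ≤ Real.log (n * Q n c₀ (m + 1)) / 16 := by rw [hnd]; exact min_le_left _ _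
  have hd2 : n * d ≤ u n c₀ m / 1000 := by rw [hnd]; exact min_le_right _ _
  have hdiam : diam S < d / Q n c₀ (m + 1) := by
    refine hcon.trans_le (le_of_eq ?_)
    rw [hd]; field_simp
  -- the closure
  have hbd : Bornology.IsBounded S := by
    rw [Metric.isBounded_iff_subset_closedBall 0]
    refine ⟨1 + 2 / n, fun z hz => ?_⟩
    rw [mem_closedBall, dist_zero_right]
    exact v_le_of_mem hn (hS hz) 0
  set S' := closure S with hS'
  have hSc' : IsPreconnected S' := hSc.closure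
  have hbd' : Bornology.IsBounded S' := hbd.closure
  have hcomp : IsCompact S' := Metric.isCompact_of_isClosed_isBounded isClosed_closure hbd'
  have hxS' : x ∈ S' := subset_closure hxS
  have hyS' : y ∈ S' := subset_closure hyS
  have hle : ∀ c ∈ S', ∀ j, ‖v n c j‖ ≤ 1 + 2 / n := by
    have hcl : IsClosed {c : ℂ | ∀ j, ‖v n c j‖ ≤ 1 + 2 / n} := by
      rw [ofPred_forall]
      exact isClosed_iInter fun j => isClosed_le (continuous_v n j).norm continuous_const
    have hsub : S ⊆ {c : ℂ | ∀ j, ‖v n c j‖ ≤ 1 + 2 / n} := fun c hc j => v_le_of_mem hn (hS hc) j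
    exact fun c hc => closure_minimal hsub hcl hc
  have hcx : ∀ c ∈ S', ‖c - x‖ ≤ d / Q n c₀ (m + 1) := by
    intro c hc
    have h1 := Metric.dist_le_diam_of_mem hbd' hc hxS'
    rw [hS', Metric.diam_closure, dist_eq_norm] at h1
    exact h1.trans hdiam.le
  have hcc : ∀ c ∈ S', ‖c - c₀‖ ≤ (50 * tau n M + d) / Q n c₀ (m + 1) := by
    intro c hc
    have h3 : ‖c - c₀‖ ≤ ‖c - x‖ + ‖x - c₀‖ := by
      have := norm_add_le (c - x) (x - c₀)
      rwa [sub_add_sub_cancel] at this
    refine h3.trans ((add_le_add (hcx c hc) hxd).trans (le_of_eq ?_))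
    rw [← add_div, add_comm]
  have hrad : (50 * tau n M + d) / Q n c₀ (m + 1) ≤ rad n m c₀ := by
    have hvm := v_low' h m
    have hum := h.hu m
    have hu0 : 0 < u n c₀ m := by linarith
    unfold rad
    rw [Q_succ, div_le_div_iff₀ (by positivity) (by positivity)]
    have e1 : (50 * tau n M + d) * (160 * n * Q n c₀ m) =
        160 * (50 * M + n * d) * Q n c₀ m := by
      unfold tau; field_simp
    rw [e1]
    calc 160 * (50 * M + n * d) * Q n c₀ m
        ≤ (99 / 100 * u n c₀ m) * Q n c₀ m :=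
          mul_le_mul_of_nonneg_right (by linarith) hQm.le
      _ ≤ (‖v n c₀ m‖ * u n c₀ m) * Q n c₀ m := by gcongr
      _ = _ := by ring
  have hcball : ∀ c ∈ S', c ∈ closedBall c₀ (rad n m c₀) := by
    intro c hc
    rw [mem_closedBall, dist_eq_norm]
    exact (hcc c hc).trans hrad
  have hvn : ∀ c ∈ S', 4000 * M * ‖c - c₀‖ ≤ ‖v n c (m + 1)‖ ^ n := by
    intro c hc
    have h1 := lip_big h m (hcball c hc) (hcball x hxS')
    have h2 : 5 / 4 * Q n c₀ (m + 1) * ‖c - x‖ ≤ 5 / 4 * d := by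
      calc 5 / 4 * Q n c₀ (m + 1) * ‖c - x‖ ≤ 5 / 4 * Q n c₀ (m + 1) * (d / Q n c₀ (m + 1)) := by
            gcongr
            exact hcx c hc
        _ = 5 / 4 * d := by field_simp
    have h3 : ‖Y‖ - 1 / 500 * (1 / n) - 5 / 4 * d ≤ ‖v n c (m + 1)‖ := by
      have h4 : ‖Y‖ - ‖v n x (m + 1)‖ ≤ ‖v n x (m + 1) - Y‖ := by
        rw [norm_sub_rev]; exact norm_sub_norm_le _ _
      have h5 : ‖v n x (m + 1)‖ - ‖v n c (m + 1)‖ ≤ ‖v n c (m + 1) - v n x (m + 1)‖ := by
        rw [norm_sub_rev]; exact norm_sub_norm_le _ _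
      linarith
    refine le_trans ?_ (depth_aux h m hd0 hd1 hd2 hY hY1 h3)
    gcongr
    exact hcc c hc
  have hvpos : ∀ c ∈ S', 0 < ‖v n c (m + 1)‖ := by
    intro c hc
    have h1 := lip_big h m (hcball c hc) (hcball x hxS')
    by_contra h2
    have h3 : ‖v n c (m + 1)‖ = 0 := le_antisymm (not_lt.1 h2) (norm_nonneg _)
    have h4 := hvn c hc
    rw [h3, zero_pow (by omega)] at h4
    have h5 : ‖c - c₀‖ = 0 := by
      have := norm_nonneg (c - c₀)
      have h6 : 0 < 4000 * M := by positivity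
      nlinarith
    rw [norm_eq_zero, sub_eq_zero] at h5
    rw [h5] at h3
    have := v_pos h (m + 1)
    linarith
  -- the curve
  obtain ⟨γ, hγc, hγ0, hγi, hγU⟩ := john h
  set p : ℂ → ℂ := fun c => v n c (m + 1) ^ n + c₀ with hp
  have hpc : Continuous p := by
    rw [hp]
    exact ((continuous_v n (m + 1)).pow n).add continuous_const
  set B : Set ℂ := closedBall 0 (1 / 4) with hB
  have hK : IsCompact (p '' S' ∪ B) := (hcomp.image hpc).union (isCompact_closedBall _ _)
  have hc1 := v_low' h 0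
  have e0 : v n c₀ 0 = c₀ := rfl
  rw [e0] at hc1
  have hc0 : c₀ ≠ 0 := by rw [← norm_pos_iff]; linarith
  have hKγ : ∀ z ∈ p '' S' ∪ B, ∀ t, 0 ≤ t → z ≠ γ t := by
    rintro z (⟨c, hc, rfl⟩ | hz) t ht0 heq
    · rcases eq_or_lt_of_le ht0 with h1 | h1
      · rw [← h1, hγ0, hp] at heq
        simp only [add_eq_right] at heq
        have h2 : ‖v n c (m + 1)‖ ^ n = 0 := by rw [← norm_pow, heq, norm_zero]
        have h3 : 0 < ‖v n c (m + 1)‖ ^ n := pow_pos (hvpos c hc) n
        linarith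
      · have hU := hγU t h1
        rw [← heq] at hU
        have e1 : p c - c₀ = v n c (m + 1) ^ n := by simp only [hp]; ring
        have e2 : v n c (m + 1 + 1) - p c = c - c₀ := by
          rw [v_succ]; simp only [hp]; ring
        have h4 := hvn c hc
        rw [← norm_pow, ← e1] at h4
        have h5 : ‖c - c₀‖ ≤ ‖p c - c₀‖ / (4000 * M) := by
          rw [le_div_iff₀ (by positivity)]; linarith
        have h6 : ‖c - c₀‖ ≤ 2 * ‖p c - c₀‖ := by
          have h7 : ‖p c - c₀‖ / (4000 * M) ≤ ‖p c - c₀‖ :=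
            div_le_self (norm_nonneg _) (by linarith)
          have := norm_nonneg (p c - c₀)
          linarith
        obtain ⟨j, hj⟩ := hU.2 (v n c (m + 1 + 1)) c (by rw [e2]; exact h5) h6
        rw [orb2_v] at hj
        exact absurd (hle c hc (m + 1 + 1 + j)) (not_le.2 hj)
    · rw [hB, mem_closedBall, dist_zero_right] at hz
      rcases eq_or_lt_of_le ht0 with h1 | h1
      · rw [← h1, hγ0] at heq
        rw [heq] at hz
        linarith
      · have hU := hγU t h1
        rw [← heq] at hU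
        have h2 := U_dist h hU (small_mem hn hz)
        rw [sub_self, norm_zero, mul_zero] at h2
        exact hU.1 (by rw [← sub_eq_zero, ← norm_eq_zero]; exact le_antisymm h2 (norm_nonneg _))
  obtain ⟨Λ, hΛc, hΛe⟩ := exists_log hγc hγi hK hKγ
  rw [hγ0] at hΛe
  -- the function on the continuum
  have hpK : ∀ c ∈ S', p c ∈ p '' S' ∪ B := fun c hc => Or.inl ⟨c, hc, rfl⟩
  have hg : v n x (m + 1) * Complex.exp (-(Λ (p x) / n)) =
      v n y (m + 1) * Complex.exp (-(Λ (p y) / n)) := by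
    refine root_const (n := n) (by omega) hSc'
      (g := fun c => v n c (m + 1) * Complex.exp (-(Λ (p c) / n))) ?_ ?_ hxS' hyS'
    · refine (continuous_v n (m + 1)).continuousOn.mul ?_
      refine Complex.continuous_exp.comp_continuousOn ?_
      exact ((hΛc.comp hpc.continuousOn hpK).div_const _).neg
    · intro c hc
      have h1 := hΛe (p c) (hpK c hc)
      have e1 : p c - c₀ = v n c (m + 1) ^ n := by simp only [hp]; ring
      rw [e1] at h1
      rw [mul_pow, ← Complex.exp_nat_mul, mul_neg, mul_div_cancel₀ _ hnc, Complex.exp_neg, h1]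
      have h2 : v n c (m + 1) ≠ 0 := norm_pos_iff.1 (hvpos c hc)
      field_simp
  -- the function on the disc
  have hslit : ∀ z ∈ B, 1 + -(z / c₀) ∈ slitPlane := by
    intro z hz
    rw [hB, mem_closedBall, dist_zero_right] at hz
    apply Complex.mem_slitPlane_of_norm_lt_one
    rw [norm_neg, norm_div, div_lt_one (by linarith)]
    linarith
  have hB0 : (0:ℂ) ∈ B := by rw [hB]; simp
  have hBc : IsPreconnected B := (convex_closedBall (0:ℂ) (1 / 4)).isPreconnected
  have hg2 : ∀ z ∈ B, ∀ z' ∈ B,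
      Complex.exp ((Λ z - Complex.log (1 + -(z / c₀)) - Λ 0) / n) =
      Complex.exp ((Λ z' - Complex.log (1 + -(z' / c₀)) - Λ 0) / n) := by
    intro z hz z' hz'
    refine root_const (n := n) (by omega) hBc
      (g := fun z => Complex.exp ((Λ z - Complex.log (1 + -(z / c₀)) - Λ 0) / n)) ?_ ?_ hz hz'
    · refine Complex.continuous_exp.comp_continuousOn ?_
      refine ContinuousOn.div_const ?_ _
      refine ContinuousOn.sub (ContinuousOn.sub (hΛc.mono subset_union_right) ?_) continuousOn_const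
      exact ContinuousOn.clog (by fun_prop) hslit
    · intro z hz
      have h1 := hΛe z (Or.inr hz)
      have h2 := hΛe 0 (Or.inr hB0)
      have h3 := Complex.exp_log (Complex.slitPlane_ne_zero (hslit z hz))
      rw [← Complex.exp_nat_mul, mul_div_cancel₀ _ hnc, Complex.exp_sub, Complex.exp_sub, h1, h2, h3]
      have h4 : 1 + -(z / c₀) ≠ 0 := Complex.slitPlane_ne_zero (hslit z hz)
      have h5 : (0:ℂ) - c₀ ≠ 0 := by rw [zero_sub]; exact neg_ne_zero.2 hc0
      rw [div_div, div_eq_one_iff_eq (mul_ne_zero h4 h5)]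
      field_simp
      ring
  -- the two points
  have hpt : ∀ z : ℂ, v n z (m + 2) = 0 → ‖z - c₀‖ ≤ 50 * tau n M / Q n c₀ (m + 1) →
      p z ∈ B ∧ ‖Complex.exp (Complex.log (1 + -(p z / c₀)) / n) - 1‖ ≤ 1 / 10 * (1 / n) := by
    intro z hz hzd
    have e1 : p z = -(z - c₀) := by
      have h1 : v n z (m + 1 + 1) = v n z (m + 1) ^ n + z := rfl
      have h2 : v n z (m + 1) ^ n + z = 0 := by rw [← h1]; exact hz
      simp only [hp]
      linear_combination h2
    have h1 : ‖p z‖ ≤ 1 / 100 := by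
      rw [e1, norm_neg]
      refine hzd.trans ?_
      rw [div_le_iff₀ hQ]
      linarith
    refine ⟨?_, ?_⟩
    · rw [hB, mem_closedBall, dist_zero_right]; linarith
    · have h2 : ‖-(p z / c₀)‖ ≤ 1 / 90 := by
        rw [norm_neg, norm_div, div_le_iff₀ (by linarith)]
        linarith
      have h3 := Complex.norm_log_one_add_half_le_self (z := -(p z / c₀)) (by linarith)
      have h4 : ‖Complex.log (1 + -(p z / c₀)) / n‖ ≤ 1 / 60 * (1 / n) := by
        rw [norm_div, Complex.norm_natCast, div_eq_mul_one_div]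
        gcongr
        linarith
      have h5 : 1 / 60 * (1 / (n:ℝ)) ≤ 1 := by
        have : 1 / (n:ℝ) ≤ 1 := by rw [div_le_one hn0]; linarith
        linarith
      have h6 := Complex.norm_exp_sub_one_le (h4.trans h5)
      linarith
  obtain ⟨hpx, hax⟩ := hpt x hx0 hxd
  obtain ⟨hpy, hay⟩ := hpt y hy0 hyd
  have h1 := hg2 (p x) hpx (p y) hpy
  set ax := Complex.exp (Complex.log (1 + -(p x / c₀)) / n) with hax'
  set ay := Complex.exp (Complex.log (1 + -(p y / c₀)) / n) with hay'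
  have hsplit : ∀ z : ℂ, Complex.exp ((Λ z - Complex.log (1 + -(z / c₀)) - Λ 0) / n) =
      Complex.exp (Λ z / n) / Complex.exp (Complex.log (1 + -(z / c₀)) / n) /
        Complex.exp (Λ 0 / n) := by
    intro z
    rw [← Complex.exp_sub, ← Complex.exp_sub]
    congr 1
    ring
  rw [hsplit, hsplit, ← hax', ← hay'] at h1
  have hax0 : ax ≠ 0 := Complex.exp_ne_zero _
  have hay0 : ay ≠ 0 := Complex.exp_ne_zero _
  have hEx : Complex.exp (Λ (p x) / n) ≠ 0 := Complex.exp_ne_zero _
  have hEy : Complex.exp (Λ (p y) / n) ≠ 0 := Complex.exp_ne_zero _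
  have hE0 : Complex.exp (Λ 0 / n) ≠ 0 := Complex.exp_ne_zero _
  have h2 : Complex.exp (Λ (p x) / n) * ay = Complex.exp (Λ (p y) / n) * ax := by
    have h3 : Complex.exp (Λ (p x) / n) / ax = Complex.exp (Λ (p y) / n) / ay := by
      have := congrArg (· * Complex.exp (Λ 0 / n)) h1
      simpa [div_mul_cancel₀, hE0] using this
    rw [div_eq_div_iff hax0 hay0] at h3
    exact h3
  rw [Complex.exp_neg, Complex.exp_neg, ← div_eq_mul_inv, ← div_eq_mul_inv,
    div_eq_div_iff hEx hEy] at hg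
  -- so `v x * ay = v y * ax`
  have h3 : v n x (m + 1) * ay = v n y (m + 1) * ax := by
    have h4 : Complex.exp (Λ (p x) / n) * Complex.exp (Λ (p y) / n) * (v n x (m + 1) * ay) =
        Complex.exp (Λ (p x) / n) * Complex.exp (Λ (p y) / n) * (v n y (m + 1) * ax) := by
      calc Complex.exp (Λ (p x) / n) * Complex.exp (Λ (p y) / n) * (v n x (m + 1) * ay)
          = (Complex.exp (Λ (p x) / n) * ay) * (v n x (m + 1) * Complex.exp (Λ (p y) / n)) := by ring
        _ = (Complex.exp (Λ (p y) / n) * ax) * (v n y (m + 1) * Complex.exp (Λ (p x) / n)) := by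
            rw [h2, hg]
        _ = _ := by ring
    exact mul_left_cancel₀ (mul_ne_zero hEx hEy) h4
  have h4 : v n x (m + 1) - v n y (m + 1) =
      v n y (m + 1) * (ax - 1) - v n x (m + 1) * (ay - 1) := by
    linear_combination h3
  have hvx : ‖v n x (m + 1)‖ ≤ 2 := by
    have := hle x hxS' (m + 1)
    have e : 2 / (n:ℝ) = 2 * (1 / n) := by ring
    linarith
  have hvy : ‖v n y (m + 1)‖ ≤ 2 := by
    have := hle y hyS' (m + 1)
    have e : 2 / (n:ℝ) = 2 * (1 / n) := by ring
    linarith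
  have h5 : ‖v n x (m + 1) - v n y (m + 1)‖ ≤ 2 * (1 / 10 * (1 / n)) + 2 * (1 / 10 * (1 / n)) := by
    rw [h4]
    refine (norm_sub_le _ _).trans ?_
    rw [norm_mul, norm_mul]
    gcongr
  linarith

end hy

end Pool.Agent.H205.JA
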