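import Pool.Agent.H205.JA8

/-!
# John accessibility and the modulus of local connectivity: the theorem
-/

set_option autoImplicit false
open Complex Metric Set Filter Topology

namespace Pool.Agent.H205.JA

open Pool.Agent.H205.AR N62a1eb23

/-- The pair of points of `separation`, one of which is also separated from `c₀`. -/
theorem separation' {n : ℕ} {c₀ : ℂ} {M : ℝ} (h : Hy n c₀ M) (m : ℕ) :
    ∃ x ∈ multibrotSet n, ∃ y ∈ multibrotSet n, x ≠ y ∧ y ≠ c₀ ∧
    ‖x - c₀‖ ≤ 50 * tau n M / Q n c₀ (m + 1) ∧ ‖y - c₀‖ ≤ 50 * tau n M / Q n c₀ (m + 1) ∧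
    ‖x - y‖ ≤ 20 * (1 / n) / Q n c₀ (m + 1) ∧
    ∀ S ⊆ multibrotSet n, IsPreconnected S → x ∈ S ∨ c₀ ∈ S → y ∈ S →
      min (Real.log (n * Q n c₀ (m + 1)) / 16) (u n c₀ m / 1000) / (n * Q n c₀ (m + 1)) / 2 ≤
        diam S := by
  obtain ⟨x, hx, y, hy, hxy, hxd, hyd, hd, hS⟩ := separation h m
  set D := min (Real.log (n * Q n c₀ (m + 1)) / 16) (u n c₀ m / 1000) / (n * Q n c₀ (m + 1)) with hD
  have hn := h.hn
  have hn0 := n_pos h
  have hL := L1 h
  have hQ := Qp h (m + 1)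
  have hQ1 := Q_one h (m + 1)
  have hQb := Q_big h m
  have hnge := n_ge h
  have hn1 : (2:ℝ) ≤ n := by exact_mod_cast hn
  have hX : 2 ≤ n * Q n c₀ (m + 1) := by nlinarith
  have hD0 : 0 < D := by
    rw [hD]
    apply div_pos (lt_min ?_ ?_) (by positivity)
    · have := Real.log_pos (show 1 < n * Q n c₀ (m + 1) by linarith)
      positivity
    · have := h.hu m
      linarith
  have hbd : ∀ S ⊆ multibrotSet n, Bornology.IsBounded S := by
    intro S hS
    rw [Metric.isBounded_iff_subset_closedBall 0]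
    refine ⟨1 + 2 / n, fun z hz => ?_⟩
    rw [mem_closedBall, dist_zero_right]
    exact v_le_of_mem hn (hS hz) 0
  -- one of the two points is separated from `c₀`
  have hor : (∀ S ⊆ multibrotSet n, IsPreconnected S → c₀ ∈ S → x ∈ S → D / 2 ≤ diam S) ∨
      (∀ S ⊆ multibrotSet n, IsPreconnected S → c₀ ∈ S → y ∈ S → D / 2 ≤ diam S) := by
    by_contra hcon
    push Not at hcon
    obtain ⟨⟨S₁, h1, h2, h3, h4, h5⟩, ⟨S₂, k1, k2, k3, k4, k5⟩⟩ := hcon
    have h6 := hS (S₁ ∪ S₂) (union_subset h1 k1) (IsPreconnected.union c₀ h3 k3 h2 k2)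
      (Or.inl h4) (Or.inr k4)
    have h7 := Metric.diam_union' (s := S₁) (t := S₂) ⟨c₀, h3, k3⟩
    linarith
  have hnec : ∀ z, (∀ S ⊆ multibrotSet n, IsPreconnected S → c₀ ∈ S → z ∈ S → D / 2 ≤ diam S) →
      z ≠ c₀ := by
    intro z hz hzc
    have h1 := hz {c₀} (singleton_subset_iff.2 h.hc) isPreconnected_singleton rfl (by rw [hzc]; rfl)
    rw [Metric.diam_singleton] at h1
    linarith
  rcases hor with h1 | h1
  · refine ⟨y, hy, x, hx, hxy.symm, hnec x h1, hyd, hxd, by rwa [norm_sub_rev], ?_⟩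
    rintro S hSM hSc (hyS | hcS) hxS
    · have := hS S hSM hSc hxS hyS
      linarith
    · exact h1 S hSM hSc hcS hxS
  · refine ⟨x, hx, y, hy, hxy, hnec y h1, hxd, hyd, hd, ?_⟩
    rintro S hSM hSc (hxS | hcS) hyS
    · have := hS S hSM hSc hxS hyS
      linarith
    · exact h1 S hSM hSc hcS hyS

/-- The hypothesis from a lower bound of the derivatives. -/
theorem Hy_of {n : ℕ} (hn : 2 ≤ n) {c₀ : ℂ} (hc : c₀ ∈ multibrotSet n) {A : ℝ}
    (hA : 2 ^ 20 * (1 + Real.log n) ≤ A) (hu : ∀ j, A ≤ u n c₀ j) :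
    Hy n c₀ (1 + Real.log (2 * n / A)) := by
  have hn0 : (0:ℝ) < n := by exact_mod_cast (by omega : 0 < n)
  have hn1 : (1:ℝ) ≤ n := by exact_mod_cast (by omega : 1 ≤ n)
  have hlog := Real.log_nonneg hn1
  have hA2 : 2 ≤ A := by linarith
  have hA0 : 0 < A := by linarith
  have h1 := u_le_of_mem hn hc 0
  have h2 := hu 0
  have h3 : 1 ≤ 2 * n / A := by rw [le_div_iff₀ hA0]; linarith
  have h4 : Real.log (2 * n / A) ≤ Real.log n := by
    apply Real.log_le_log (by positivity)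
    rw [div_le_iff₀ hA0]
    nlinarith
  have h5 := Real.log_nonneg h3
  refine ⟨hn, hc, by linarith, by linarith, ?_, ?_⟩
  · intro j
    have := hu j
    linarith
  · intro j
    refine le_trans ?_ (hu j)
    rw [neg_add, Real.exp_add, Real.exp_neg (Real.log (2 * n / A)), Real.exp_log (by positivity)]
    have h6 : Real.exp (-1) ≤ 1 := by rw [Real.exp_le_one_iff]; norm_num
    calc (n:ℝ) * (Real.exp (-1) * (2 * n / A)⁻¹) ≤ n * (1 * (2 * n / A)⁻¹) := by gcongr
      _ = A / 2 := by field_simp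
      _ ≤ A := by linarith

end Pool.Agent.H205.JA
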