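import Pool.Agent.H205.AR6

/-!
# Local density of hyperbolicity in `z ^ n + c`: the recursion near a parameter
-/

set_option autoImplicit false
open Complex Metric Set Filter Topology MeasureTheory
open scoped ENNReal Real

namespace Pool.Agent.H205.LD

open Pool.Agent.H205.AR

theorem Good.norm_v_le {n : ℕ} (hn : 2 ≤ n) {Λ : ℝ} {m : ℕ} {c : ℂ} (h : Good n Λ m c)
    {j : ℕ} (hj : j ≤ m) : ‖v n c j‖ ≤ 4 := by
  have h1 := pow_le_four hn (h j hj).2
  by_contra hcon
  push Not at hcon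
  have h2 : (4:ℝ) ^ (n - 1) < ‖v n c j‖ ^ (n - 1) :=
    pow_lt_pow_left₀ hcon (by norm_num) (by omega)
  have h3 : (4:ℝ) ^ 1 ≤ 4 ^ (n - 1) := pow_le_pow_right₀ (by norm_num) (by omega)
  linarith

/-- The integral over a small disc of a function of `u (m + 1)`. -/
theorem avg_gen {n : ℕ} (hn : 2 ≤ n) {Λ : ℝ} (hΛ : 32 ≤ Λ) {m : ℕ} {c : ℂ} (h : Good n Λ m c)
    {R : ℝ} (hR : 0 < R) (hRr : R ≤ rad n m c)
    {φ : ℝ → ℝ≥0∞} (hφm : Measurable φ) (hφ0 : ∀ x : ℝ, 4 * n < x → φ x = 0) :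
    ∫⁻ x in ball c R, φ (u n x (m + 1)) ≤
      ENNReal.ofReal (2560 * R / (n * Q n c (m + 1))) * ∫⁻ h, φ (Real.exp h) := by
  have hΛ0 : 0 < Λ := by linarith
  have hn0 : (0:ℝ) < n := by exact_mod_cast (by omega : 0 < n)
  have hn1 : (0:ℝ) < ((n - 1 : ℕ) : ℝ) := by exact_mod_cast (by omega : 0 < n - 1)
  have hQ : 0 < Q n c (m + 1) := Q_pos fun j hj => h.u_pos hΛ0 (by omega)
  have hvm := h.v_pos hn hΛ0 le_rfl
  have hv4 := Good.norm_v_le hn h le_rfl
  have hP : PP n c (m + 1) ≠ 0 := by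
    rw [← norm_pos_iff, norm_PP]; exact hQ
  have h1 := lintegral_comp_le (F := fun x => v n x (m + 1)) (F' := fun x => DD n x (m + 1))
    (P := PP n c (m + 1)) (c := c) (ρ := R) hP
    (fun x _ => hasDerivAt_v n x (m + 1))
    (fun x hx => by
      rw [mem_ball, dist_eq_norm] at hx
      rw [norm_PP]
      exact core_deriv hn hΛ h (hx.le.trans hRr)) (fun y => φ (n * ‖y‖ ^ (n - 1)))
  rw [norm_PP] at h1
  have h2 := lintegral_disc_le hn hφm (rm := 8 * ‖v n c m‖) (fun r hr hr2 => by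
    apply hφ0
    by_contra hcon
    push Not at hcon
    have h3 : r ^ (n - 1) ≤ 4 := by
      by_contra h4
      push Not at h4
      have : (n:ℝ) * 4 < n * r ^ (n - 1) := by gcongr
      linarith
    have h5 : 1 ≤ n * ‖v n c m‖ ^ (n - 1) := by
      have := (h m le_rfl).1
      unfold u at this
      linarith
    exact absurd (norm_le_eight hn (norm_nonneg (v n c m)) h3 h5) (not_le.2 hr2))
    (v n c (m + 1)) (R := 5 / 4 * Q n c (m + 1) * R) (by positivity)
  calc ∫⁻ x in ball c R, φ (u n x (m + 1))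
      ≤ ENNReal.ofReal (2 / Q n c (m + 1) ^ 2) *
        (ENNReal.ofReal (16 * (5 / 4 * Q n c (m + 1) * R) *
          (8 * ‖v n c m‖ / (n - 1 : ℕ))) * ∫⁻ h, φ (Real.exp h)) := by
        exact h1.trans (by gcongr)
    _ = ENNReal.ofReal (2 / Q n c (m + 1) ^ 2 *
          (16 * (5 / 4 * Q n c (m + 1) * R) * (8 * ‖v n c m‖ / (n - 1 : ℕ)))) *
          ∫⁻ h, φ (Real.exp h) := by
        rw [← mul_assoc, ← ENNReal.ofReal_mul (by positivity)]
    _ ≤ ENNReal.ofReal (2560 * R / (n * Q n c (m + 1))) * ∫⁻ h, φ (Real.exp h) := by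
        gcongr
        have h3 : 2 / Q n c (m + 1) ^ 2 *
            (16 * (5 / 4 * Q n c (m + 1) * R) * (8 * ‖v n c m‖ / (n - 1 : ℕ))) =
            320 * R / (n * Q n c (m + 1)) * (‖v n c m‖ * (n / (n - 1 : ℕ))) := by
          field_simp
          norm_num
        rw [h3]
        have h4 : (n:ℝ) / (n - 1 : ℕ) ≤ 2 := by
          rw [div_le_iff₀ hn1, Nat.cast_sub (by omega)]
          have : (2:ℝ) ≤ n := by exact_mod_cast hn
          push_cast
          linarith
        calc 320 * R / (n * Q n c (m + 1)) * (‖v n c m‖ * (n / (n - 1 : ℕ)))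
            ≤ 320 * R / (n * Q n c (m + 1)) * (4 * 2) := by gcongr
          _ = 2560 * R / (n * Q n c (m + 1)) := by ring

/-! ### The regions -/

/-- The region of level `m`. -/
def Om (n : ℕ) (Λ : ℝ) (T : ℕ → Set ℂ) (m : ℕ) : Set ℂ :=
  {c | c ∈ T m ∧ ∀ j ≤ m,
    Λ * (2 - (1 / 2) ^ (m - j)) ≤ u n c j ∧ u n c j ≤ 2 * n * (1 + (1 / 2) ^ (m - j))}

/-- The condition of level `m + 1` on the first `m + 1` points. -/
def Pre (n : ℕ) (Λ : ℝ) (T : ℕ → Set ℂ) (m : ℕ) : Set ℂ :=
  {c | c ∈ T (m + 1) ∧ ∀ j ≤ m,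
    Λ * (2 - (1 / 2) ^ (m + 1 - j)) ≤ u n c j ∧ u n c j ≤ 2 * n * (1 + (1 / 2) ^ (m + 1 - j))}

theorem measurableSet_Om (n : ℕ) (Λ : ℝ) {T : ℕ → Set ℂ} (hT : ∀ k, MeasurableSet (T k)) (m : ℕ) :
    MeasurableSet (Om n Λ T m) := by
  have h : Om n Λ T m = T m ∩ ⋂ j, ⋂ (_ : j ≤ m),
      ({c | Λ * (2 - (1 / 2) ^ (m - j)) ≤ u n c j} ∩
        {c | u n c j ≤ 2 * n * (1 + (1 / 2) ^ (m - j))}) := by
    ext c
    simp only [Om, mem_setOf_eq, mem_inter_iff, mem_iInter]
  rw [h]
  apply MeasurableSet.inter (hT m)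
  apply MeasurableSet.iInter; intro j
  apply MeasurableSet.iInter; intro _
  exact (measurableSet_le measurable_const (continuous_u n j).measurable).inter
    (measurableSet_le (continuous_u n j).measurable measurable_const)

theorem measurableSet_Pre (n : ℕ) (Λ : ℝ) {T : ℕ → Set ℂ} (hT : ∀ k, MeasurableSet (T k)) (m : ℕ) :
    MeasurableSet (Pre n Λ T m) := by
  have h : Pre n Λ T m = T (m + 1) ∩ ⋂ j, ⋂ (_ : j ≤ m),
      ({c | Λ * (2 - (1 / 2) ^ (m + 1 - j)) ≤ u n c j} ∩
        {c | u n c j ≤ 2 * n * (1 + (1 / 2) ^ (m + 1 - j))}) := by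
    ext c
    simp only [Pre, mem_setOf_eq, mem_inter_iff, mem_iInter]
  rw [h]
  apply MeasurableSet.inter (hT (m + 1))
  apply MeasurableSet.iInter; intro j
  apply MeasurableSet.iInter; intro _
  exact (measurableSet_le measurable_const (continuous_u n j).measurable).inter
    (measurableSet_le (continuous_u n j).measurable measurable_const)

theorem Good_of_Om {n : ℕ} {Λ : ℝ} (hΛ : 0 ≤ Λ) {T : ℕ → Set ℂ} {m : ℕ} {c : ℂ}
    (h : c ∈ Om n Λ T m) : Good n Λ m c := by
  intro j hj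
  obtain ⟨h1, h2⟩ := h.2 j hj
  have h3 := half_pow_le (m - j)
  constructor
  · nlinarith
  · have hn0 : (0:ℝ) ≤ n := by positivity
    nlinarith

theorem Good_of_Pre {n : ℕ} {Λ : ℝ} (hΛ : 0 ≤ Λ) {T : ℕ → Set ℂ} {m : ℕ} {c : ℂ}
    (h : c ∈ Pre n Λ T m) : Good n Λ m c := by
  intro j hj
  obtain ⟨h1, h2⟩ := h.2 j hj
  have h3 := half_pow_le (m + 1 - j)
  constructor
  · nlinarith
  · have hn0 : (0:ℝ) ≤ n := by positivity
    nlinarith

theorem Om_succ_subset_Pre (n : ℕ) (Λ : ℝ) (T : ℕ → Set ℂ) (m : ℕ) :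
    Om n Λ T (m + 1) ⊆ Pre n Λ T m := fun _ hc => ⟨hc.1, fun j hj => hc.2 j (by omega)⟩

/-- The condition on the sets `T`. -/
def Adm (n : ℕ) (Λ : ℝ) (T : ℕ → Set ℂ) (m : ℕ) : Prop :=
  ∀ x c : ℂ, x ∈ T (m + 1) → Good n Λ m x → ‖c - x‖ ≤ rad n m x → c ∈ T m

/-- Points near a point of `Pre` are in `Om`. -/
theorem mem_Om_of_near {n : ℕ} (hn : 2 ≤ n) {Λ : ℝ} (hΛ : 32 ≤ Λ) {T : ℕ → Set ℂ} {m : ℕ}
    (hT : Adm n Λ T m) {x c : ℂ}
    (hx : x ∈ Pre n Λ T m) (hc : ‖c - x‖ ≤ rad n m x) : c ∈ Om n Λ T m := by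
  have hΛ0 : 0 < Λ := by linarith
  have hn0 : (0:ℝ) < n := by exact_mod_cast (by omega : 0 < n)
  have hg := Good_of_Pre hΛ0.le hx
  refine ⟨hT x c hx.1 hg hc, fun j hj => ?_⟩
  · obtain ⟨h1, h2⟩ := hx.2 j hj
    have h3 := core_u_le hn hΛ hg hc hj
    have h4 := core_le_u hn hΛ hg hc hj
    have hee := ee_le m j
    have hee0 := ee_nonneg m j
    have hpow : ((1:ℝ) / 2) ^ (m + 1 - j) = 1 / 2 * (1 / 2) ^ (m - j) := by
      rw [show m + 1 - j = (m - j) + 1 by omega, pow_succ]; ring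
    have heq : ee m j = 1 / 16 * (1 / 2) ^ (m - j) := rfl
    have hp := half_pow_le (m - j)
    have hp0 : 0 < ((1:ℝ) / 2) ^ (m - j) := by positivity
    rw [hpow] at h1 h2
    set t := ((1:ℝ) / 2) ^ (m - j) with ht
    constructor
    · refine le_trans ?_ h4
      calc Λ * (2 - t) ≤ (1 - ee m j) * (Λ * (2 - 1 / 2 * t)) := by
            rw [heq]
            have : (2 - t) ≤ (1 - 1 / 16 * t) * (2 - 1 / 2 * t) := by nlinarith
            calc Λ * (2 - t) ≤ Λ * ((1 - 1 / 16 * t) * (2 - 1 / 2 * t)) := by gcongr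
              _ = _ := by ring
        _ ≤ (1 - ee m j) * u n x j := by
            gcongr
            linarith
    · refine h3.trans ?_
      calc Real.exp (ee m j) * u n x j ≤ (1 + 2 * ee m j) * (2 * n * (1 + 1 / 2 * t)) := by
            gcongr
            · have := u_nonneg n x j; linarith
            · exact exp_small hee0 (by linarith)
        _ ≤ 2 * n * (1 + t) := by
            rw [heq]
            have : (1 + 2 * (1 / 16 * t)) * (1 + 1 / 2 * t) ≤ 1 + t := by nlinarith
            calc (1 + 2 * (1 / 16 * t)) * (2 * n * (1 + 1 / 2 * t))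
                = 2 * n * ((1 + 2 * (1 / 16 * t)) * (1 + 1 / 2 * t)) := by ring
              _ ≤ 2 * n * (1 + t) := by gcongr

/-- One step down. -/
theorem descend {n : ℕ} (hn : 2 ≤ n) {Λ : ℝ} (hΛ : 32 ≤ Λ) {T : ℕ → Set ℂ} {m : ℕ}
    (hTm : ∀ k, MeasurableSet (T k)) (hT : Adm n Λ T m) {g : ℂ → ℝ≥0∞}
    (hg : Measurable g) (hsupp : ∀ x, g x ≠ 0 → x ∈ Pre n Λ T m) {A : ℂ → ℝ≥0∞}
    {φ : ℂ → ℝ → ℝ≥0∞} (hφm : ∀ c, Measurable (φ c)) (hφ0 : ∀ c, ∀ x : ℝ, 4 * n < x → φ c x = 0)
    (hle : ∀ c, c ∈ Om n Λ T m → ∀ x, ‖x - c‖ < rad n m c → g x ≤ A c * φ c (u n x (m + 1))) :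
    ∫⁻ x, g x ≤ 640000 * ∫⁻ c in Om n Λ T m,
      A c * ENNReal.ofReal (1 / u n c m) * ∫⁻ h, φ c (Real.exp h) := by
  have hΛ0 : 0 < Λ := by linarith
  have hrad : Measurable fun c => rad n m c := by
    unfold rad
    exact (continuous_v n m).norm.measurable.div
      (measurable_const.mul (continuous_Q n m).measurable)
  have h1 := average hg hrad (T := Om n Λ T m) (fun x hx => by
    have hP := hsupp x hx
    have hG := Good_of_Pre hΛ0.le hP
    refine ⟨hG.rad_pos hn hΛ0, fun c hc => ?_⟩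
    have hpos := hG.rad_pos hn hΛ0
    have hc' : ‖c - x‖ ≤ rad n m x := by linarith
    exact ⟨mem_Om_of_near hn hΛ hT hP hc', rad_slow hn hΛ hG hc'⟩)
  refine h1.trans ?_
  have h2 : (640000 : ℝ≥0∞) = 16 * 40000 := by norm_num
  rw [h2, mul_assoc]
  gcongr 16 * ?_
  rw [← lintegral_const_mul' _ _ (by norm_num)]
  apply setLIntegral_mono' (measurableSet_Om n Λ hTm m)
  intro c hc
  have hG := Good_of_Om hΛ0.le hc
  have hup := hG.u_pos hΛ0 le_rfl
  calc (volume (ball c (rad n m c)))⁻¹ * ∫⁻ x in ball c (rad n m c), g x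
      ≤ (volume (ball c (rad n m c)))⁻¹ * ∫⁻ x in ball c (rad n m c), A c * φ c (u n x (m + 1)) := by
        apply mul_le_mul_right
        apply setLIntegral_mono' measurableSet_ball
        intro x hx
        rw [mem_ball, dist_eq_norm] at hx
        exact hle c hc x hx
    _ = A c * ((volume (ball c (rad n m c)))⁻¹ * ∫⁻ x in ball c (rad n m c), φ c (u n x (m + 1))) := by
        have hm : Measurable fun x => φ c (u n x (m + 1)) :=
          (hφm c).comp (continuous_u n (m + 1)).measurable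
        rw [lintegral_const_mul _ hm]
        ring
    _ ≤ A c * (ENNReal.ofReal (40000 / u n c m) * ∫⁻ h, φ c (Real.exp h)) := by
        gcongr A c * ?_
        exact avg_le hn hΛ hG (hφm c) (hφ0 c)
    _ = 40000 * (A c * ENNReal.ofReal (1 / u n c m) * ∫⁻ h, φ c (Real.exp h)) := by
        have h3 : ENNReal.ofReal (40000 / u n c m) = 40000 * ENNReal.ofReal (1 / u n c m) := by
          have : (40000 : ℝ≥0∞) = ENNReal.ofReal 40000 := by norm_num
          rw [this, ← ENNReal.ofReal_mul (by norm_num)]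
          congr 1
          ring
        rw [h3]
        ring

/-! ### Weights -/

/-- The weight of level `k`, counted from level `m + 1`. -/
noncomputable def W (n m k : ℕ) (c : ℂ) : ℝ := ∏ j ∈ Finset.Ico (m + 1) (k + 1), (1 + Real.log (u n c j))

theorem measurable_W (n m k : ℕ) : Measurable fun c => W n m k c := by
  unfold W
  apply Finset.measurable_prod
  intro j _
  exact measurable_const.add (Real.measurable_log.comp (continuous_u n j).measurable)

theorem W_succ (n : ℕ) {m k : ℕ} (hk : m ≤ k) (c : ℂ) :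
    W n m (k + 1) c = W n m k c * (1 + Real.log (u n c (k + 1))) := by
  unfold W; rw [Finset.prod_Ico_succ_top (by omega)]

theorem W_self (n m : ℕ) (c : ℂ) : W n m m c = 1 := by
  unfold W; simp

theorem one_le_Q {n : ℕ} {Λ : ℝ} (hΛ : 1 ≤ Λ) {m : ℕ} {c : ℂ} (h : Good n Λ m c) {k : ℕ}
    (hk : k ≤ m + 1) : 1 ≤ Q n c k := by
  unfold Q
  calc (1:ℝ) = ∏ j ∈ Finset.range k, (1:ℝ) := by simp
    _ ≤ _ := Finset.prod_le_prod (fun _ _ => by norm_num) fun j hj => by
        have := (h j (by have := Finset.mem_range.1 hj; omega)).1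
        linarith

theorem one_add_log_Q_le {n : ℕ} {Λ : ℝ} (hΛ : 1 ≤ Λ) {m k : ℕ} (hk : m ≤ k) {c : ℂ}
    (h : Good n Λ k c) :
    1 + Real.log (Q n c (k + 1)) ≤ (1 + Real.log (Q n c (m + 1))) * W n m k c ∧ 1 ≤ W n m k c := by
  obtain ⟨i, rfl⟩ : ∃ i, k = m + i := ⟨k - m, by omega⟩
  clear hk
  induction i with
  | zero =>
    rw [add_zero, W_self]
    constructor <;> linarith
  | succ i ih =>
    have hm : Good n Λ (m + i) c := fun j hj => h j (by omega)
    obtain ⟨h1, h2⟩ := ih hm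
    have h3 := (h (m + i + 1) (by omega)).1
    have h4 : 1 ≤ u n c (m + i + 1) := hΛ.trans h3
    have h7 := one_le_Q hΛ hm (k := m + i + 1) le_rfl
    have h8 := one_le_Q hΛ hm (k := m + 1) (by omega)
    have h5 := Real.log_nonneg h7
    have h6 := Real.log_nonneg h4
    have h9 := Real.log_nonneg h8
    rw [show m + (i + 1) = m + i + 1 by ring, Q_succ, W_succ n (by omega)]
    constructor
    · rw [Real.log_mul (by linarith) (by linarith)]
      calc 1 + (Real.log (Q n c (m + i + 1)) + Real.log (u n c (m + i + 1)))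
          ≤ (1 + Real.log (Q n c (m + i + 1))) * (1 + Real.log (u n c (m + i + 1))) := by nlinarith
        _ ≤ ((1 + Real.log (Q n c (m + 1))) * W n m (m + i) c) *
            (1 + Real.log (u n c (m + i + 1))) := by gcongr
        _ = _ := by ring
    · exact one_le_mul_of_one_le_of_one_le h2 (by linarith)

theorem W_var {n : ℕ} (hn : 2 ≤ n) {Λ : ℝ} (hΛ : 32 ≤ Λ) {m k : ℕ} {c x : ℂ}
    (h : Good n Λ k c) (hx : ‖x - c‖ ≤ rad n k c) : W n m k x ≤ 2 * W n m k c := by
  have hΛ0 : 0 < Λ := by linarith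
  have hW1 : 0 ≤ W n m k c := by
    unfold W
    apply Finset.prod_nonneg
    intro j hj
    have hjm : j ≤ k := by have := Finset.mem_Ico.1 hj; omega
    have h2 := (h j hjm).1
    have := Real.log_nonneg (show (1:ℝ) ≤ u n c j by linarith)
    linarith
  calc W n m k x ≤ ∏ j ∈ Finset.Ico (m + 1) (k + 1),
        (Real.exp (ee k j) * (1 + Real.log (u n c j))) := by
        unfold W
        apply Finset.prod_le_prod
        · intro j hj
          have hjm : j ≤ k := by have := Finset.mem_Ico.1 hj; omega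
          have h1 := core_le_u hn hΛ h hx hjm
          have h2 := (h j hjm).1
          have h3 := ee_le k j
          have h4 : 1 ≤ u n x j := by nlinarith
          have := Real.log_nonneg h4
          linarith
        · intro j hj
          have hjm : j ≤ k := by have := Finset.mem_Ico.1 hj; omega
          have h1 := core_u_le hn hΛ h hx hjm
          have h1' := core_le_u hn hΛ h hx hjm
          have h2 := (h j hjm).1
          have h3 := ee_le k j
          have h3' := ee_nonneg k j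
          have hux : 0 < u n x j := by nlinarith
          have huc : 0 < u n c j := by linarith
          have h4 := Real.log_le_log hux h1
          rw [Real.log_mul (Real.exp_pos _).ne' huc.ne', Real.log_exp] at h4
          have h5 : 0 ≤ Real.log (u n c j) := Real.log_nonneg (by linarith)
          have h6 := Real.add_one_le_exp (ee k j)
          calc 1 + Real.log (u n x j) ≤ (1 + ee k j) * (1 + Real.log (u n c j)) := by nlinarith
            _ ≤ Real.exp (ee k j) * (1 + Real.log (u n c j)) := by gcongr; linarith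
    _ = Real.exp (∑ j ∈ Finset.Ico (m + 1) (k + 1), ee k j) * W n m k c := by
        rw [Finset.prod_mul_distrib, ← Real.exp_sum]; rfl
    _ ≤ 2 * W n m k c := by
        have h0 : ∑ j ∈ Finset.Ico (m + 1) (k + 1), ee k j ≤ ∑ j ∈ Finset.range (k + 1), ee k j := by
          apply Finset.sum_le_sum_of_subset_of_nonneg
          · intro j hj
            rw [Finset.mem_range]
            exact (Finset.mem_Ico.1 hj).2
          · intro i _ _; exact ee_nonneg k i
        have h1 := sum_ee (m := k) le_rfl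
        have h2 : Real.exp (∑ j ∈ Finset.Ico (m + 1) (k + 1), ee k j) ≤ 5 / 4 :=
          (Real.exp_le_exp.2 (by linarith)).trans exp_le_five_fourth
        gcongr
        linarith

end Pool.Agent.H205.LD
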