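import Pool.Agent.H205.LD1

/-!
# Local density of hyperbolicity in `z ^ n + c`: the estimates of the bad sets
-/

set_option autoImplicit false
open Complex Metric Set Filter Topology MeasureTheory
open scoped ENNReal Real

namespace Pool.Agent.H205.LD

open Pool.Agent.H205.AR

/-- The integral of level `k`. -/
noncomputable def II (n : ℕ) (Λ : ℝ) (T : ℕ → Set ℂ) (m k : ℕ) : ℝ≥0∞ :=
  ∫⁻ c in Om n Λ T k, ENNReal.ofReal (W n m k c) * ENNReal.ofReal (1 / u n c k)

theorem II_succ {n : ℕ} (hn : 2 ≤ n) {Λ : ℝ} (hΛ : 32 ≤ Λ) {T : ℕ → Set ℂ}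
    (hTm : ∀ k, MeasurableSet (T k)) {m k : ℕ} (hk : m ≤ k) (hT : Adm n Λ T k) :
    II n Λ T m (k + 1) ≤ ENNReal.ofReal (5120000 * (1 + Real.log Λ) / Λ) * II n Λ T m k := by
  have hΛ0 : 0 < Λ := by linarith
  have hΛ1 : 1 ≤ Λ := by linarith
  have hmeas : Measurable ((Om n Λ T (k + 1)).indicator fun x =>
      ENNReal.ofReal (W n m (k + 1) x) * ENNReal.ofReal (1 / u n x (k + 1))) := by
    apply Measurable.indicator _ (measurableSet_Om _ _ hTm _)
    exact (ENNReal.measurable_ofReal.comp (measurable_W n m (k + 1))).mul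
      (ENNReal.measurable_ofReal.comp (measurable_const.div (continuous_u n (k + 1)).measurable))
  have h1 := descend hn hΛ (T := T) (m := k) hTm hT hmeas (fun x hx => by
    apply Om_succ_subset_Pre
    by_contra hcon
    exact hx (indicator_of_notMem hcon _)) (A := fun c => ENNReal.ofReal (2 * W n m k c))
    (φ := fun _ => φ1 Λ (4 * n)) (fun _ => measurable_φ1 _ _)
    (fun _ x hx => indicator_of_notMem (fun h => absurd h.2 (not_le.2 hx)) _)
    (fun c hcO x hx => by
      have hc := Good_of_Om hΛ0.le hcO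
      by_cases hxO : x ∈ Om n Λ T (k + 1)
      · rw [indicator_of_mem hxO]
        have hG := Good_of_Om hΛ0.le hxO
        obtain ⟨h2, h3⟩ := hG (k + 1) le_rfl
        have h4 : 1 ≤ u n x (k + 1) := by linarith
        have h5 := Real.log_nonneg h4
        unfold φ1
        rw [indicator_of_mem (show u n x (k + 1) ∈ Icc Λ (4 * n) from ⟨h2, h3⟩),
          ← ENNReal.ofReal_mul' (by positivity), ← ENNReal.ofReal_mul' (by positivity)]
        apply ENNReal.ofReal_le_ofReal
        rw [W_succ n hk]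
        have h6 := W_var (m := m) hn hΛ hc hx.le
        calc W n m k x * (1 + Real.log (u n x (k + 1))) * (1 / u n x (k + 1))
            = W n m k x * ((1 + Real.log (u n x (k + 1))) / u n x (k + 1)) := by ring
          _ ≤ 2 * W n m k c * ((1 + Real.log (u n x (k + 1))) / u n x (k + 1)) := by gcongr
      · rw [indicator_of_notMem hxO]
        exact bot_le)
  rw [lintegral_indicator (measurableSet_Om _ _ hTm _)] at h1
  unfold II
  refine h1.trans ?_
  have h7 := lintegral_φ1 (b := 4 * n) hΛ1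
  have hlog := Real.log_nonneg hΛ1
  calc 640000 * ∫⁻ c in Om n Λ T k, ENNReal.ofReal (2 * W n m k c) * ENNReal.ofReal (1 / u n c k) *
        ∫⁻ h, φ1 Λ (4 * n) (Real.exp h)
      ≤ 640000 * ∫⁻ c in Om n Λ T k, ENNReal.ofReal (2 * W n m k c) * ENNReal.ofReal (1 / u n c k) *
        ENNReal.ofReal (4 * (1 + Real.log Λ) / Λ) := by
        gcongr
    _ = 640000 * ∫⁻ c in Om n Λ T k, ENNReal.ofReal (2 * (4 * (1 + Real.log Λ) / Λ)) *
          (ENNReal.ofReal (W n m k c) * ENNReal.ofReal (1 / u n c k)) := by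
        congr 1
        apply lintegral_congr
        intro c
        rw [ENNReal.ofReal_mul (by norm_num : (0:ℝ) ≤ 2),
          ENNReal.ofReal_mul (by norm_num : (0:ℝ) ≤ 2)]
        ring
    _ = ENNReal.ofReal (5120000 * (1 + Real.log Λ) / Λ) *
          ∫⁻ c in Om n Λ T k, ENNReal.ofReal (W n m k c) * ENNReal.ofReal (1 / u n c k) := by
        rw [lintegral_const_mul' _ _ ENNReal.ofReal_ne_top, ← mul_assoc]
        congr 1
        have : (640000 : ℝ≥0∞) = ENNReal.ofReal 640000 := by norm_num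
        rw [this, ← ENNReal.ofReal_mul (by norm_num)]
        congr 1
        ring

/-- The bad set of level `k + 1`. -/
def NN (n : ℕ) (Λ : ℝ) (T : ℕ → Set ℂ) (k : ℕ) : Set ℂ :=
  {x | x ∈ Pre n Λ T k ∧ u n x (k + 1) < 2 * Λ ∧ u n x (k + 1) ≤ 4 * n ∧ 1 / 6 < Q n x (k + 2)}

theorem measurableSet_NN (n : ℕ) (Λ : ℝ) {T : ℕ → Set ℂ} (hTm : ∀ k, MeasurableSet (T k)) (k : ℕ) :
    MeasurableSet (NN n Λ T k) :=
  (measurableSet_Pre n Λ hTm k).inter
    ((measurableSet_lt (continuous_u n (k + 1)).measurable measurable_const).inter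
      ((measurableSet_le (continuous_u n (k + 1)).measurable measurable_const).inter
        (measurableSet_lt measurable_const (continuous_Q n (k + 2)).measurable)))

theorem volume_NN {n : ℕ} (hn : 2 ≤ n) {Λ : ℝ} (hΛ : 32 ≤ Λ) {T : ℕ → Set ℂ}
    (hTm : ∀ k, MeasurableSet (T k)) {m k : ℕ} (hk : m ≤ k) (hT : Adm n Λ T k) {κ : ℝ}
    (hκ0 : 0 ≤ κ) (hκ : ∀ c ∈ Om n Λ T k, 1 + Real.log (Q n c (m + 1)) ≤ κ) :
    volume (NN n Λ T k) ≤ ENNReal.ofReal (640000 * Real.log (24 * Λ) * κ) * II n Λ T m k := by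
  have hΛ0 : 0 < Λ := by linarith
  have hΛ1 : 1 ≤ Λ := by linarith
  have hmeas : Measurable ((NN n Λ T k).indicator (1 : ℂ → ℝ≥0∞)) :=
    measurable_one.indicator (measurableSet_NN _ _ hTm _)
  have h1 := descend hn hΛ (T := T) (m := k) hTm hT hmeas (fun x hx => by
    have : x ∈ NN n Λ T k := by
      by_contra hcon
      exact hx (indicator_of_notMem hcon _)
    exact this.1) (A := fun _ => 1)
    (φ := fun c => φ2 (1 / (12 * Q n c (k + 1))) (min (2 * Λ) (4 * n)))
    (fun _ => measurable_φ2 _ _)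
    (fun _ x hx => indicator_of_notMem (fun h => absurd (h.2.trans (min_le_right _ _))
      (not_le.2 hx)) _)
    (fun c hcO x hx => by
      have hc := Good_of_Om hΛ0.le hcO
      by_cases hxN : x ∈ NN n Λ T k
      · rw [indicator_of_mem hxN]
        obtain ⟨hP, h2, h3, h4⟩ := hxN
        have hQc : 0 < Q n c (k + 1) := Q_pos fun j hj => hc.u_pos hΛ0 (by omega)
        obtain ⟨h5, h6⟩ := Q_ratio hn hΛ hc hx.le (k := k + 1) le_rfl
        have hQx : 0 < Q n x (k + 1) := by linarith
        unfold φ2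
        rw [indicator_of_mem, one_mul]
        · exact le_rfl
        · refine ⟨?_, le_min h2.le h3⟩
          rw [div_le_iff₀ (by positivity)]
          rw [Q_succ] at h4
          have h7 := u_nonneg n x (k + 1)
          nlinarith
      · rw [indicator_of_notMem hxN]
        exact bot_le)
  rw [lintegral_indicator_one (measurableSet_NN _ _ hTm _)] at h1
  refine h1.trans ?_
  have h24 : 1 ≤ Real.log (24 * Λ) := by
    rw [Real.le_log_iff_exp_le (by positivity)]
    have := Real.exp_one_lt_d9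
    linarith
  calc 640000 * ∫⁻ c in Om n Λ T k, 1 * ENNReal.ofReal (1 / u n c k) *
        ∫⁻ h, φ2 (1 / (12 * Q n c (k + 1))) (min (2 * Λ) (4 * n)) (Real.exp h)
      ≤ 640000 * ∫⁻ c in Om n Λ T k, ENNReal.ofReal (Real.log (24 * Λ) * κ) *
          (ENNReal.ofReal (W n m k c) * ENNReal.ofReal (1 / u n c k)) := by
        gcongr 640000 * ?_
        apply setLIntegral_mono' (measurableSet_Om _ _ hTm _)
        intro c hc
        have hG := Good_of_Om hΛ0.le hc
        have hQc : 0 < Q n c (k + 1) := Q_pos fun j hj => hG.u_pos hΛ0 (by omega)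
        obtain ⟨h2, h3⟩ := one_add_log_Q_le hΛ1 hk hG
        have h4 := Real.log_nonneg (one_le_Q hΛ1 hG (k := k + 1) le_rfl)
        have hn0 : (0:ℝ) < n := by exact_mod_cast (by omega : 0 < n)
        have h2' : 1 + Real.log (Q n c (k + 1)) ≤ κ * W n m k c :=
          h2.trans (by gcongr; exact hκ c hc)
        calc 1 * ENNReal.ofReal (1 / u n c k) *
              ∫⁻ h, φ2 (1 / (12 * Q n c (k + 1))) (min (2 * Λ) (4 * n)) (Real.exp h)
            ≤ 1 * ENNReal.ofReal (1 / u n c k) *
                ENNReal.ofReal (Real.log (24 * Λ) * κ * W n m k c) := by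
              gcongr
              refine (lintegral_φ2 (by positivity)).trans (ENNReal.ofReal_le_ofReal ?_)
              have h5 : Real.log (min (2 * Λ) (4 * n)) ≤ Real.log (2 * Λ) :=
                Real.log_le_log (by positivity) (min_le_left _ _)
              rw [one_div, Real.log_inv, Real.log_mul (by norm_num) hQc.ne']
              have h6 : Real.log (24 * Λ) = Real.log (2 * Λ) + Real.log 12 := by
                rw [← Real.log_mul (by positivity) (by norm_num)]; congr 1; ring
              nlinarith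
          _ = _ := by
              rw [ENNReal.ofReal_mul (by positivity)]; ring
    _ = ENNReal.ofReal (640000 * Real.log (24 * Λ) * κ) * II n Λ T m k := by
        rw [lintegral_const_mul' _ _ ENNReal.ofReal_ne_top, ← mul_assoc]
        congr 1
        have : (640000 : ℝ≥0∞) = ENNReal.ofReal 640000 := by norm_num
        rw [this, ← ENNReal.ofReal_mul (by norm_num)]
        congr 1
        ring

/-- The survivors of level `k + 1`. -/
def SS (n : ℕ) (Λ : ℝ) (T : ℕ → Set ℂ) (k : ℕ) : Set ℂ :=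
  {x | x ∈ Pre n Λ T k ∧ Λ ≤ u n x (k + 1) ∧ u n x (k + 1) ≤ 4 * n}

theorem measurableSet_SS (n : ℕ) (Λ : ℝ) {T : ℕ → Set ℂ} (hTm : ∀ k, MeasurableSet (T k)) (k : ℕ) :
    MeasurableSet (SS n Λ T k) :=
  (measurableSet_Pre n Λ hTm k).inter
    ((measurableSet_le measurable_const (continuous_u n (k + 1)).measurable).inter
      (measurableSet_le (continuous_u n (k + 1)).measurable measurable_const))

theorem volume_SS {n : ℕ} (hn : 2 ≤ n) {Λ : ℝ} (hΛ : 32 ≤ Λ) {T : ℕ → Set ℂ}
    (hTm : ∀ k, MeasurableSet (T k)) {m k : ℕ} (hk : m ≤ k) (hT : Adm n Λ T k) :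
    volume (SS n Λ T k) ≤ ENNReal.ofReal (640000 * Real.log (4 * n)) * II n Λ T m k := by
  have hΛ0 : 0 < Λ := by linarith
  have hΛ1 : 1 ≤ Λ := by linarith
  have hn1 : (1:ℝ) ≤ n := by exact_mod_cast (by omega : 1 ≤ n)
  have hmeas : Measurable ((SS n Λ T k).indicator (1 : ℂ → ℝ≥0∞)) :=
    measurable_one.indicator (measurableSet_SS _ _ hTm _)
  have h1 := descend hn hΛ (T := T) (m := k) hTm hT hmeas (fun x hx => by
    have : x ∈ SS n Λ T k := by
      by_contra hcon
      exact hx (indicator_of_notMem hcon _)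
    exact this.1) (A := fun _ => 1)
    (φ := fun _ => φ2 1 (4 * n))
    (fun _ => measurable_φ2 _ _)
    (fun _ x hx => indicator_of_notMem (fun h => absurd h.2 (not_le.2 hx)) _)
    (fun c hcO x hx => by
      by_cases hxN : x ∈ SS n Λ T k
      · rw [indicator_of_mem hxN]
        obtain ⟨hP, h2, h3⟩ := hxN
        unfold φ2
        rw [indicator_of_mem (show u n x (k + 1) ∈ Icc 1 (4 * (n:ℝ)) from ⟨by linarith, h3⟩),
          one_mul]
        exact le_rfl
      · rw [indicator_of_notMem hxN]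
        exact bot_le)
  rw [lintegral_indicator_one (measurableSet_SS _ _ hTm _)] at h1
  refine h1.trans ?_
  calc 640000 * ∫⁻ c in Om n Λ T k, 1 * ENNReal.ofReal (1 / u n c k) *
        ∫⁻ h, φ2 1 (4 * n) (Real.exp h)
      ≤ 640000 * ∫⁻ c in Om n Λ T k, ENNReal.ofReal (Real.log (4 * n)) *
          (ENNReal.ofReal (W n m k c) * ENNReal.ofReal (1 / u n c k)) := by
        gcongr 640000 * ?_
        apply setLIntegral_mono' (measurableSet_Om _ _ hTm _)
        intro c hc
        have hG := Good_of_Om hΛ0.le hc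
        obtain ⟨h2, h3⟩ := one_add_log_Q_le hΛ1 hk hG
        calc 1 * ENNReal.ofReal (1 / u n c k) * ∫⁻ h, φ2 1 (4 * n) (Real.exp h)
            ≤ ENNReal.ofReal (W n m k c) * ENNReal.ofReal (1 / u n c k) *
                ENNReal.ofReal (Real.log (4 * n)) := by
              gcongr
              · rw [← ENNReal.ofReal_one]
                exact ENNReal.ofReal_le_ofReal (by linarith)
              · refine (lintegral_φ2 (by norm_num)).trans (ENNReal.ofReal_le_ofReal ?_)
                rw [Real.log_one, sub_zero]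
          _ = _ := by ring
    _ = ENNReal.ofReal (640000 * Real.log (4 * n)) * II n Λ T m k := by
        rw [lintegral_const_mul' _ _ ENNReal.ofReal_ne_top, ← mul_assoc]
        congr 1
        have : (640000 : ℝ≥0∞) = ENNReal.ofReal 640000 := by norm_num
        rw [this, ← ENNReal.ofReal_mul (by norm_num)]

/-! ### The first level -/

theorem II_first {n : ℕ} (hn : 2 ≤ n) {Λ : ℝ} (hΛ : 32 ≤ Λ) {T : ℕ → Set ℂ}
    (hTm : ∀ k, MeasurableSet (T k)) {m : ℕ} {c₀ : ℂ} (h : Good n Λ m c₀) {R : ℝ} (hR : 0 < R)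
    (hRr : R ≤ rad n m c₀) (hT : T (m + 1) ⊆ ball c₀ R) :
    II n Λ T m (m + 1) ≤ ENNReal.ofReal (2560 * R / (n * Q n c₀ (m + 1))) *
      ENNReal.ofReal (4 * (1 + Real.log Λ) / Λ) := by
  have hΛ0 : 0 < Λ := by linarith
  have hΛ1 : 1 ≤ Λ := by linarith
  have h1 := avg_gen hn hΛ h hR hRr (measurable_φ1 Λ (4 * n))
    (fun x hx => indicator_of_notMem (fun h => absurd h.2 (not_le.2 hx)) _)
  refine le_trans ?_ (h1.trans (by gcongr; exact lintegral_φ1 hΛ1))
  unfold II
  calc ∫⁻ c in Om n Λ T (m + 1), ENNReal.ofReal (W n m (m + 1) c) *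
        ENNReal.ofReal (1 / u n c (m + 1))
      ≤ ∫⁻ c in Om n Λ T (m + 1), φ1 Λ (4 * n) (u n c (m + 1)) := by
        apply setLIntegral_mono' (measurableSet_Om _ _ hTm _)
        intro c hc
        have hG := Good_of_Om hΛ0.le hc
        obtain ⟨h2, h3⟩ := hG (m + 1) le_rfl
        have h4 : 1 ≤ u n c (m + 1) := by linarith
        have h5 := Real.log_nonneg h4
        unfold φ1
        rw [indicator_of_mem (show u n c (m + 1) ∈ Icc Λ (4 * n) from ⟨h2, h3⟩),
          ← ENNReal.ofReal_mul' (by positivity), W_succ n le_rfl, W_self, one_mul, mul_one_div]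
    _ ≤ _ := lintegral_mono_set fun c hc => hT hc.1

theorem volume_NN_first {n : ℕ} (hn : 2 ≤ n) {Λ : ℝ} (hΛ : 32 ≤ Λ) {T : ℕ → Set ℂ}
    (hTm : ∀ k, MeasurableSet (T k)) {m : ℕ} {c₀ : ℂ} (h : Good n Λ m c₀) {R : ℝ} (hR : 0 < R)
    (hRr : R ≤ rad n m c₀) (hT : T (m + 1) ⊆ ball c₀ R) :
    volume (NN n Λ T m) ≤ ENNReal.ofReal (2560 * R / (n * Q n c₀ (m + 1))) *
      ENNReal.ofReal (Real.log (24 * Λ) * (1 + Real.log (Q n c₀ (m + 1)))) := by
  have hΛ0 : 0 < Λ := by linarith
  have hΛ1 : 1 ≤ Λ := by linarith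
  have hQ : 0 < Q n c₀ (m + 1) := Q_pos fun j hj => h.u_pos hΛ0 (by omega)
  have hQ1 := one_le_Q hΛ1 h (k := m + 1) le_rfl
  have hlQ := Real.log_nonneg hQ1
  have h1 := avg_gen hn hΛ h hR hRr
    (measurable_φ2 (1 / (12 * Q n c₀ (m + 1))) (min (2 * Λ) (4 * n)))
    (fun x hx => indicator_of_notMem (fun h => absurd (h.2.trans (min_le_right _ _))
      (not_le.2 hx)) _)
  have h24 : 1 ≤ Real.log (24 * Λ) := by
    rw [Real.le_log_iff_exp_le (by positivity)]
    have := Real.exp_one_lt_d9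
    linarith
  have hn0 : (0:ℝ) < n := by exact_mod_cast (by omega : 0 < n)
  have h3 : ∫⁻ h, φ2 (1 / (12 * Q n c₀ (m + 1))) (min (2 * Λ) (4 * n)) (Real.exp h) ≤
      ENNReal.ofReal (Real.log (24 * Λ) * (1 + Real.log (Q n c₀ (m + 1)))) := by
    refine (lintegral_φ2 (by positivity)).trans (ENNReal.ofReal_le_ofReal ?_)
    have h5 : Real.log (min (2 * Λ) (4 * n)) ≤ Real.log (2 * Λ) :=
      Real.log_le_log (by positivity) (min_le_left _ _)
    rw [one_div, Real.log_inv, Real.log_mul (by norm_num) hQ.ne']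
    have h6 : Real.log (24 * Λ) = Real.log (2 * Λ) + Real.log 12 := by
      rw [← Real.log_mul (by positivity) (by norm_num)]; congr 1; ring
    nlinarith
  refine le_trans ?_ (h1.trans (by gcongr))
  calc volume (NN n Λ T m) = ∫⁻ x in NN n Λ T m, 1 := by simp
    _ ≤ ∫⁻ x in NN n Λ T m, φ2 (1 / (12 * Q n c₀ (m + 1))) (min (2 * Λ) (4 * n))
          (u n x (m + 1)) := by
        apply setLIntegral_mono' (measurableSet_NN _ _ hTm _)
        intro x hx
        obtain ⟨hP, h2, h3, h4⟩ := hx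
        have hxb := hT hP.1
        rw [mem_ball, dist_eq_norm] at hxb
        obtain ⟨h5, h6⟩ := Q_ratio hn hΛ h (hxb.le.trans hRr) (k := m + 1) le_rfl
        have hQx : 0 < Q n x (m + 1) := by linarith
        unfold φ2
        rw [indicator_of_mem]
        refine ⟨?_, le_min h2.le h3⟩
        rw [div_le_iff₀ (by positivity)]
        rw [Q_succ] at h4
        have h7 := u_nonneg n x (m + 1)
        nlinarith
    _ ≤ _ := lintegral_mono_set fun c hc => hT hc.1.1

end Pool.Agent.H205.LD
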