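import Mathlib
import Pool.Prelude.Def_F_c31e40fa

/-! Real unimodal maps `x ↦ 1 - ρ x ^ n` and the polynomials `z ^ n + c`, `c = - ρ ^ (1/(n-1))`. -/

set_option autoImplicit false
open Filter Topology Set Function

namespace Pool.Agent.H205.RP

/-- The real parameters `c` for which `z ^ n + c` has an attracting cycle of exact period `k`. -/
def ExactR (n k : ℕ) : Set ℝ :=
  {c | ∃ z, N62a1eb23.IsAttractingCycle (fun z => z ^ n + (c : ℂ)) k z ∧
    Function.minimalPeriod (fun z => z ^ n + (c : ℂ)) z = k}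

/-- The real map `x ↦ 1 - ρ x ^ n`. -/
def T (n : ℕ) (ρ : ℝ) (x : ℝ) : ℝ := 1 - ρ * x ^ n

/-- The modulus of the derivative of the `k`-th iterate. -/
def mu (n : ℕ) (ρ : ℝ) (k : ℕ) (x : ℝ) : ℝ :=
  ∏ j ∈ Finset.range k, ((n : ℝ) * ρ * |(T n ρ)^[j] x| ^ (n - 1))

theorem continuous_T (n : ℕ) (ρ : ℝ) : Continuous (T n ρ) := by
  unfold T; fun_prop

theorem iter_conj {n : ℕ} (hn : Even n) (hn2 : 2 ≤ n) (r x : ℝ) (j : ℕ) :
    (fun z : ℂ => z ^ n + ((-r : ℝ) : ℂ))^[j] ((-(r * x) : ℝ) : ℂ) =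
      ((-(r * (T n (r ^ (n - 1)))^[j] x) : ℝ) : ℂ) := by
  induction j with
  | zero => simp
  | succ j ih =>
    rw [iterate_succ_apply', ih, iterate_succ_apply']
    generalize (T n (r ^ (n - 1)))^[j] x = y
    have h1 : (-(r * y)) ^ n = r ^ n * y ^ n := by
      rw [hn.neg_pow, mul_pow]
    have h2 : r ^ n = r * r ^ (n - 1) := by
      rw [← pow_succ']; congr 1; omega
    show (((-(r * y) : ℝ) : ℂ)) ^ n + ((-r : ℝ) : ℂ) = _
    rw [← Complex.ofReal_pow, ← Complex.ofReal_add, h1, h2]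
    congr 1
    unfold T
    ring

theorem hasDerivAt_iter (n : ℕ) (c : ℂ) (k : ℕ) (z : ℂ) :
    HasDerivAt ((fun z : ℂ => z ^ n + c)^[k])
      (∏ j ∈ Finset.range k, ((n : ℂ) * ((fun z : ℂ => z ^ n + c)^[j] z) ^ (n - 1))) z := by
  induction k with
  | zero => simpa using hasDerivAt_id z
  | succ k ih =>
    rw [iterate_succ', Finset.prod_range_succ, mul_comm]
    have h1 : HasDerivAt (fun z : ℂ => z ^ n + c)
        ((n : ℂ) * ((fun z : ℂ => z ^ n + c)^[k] z) ^ (n - 1)) ((fun z : ℂ => z ^ n + c)^[k] z) := by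
      simpa using (hasDerivAt_pow n ((fun z : ℂ => z ^ n + c)^[k] z)).add_const c
    exact h1.comp z ih

/-- From an attracting cycle of the real map to an attracting cycle of `z ^ n + c`. -/
theorem transfer {n : ℕ} (hn : Even n) (hn2 : 2 ≤ n) {r : ℝ} (hr : 0 < r) {k : ℕ} (hk : 0 < k)
    {x : ℝ} (hper : minimalPeriod (T n (r ^ (n - 1))) x = k)
    (hmu : mu n (r ^ (n - 1)) k x < 1) : -r ∈ ExactR n k := by
  set ρ := r ^ (n - 1) with hρ
  have hρ0 : 0 < ρ := by positivity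
  have hmin : minimalPeriod (fun z : ℂ => z ^ n + ((-r : ℝ) : ℂ)) ((-(r * x) : ℝ) : ℂ) = k := by
    rw [← hper, minimalPeriod_eq_minimalPeriod_iff]
    intro j
    unfold IsPeriodicPt IsFixedPt
    rw [iter_conj hn hn2]
    constructor
    · intro h
      have h1 : -(r * (T n (r ^ (n - 1)))^[j] x) = -(r * x) := by exact_mod_cast h
      have h2 : r * (T n (r ^ (n - 1)))^[j] x = r * x := neg_injective h1
      exact mul_left_cancel₀ hr.ne' h2
    · intro h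
      rw [h]
  refine ⟨((-(r * x) : ℝ) : ℂ), ⟨hk, ?_, (hasDerivAt_iter n _ k _).differentiableAt, ?_⟩, hmin⟩
  · rw [← hmin]; exact isPeriodicPt_minimalPeriod _ _
  · rw [(hasDerivAt_iter n _ k _).deriv, norm_prod]
    refine lt_of_le_of_lt (le_of_eq ?_) hmu
    unfold mu
    refine Finset.prod_congr rfl fun j _ => ?_
    rw [iter_conj hn hn2, norm_mul, norm_pow, Complex.norm_real, Complex.norm_natCast,
      Real.norm_eq_abs, abs_neg, abs_mul, abs_of_pos hr, mul_pow, ← hρ]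
    ring

/-- Powers: the strict form of the inequality between the arithmetic and the geometric mean. -/
theorem geom_strict {m : ℕ} (hm : 1 ≤ m) {X Y : ℝ} (hX : 0 ≤ X) (hXY : X < Y) :
    (m + 1 : ℝ) * (X ^ m * Y ^ m) < ∑ j ∈ Finset.range (m + 1), X ^ (2 * j) * Y ^ (2 * (m - j)) := by
  have hY : 0 < Y := lt_of_le_of_lt hX hXY
  have h1 : ∑ j ∈ Finset.range (m + 1), X ^ (2 * (m - j)) * Y ^ (2 * j) =
      ∑ j ∈ Finset.range (m + 1), X ^ (2 * j) * Y ^ (2 * (m - j)) := by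
    rw [← Finset.sum_range_reflect]
    refine Finset.sum_congr rfl fun j hj => ?_
    rw [Finset.mem_range] at hj
    have e1 : m + 1 - 1 - j = m - j := by omega
    have e2 : m - (m - j) = j := by omega
    rw [e1, e2]
  have h2 : ∀ j ∈ Finset.range (m + 1), 2 * (X ^ m * Y ^ m) ≤
      X ^ (2 * j) * Y ^ (2 * (m - j)) + X ^ (2 * (m - j)) * Y ^ (2 * j) := by
    intro j hj
    rw [Finset.mem_range] at hj
    have e : m = j + (m - j) := by omega
    have e3 : X ^ m * Y ^ m = (X ^ j * Y ^ (m - j)) * (X ^ (m - j) * Y ^ j) := by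
      conv_lhs => rw [e]
      rw [pow_add, pow_add]; ring
    have e4 : X ^ (2 * j) * Y ^ (2 * (m - j)) = (X ^ j * Y ^ (m - j)) ^ 2 := by
      rw [mul_pow, ← pow_mul, ← pow_mul, mul_comm j 2, mul_comm (m - j) 2]
    have e5 : X ^ (2 * (m - j)) * Y ^ (2 * j) = (X ^ (m - j) * Y ^ j) ^ 2 := by
      rw [mul_pow, ← pow_mul, ← pow_mul, mul_comm j 2, mul_comm (m - j) 2]
    rw [e3, e4, e5]
    nlinarith [sq_nonneg (X ^ j * Y ^ (m - j) - X ^ (m - j) * Y ^ j)]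
  have h3 : 2 * (X ^ m * Y ^ m) < X ^ (2 * 0) * Y ^ (2 * (m - 0)) + X ^ (2 * (m - 0)) * Y ^ (2 * 0) := by
    have h4 : X ^ m < Y ^ m := pow_lt_pow_left₀ hXY hX (by omega)
    have e1 : X ^ (2 * 0) * Y ^ (2 * (m - 0)) + X ^ (2 * (m - 0)) * Y ^ (2 * 0) =
        (Y ^ m) ^ 2 + (X ^ m) ^ 2 := by
      simp only [mul_zero, pow_zero, Nat.sub_zero, one_mul, mul_one]
      rw [← pow_mul, ← pow_mul, mul_comm m 2]
    rw [e1]
    nlinarith [sq_nonneg (Y ^ m - X ^ m), mul_pos (sub_pos.2 h4) (sub_pos.2 h4)]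
  have h5 : ∑ j ∈ Finset.range (m + 1), 2 * (X ^ m * Y ^ m) <
      ∑ j ∈ Finset.range (m + 1), (X ^ (2 * j) * Y ^ (2 * (m - j)) + X ^ (2 * (m - j)) * Y ^ (2 * j)) :=
    Finset.sum_lt_sum h2 ⟨0, by simp, h3⟩
  rw [Finset.sum_add_distrib, h1, Finset.sum_const, Finset.card_range, nsmul_eq_mul] at h5
  push_cast at h5
  linarith

theorem amgm {n : ℕ} (hn : 2 ≤ n) {x y : ℝ} (hx : 0 ≤ x) (hxy : x < y) :
    (n : ℝ) ^ 2 * (x * y) ^ (n - 1) * (y - x) ^ 2 < (y ^ n - x ^ n) ^ 2 := by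
  obtain ⟨m, rfl⟩ : ∃ m, n = m + 1 := ⟨n - 1, by omega⟩
  have hy : 0 < y := lt_of_le_of_lt hx hxy
  set X := Real.sqrt x with hX
  set Y := Real.sqrt y with hY
  have hX0 : 0 ≤ X := Real.sqrt_nonneg x
  have hXY : X < Y := Real.sqrt_lt_sqrt hx hxy
  have hxX : X ^ 2 = x := Real.sq_sqrt hx
  have hyY : Y ^ 2 = y := Real.sq_sqrt hy.le
  have h1 := geom_strict (by omega : 1 ≤ m) hX0 hXY
  have h2 : ∑ j ∈ Finset.range (m + 1), X ^ (2 * j) * Y ^ (2 * (m - j)) =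
      ∑ j ∈ Finset.range (m + 1), x ^ j * y ^ (m + 1 - 1 - j) := by
    refine Finset.sum_congr rfl fun j _ => ?_
    rw [pow_mul, pow_mul, hxX, hyY, Nat.add_sub_cancel]
  have h3 := (Commute.all x y).geom_sum₂_mul (m + 1)
  rw [h2] at h1
  set s := ∑ j ∈ Finset.range (m + 1), x ^ j * y ^ (m + 1 - 1 - j) with hs
  have h4 : (y ^ (m + 1) - x ^ (m + 1)) ^ 2 = s ^ 2 * (y - x) ^ 2 := by
    have : s * (x - y) = x ^ (m + 1) - y ^ (m + 1) := h3
    calc (y ^ (m + 1) - x ^ (m + 1)) ^ 2 = (x ^ (m + 1) - y ^ (m + 1)) ^ 2 := by ring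
      _ = (s * (x - y)) ^ 2 := by rw [this]
      _ = _ := by ring
  have h5 : ((m + 1 : ℕ) : ℝ) ^ 2 * (x * y) ^ (m + 1 - 1) = ((m + 1 : ℝ) * (X ^ m * Y ^ m)) ^ 2 := by
    rw [Nat.add_sub_cancel, ← hxX, ← hyY]
    push_cast
    have : (X ^ 2 * Y ^ 2) ^ m = (X ^ m * Y ^ m) ^ 2 := by
      rw [← mul_pow, ← mul_pow, ← pow_mul, ← pow_mul, mul_comm m 2]
    rw [this]; ring
  rw [h4, h5]
  have h6 : 0 ≤ (m + 1 : ℝ) * (X ^ m * Y ^ m) := by positivity
  have h7 : ((m + 1 : ℝ) * (X ^ m * Y ^ m)) ^ 2 < s ^ 2 := by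
    exact pow_lt_pow_left₀ h1 h6 (by norm_num)
  exact mul_lt_mul_of_pos_right h7 (pow_pos (sub_pos.2 hxy) 2)

end Pool.Agent.H205.RP
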