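import Pool.Agent.H205.RP1

/-! Parameters with an attracting cycle of period one, two or four. -/

set_option autoImplicit false
open Filter Topology Set Function

namespace Pool.Agent.H205.RP

/-- A continuous function which does not decrease at the left end of an interval and has a repelling
fixed point at the right end has a second fixed point. -/
theorem exists_left {S : ℝ → ℝ} (hS : Continuous S) {a p d : ℝ} (hap : a < p) (ha : a ≤ S a)
    (hp : S p = p) (hd : HasDerivAt S d p) (hd1 : 1 < d) : ∃ q, a ≤ q ∧ q < p ∧ S q = q := by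
  set h : ℝ → ℝ := fun x => S x - x with hh
  have h1 : HasDerivAt h (d - 1) p := hd.sub (hasDerivAt_id p)
  have h2 : ∀ᶠ x in 𝓝 p, SignType.sign (h x) = SignType.sign (x - p) :=
    eventually_nhdsWithin_sign_eq_of_deriv_pos (by rw [h1.deriv]; linarith) (by simp [hh, hp])
  have h3 : ∀ᶠ x in 𝓝[<] p, SignType.sign (h x) = SignType.sign (x - p) :=
    h2.filter_mono nhdsWithin_le_nhds
  have h4 : ∀ᶠ x in 𝓝[<] p, x ∈ Ioo a p := Ioo_mem_nhdsLT hap
  obtain ⟨x, h5, h6⟩ := (h3.and h4).exists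
  have h7 : h x < 0 := by
    rw [sign_eq_neg_one_iff.2 (sub_neg.2 h6.2), sign_eq_neg_one_iff] at h5
    exact h5
  have h8 : ContinuousOn h (Icc a x) := (hS.sub continuous_id).continuousOn
  have h9 := intermediate_value_Icc' h6.1.le h8
  have h10 : (0:ℝ) ∈ Icc (h x) (h a) := ⟨h7.le, by simp only [hh]; linarith⟩
  obtain ⟨q, hq, hq0⟩ := h9 h10
  refine ⟨q, hq.1, lt_of_le_of_lt hq.2 h6.2, ?_⟩
  simp only [hh] at hq0
  linarith

theorem hasDerivAt_T (n : ℕ) (ρ x : ℝ) : HasDerivAt (T n ρ) (-(n * ρ * x ^ (n - 1))) x := by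
  unfold T
  have := ((hasDerivAt_pow n x).const_mul ρ).const_sub 1
  have e : -(ρ * (n * x ^ (n - 1))) = -(n * ρ * x ^ (n - 1)) := by ring
  rw [e] at this
  exact this

/-- The derivative of the iterates. -/
noncomputable def dT (n : ℕ) (ρ : ℝ) (k : ℕ) (x : ℝ) : ℝ :=
  ∏ j ∈ Finset.range k, (-(n * ρ * ((T n ρ)^[j] x) ^ (n - 1)))

theorem hasDerivAt_Tk (n : ℕ) (ρ : ℝ) (k : ℕ) (x : ℝ) :
    HasDerivAt ((T n ρ)^[k]) (dT n ρ k x) x := by
  unfold dT
  induction k with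
  | zero => simpa using hasDerivAt_id x
  | succ k ih =>
    rw [iterate_succ', Finset.prod_range_succ, mul_comm]
    exact (hasDerivAt_T n ρ _).comp x ih

theorem continuous_Tk (n : ℕ) (ρ : ℝ) (k : ℕ) : Continuous ((T n ρ)^[k]) :=
  (continuous_T n ρ).iterate k

/-- Decreasing on the nonnegative half line. -/
theorem T_lt {n : ℕ} (hn : n ≠ 0) {ρ : ℝ} (hρ : 0 < ρ) {x y : ℝ} (hx : 0 ≤ x) (hxy : x < y) :
    T n ρ y < T n ρ x := by
  unfold T
  have := pow_lt_pow_left₀ hxy hx hn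
  nlinarith

theorem T_le {n : ℕ} {ρ : ℝ} (hρ : 0 ≤ ρ) {x y : ℝ} (hx : 0 ≤ x) (hxy : x ≤ y) :
    T n ρ y ≤ T n ρ x := by
  unfold T
  have := pow_le_pow_left₀ hx hxy n
  nlinarith

/-- The exceptional parameter of the period doubling of the fixed point. -/
noncomputable def exc1 (n : ℕ) : ℝ :=
  (1 - (n : ℝ) / (n + 1)) / ((n : ℝ) / (n + 1)) ^ n

theorem small {n : ℕ} (hn2 : 2 ≤ n) {ρ : ℝ} (hρ0 : 0 < ρ) (hρ1 : ρ ≤ 1) (hne : ρ ≠ exc1 n) :
    ∃ k x, (k = 1 ∨ k = 2) ∧ minimalPeriod (T n ρ) x = k ∧ mu n ρ k x < 1 := by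
  have hn0 : n ≠ 0 := by omega
  have hnR : (2:ℝ) ≤ n := by exact_mod_cast hn2
  have hT0 : T n ρ 0 = 1 := by unfold T; simp [hn0]
  have hT1 : T n ρ 1 = 1 - ρ := by unfold T; simp
  have hmaps : MapsTo (T n ρ) (Icc 0 1) (Icc 0 1) := by
    intro x hx
    have h1 := T_le hρ0.le hx.1 hx.2 (n := n)
    have h2 := T_le hρ0.le le_rfl hx.1 (n := n)
    rw [hT0] at h2
    rw [hT1] at h1
    exact ⟨by linarith, h2⟩
  obtain ⟨p, hp, hfix⟩ := exists_mem_Icc_isFixedPt_of_mapsTo (continuous_T n ρ).continuousOn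
    zero_le_one hmaps
  have hfix' : T n ρ p = p := hfix
  have hp0 : 0 < p := by
    rcases hp.1.lt_or_eq with h | h
    · exact h
    · rw [← h, hT0] at hfix'; norm_num at hfix'
  have hpe : 1 - p = ρ * p ^ n := by
    have := hfix'; unfold T at this; linarith
  have hpn : p ^ n = p ^ (n - 1) * p := by rw [← pow_succ]; congr 1; omega
  rcases lt_trichotomy ((n:ℝ) * ρ * p ^ (n - 1)) 1 with h | h | h
  · refine ⟨1, p, Or.inl rfl, minimalPeriod_eq_one_iff_isFixedPt.2 hfix, ?_⟩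
    simp only [mu, Finset.prod_range_one, iterate_zero, id, abs_of_pos hp0]
    exact h
  · exfalso
    apply hne
    have h1 : (n:ℝ) * (1 - p) = p := by
      rw [hpe, hpn]
      calc (n:ℝ) * (ρ * (p ^ (n - 1) * p)) = ((n:ℝ) * ρ * p ^ (n - 1)) * p := by ring
        _ = p := by rw [h, one_mul]
    have h2 : p = (n:ℝ) / (n + 1) := by
      field_simp
      linarith
    unfold exc1
    rw [← h2, hpe, mul_div_assoc, div_self (pow_pos hp0 n).ne', mul_one]
  · -- a second fixed point of the second iterate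
    have hS0 : (0:ℝ) ≤ (T n ρ)^[2] 0 := by
      simp only [iterate_succ, iterate_zero, comp, id, hT0, hT1]
      linarith
    have hSp : (T n ρ)^[2] p = p := by
      simp only [iterate_succ, iterate_zero, comp, id, hfix']
    have hd := hasDerivAt_Tk n ρ 2 p
    have hd1 : 1 < dT n ρ 2 p := by
      unfold dT
      simp only [Finset.prod_range_succ, Finset.prod_range_zero, iterate_succ, iterate_zero, comp,
        id, hfix', one_mul]
      nlinarith
    obtain ⟨q1, hq0, hqp, hq1⟩ := exists_left (continuous_Tk n ρ 2) hp0 hS0 hSp hd hd1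
    set q2 := T n ρ q1 with hq2
    have h12 : q1 < q2 := by
      have := T_lt hn0 hρ0 hq0 hqp
      rw [hfix'] at this
      linarith
    have hq21 : T n ρ q2 = q1 := by
      have := hq1
      simpa [iterate_succ, comp] using this
    refine ⟨2, q1, Or.inr rfl, ?_, ?_⟩
    · have : Fact (Nat.Prime 2) := ⟨Nat.prime_two⟩
      refine minimalPeriod_eq_prime hq1 ?_
      intro hf
      have : T n ρ q1 = q1 := hf
      rw [← hq2] at this
      linarith
    · have h2 : 0 < q2 := by linarith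
      simp only [mu, Finset.prod_range_succ, Finset.prod_range_zero, iterate_succ, iterate_zero,
        comp, id, one_mul]
      rw [← hq2, abs_of_nonneg hq0, abs_of_pos h2]
      have h3 := amgm hn2 hq0 h12
      have h4 : q2 - q1 = ρ * (q2 ^ n - q1 ^ n) := by
        have e1 : q2 = 1 - ρ * q1 ^ n := hq2
        have e2 : q1 = 1 - ρ * q2 ^ n := hq21.symm
        linear_combination e1 - e2
      have h5 : 0 < (q2 - q1) ^ 2 := pow_pos (sub_pos.2 h12) 2
      have h6 : ((n:ℝ) * ρ * q1 ^ (n - 1) * ((n:ℝ) * ρ * q2 ^ (n - 1))) * (q2 - q1) ^ 2 <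
          1 * (q2 - q1) ^ 2 := by
        calc ((n:ℝ) * ρ * q1 ^ (n - 1) * ((n:ℝ) * ρ * q2 ^ (n - 1))) * (q2 - q1) ^ 2
            = ρ ^ 2 * ((n:ℝ) ^ 2 * (q1 * q2) ^ (n - 1) * (q2 - q1) ^ 2) := by
              rw [mul_pow]; ring
          _ < ρ ^ 2 * (q2 ^ n - q1 ^ n) ^ 2 := by
              exact mul_lt_mul_of_pos_left h3 (pow_pos hρ0 2)
          _ = 1 * (q2 - q1) ^ 2 := by rw [h4]; ring
      exact lt_of_mul_lt_mul_right h6 h5.le

/-! ### The region where the second iterate is monotone near the critical value -/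

theorem pow_two_aux {n : ℕ} (hn : 8 ≤ n) : (9:ℝ) / 4 * n < 2 ^ (n - 1) := by
  induction n, hn using Nat.le_induction with
  | base => norm_num
  | succ n hn ih =>
    have e : n + 1 - 1 = (n - 1) + 1 := by omega
    rw [e, pow_succ]
    have : (8:ℝ) ≤ n := by exact_mod_cast hn
    push_cast
    linarith

/-- `n ρ (ρ - 1) ^ n`, that is `n (1 - x₃)`. -/
noncomputable def A (n : ℕ) (ρ : ℝ) : ℝ := n * ρ * (ρ - 1) ^ n

theorem cond_aux {n : ℕ} (hn : 8 ≤ n) {ρ : ℝ} (h1 : 1 < ρ) (h2 : ρ ≤ 2) (ha : A n ρ ≤ 1 / 4) :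
    n * ρ ^ 2 * (ρ - 1) ^ (n - 1) < 1 := by
  have hnR : (8:ℝ) ≤ n := by exact_mod_cast hn
  have e : (ρ - 1) ^ n = (ρ - 1) ^ (n - 1) * (ρ - 1) := by rw [← pow_succ]; congr 1; omega
  rcases le_or_gt (3 / 2) ρ with h | h
  · unfold A at ha
    rw [e] at ha
    have hP : 0 ≤ (n:ℝ) * ρ * (ρ - 1) ^ (n - 1) := by
      have : 0 < ρ - 1 := by linarith
      positivity
    have h3 : (n:ℝ) * ρ * (ρ - 1) ^ (n - 1) * (ρ - 1) ≤ 1 / 4 := by linarith
    have h4 : (n:ℝ) * ρ * (ρ - 1) ^ (n - 1) * ρ ≤ 3 * ((n:ℝ) * ρ * (ρ - 1) ^ (n - 1) * (ρ - 1)) := by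
      have : ρ ≤ 3 * (ρ - 1) := by linarith
      nlinarith
    nlinarith
  · have h3 : (ρ - 1) ^ (n - 1) ≤ (1 / 2) ^ (n - 1) :=
      pow_le_pow_left₀ (by linarith) (by linarith) _
    have h4 := pow_two_aux hn
    have h5 : (1 / 2 : ℝ) ^ (n - 1) = 1 / 2 ^ (n - 1) := by rw [div_pow, one_pow]
    have h6 : ρ ^ 2 ≤ 9 / 4 := by nlinarith
    have h7 : (0:ℝ) < 2 ^ (n - 1) := by positivity
    calc n * ρ ^ 2 * (ρ - 1) ^ (n - 1) ≤ n * (9 / 4) * (1 / 2 ^ (n - 1)) := by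
          rw [← h5]
          have : 0 ≤ (ρ - 1) ^ (n - 1) := pow_nonneg (by linarith) _
          gcongr
      _ = (9 / 4 * n) / 2 ^ (n - 1) := by ring
      _ < 1 := by rw [div_lt_one h7]; exact h4

/-- The data of the cycle of period two near the critical value. -/
structure Q (n : ℕ) (ρ q s : ℝ) : Prop where
  lo : 1 - A n ρ / n < q
  hi : q < 1
  spos : 0 < s
  slt : s < ρ - 1
  e1 : 1 + s = ρ * q ^ n
  e2 : 1 - q = ρ * s ^ n

section Mid

variable {n : ℕ} {ρ : ℝ}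

theorem A_pos (hn : 8 ≤ n) (h1 : 1 < ρ) : 0 < A n ρ := by
  unfold A
  have : 0 < ρ - 1 := by linarith
  have : 0 < n := by omega
  positivity

/-- On `[x₃, 1]` the map `T` is negative. -/
theorem N_pos (hn : 8 ≤ n) (h1 : 1 < ρ) (h2 : ρ ≤ 2) (ha : A n ρ ≤ 1 / 4) {x : ℝ}
    (hx : 1 - A n ρ / n ≤ x) : 0 < ρ * x ^ n - 1 := by
  have hnR : (8:ℝ) ≤ n := by exact_mod_cast hn
  have hA := A_pos hn h1
  have h3 := cond_aux hn h1 h2 ha
  have e : (ρ - 1) ^ n = (ρ - 1) ^ (n - 1) * (ρ - 1) := by rw [← pow_succ]; congr 1; omega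
  have h4 : 1 - A n ρ ≤ (1 - A n ρ / n) ^ n := by
    have h5 := one_add_mul_le_pow (a := -(A n ρ / n)) (by
      have : A n ρ / n ≤ 1 := by rw [div_le_one (by linarith)]; linarith
      linarith) n
    have h6 : (1:ℝ) + n * -(A n ρ / n) = 1 - A n ρ := by field_simp; ring
    rw [h6] at h5
    have h7 : (1 + -(A n ρ / n)) = 1 - A n ρ / n := by ring
    rwa [h7] at h5
  have h0 : 0 ≤ 1 - A n ρ / n := by
    have : A n ρ / n ≤ 1 := by rw [div_le_one (by linarith)]; linarith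
    linarith
  have h5 : (1 - A n ρ / n) ^ n ≤ x ^ n := pow_le_pow_left₀ h0 hx n
  have h6 : ρ * A n ρ < ρ - 1 := by
    unfold A
    rw [e]
    have h8 : 0 < ρ - 1 := by linarith
    calc ρ * (n * ρ * ((ρ - 1) ^ (n - 1) * (ρ - 1))) = (n * ρ ^ 2 * (ρ - 1) ^ (n - 1)) * (ρ - 1) := by
          ring
      _ < 1 * (ρ - 1) := mul_lt_mul_of_pos_right h3 h8
      _ = ρ - 1 := one_mul _
  have h9 : ρ * (1 - A n ρ) ≤ ρ * x ^ n := mul_le_mul_of_nonneg_left (by linarith) (by linarith)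
  linarith

variable (hev : Even n) (hn : 8 ≤ n) (h1 : 1 < ρ) (h2 : ρ ≤ 2) (ha : A n ρ ≤ 1 / 4)

include hev in
theorem TT_eq (x : ℝ) : (T n ρ)^[2] x = 1 - ρ * (ρ * x ^ n - 1) ^ n := by
  simp only [iterate_succ, iterate_zero, comp, id]
  unfold T
  have : (1 - ρ * x ^ n) ^ n = (ρ * x ^ n - 1) ^ n := by
    rw [← hev.neg_pow]; congr 1; ring
  rw [this]

include hn h1 ha in
theorem x3_nonneg : 0 ≤ 1 - A n ρ / n := by
  have hnR : (8:ℝ) ≤ n := by exact_mod_cast hn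
  have hA := A_pos hn h1
  have : A n ρ / n ≤ 1 := by rw [div_le_one (by linarith)]; linarith
  linarith

include hn in
theorem x3_eq : 1 - A n ρ / n = 1 - ρ * (ρ - 1) ^ n := by
  have hnR : (8:ℝ) ≤ n := by exact_mod_cast hn
  unfold A
  field_simp

include hev hn h1 h2 ha in
theorem mapsTo_J : MapsTo ((T n ρ)^[2]) (Icc (1 - A n ρ / n) 1) (Icc (1 - A n ρ / n) 1) := by
  intro x hx
  rw [TT_eq hev, x3_eq hn]
  have h3 := N_pos hn h1 h2 ha hx.1
  have h0 := x3_nonneg hn h1 ha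
  have h4 : x ^ n ≤ 1 := pow_le_one₀ (le_trans h0 hx.1) hx.2
  have h5 : ρ * x ^ n - 1 ≤ ρ - 1 := by nlinarith
  have h6 : (ρ * x ^ n - 1) ^ n ≤ (ρ - 1) ^ n := pow_le_pow_left₀ h3.le h5 n
  have h7 : 0 ≤ (ρ * x ^ n - 1) ^ n := pow_nonneg h3.le n
  constructor <;> nlinarith

include hev hn h1 h2 ha in
theorem exists_Q : ∃ q s, Q n ρ q s := by
  have hnR : (8:ℝ) ≤ n := by exact_mod_cast hn
  have hA := A_pos hn h1
  have hAn : 0 < A n ρ / n := by positivity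
  have h0 := x3_nonneg hn h1 ha
  obtain ⟨q, hq, hfix⟩ := exists_mem_Icc_isFixedPt_of_mapsTo (continuous_Tk n ρ 2).continuousOn
    (by linarith) (mapsTo_J hev hn h1 h2 ha)
  have hfix' : (T n ρ)^[2] q = q := hfix
  rw [TT_eq hev] at hfix'
  set s := ρ * q ^ n - 1 with hs
  have hs0 : 0 < s := N_pos hn h1 h2 ha hq.1
  have hsn : 0 < s ^ n := pow_pos hs0 n
  have hq1 : q < 1 := by nlinarith
  have hqn : q ^ n < 1 := pow_lt_one₀ (le_trans h0 hq.1) hq1 (by omega)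
  have hs1 : s < ρ - 1 := by rw [hs]; nlinarith
  have h3 : s ^ n < (ρ - 1) ^ n := pow_lt_pow_left₀ hs1 hs0.le (by omega)
  refine ⟨q, s, ?_, hq1, hs0, hs1, by rw [hs]; ring, by linarith⟩
  rw [x3_eq hn]
  nlinarith

include hev in
theorem Q.T2 {q s : ℝ} (h : Q n ρ q s) : T n ρ q = -s ∧ T n ρ (-s) = q := by
  constructor
  · unfold T; linarith [h.e1]
  · unfold T
    rw [hev.neg_pow]; linarith [h.e2]

include hn h1 ha in
theorem Q.qpos {q s : ℝ} (h : Q n ρ q s) : 0 < q := by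
  have := h.lo
  have h0 := x3_nonneg hn h1 ha
  linarith

include hev hn h1 ha in
theorem mid2 {q s : ℝ} (h : Q n ρ q s) (hm : (n * ρ) ^ 2 * (q * s) ^ (n - 1) < 1) :
    ∃ x, minimalPeriod (T n ρ) x = 2 ∧ mu n ρ 2 x < 1 := by
  obtain ⟨e1, e2⟩ := h.T2 hev
  have hq := h.qpos hn h1 ha
  refine ⟨q, ?_, ?_⟩
  · have : Fact (Nat.Prime 2) := ⟨Nat.prime_two⟩
    refine minimalPeriod_eq_prime ?_ ?_
    · show (T n ρ)^[2] q = q
      simp only [iterate_succ, iterate_zero, comp, id, e1, e2]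
    · intro hf
      have : T n ρ q = q := hf
      rw [e1] at this
      linarith [h.spos]
  · simp only [mu, Finset.prod_range_succ, Finset.prod_range_zero, iterate_succ, iterate_zero,
        comp, id, one_mul]
    rw [e1, abs_neg, abs_of_pos hq, abs_of_pos h.spos]
    refine lt_of_le_of_lt (le_of_eq ?_) hm
    rw [mul_pow q s]; ring

include hev hn h1 h2 ha in
theorem mid4 {q s : ℝ} (h : Q n ρ q s) (hm : 1 < (n * ρ) ^ 2 * (q * s) ^ (n - 1)) :
    ∃ x, minimalPeriod (T n ρ) x = 4 ∧ mu n ρ 4 x < 1 := by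
  obtain ⟨e1, e2⟩ := h.T2 hev
  have hq := h.qpos hn h1 ha
  have hnR : (8:ℝ) ≤ n := by exact_mod_cast hn
  have hρ : 0 < ρ := by linarith
  have hA := A_pos hn h1
  have hAn : 0 < A n ρ / n := by positivity
  have h0 := x3_nonneg hn h1 ha
  have hJ := mapsTo_J hev hn h1 h2 ha
  have hJ4 : MapsTo ((T n ρ)^[4]) (Icc (1 - A n ρ / n) 1) (Icc (1 - A n ρ / n) 1) := by
    have : (T n ρ)^[4] = (T n ρ)^[2] ∘ (T n ρ)^[2] := by rw [← iterate_add]
    rw [this]
    exact hJ.comp hJ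
  have hx3 : (1 - A n ρ / n) ≤ (T n ρ)^[4] (1 - A n ρ / n) :=
    (hJ4 ⟨le_rfl, by linarith⟩).1
  have hq2 : (T n ρ)^[2] q = q := by
    simp only [iterate_succ, iterate_zero, comp, id, e1, e2]
  have hq4 : (T n ρ)^[4] q = q := by
    simp only [iterate_succ, iterate_zero, comp, id, e1, e2]
  have hodd : Odd (n - 1) := by
    obtain ⟨m, hm⟩ := hev
    exact ⟨m - 1, by omega⟩
  have hd1 : 1 < dT n ρ 4 q := by
    unfold dT
    simp only [Finset.prod_range_succ, Finset.prod_range_zero, iterate_succ, iterate_zero, comp,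
        id, one_mul, e1, e2, hodd.neg_pow]
    have : (-(n * ρ * q ^ (n - 1)) * -(n * ρ * -s ^ (n - 1)) * -(n * ρ * q ^ (n - 1)) *
        -(n * ρ * -s ^ (n - 1))) = ((n * ρ) ^ 2 * (q * s) ^ (n - 1)) ^ 2 := by
      rw [mul_pow q s]; ring
    rw [this]
    nlinarith
  obtain ⟨q1, hq10, hq1q, hq1⟩ := exists_left (continuous_Tk n ρ 4) h.lo hx3 hq4
    (hasDerivAt_Tk n ρ 4 q) hd1
  have hq1pos : 0 ≤ q1 := le_trans h0 hq10
  set s1 := ρ * q1 ^ n - 1 with hs1
  have hs1pos : 0 < s1 := N_pos hn h1 h2 ha hq10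
  have hT1 : T n ρ q1 = -s1 := by unfold T; rw [hs1]; ring
  set q2 := (T n ρ)^[2] q1 with hq2d
  have hq2e : q2 = 1 - ρ * s1 ^ n := by rw [hq2d, TT_eq hev]
  have hTs1 : T n ρ (-s1) = q2 := by unfold T; rw [hev.neg_pow, hq2e]
  have hq1J : q1 ∈ Icc (1 - A n ρ / n) 1 := ⟨hq10, by linarith [h.hi]⟩
  have hq2J : q2 ∈ Icc (1 - A n ρ / n) 1 := hJ hq1J
  -- `q < q2`
  have hss : s1 < s := by
    have := pow_lt_pow_left₀ hq1q hq1pos (by omega : n ≠ 0)
    have e := h.e1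
    rw [hs1]; nlinarith
  have hqq2 : q < q2 := by
    have := pow_lt_pow_left₀ hss hs1pos.le (by omega : n ≠ 0)
    have e := h.e2
    rw [hq2e]; nlinarith
  have h12 : q1 < q2 := by linarith
  set s2 := ρ * q2 ^ n - 1 with hs2
  have hs12 : s1 < s2 := by
    have := pow_lt_pow_left₀ h12 hq1pos (by omega : n ≠ 0)
    rw [hs1, hs2]; nlinarith
  have hT2 : T n ρ q2 = -s2 := by unfold T; rw [hs2]; ring
  have hTs2 : T n ρ (-s2) = q1 := by
    have : (T n ρ)^[4] q1 = T n ρ (T n ρ ((T n ρ)^[2] q1)) := by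
      simp only [iterate_succ, iterate_zero, comp, id]
    rw [this, ← hq2d, hT2] at hq1
    exact hq1
  have hq1e : q1 = 1 - ρ * s2 ^ n := by
    rw [← hTs2]; unfold T; rw [hev.neg_pow]
  have hs2pos : 0 < s2 := by linarith
  have hq2pos : 0 < q2 := by linarith
  refine ⟨q1, ?_, ?_⟩
  · have : Fact (Nat.Prime 2) := ⟨Nat.prime_two⟩
    have h3 : minimalPeriod (T n ρ) q1 = 2 ^ (1 + 1) := by
      refine minimalPeriod_eq_prime_pow ?_ ?_
      · intro hf
        have : (T n ρ)^[2] q1 = q1 := hf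
        rw [← hq2d] at this
        linarith
      · show (T n ρ)^[4] q1 = q1
        exact hq1
    simpa using h3
  · simp only [mu, Finset.prod_range_succ, Finset.prod_range_zero, iterate_succ, iterate_zero,
        comp, id, one_mul]
    rw [hT1, hTs1, hT2, abs_neg, abs_neg, abs_of_nonneg hq1pos, abs_of_pos hs1pos,
      abs_of_pos hq2pos, abs_of_pos hs2pos]
    have g1 := amgm (by omega : 2 ≤ n) hq1pos h12
    have g2 := amgm (by omega : 2 ≤ n) hs1pos.le hs12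
    have k1 : s2 - s1 = ρ * (q2 ^ n - q1 ^ n) := by rw [hs1, hs2]; ring
    have k2 : q2 - q1 = ρ * (s2 ^ n - s1 ^ n) := by
      linear_combination hq2e - hq1e
    have p1 : 0 < (q2 - q1) ^ 2 := pow_pos (sub_pos.2 h12) 2
    have p2 : 0 < (s2 - s1) ^ 2 := pow_pos (sub_pos.2 hs12) 2
    have m1 : ρ ^ 2 * ((n:ℝ) ^ 2 * (q1 * q2) ^ (n - 1) * (q2 - q1) ^ 2) < (s2 - s1) ^ 2 := by
      calc ρ ^ 2 * ((n:ℝ) ^ 2 * (q1 * q2) ^ (n - 1) * (q2 - q1) ^ 2)
          < ρ ^ 2 * (q2 ^ n - q1 ^ n) ^ 2 := mul_lt_mul_of_pos_left g1 (pow_pos hρ 2)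
        _ = (s2 - s1) ^ 2 := by rw [k1]; ring
    have m2 : ρ ^ 2 * ((n:ℝ) ^ 2 * (s1 * s2) ^ (n - 1) * (s2 - s1) ^ 2) < (q2 - q1) ^ 2 := by
      calc ρ ^ 2 * ((n:ℝ) ^ 2 * (s1 * s2) ^ (n - 1) * (s2 - s1) ^ 2)
          < ρ ^ 2 * (s2 ^ n - s1 ^ n) ^ 2 := mul_lt_mul_of_pos_left g2 (pow_pos hρ 2)
        _ = (q2 - q1) ^ 2 := by rw [k2]; ring
    have m3 := mul_lt_mul'' m1 m2 (by positivity) (by positivity)
    have m4 : ((n:ℝ) * ρ * q1 ^ (n - 1) * (n * ρ * s1 ^ (n - 1)) * (n * ρ * q2 ^ (n - 1)) *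
        (n * ρ * s2 ^ (n - 1))) * ((q2 - q1) ^ 2 * (s2 - s1) ^ 2) <
        1 * ((q2 - q1) ^ 2 * (s2 - s1) ^ 2) := by
      refine lt_of_eq_of_lt ?_ (lt_of_lt_of_eq m3 ?_)
      · rw [mul_pow q1, mul_pow s1]; ring
      · ring
    exact lt_of_mul_lt_mul_right m4 (by positivity)

end Mid

end Pool.Agent.H205.RP
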