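import Pool.Agent.H205.RP2

/-! The exceptional parameters, the multiplier of the cycle of period two, and the real slice of the
Multibrot set. -/

set_option autoImplicit false
open Filter Topology Set Function

namespace Pool.Agent.H205.RP

/-- The parameters with a cycle of period two of multiplier `-1` near the critical value. -/
def Exc2 (n : ℕ) (ρ : ℝ) : Prop :=
  ∃ q s : ℝ, (n : ℝ) / (n + 1) ≤ q ∧ q < 1 ∧ 0 < s ∧ 1 + s = ρ * q ^ n ∧ 1 - q = ρ * s ^ n ∧
    (n * ρ) ^ 2 * (q * s) ^ (n - 1) = 1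

theorem anti_aux {n : ℕ} (hn : 1 ≤ n) :
    StrictAntiOn (fun x : ℝ => x ^ n * (1 - x)) (Icc ((n : ℝ) / (n + 1)) 1) := by
  have hnR : (1:ℝ) ≤ n := by exact_mod_cast hn
  apply strictAntiOn_of_deriv_neg (convex_Icc _ _)
  · fun_prop
  · intro x hx
    rw [interior_Icc] at hx
    have hx0 : 0 < x := lt_of_le_of_lt (by positivity) hx.1
    have h1 : HasDerivAt (fun x : ℝ => x ^ n * (1 - x))
        (n * x ^ (n - 1) * (1 - x) + x ^ n * (-1)) x := by
      have a1 : HasDerivAt (fun x : ℝ => x ^ n) (n * x ^ (n - 1)) x := hasDerivAt_pow n x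
      have a2 : HasDerivAt (fun x : ℝ => 1 - x) (-1) x := (hasDerivAt_id x).const_sub 1
      exact a1.mul a2
    rw [h1.deriv]
    have e : x ^ n = x ^ (n - 1) * x := by rw [← pow_succ]; congr 1; omega
    have h2 : (n:ℝ) < (n + 1) * x := by
      have := hx.1
      rw [div_lt_iff₀ (by positivity)] at this
      linarith
    have h3 : 0 < x ^ (n - 1) := pow_pos hx0 _
    rw [e]
    nlinarith

theorem exc2_aux {n : ℕ} (hn : 2 ≤ n) {ρ ρ' q s q' s' : ℝ} (h1 : (n : ℝ) / (n + 1) ≤ q)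
    (h2 : q < 1) (h3 : 0 < s) (h4 : 1 + s = ρ * q ^ n) (h5 : 1 - q = ρ * s ^ n)
    (h6 : (n * ρ) ^ 2 * (q * s) ^ (n - 1) = 1)
    (h1' : (n : ℝ) / (n + 1) ≤ q') (h2' : q' < 1) (h3' : 0 < s') (h4' : 1 + s' = ρ' * q' ^ n)
    (h5' : 1 - q' = ρ' * s' ^ n) (h6' : (n * ρ') ^ 2 * (q' * s') ^ (n - 1) = 1) : ¬ q < q' := by
  intro hlt
  have hn1 : 1 ≤ n := by omega
  have hnR : (2:ℝ) ≤ n := by exact_mod_cast hn
  have hq : 0 < q := lt_of_lt_of_le (by positivity) h1
  have hq' : 0 < q' := by linarith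
  have a1 := anti_aux hn1 (a := q) (b := q') ⟨h1, h2.le⟩ ⟨h1', h2'.le⟩ hlt
  simp only at a1
  have key : ∀ {ρ q s : ℝ}, 1 + s = ρ * q ^ n → 1 - q = ρ * s ^ n → (1 + s) * s ^ n = q ^ n * (1 - q) := by
    intro ρ q s e1 e2
    rw [e1, e2]; ring
  have b1 := key h4 h5
  have b2 := key h4' h5'
  have hs : s' < s := by
    by_contra hc
    rw [not_lt] at hc
    have : (1 + s) * s ^ n ≤ (1 + s') * s' ^ n := by
      have := pow_le_pow_left₀ h3.le hc n
      have : 0 ≤ s ^ n := by positivity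
      apply mul_le_mul (by linarith) ‹_› this (by linarith)
    linarith
  have key2 : ∀ {ρ q s : ℝ}, 1 + s = ρ * q ^ n → (n * ρ) ^ 2 * (q * s) ^ (n - 1) = 1 →
      q ^ (n + 1) = n ^ 2 * (1 + s) ^ 2 * s ^ (n - 1) := by
    intro ρ q s e1 e2
    have e3 : q ^ (n + 1) = ((n * ρ) ^ 2 * (q * s) ^ (n - 1)) * q ^ (n + 1) := by rw [e2, one_mul]
    rw [e3, e1]
    have e4 : q ^ (n - 1) * q ^ (n + 1) = (q ^ n) ^ 2 := by
      rw [← pow_add, ← pow_mul]; congr 1; omega
    calc (n * ρ) ^ 2 * (q * s) ^ (n - 1) * q ^ (n + 1)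
        = (n:ℝ) ^ 2 * ρ ^ 2 * s ^ (n - 1) * (q ^ (n - 1) * q ^ (n + 1)) := by rw [mul_pow q s]; ring
      _ = _ := by rw [e4]; ring
  have c1 := key2 h4 h6
  have c2 := key2 h4' h6'
  have d1 : q ^ (n + 1) < q' ^ (n + 1) := pow_lt_pow_left₀ hlt hq.le (by omega)
  have d2 : (n:ℝ) ^ 2 * (1 + s') ^ 2 * s' ^ (n - 1) ≤ n ^ 2 * (1 + s) ^ 2 * s ^ (n - 1) := by
    have e1 := pow_le_pow_left₀ h3'.le hs.le (n - 1)
    have e2 : (1 + s') ^ 2 ≤ (1 + s) ^ 2 := pow_le_pow_left₀ (by linarith) (by linarith) 2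
    have e3 : 0 ≤ s' ^ (n - 1) := by positivity
    have e4 : (n:ℝ) ^ 2 * (1 + s') ^ 2 ≤ n ^ 2 * (1 + s) ^ 2 :=
      mul_le_mul_of_nonneg_left e2 (by positivity)
    exact mul_le_mul e4 e1 e3 (by positivity)
  linarith

theorem exc2_unique {n : ℕ} (hn : 2 ≤ n) {ρ ρ' : ℝ} (h : Exc2 n ρ) (h' : Exc2 n ρ') : ρ = ρ' := by
  obtain ⟨q, s, h1, h2, h3, h4, h5, h6⟩ := h
  obtain ⟨q', s', h1', h2', h3', h4', h5', h6'⟩ := h'
  have hnR : (2:ℝ) ≤ n := by exact_mod_cast hn
  have hqq : q = q' := le_antisymm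
    (not_lt.1 (exc2_aux hn h1' h2' h3' h4' h5' h6' h1 h2 h3 h4 h5 h6))
    (not_lt.1 (exc2_aux hn h1 h2 h3 h4 h5 h6 h1' h2' h3' h4' h5' h6'))
  subst hqq
  have hq : 0 < q := lt_of_lt_of_le (by positivity) h1
  have key : ∀ {ρ q s : ℝ}, 1 + s = ρ * q ^ n → 1 - q = ρ * s ^ n → (1 + s) * s ^ n = q ^ n * (1 - q) := by
    intro ρ q s e1 e2
    rw [e1, e2]; ring
  have b : (1 + s) * s ^ n = (1 + s') * s' ^ n := by rw [key h4 h5, key h4' h5']
  have aux : ∀ {s s' : ℝ}, 0 < s → 0 < s' → (1 + s) * s ^ n = (1 + s') * s' ^ n → ¬ s < s' := by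
    intro s s' p p' e hlt
    have := pow_lt_pow_left₀ hlt p.le (by omega : n ≠ 0)
    have : (1 + s) * s ^ n < (1 + s') * s' ^ n :=
      mul_lt_mul'' (by linarith) this (by linarith) (by positivity)
    linarith
  have hss : s = s' := le_antisymm (not_lt.1 (aux h3' h3 b.symm)) (not_lt.1 (aux h3 h3' b))
  subst hss
  have hqn : 0 < q ^ n := pow_pos hq n
  have : ρ * q ^ n = ρ' * q ^ n := by rw [← h4, ← h4']
  exact mul_right_cancel₀ hqn.ne' this

section Mid

variable {n : ℕ} {ρ : ℝ} (hev : Even n) (hn : 16 ≤ n) (h1 : 1 < ρ) (h2 : ρ ≤ 2)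
  (ha : A n ρ ≤ 1 / 4)

omit h1 h2 in
include hn ha in
theorem Q.exc {q s : ℝ} (h : Q n ρ q s) (hm : (n * ρ) ^ 2 * (q * s) ^ (n - 1) = 1) : Exc2 n ρ := by
  have hnR : (16:ℝ) ≤ n := by exact_mod_cast hn
  refine ⟨q, s, ?_, h.hi, h.spos, h.e1, h.e2, hm⟩
  have h3 := h.lo
  have h4 : A n ρ / n ≤ 1 / (n + 1) := by
    rw [div_le_div_iff₀ (by linarith) (by linarith)]
    nlinarith
  have h5 : (n:ℝ) / (n + 1) = 1 - 1 / (n + 1) := by field_simp; ring
  rw [h5]; linarith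

theorem sq_aux {n : ℕ} (hn : 16 ≤ n) : (9:ℝ) / 4 * n ^ 2 < 2 ^ (n - 1) := by
  induction n, hn using Nat.le_induction with
  | base => norm_num
  | succ n hn ih =>
    have e : n + 1 - 1 = (n - 1) + 1 := by omega
    rw [e, pow_succ (2:ℝ) (n - 1)]
    have : (16:ℝ) ≤ n := by exact_mod_cast hn
    push_cast
    have h1 : (9:ℝ) / 4 * ((n:ℝ) + 1) ^ 2 ≤ (9 / 4 * n ^ 2) * 2 := by nlinarith
    linarith

omit h2 in
include hn h1 in
/-- If `n A` is small then the cycle of period two is attracting. -/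
theorem mid_small {q s : ℝ} (h : Q n ρ q s) (hq0 : 0 < q) (hA : n * A n ρ ≤ 1 / 8) :
    (n * ρ) ^ 2 * (q * s) ^ (n - 1) < 1 := by
  have hnR : (16:ℝ) ≤ n := by exact_mod_cast hn
  have h3 : (q * s) ^ (n - 1) ≤ (ρ - 1) ^ (n - 1) := by
    apply pow_le_pow_left₀ (mul_pos hq0 h.spos).le
    have := h.hi
    have := h.slt
    have := h.spos
    nlinarith
  have e : (ρ - 1) ^ n = (ρ - 1) ^ (n - 1) * (ρ - 1) := by rw [← pow_succ]; congr 1; omega
  have hP0 : 0 < (ρ - 1) ^ (n - 1) := pow_pos (by linarith) _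
  have h4 : (n * ρ) ^ 2 * (q * s) ^ (n - 1) ≤ (n * ρ) ^ 2 * (ρ - 1) ^ (n - 1) :=
    mul_le_mul_of_nonneg_left h3 (by positivity)
  refine lt_of_le_of_lt h4 ?_
  rcases le_or_gt (3 / 2) ρ with h5 | h5
  · have h6 : (n * ρ) * ((n:ℝ) * ρ * (ρ - 1) ^ (n - 1) * (ρ - 1)) ≤ ρ * (1 / 8) := by
      unfold A at hA
      rw [e] at hA
      have : (n * ρ) * ((n:ℝ) * ρ * (ρ - 1) ^ (n - 1) * (ρ - 1)) =
        ρ * (n * (n * ρ * ((ρ - 1) ^ (n - 1) * (ρ - 1)))) := by ring
      rw [this]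
      exact mul_le_mul_of_nonneg_left hA (by linarith)
    have h7 : (n * ρ) ^ 2 * (ρ - 1) ^ (n - 1) * (ρ - 1) ≤ ρ * (1 / 8) := by
      calc (n * ρ) ^ 2 * (ρ - 1) ^ (n - 1) * (ρ - 1)
          = (n * ρ) * ((n:ℝ) * ρ * (ρ - 1) ^ (n - 1) * (ρ - 1)) := by ring
        _ ≤ _ := h6
    by_contra hc
    rw [not_lt] at hc
    have : 1 * (ρ - 1) ≤ (n * ρ) ^ 2 * (ρ - 1) ^ (n - 1) * (ρ - 1) :=
      mul_le_mul_of_nonneg_right hc (by linarith)
    linarith
  · have h6 : (ρ - 1) ^ (n - 1) ≤ (1 / 2) ^ (n - 1) :=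
      pow_le_pow_left₀ (by linarith) (by linarith) _
    have h7 := sq_aux hn
    have h8 : (1 / 2 : ℝ) ^ (n - 1) = 1 / 2 ^ (n - 1) := by rw [div_pow, one_pow]
    have h9 : ρ ^ 2 ≤ 9 / 4 := by nlinarith
    have h10 : (0:ℝ) < 2 ^ (n - 1) := by positivity
    calc ((n:ℝ) * ρ) ^ 2 * (ρ - 1) ^ (n - 1) = ρ ^ 2 * (n:ℝ) ^ 2 * (ρ - 1) ^ (n - 1) := by ring
      _ ≤ 9 / 4 * (n:ℝ) ^ 2 * (1 / 2 ^ (n - 1)) := by
          rw [← h8]
          gcongr
      _ = (9 / 4 * (n:ℝ) ^ 2) / 2 ^ (n - 1) := by ring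
      _ < 1 := by rw [div_lt_one h10]; exact h7

theorem three_fourth_aux {n : ℕ} (hn : 16 ≤ n) : (n:ℝ) ^ 2 * (3 / 4) ^ n < 5 := by
  induction n, hn using Nat.le_induction with
  | base => norm_num
  | succ n hn ih =>
    have h : (16:ℝ) ≤ n := by exact_mod_cast hn
    have h1 : (0:ℝ) < (3 / 4) ^ n := by positivity
    have h2 : ((n:ℝ) + 1) ^ 2 * (3 / 4) ≤ n ^ 2 := by nlinarith
    push_cast
    calc ((n:ℝ) + 1) ^ 2 * (3 / 4 : ℝ) ^ (n + 1) = (((n:ℝ) + 1) ^ 2 * (3 / 4)) * (3 / 4 : ℝ) ^ n := by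
          rw [pow_succ (3 / 4 : ℝ) n]; ring
      _ ≤ (n:ℝ) ^ 2 * (3 / 4 : ℝ) ^ n := mul_le_mul_of_nonneg_right h2 h1.le
      _ < 5 := ih

include hev hn h1 h2 ha in
/-- If `n A` is large then the cycle of period two is repelling. -/
theorem mid_large {q s : ℝ} (h : Q n ρ q s) (hA : 10 ≤ n * A n ρ) :
    1 < (n * ρ) ^ 2 * (q * s) ^ (n - 1) := by
  have hnR : (16:ℝ) ≤ n := by exact_mod_cast hn
  have hq := h.qpos (by omega) h1 ha
  have hs := h.spos
  have hρ1 : 3 / 4 < ρ - 1 := by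
    by_contra hc
    rw [not_lt] at hc
    have h3 : (ρ - 1) ^ n ≤ (3 / 4) ^ n := pow_le_pow_left₀ (by linarith) hc n
    have h4 := three_fourth_aux hn
    unfold A at hA
    have h5 : (n:ℝ) * (n * ρ * (ρ - 1) ^ n) ≤ 2 * (n ^ 2 * (3 / 4) ^ n) := by
      have h6 : 0 ≤ (ρ - 1) ^ n := pow_nonneg (by linarith) n
      calc (n:ℝ) * (n * ρ * (ρ - 1) ^ n) = ρ * (n ^ 2 * (ρ - 1) ^ n) := by ring
        _ ≤ 2 * (n ^ 2 * (3 / 4) ^ n) := by gcongr
    linarith
  by_contra hc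
  rw [not_lt] at hc
  -- the number `b`
  set b := (n:ℝ) ^ 2 * ρ * s ^ n with hb
  have hb0 : 0 < b := by positivity
  have hs1 : s < 1 := by linarith [h.slt]
  have hq1 := h.hi
  have e1 := h.e1
  have e2 := h.e2
  have esn : s ^ n = s ^ (n - 1) * s := by rw [← pow_succ]; congr 1; omega
  have eqn : q ^ n = q ^ (n - 1) * q := by rw [← pow_succ]; congr 1; omega
  have hb2 : 2 * b ≤ 1 := by
    have k1 : b * (1 + s) ≤ ((n * ρ) ^ 2 * (q * s) ^ (n - 1)) * s := by
      have k2 : ((n * ρ) ^ 2 * (q * s) ^ (n - 1)) * s = (n:ℝ) ^ 2 * ρ * s ^ n * (ρ * q ^ (n - 1)) := by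
        rw [esn, mul_pow q s]; ring
      rw [k2, ← hb]
      apply mul_le_mul_of_nonneg_left _ hb0.le
      rw [e1, eqn]
      have : 0 < ρ * q ^ (n - 1) := by positivity
      nlinarith
    have k3 : b * (1 + s) ≤ 1 * s := le_trans k1 (mul_le_mul_of_nonneg_right hc hs.le)
    nlinarith
  have hqb : q = 1 - b / n ^ 2 := by
    rw [hb]
    field_simp
    linarith
  have hqn : 1 - b / n ≤ q ^ n := by
    have h5 := one_add_mul_le_pow (a := -(b / n ^ 2)) (by
      have : b / n ^ 2 ≤ 1 := by rw [div_le_one (by positivity)]; nlinarith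
      linarith) n
    have h6 : (1:ℝ) + n * -(b / n ^ 2) = 1 - b / n := by field_simp; ring
    rw [h6] at h5
    have h7 : (1 + -(b / (n:ℝ) ^ 2)) = q := by rw [hqb]; ring
    rwa [h7] at h5
  have hsl : (ρ - 1) * (1 - (4 / 3) / n) ≤ s := by
    have k1 : ρ * (1 - b / n) ≤ 1 + s := by rw [e1]; exact mul_le_mul_of_nonneg_left hqn (by linarith)
    have k2 : ρ * (b / n) ≤ 1 / n := by
      rw [← mul_div_assoc]
      apply div_le_div_of_nonneg_right _ (by positivity)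
      nlinarith
    have k3 : 1 / n ≤ (ρ - 1) * ((4 / 3) / n) := by
      rw [← mul_div_assoc]
      apply div_le_div_of_nonneg_right _ (by positivity)
      linarith
    nlinarith
  have hsn : (ρ - 1) ^ n * (1 / 9) ≤ s ^ n := by
    have k0 : (4 / 3 : ℝ) / n ≤ 1 := by rw [div_le_one (by linarith)]; linarith
    have k1 : ((ρ - 1) * (1 - (4 / 3) / n)) ^ n ≤ s ^ n :=
      pow_le_pow_left₀ (mul_nonneg (by linarith) (by linarith)) hsl n
    rw [mul_pow] at k1
    obtain ⟨m, hm⟩ := hev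
    have hmR : (n:ℝ) = 2 * m := by rw [hm]; push_cast; ring
    have k2 := one_add_mul_le_pow (a := -((4 / 3 : ℝ) / n)) (by linarith) m
    have k3 : (1:ℝ) + m * -((4 / 3) / n) = 1 / 3 := by
      rw [hmR]
      have : (m:ℝ) ≠ 0 := by
        intro h0; rw [h0] at hmR; linarith
      field_simp; norm_num
    rw [k3] at k2
    have k4 : (1:ℝ) / 9 ≤ (1 - (4 / 3) / n) ^ n := by
      have e : (1 - (4 / 3 : ℝ) / n) ^ n = ((1 + -((4 / 3 : ℝ) / n)) ^ m) ^ 2 := by
        rw [← pow_mul, hm]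
        congr 1
        omega
      rw [e]
      nlinarith
    have k5 : 0 ≤ (ρ - 1) ^ n := pow_nonneg (by linarith) n
    nlinarith
  have hfin : 10 / 9 ≤ b := by
    rw [hb]
    unfold A at hA
    have : (n:ℝ) * (n * ρ * (ρ - 1) ^ n) * (1 / 9) ≤ (n:ℝ) ^ 2 * ρ * s ^ n := by
      calc (n:ℝ) * (n * ρ * (ρ - 1) ^ n) * (1 / 9) = (n:ℝ) ^ 2 * ρ * ((ρ - 1) ^ n * (1 / 9)) := by ring
        _ ≤ _ := mul_le_mul_of_nonneg_left hsn (by positivity)
    linarith
  linarith

end Mid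

/-! ### The real slice of the Multibrot set -/

/-- The exceptional nonnegative parameter: the cusp. -/
def ExcP (n : ℕ) (c : ℝ) : Prop := ∃ x : ℝ, 0 ≤ x ∧ n * x ^ (n - 1) = 1 ∧ c = x - x ^ n

theorem excP_unique {n : ℕ} (hn : 2 ≤ n) {c c' : ℝ} (h : ExcP n c) (h' : ExcP n c') : c = c' := by
  obtain ⟨x, hx, h1, h2⟩ := h
  obtain ⟨y, hy, h3, h4⟩ := h'
  have hnR : (0:ℝ) < n := by exact_mod_cast (by omega : 0 < n)
  have : x ^ (n - 1) = y ^ (n - 1) := by
    have : (n:ℝ) * x ^ (n - 1) = n * y ^ (n - 1) := by rw [h1, h3]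
    exact mul_left_cancel₀ hnR.ne' this
  have : x = y := (pow_left_inj₀ hx hy (by omega)).1 this
  rw [h2, h4, this]

theorem iter_real (n : ℕ) (c x : ℝ) (k : ℕ) :
    (fun z : ℂ => z ^ n + (c : ℂ))^[k] (x : ℂ) = (((fun y : ℝ => y ^ n + c)^[k] x : ℝ) : ℂ) := by
  induction k with
  | zero => simp
  | succ k ih =>
    rw [iterate_succ_apply', ih, iterate_succ_apply']
    push_cast
    rfl

theorem pos_case {n : ℕ} (hn : 2 ≤ n) {c : ℝ} (hc : 0 ≤ c)
    (hM : (c : ℂ) ∈ N62a1eb23.multibrotSet n) : c ∈ ExactR n 1 ∨ ExcP n c := by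
  have hnR : (0:ℝ) < n := by exact_mod_cast (by omega : 0 < n)
  set g : ℝ → ℝ := fun y => y ^ n + c with hg
  have hgc : Continuous g := by rw [hg]; fun_prop
  set u : ℕ → ℝ := fun k => g^[k] 0 with hu
  have hu0 : ∀ k, 0 ≤ u k := by
    intro k
    induction k with
    | zero => simp [hu]
    | succ k ih =>
      simp only [hu, iterate_succ_apply'] at ih ⊢
      have : 0 ≤ (g^[k] 0) ^ n := pow_nonneg ih n
      simp only [hg] at this ⊢
      linarith
  have hmono : Monotone u := by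
    apply monotone_nat_of_le_succ
    intro k
    induction k with
    | zero =>
      simp only [hu, iterate_zero, id, iterate_succ_apply']
      simp only [hg]
      have : (0:ℝ) ^ n = 0 := zero_pow (by omega)
      rw [this]; linarith
    | succ k ih =>
      have h1 : u (k + 1) = g (u k) := iterate_succ_apply' g k 0
      have h2 : u (k + 1 + 1) = g (u (k + 1)) := iterate_succ_apply' g (k + 1) 0
      rw [h1] at ih
      rw [h2, h1]
      have h3 : (u k) ^ n ≤ (g (u k)) ^ n := pow_le_pow_left₀ (hu0 k) ih n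
      simp only [hg] at h3 ⊢
      linarith
  rcases tendsto_atTop_of_monotone hmono with h | ⟨l, hl⟩
  · exfalso
    apply hM
    rw [← tendsto_norm_atTop_iff_cobounded]
    refine h.congr fun k => ?_
    have := iter_real n c 0 k
    rw [Complex.ofReal_zero] at this
    rw [this, Complex.norm_real, Real.norm_eq_abs, abs_of_nonneg (hu0 k)]
  · have hgl : g l = l := by
      have h1 : Tendsto (fun k => u (k + 1)) atTop (𝓝 l) := (tendsto_add_atTop_iff_nat 1).2 hl
      have h2 : Tendsto (fun k => u (k + 1)) atTop (𝓝 (g l)) := by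
        have : (fun k => u (k + 1)) = fun k => g (u k) := by
          funext k; exact iterate_succ_apply' g k 0
        rw [this]
        exact (hgc.tendsto l).comp hl
      exact tendsto_nhds_unique h2 h1
    have hul : ∀ k, u k ≤ l := fun k => hmono.ge_of_tendsto hl k
    have hl0 : 0 ≤ l := by have := hul 0; simpa [hu] using this
    have hder : HasDerivAt g (n * l ^ (n - 1)) l := (hasDerivAt_pow n l).add_const c
    have hle : n * l ^ (n - 1) ≤ 1 := by
      by_contra hc1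
      rw [not_le] at hc1
      have hlpos : 0 < l := by
        rcases hl0.lt_or_eq with h | h
        · exact h
        · exfalso
          rw [← h, zero_pow (by omega), mul_zero] at hc1
          linarith
      have hg0 : (0:ℝ) ≤ g 0 := by
        simp only [hg]
        have : (0:ℝ) ^ n = 0 := zero_pow (by omega)
        rw [this]; linarith
      obtain ⟨y, hy0, hyl, hy⟩ := exists_left hgc hlpos hg0 hgl hder hc1
      have : ∀ k, u k ≤ y := by
        intro k
        induction k with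
        | zero => simpa [hu] using hy0
        | succ k ih =>
          have h1 : u (k + 1) = g (u k) := iterate_succ_apply' g k 0
          rw [h1, ← hy]
          have := pow_le_pow_left₀ (hu0 k) ih n
          simp only [hg]
          linarith
      have := le_of_tendsto' hl this
      linarith
    rcases hle.lt_or_eq with h | h
    · left
      have hfix : (fun z : ℂ => z ^ n + (c : ℂ)) (l : ℂ) = (l : ℂ) := by
        have h5 : l ^ n + c = l := hgl
        show (l : ℂ) ^ n + (c : ℂ) = (l : ℂ)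
        rw [← Complex.ofReal_pow, ← Complex.ofReal_add, h5]
      have hd := hasDerivAt_iter n (c : ℂ) 1 (l : ℂ)
      refine ⟨(l : ℂ), ⟨one_pos, ?_, hd.differentiableAt, ?_⟩,
        minimalPeriod_eq_one_iff_isFixedPt.2 hfix⟩
      · show (fun z : ℂ => z ^ n + (c : ℂ))^[1] (l : ℂ) = l
        simpa only [iterate_one] using hfix
      · rw [hd.deriv]
        simp only [Finset.prod_range_one, iterate_zero, id]
        rw [norm_mul, norm_pow, Complex.norm_natCast, Complex.norm_real, Real.norm_eq_abs,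
          abs_of_nonneg hl0]
        exact h
    · right
      refine ⟨l, hl0, h, ?_⟩
      have : l ^ n + c = l := hgl
      linarith

/-- Negative real parameters of the Multibrot set. -/
theorem neg_case {n : ℕ} (hev : Even n) (hn : 2 ≤ n) {r : ℝ} (hr : 0 < r)
    (hM : ((-r : ℝ) : ℂ) ∈ N62a1eb23.multibrotSet n) : r ^ (n - 1) ≤ 2 := by
  by_contra hc
  rw [not_le] at hc
  set ρ := r ^ (n - 1) with hρ
  apply hM
  have key : ∀ k : ℕ, 1 + k * (ρ - 2) ≤ |(T n ρ)^[k] 1| := by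
    intro k
    induction k with
    | zero => simp
    | succ k ih =>
      rw [iterate_succ_apply']
      set y := (T n ρ)^[k] 1 with hy
      have hk : (0:ℝ) ≤ k * (ρ - 2) := mul_nonneg (Nat.cast_nonneg k) (by linarith)
      have hy1 : 1 ≤ |y| := by linarith
      have h1 : |y| ≤ y ^ n := by
        rw [← hev.pow_abs]
        exact le_self_pow₀ hy1 (by omega)
      have h2 : ρ * y ^ n - 1 ≤ |T n ρ y| := by
        unfold T
        rw [← abs_neg]
        refine le_trans (le_of_eq ?_) (le_abs_self _)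
        ring
      push_cast
      have h3 : ρ * |y| ≤ ρ * y ^ n := mul_le_mul_of_nonneg_left h1 (by linarith)
      nlinarith
  rw [← tendsto_norm_atTop_iff_cobounded, ← tendsto_add_atTop_iff_nat 1]
  have h1 : ∀ k, ‖(fun z : ℂ => z ^ n + ((-r : ℝ) : ℂ))^[k + 1] 0‖ = r * |(T n ρ)^[k] 1| := by
    intro k
    rw [iterate_succ_apply]
    have h2 : ((0:ℂ) ^ n + ((-r : ℝ) : ℂ)) = ((-(r * 1) : ℝ) : ℂ) := by
      rw [zero_pow (by omega : n ≠ 0), zero_add, mul_one]
    rw [h2, iter_conj hev hn, Complex.norm_real, Real.norm_eq_abs, abs_neg, abs_mul, abs_of_pos hr]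
  simp only [h1]
  have h2 : Tendsto (fun k : ℕ => r * (1 + k * (ρ - 2))) atTop atTop := by
    apply Tendsto.const_mul_atTop hr
    apply tendsto_atTop_add_const_left
    exact Tendsto.atTop_mul_const (by linarith) tendsto_natCast_atTop_atTop
  exact tendsto_atTop_mono (fun k => mul_le_mul_of_nonneg_left (key k) hr.le) h2

end Pool.Agent.H205.RP
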