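import Pool.Agent.H205.RP3

/-! Closing lemmas: attracting cycles of period three, four and five. -/

set_option autoImplicit false
open Filter Topology Set Function

namespace Pool.Agent.H205.RP

theorem abs_pow_sub_pow_le' {x y : ℝ} (hx : |x| ≤ 1) (hy : |y| ≤ 1) (n : ℕ) :
    |x ^ n - y ^ n| ≤ n * |x - y| := by
  have h := (Commute.all x y).geom_sum₂_mul n
  rw [← h, abs_mul]
  apply mul_le_mul_of_nonneg_right _ (abs_nonneg _)
  calc |∑ i ∈ Finset.range n, x ^ i * y ^ (n - 1 - i)|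
      ≤ ∑ i ∈ Finset.range n, |x ^ i * y ^ (n - 1 - i)| := Finset.abs_sum_le_sum_abs _ _
    _ ≤ ∑ i ∈ Finset.range n, (1:ℝ) := by
        apply Finset.sum_le_sum
        intro i _
        rw [abs_mul, abs_pow, abs_pow]
        exact mul_le_one₀ (pow_le_one₀ (abs_nonneg _) hx) (by positivity)
          (pow_le_one₀ (abs_nonneg _) hy)
    _ = n := by simp

section

variable {n : ℕ} {ρ : ℝ} (hev : Even n) (hρ0 : 0 ≤ ρ) (hρ2 : ρ ≤ 2)

include hev hρ0 hρ2 in
theorem T_abs {x : ℝ} (hx : |x| ≤ 1) : |T n ρ x| ≤ 1 := by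
  unfold T
  have h0 : 0 ≤ x ^ n := hev.pow_nonneg x
  have h1 : x ^ n ≤ 1 := by rw [← hev.pow_abs]; exact pow_le_one₀ (abs_nonneg _) hx
  rw [abs_le]
  constructor <;> nlinarith

include hev hρ0 hρ2 in
theorem iter_abs {x : ℝ} (hx : |x| ≤ 1) (j : ℕ) : |(T n ρ)^[j] x| ≤ 1 := by
  induction j with
  | zero => simpa using hx
  | succ j ih => rw [iterate_succ_apply']; exact T_abs hev hρ0 hρ2 ih

include hev hρ0 hρ2 in
theorem track {x y : ℝ} (hx : |x| ≤ 1) (hy : |y| ≤ 1) (j : ℕ) :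
    |(T n ρ)^[j] x - (T n ρ)^[j] y| ≤ (2 * n) ^ j * |x - y| := by
  induction j with
  | zero => simp
  | succ j ih =>
    rw [iterate_succ_apply', iterate_succ_apply']
    have h1 := abs_pow_sub_pow_le' (iter_abs hev hρ0 hρ2 hx j) (iter_abs hev hρ0 hρ2 hy j) n
    have h2 : |T n ρ ((T n ρ)^[j] x) - T n ρ ((T n ρ)^[j] y)| =
        ρ * |((T n ρ)^[j] x) ^ n - ((T n ρ)^[j] y) ^ n| := by
      unfold T
      rw [← abs_of_nonneg hρ0, ← abs_mul, abs_of_nonneg hρ0, ← abs_neg]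
      congr 1; ring
    rw [h2]
    calc ρ * |((T n ρ)^[j] x) ^ n - ((T n ρ)^[j] y) ^ n|
        ≤ 2 * (n * |(T n ρ)^[j] x - (T n ρ)^[j] y|) := by
          apply mul_le_mul hρ2 h1 (abs_nonneg _) (by norm_num)
      _ ≤ 2 * (n * ((2 * n) ^ j * |x - y|)) := by gcongr
      _ = (2 * n) ^ (j + 1) * |x - y| := by rw [pow_succ]; ring

include hev hρ0 hρ2 in
/-- **Closing lemma.** -/
theorem closing (hn : 1 ≤ n) {k : ℕ} (hk1 : 1 ≤ k) (hk : k ≤ 5) {h : ℝ} (h0 : 0 < h) (h1 : h ≤ 1)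
    (hx : |(T n ρ)^[k - 1] 1| ≤ 1 - h)
    (hB : 2 * (1 - h / 2) ^ n ≤ h / (2 * (2 * n) ^ 4))
    (hC : (2 * (n:ℝ)) ^ 5 * (1 - h / 2) ^ (n - 1) < 1) :
    ∃ x, 1 - h / (2 * (2 * n) ^ 4) ≤ x ∧ x ≤ 1 ∧ (T n ρ)^[k] x = x ∧ mu n ρ k x < 1 ∧
      ∀ j, |(T n ρ)^[j] x - (T n ρ)^[j] 1| ≤ (2 * n) ^ j * (h / (2 * (2 * n) ^ 4)) := by
  have hnR : (1:ℝ) ≤ n := by exact_mod_cast hn
  set δ := h / (2 * (2 * (n:ℝ)) ^ 4) with hδ
  have hδ0 : 0 < δ := by positivity
  have h2n : (1:ℝ) ≤ 2 * n := by linarith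
  have hδ1 : δ ≤ 1 := by
    rw [hδ, div_le_one (by positivity)]
    have : (1:ℝ) ≤ (2 * n) ^ 4 := one_le_pow₀ h2n
    linarith
  have hI : ∀ x ∈ Icc (1 - δ) 1, |x| ≤ 1 := by
    intro x hx
    rw [abs_le]; constructor <;> linarith [hx.1, hx.2]
  have htr : ∀ x ∈ Icc (1 - δ) 1, ∀ j, |(T n ρ)^[j] x - (T n ρ)^[j] 1| ≤ (2 * n) ^ j * δ := by
    intro x hx j
    refine le_trans (track hev hρ0 hρ2 (hI x hx) (by simp) j) ?_
    apply mul_le_mul_of_nonneg_left _ (by positivity)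
    rw [abs_sub_comm, abs_of_nonneg (by linarith [hx.2])]
    linarith [hx.1]
  have hlast : ∀ x ∈ Icc (1 - δ) 1, |(T n ρ)^[k - 1] x| ≤ 1 - h / 2 := by
    intro x hx'
    have h2 := htr x hx' (k - 1)
    have h3 : (2 * (n:ℝ)) ^ (k - 1) * δ ≤ h / 2 := by
      have : (2 * (n:ℝ)) ^ (k - 1) ≤ (2 * n) ^ 4 := pow_le_pow_right₀ h2n (by omega)
      calc (2 * (n:ℝ)) ^ (k - 1) * δ ≤ (2 * n) ^ 4 * δ := mul_le_mul_of_nonneg_right this hδ0.le
        _ = h / 2 := by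
            rw [hδ]; field_simp
    have h4 := abs_sub_abs_le_abs_sub ((T n ρ)^[k - 1] x) ((T n ρ)^[k - 1] 1)
    linarith
  have hke : k = (k - 1) + 1 := by omega
  have hmaps : MapsTo ((T n ρ)^[k]) (Icc (1 - δ) 1) (Icc (1 - δ) 1) := by
    intro x hx'
    have h2 := hlast x hx'
    rw [hke, iterate_succ_apply']
    set y := (T n ρ)^[k - 1] x
    have h3 : y ^ n ≤ (1 - h / 2) ^ n := by
      rw [← hev.pow_abs]; exact pow_le_pow_left₀ (abs_nonneg _) h2 n
    have h4 : 0 ≤ y ^ n := hev.pow_nonneg y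
    unfold T
    constructor
    · have : ρ * y ^ n ≤ 2 * (1 - h / 2) ^ n := mul_le_mul hρ2 h3 h4 (by norm_num)
      linarith
    · nlinarith
  obtain ⟨x, hxI, hfix⟩ := exists_mem_Icc_isFixedPt_of_mapsTo (continuous_Tk n ρ k).continuousOn
    (by linarith) hmaps
  refine ⟨x, hxI.1, hxI.2, hfix, ?_, htr x hxI⟩
  unfold mu
  rw [hke, Finset.prod_range_succ]
  have h2 : ∏ j ∈ Finset.range (k - 1), ((n:ℝ) * ρ * |(T n ρ)^[j] x| ^ (n - 1)) ≤
      (2 * n) ^ (k - 1) := by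
    calc ∏ j ∈ Finset.range (k - 1), ((n:ℝ) * ρ * |(T n ρ)^[j] x| ^ (n - 1))
        ≤ ∏ _j ∈ Finset.range (k - 1), (2 * (n:ℝ)) := by
          apply Finset.prod_le_prod
          · intro j _; positivity
          · intro j _
            have h3 := iter_abs hev hρ0 hρ2 (hI x hxI) j
            have h4 : |(T n ρ)^[j] x| ^ (n - 1) ≤ 1 := pow_le_one₀ (abs_nonneg _) h3
            calc (n:ℝ) * ρ * |(T n ρ)^[j] x| ^ (n - 1) ≤ (n:ℝ) * 2 * 1 := by gcongr
              _ = 2 * n := by ring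
      _ = (2 * n) ^ (k - 1) := by simp
  have h3 : (n:ℝ) * ρ * |(T n ρ)^[k - 1] x| ^ (n - 1) ≤ 2 * n * (1 - h / 2) ^ (n - 1) := by
    have h4 : |(T n ρ)^[k - 1] x| ^ (n - 1) ≤ (1 - h / 2) ^ (n - 1) :=
      pow_le_pow_left₀ (abs_nonneg _) (hlast x hxI) _
    calc (n:ℝ) * ρ * |(T n ρ)^[k - 1] x| ^ (n - 1) ≤ n * 2 * (1 - h / 2) ^ (n - 1) := by gcongr
      _ = _ := by ring
  have hq : (0:ℝ) ≤ (1 - h / 2) ^ (n - 1) := pow_nonneg (by linarith) _
  refine lt_of_le_of_lt (mul_le_mul h2 h3 (by positivity) (by positivity)) ?_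
  refine lt_of_le_of_lt ?_ hC
  have h5 : (2 * (n:ℝ)) ^ (k - 1) * (2 * n) ≤ (2 * n) ^ 5 := by
    rw [← pow_succ]; exact pow_le_pow_right₀ h2n (by omega)
  calc (2 * (n:ℝ)) ^ (k - 1) * (2 * n * (1 - h / 2) ^ (n - 1))
      = ((2 * (n:ℝ)) ^ (k - 1) * (2 * n)) * (1 - h / 2) ^ (n - 1) := by ring
    _ ≤ (2 * n) ^ 5 * (1 - h / 2) ^ (n - 1) := mul_le_mul_of_nonneg_right h5 hq

end

/-- What we use about large `n`. -/
structure Big (n : ℕ) : Prop where
  ev : Even n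
  h16 : 16 ≤ n
  L : 1000 ≤ Real.log n
  LL : 100 * Real.log n ^ 2 ≤ n
  ll : 3 ≤ Real.log (Real.log n)
  lll : 100 * (Real.log (Real.log n) + 10) ≤ Real.log n

theorem big_eventually : ∀ᶠ n : ℕ in atTop, Even n → Big n := by
  have h1 : Tendsto (fun n : ℕ => Real.log n) atTop atTop :=
    Real.tendsto_log_atTop.comp tendsto_natCast_atTop_atTop
  have h2 : Tendsto (fun n : ℕ => Real.log (Real.log n)) atTop atTop :=
    Real.tendsto_log_atTop.comp h1
  have h3 : ∀ᶠ x : ℝ in atTop, 100 * Real.log x ^ 2 ≤ x := by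
    have := (isLittleO_log_rpow_atTop (by norm_num : (0:ℝ) < 1/2)).bound
      (by norm_num : (0:ℝ) < 1 / 10)
    filter_upwards [this, eventually_ge_atTop (1:ℝ)] with x hx hx1
    rw [Real.norm_eq_abs, Real.norm_eq_abs] at hx
    have h4 : |Real.log x| ^ 2 ≤ (1 / 10 * |x ^ (1/2 : ℝ)|) ^ 2 := pow_le_pow_left₀ (abs_nonneg _) hx 2
    rw [sq_abs, mul_pow, sq_abs] at h4
    have h5 : (x ^ (1/2 : ℝ)) ^ 2 = x := by
      rw [← Real.sqrt_eq_rpow, Real.sq_sqrt (by linarith)]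
    rw [h5] at h4
    linarith
  have h4 : ∀ᶠ x : ℝ in atTop, 100 * (Real.log x + 10) ≤ x := by
    have := Real.isLittleO_log_id_atTop.bound (by norm_num : (0:ℝ) < 1 / 200)
    filter_upwards [this, eventually_ge_atTop (2000:ℝ)] with x hx hx1
    rw [Real.norm_eq_abs, Real.norm_eq_abs, id, abs_of_nonneg (by linarith : (0:ℝ) ≤ x)] at hx
    have := le_abs_self (Real.log x)
    linarith
  filter_upwards [h1.eventually_ge_atTop 1000, h2.eventually_ge_atTop 3, eventually_ge_atTop 16,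
    tendsto_natCast_atTop_atTop.eventually h3, h1.eventually h4] with n a1 a2 a3 a4 a5 hev
  exact ⟨hev, a3, a1, a4, a2, a5⟩

section

variable {n : ℕ} (B : Big n)

include B

theorem Big.nR : (16:ℝ) ≤ n := by exact_mod_cast B.h16

theorem Big.expL : Real.exp (Real.log n) = n := Real.exp_log (by have := B.nR; linarith)

theorem Big.expl : Real.exp (Real.log (Real.log n)) = Real.log n :=
  Real.exp_log (by have := B.L; linarith)

theorem Big.nL : 1000 * Real.log n ≤ n := by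
  have h1 := B.LL
  have h2 := B.L
  nlinarith

theorem Big.close : 0 < 16 * Real.log n / n ∧ 16 * Real.log n / n ≤ 1 ∧
    2 * (1 - (16 * Real.log n / n) / 2) ^ n ≤ (16 * Real.log n / n) / (2 * (2 * n) ^ 4) ∧
    (2 * (n:ℝ)) ^ 5 * (1 - (16 * Real.log n / n) / 2) ^ (n - 1) < 1 := by
  have hn := B.nR
  have hL := B.L
  have hnL := B.nL
  have hn0 : (0:ℝ) < n := by linarith
  set L := Real.log n with hLd
  have h1 : 0 < 16 * L / n := by positivity
  have h2 : 16 * L / n ≤ 1 := by rw [div_le_one hn0]; linarith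
  have h3 : (1 - (16 * L / n) / 2) ≤ Real.exp (-(8 * L / n)) := by
    have := Real.add_one_le_exp (-(8 * L / n))
    have e : (16 * L / n) / 2 = 8 * L / n := by ring
    rw [e]; linarith
  have h0 : 0 ≤ (1 - (16 * L / n) / 2) := by linarith
  have e8 : Real.exp (-(8 * L)) = 1 / (n:ℝ) ^ 8 := by
    rw [Real.exp_neg]
    have : Real.exp (8 * L) = (n:ℝ) ^ 8 := by
      have h := Real.exp_nat_mul L 8
      push_cast at h
      rw [h, hLd, B.expL]
    rw [this, one_div]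
  have h4 : (1 - (16 * L / n) / 2) ^ n ≤ 1 / (n:ℝ) ^ 8 := by
    calc (1 - (16 * L / n) / 2) ^ n ≤ (Real.exp (-(8 * L / n))) ^ n := pow_le_pow_left₀ h0 h3 n
      _ = Real.exp (-(8 * L)) := by
          rw [← Real.exp_nat_mul]; congr 1; field_simp
      _ = _ := e8
  have h5 : (1 - (16 * L / n) / 2) ^ (n - 1) ≤ 3 / (n:ℝ) ^ 8 := by
    calc (1 - (16 * L / n) / 2) ^ (n - 1) ≤ (Real.exp (-(8 * L / n))) ^ (n - 1) :=
          pow_le_pow_left₀ h0 h3 _
      _ = Real.exp (-(8 * L)) * Real.exp (8 * L / n) := by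
          rw [← Real.exp_nat_mul, ← Real.exp_add]
          congr 1
          have : ((n - 1 : ℕ) : ℝ) = n - 1 := by
            rw [Nat.cast_sub (by have := B.h16; omega)]; simp
          rw [this]; field_simp; ring
      _ ≤ 1 / (n:ℝ) ^ 8 * 3 := by
          rw [e8]
          apply mul_le_mul_of_nonneg_left _ (by positivity)
          have : Real.exp (8 * L / n) ≤ Real.exp 1 := Real.exp_le_exp.2 (by
            rw [div_le_one hn0]; linarith)
          have := Real.exp_one_lt_d9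
          linarith
      _ = _ := by ring
  refine ⟨h1, h2, ?_, ?_⟩
  · calc 2 * (1 - (16 * L / n) / 2) ^ n ≤ 2 * (1 / (n:ℝ) ^ 8) := by linarith
      _ ≤ (16 * L / n) / (2 * (2 * n) ^ 4) := by
          have e : (16 * L / n) / (2 * (2 * n) ^ 4) = (L / 2 * n ^ 3) * (1 / (n:ℝ) ^ 8) := by
            field_simp; ring
          rw [e]
          apply mul_le_mul_of_nonneg_right _ (by positivity)
          have : (1:ℝ) ≤ n ^ 3 := one_le_pow₀ (by linarith)
          nlinarith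
  · calc (2 * (n:ℝ)) ^ 5 * (1 - (16 * L / n) / 2) ^ (n - 1) ≤ (2 * (n:ℝ)) ^ 5 * (3 / (n:ℝ) ^ 8) := by
          gcongr
      _ = 96 / (n:ℝ) ^ 3 := by field_simp; norm_num
      _ < 1 := by
          rw [div_lt_one (by positivity)]
          calc (96:ℝ) < 16 ^ 3 := by norm_num
            _ ≤ (n:ℝ) ^ 3 := by gcongr

theorem three_halves {ρ : ℝ} (h1 : 1 < ρ) (hA : 1 / 4 ≤ A n ρ) : 3 / 2 < ρ := by
  by_contra hc
  rw [not_lt] at hc
  have hn := B.nR
  have h3 : (ρ - 1) ^ n ≤ (3 / 4) ^ n := pow_le_pow_left₀ (by linarith) (by linarith) n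
  have h4 := three_fourth_aux B.h16
  have h5 : (ρ - 1) ^ n ≤ (1 / 2) ^ n := pow_le_pow_left₀ (by linarith) (by linarith) n
  have h6 := pow_two_aux (n := n) (by have := B.h16; omega)
  have h7 : (2:ℝ) ^ n = 2 ^ (n - 1) * 2 := by
    rw [← pow_succ]; congr 1; have := B.h16; omega
  have h8 := sq_aux B.h16
  have h9 : (1 / 2 : ℝ) ^ n = 1 / 2 ^ n := by rw [div_pow, one_pow]
  rw [h9, h7] at h5
  have h10 : (0:ℝ) < 2 ^ (n - 1) := by positivity
  unfold A at hA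
  have h11 : (n:ℝ) * ρ * (ρ - 1) ^ n ≤ n * (3 / 2) * (1 / (2 ^ (n - 1) * 2)) := by
    have : 0 ≤ (ρ - 1) ^ n := pow_nonneg (by linarith) n
    gcongr
  have h12 : n * (3 / 2) * (1 / ((2:ℝ) ^ (n - 1) * 2)) < 1 / 4 := by
    have e : (n:ℝ) * (3 / 2) * (1 / ((2:ℝ) ^ (n - 1) * 2)) = (3 * n / 4) / 2 ^ (n - 1) := by
      field_simp; ring
    rw [e, div_lt_iff₀ h10]
    nlinarith
  linarith

omit B in
/-- `exp (- s - s ^ 2) ≤ 1 - s`. -/
theorem one_sub_ge {s : ℝ} (h0 : 0 ≤ s) (h1 : s ≤ 1 / 2) : Real.exp (-s - s ^ 2) ≤ 1 - s := by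
  have h2 := Real.quadratic_le_exp_of_nonneg (by positivity : 0 ≤ s + s ^ 2)
  have h3 : -s - s ^ 2 = -(s + s ^ 2) := by ring
  rw [h3, Real.exp_neg, inv_le_comm₀ (Real.exp_pos _) (by linarith)]
  refine le_trans ?_ h2
  rw [inv_le_iff_one_le_mul₀ (by linarith)]
  have h4 : 0 ≤ 1 - s - s ^ 2 - s ^ 3 := by nlinarith [sq_nonneg s, mul_nonneg h0 h0]
  nlinarith [mul_nonneg (sq_nonneg s) h4]

omit B in
theorem pow_upper {n : ℕ} (hn : 0 < n) {t : ℝ} (ht : t ≤ n) :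
    (1 - t / n) ^ n ≤ Real.exp (-t) := by
  have hn0 : (0:ℝ) < n := by exact_mod_cast hn
  have h0 : 0 ≤ 1 - t / n := by
    have : t / n ≤ 1 := by rw [div_le_one hn0]; exact ht
    linarith
  have h1 : 1 - t / n ≤ Real.exp (-(t / n)) := by
    have := Real.add_one_le_exp (-(t / n)); linarith
  calc (1 - t / n) ^ n ≤ (Real.exp (-(t / n))) ^ n := pow_le_pow_left₀ h0 h1 n
    _ = Real.exp (-t) := by rw [← Real.exp_nat_mul]; congr 1; field_simp

omit B in
theorem pow_lower {n : ℕ} (hn : 0 < n) {t : ℝ} (ht0 : 0 ≤ t) (ht : t ≤ n / 2) :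
    Real.exp (-t) * (1 - t ^ 2 / n) ≤ (1 - t / n) ^ n := by
  have hn0 : (0:ℝ) < n := by exact_mod_cast hn
  have h1 := one_sub_ge (s := t / n) (by positivity) (by
    rw [div_le_iff₀ hn0]; linarith)
  calc Real.exp (-t) * (1 - t ^ 2 / n) ≤ Real.exp (-t) * Real.exp (-(t ^ 2 / n)) := by
        apply mul_le_mul_of_nonneg_left _ (Real.exp_pos _).le
        have := Real.add_one_le_exp (-(t ^ 2 / n)); linarith
    _ = (Real.exp (-(t / n) - (t / n) ^ 2)) ^ n := by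
        rw [← Real.exp_nat_mul, ← Real.exp_add]
        congr 1
        field_simp
        ring
    _ ≤ (1 - t / n) ^ n := pow_le_pow_left₀ (Real.exp_pos _).le h1 n

omit B in
theorem exp3 : 20 ≤ Real.exp 3 := by
  have h := Real.exp_one_gt_d9
  have e : Real.exp 3 = Real.exp 1 ^ 3 := by
    rw [← Real.exp_nat_mul]; norm_num
  rw [e]
  have : (2.7182:ℝ) ^ 3 ≤ Real.exp 1 ^ 3 := by
    apply pow_le_pow_left₀ (by norm_num); linarith
  refine le_trans (by norm_num) this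

/-- The window of the closing lemma. -/
theorem window {t ρ : ℝ} (hρ : 3 / 2 ≤ ρ) (ht0 : 0 ≤ t)
    (ht : t ≤ Real.log n - Real.log (Real.log n) - 3) :
    16 * Real.log n / n ≤ ρ * (1 - t / n) ^ n := by
  have hn := B.nR
  have hL := B.L
  have hLL := B.LL
  have hll := B.ll
  have hn0 : (0:ℝ) < n := by linarith
  set L := Real.log n with hLd
  have htL : t ≤ L := by linarith
  have h1 := pow_lower (n := n) (by have := B.h16; omega) ht0 (by
    have := B.nL; linarith)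
  have h2 : t ^ 2 / n ≤ 1 / 100 := by
    rw [div_le_iff₀ hn0]
    have : t ^ 2 ≤ L ^ 2 := pow_le_pow_left₀ ht0 htL 2
    linarith
  have h3 : 20 * (L / n) ≤ Real.exp (-t) := by
    have h4 : Real.exp (-(L - Real.log L - 3)) ≤ Real.exp (-t) := Real.exp_le_exp.2 (by linarith)
    have h5 : Real.exp (-(L - Real.log L - 3)) = Real.exp 3 * (L / n) := by
      have : -(L - Real.log L - 3) = 3 + (Real.log L - L) := by ring
      rw [this, Real.exp_add, Real.exp_sub, B.expl, B.expL]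
    rw [h5] at h4
    have h6 : 0 ≤ L / n := by positivity
    have := exp3
    nlinarith
  have h6 : 0 < L / n := by positivity
  have h7 : 19 * (L / n) ≤ (1 - t / n) ^ n := by
    have h8 : Real.exp (-t) * (99 / 100) ≤ Real.exp (-t) * (1 - t ^ 2 / n) :=
      mul_le_mul_of_nonneg_left (by linarith) (Real.exp_pos _).le
    nlinarith
  have h8 : (3 / 2) * (19 * (L / n)) ≤ ρ * (1 - t / n) ^ n :=
    mul_le_mul hρ h7 (by positivity) (by linarith)
  have h9 : 16 * L / n = 16 * (L / n) := by ring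
  rw [h9]; linarith

end

end Pool.Agent.H205.RP
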