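import Pool.Agent.H205.RP4

/-! Periods three, four and five. -/

set_option autoImplicit false
open Filter Topology Set Function

namespace Pool.Agent.H205.RP

theorem iter0 (n : ℕ) (ρ : ℝ) : (T n ρ)^[1] 1 = 1 - ρ := by
  simp [T]

theorem iter2 {n : ℕ} (hev : Even n) (hn : 0 < n) (ρ : ℝ) : (T n ρ)^[2] 1 = 1 - A n ρ / n := by
  have hn0 : (n:ℝ) ≠ 0 := by exact_mod_cast hn.ne'
  rw [TT_eq hev]
  simp only [one_pow, mul_one]
  unfold A
  field_simp

theorem iter3 {n : ℕ} (hev : Even n) (hn : 0 < n) (ρ : ℝ) :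
    (T n ρ)^[3] 1 = 1 - ρ * (1 - A n ρ / n) ^ n := by
  rw [iterate_succ_apply', iter2 hev hn]
  rfl

/-- `n (1 - x₄)` -/
noncomputable def A4 (n : ℕ) (ρ : ℝ) : ℝ := n * ρ * (1 - A n ρ / n) ^ n

theorem iter4 {n : ℕ} (hev : Even n) (hn : 0 < n) (ρ : ℝ) :
    (T n ρ)^[4] 1 = 1 - ρ * (1 - A4 n ρ / n) ^ n := by
  have hn0 : (n:ℝ) ≠ 0 := by exact_mod_cast hn.ne'
  rw [iterate_succ_apply', iter3 hev hn]
  unfold T
  congr 3
  unfold A4
  field_simp

section

variable {n : ℕ} (B : Big n) {ρ : ℝ} (h1 : 1 < ρ) (h2 : ρ ≤ 2)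

include B h1 h2

theorem prime_case {k : ℕ} (hk : k.Prime) (hk2 : 2 < k) (hk5 : k ≤ 5) (hρ : 3 / 2 < ρ)
    (hx : |(T n ρ)^[k - 1] 1| ≤ 1 - 16 * Real.log n / n) :
    ∃ x, minimalPeriod (T n ρ) x = k ∧ mu n ρ k x < 1 := by
  have hn := B.nR
  have hL := B.L
  have hnL := B.nL
  have hn0 : (0:ℝ) < n := by linarith
  obtain ⟨c1, c2, c3, c4⟩ := B.close
  obtain ⟨x, hx1, hx2, hx3, hx4, hx5⟩ := closing B.ev (by linarith) h2
    (by have := B.h16; omega) (by omega : 1 ≤ k) hk5 c1 c2 hx c3 c4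
  refine ⟨x, ?_, hx4⟩
  have : Fact k.Prime := ⟨hk⟩
  refine minimalPeriod_eq_prime hx3 ?_
  intro hf
  have hf' : T n ρ x = x := hf
  have h5 := hx5 1
  rw [iter0] at h5
  simp only [iterate_one] at h5
  rw [hf', pow_one] at h5
  have h6 := abs_le.1 h5
  have e : 2 * (n:ℝ) * (16 * Real.log n / n / (2 * (2 * n) ^ 4)) = Real.log n / n ^ 4 := by
    field_simp; norm_num
  have e' : 16 * Real.log n / n / (2 * (2 * n) ^ 4) = Real.log n / (2 * n ^ 5) := by
    field_simp; norm_num
  rw [e] at h6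
  rw [e'] at hx1
  have h7 : Real.log n / (n:ℝ) ^ 4 ≤ 1 / 10 := by
    rw [div_le_iff₀ (by positivity)]
    have : (n:ℝ) ≤ n ^ 4 := le_self_pow₀ (by linarith) (by norm_num)
    linarith
  have h8 : Real.log n / (2 * (n:ℝ) ^ 5) ≤ 1 / 10 := by
    rw [div_le_iff₀ (by positivity)]
    have : (n:ℝ) ≤ n ^ 5 := le_self_pow₀ (by linarith) (by norm_num)
    linarith
  linarith [h6.2]

/-- Period four. -/
theorem period4 (hA : 1 / 4 ≤ A n ρ) (hA' : A n ρ ≤ Real.log n - Real.log (Real.log n) - 3) :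
    ∃ x, minimalPeriod (T n ρ) x = 4 ∧ mu n ρ 4 x < 1 := by
  have hn := B.nR
  have hL := B.L
  have hLL := B.LL
  have hll := B.ll
  have hnL := B.nL
  have hn0 : (0:ℝ) < n := by linarith
  have hρ := three_halves B h1 hA
  have hnn : 0 < n := by have := B.h16; omega
  obtain ⟨c1, c2, c3, c4⟩ := B.close
  have hx : |(T n ρ)^[4 - 1] 1| ≤ 1 - 16 * Real.log n / n := by
    show |(T n ρ)^[3] 1| ≤ _
    rw [iter3 B.ev hnn, abs_le]
    have w := window B hρ.le (by linarith) hA'
    have u := pow_upper hnn (t := A n ρ) (by linarith)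
    have u2 : Real.exp (-A n ρ) ≤ 7 / 8 := by
      have h3 : Real.exp (-A n ρ) ≤ Real.exp (-(1 / 4)) := Real.exp_le_exp.2 (by linarith)
      have h4 : Real.exp (-(1 / 4)) ≤ 7 / 8 := by
        rw [Real.exp_neg, inv_le_comm₀ (Real.exp_pos _) (by norm_num)]
        have := Real.add_one_le_exp (1 / 4 : ℝ)
        linarith
      linarith
    have u3 : 16 * Real.log n / n ≤ 1 / 10 := by
      rw [div_le_iff₀ hn0]; linarith
    have u4 : 0 ≤ (1 - A n ρ / n) ^ n := B.ev.pow_nonneg _
    constructor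
    · nlinarith
    · linarith
  obtain ⟨x, hx1, hx2, hx3, hx4, hx5⟩ := closing B.ev (by linarith) h2
    (by have := B.h16; omega) (by norm_num : 1 ≤ 4) (by norm_num) c1 c2 hx c3 c4
  refine ⟨x, ?_, hx4⟩
  have : Fact (Nat.Prime 2) := ⟨Nat.prime_two⟩
  have h3 : minimalPeriod (T n ρ) x = 2 ^ (1 + 1) := by
    refine minimalPeriod_eq_prime_pow ?_ hx3
    intro hf
    have hf' : (T n ρ)^[2] x = x := hf
    have h5 := hx5 2
    rw [iter2 B.ev hnn, hf'] at h5
    have h6 := abs_le.1 h5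
    have e' : 16 * Real.log n / n / (2 * (2 * n) ^ 4) = Real.log n / (2 * n ^ 5) := by
      field_simp; norm_num
    rw [e'] at h6 hx1
    have e2 : (2 * (n:ℝ)) ^ 2 * (Real.log n / (2 * n ^ 5)) = 2 * Real.log n / n ^ 3 := by
      field_simp <;> norm_num
    rw [e2] at h6
    have h7 : 2 * Real.log n / (n:ℝ) ^ 3 ≤ (1 / 10) / n := by
      rw [div_le_div_iff₀ (by positivity) hn0]
      have : 2 * Real.log n * n ≤ (1 / 10) * n ^ 2 := by nlinarith
      have h8 : (n:ℝ) ^ 2 ≤ n ^ 3 := pow_le_pow_right₀ (by linarith) (by norm_num)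
      linarith
    have h8 : Real.log n / (2 * (n:ℝ) ^ 5) ≤ (1 / 10) / n := by
      rw [div_le_div_iff₀ (by positivity) hn0]
      have : Real.log n * n ≤ (1 / 10) * (2 * n ^ 2) := by nlinarith
      have h8 : (n:ℝ) ^ 2 ≤ n ^ 5 := pow_le_pow_right₀ (by linarith) (by norm_num)
      linarith
    have h9 : (1 / 4) / n ≤ A n ρ / n := div_le_div_of_nonneg_right hA hn0.le
    have h10 : (1 / 4 : ℝ) / n = (1 / 10) / n + (1 / 10) / n + (1 / 20) / n := by ring
    have h11 : 0 < (1 / 20 : ℝ) / n := by positivity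
    linarith [h6.2]
  simpa using h3

/-- Period three, far from the end of the range. -/
theorem period3b (hA : n / 4 ≤ A n ρ) (hA' : A n ρ ≤ 2 * n - 16 * Real.log n) :
    ∃ x, minimalPeriod (T n ρ) x = 3 ∧ mu n ρ 3 x < 1 := by
  have hn := B.nR
  have hnL := B.nL
  have hn0 : (0:ℝ) < n := by linarith
  have hρ := three_halves B h1 (by linarith)
  have hnn : 0 < n := by have := B.h16; omega
  refine prime_case B h1 h2 Nat.prime_three (by norm_num) (by norm_num) hρ ?_
  show |(T n ρ)^[2] 1| ≤ _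
  rw [iter2 B.ev hnn, abs_le]
  have e : 16 * Real.log n / n ≤ A n ρ / n := div_le_div_of_nonneg_right (by linarith) hn0.le
  have e2 : A n ρ / n ≤ 2 - 16 * Real.log n / n := by
    calc A n ρ / n ≤ (2 * n - 16 * Real.log n) / n := div_le_div_of_nonneg_right hA' hn0.le
      _ = 2 - 16 * Real.log n / n := by field_simp
  constructor <;> linarith

/-- Period five. -/
theorem period5 (hA : Real.log n - Real.log (Real.log n) + 1 ≤ A n ρ)
    (hA' : A n ρ ≤ 2 * Real.log n - Real.log (Real.log n) - 3) :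
    ∃ x, minimalPeriod (T n ρ) x = 5 ∧ mu n ρ 5 x < 1 := by
  have hn := B.nR
  have hL := B.L
  have hLL := B.LL
  have hll := B.ll
  have hlll := B.lll
  have hnL := B.nL
  have hn0 : (0:ℝ) < n := by linarith
  have hρ := three_halves B h1 (by linarith)
  have hnn : 0 < n := by have := B.h16; omega
  have expL : Real.exp (Real.log n) = n := B.expL
  have expl : Real.exp (Real.log (Real.log n)) = Real.log n := B.expl
  set L := Real.log n with hLd
  have hAL : A n ρ ≤ 2 * L := by linarith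
  have hA0 : 0 ≤ A n ρ := by linarith
  -- bounds for `A4`
  have u := pow_upper hnn (t := A n ρ) (by linarith)
  have l := pow_lower hnn hA0 (by linarith)
  have eU : Real.exp (-A n ρ) ≤ (1 / 2) * (L / n) := by
    calc Real.exp (-A n ρ) ≤ Real.exp (-(L - Real.log L + 1)) := Real.exp_le_exp.2 (by linarith)
      _ = Real.exp (-1) * (L / n) := by
          have : -(L - Real.log L + 1) = -1 + (Real.log L - L) := by ring
          rw [this, Real.exp_add, Real.exp_sub, expl, expL]
      _ ≤ (1 / 2) * (L / n) := by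
          apply mul_le_mul_of_nonneg_right _ (by positivity)
          rw [Real.exp_neg, inv_le_comm₀ (Real.exp_pos _) (by norm_num)]
          have := Real.add_one_le_exp (1:ℝ)
          linarith
  have eL : 20 * (L / n ^ 2) ≤ Real.exp (-A n ρ) := by
    have h4 : Real.exp (-(2 * L - Real.log L - 3)) ≤ Real.exp (-A n ρ) :=
      Real.exp_le_exp.2 (by linarith)
    have h5 : Real.exp (-(2 * L - Real.log L - 3)) = Real.exp 3 * (L / n ^ 2) := by
      have : -(2 * L - Real.log L - 3) = 3 + (Real.log L - L - L) := by ring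
      rw [this, Real.exp_add, Real.exp_sub, Real.exp_sub, expl, expL]
      field_simp
    rw [h5] at h4
    have h6 : 0 ≤ L / (n:ℝ) ^ 2 := by positivity
    have := exp3
    nlinarith
  have hA4u : A4 n ρ ≤ L := by
    unfold A4
    calc n * ρ * (1 - A n ρ / n) ^ n ≤ n * 2 * ((1 / 2) * (L / n)) := by
          apply mul_le_mul (by gcongr) (by linarith) (B.ev.pow_nonneg _) (by positivity)
      _ = L := by field_simp
  have hsq : A n ρ ^ 2 / n ≤ 1 / 20 := by
    rw [div_le_iff₀ hn0]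
    have : A n ρ ^ 2 ≤ (2 * L) ^ 2 := pow_le_pow_left₀ hA0 hAL 2
    nlinarith
  have hA4l : 16 * L / n ≤ A4 n ρ := by
    have h5 : 19 * (L / n ^ 2) ≤ (1 - A n ρ / n) ^ n := by
      have h8 : Real.exp (-A n ρ) * (19 / 20) ≤ Real.exp (-A n ρ) * (1 - A n ρ ^ 2 / n) :=
        mul_le_mul_of_nonneg_left (by linarith) (Real.exp_pos _).le
      nlinarith
    unfold A4
    calc 16 * L / n ≤ n * (3 / 2) * (19 * (L / n ^ 2)) := by
          have : n * (3 / 2) * (19 * (L / n ^ 2)) = (57 / 2) * (L / n) := by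
            field_simp <;> norm_num
          rw [this]
          have : 0 ≤ L / n := by positivity
          have e : 16 * L / n = 16 * (L / n) := by ring
          rw [e]; linarith
      _ ≤ n * ρ * (1 - A n ρ / n) ^ n := by
          apply mul_le_mul _ h5 (by positivity) (by positivity)
          gcongr
  -- sharper upper bound
  have hA4u' : A4 n ρ ≤ L - Real.log L - 3 := by
    have k1 : Real.exp (-1) ≤ 3 / 8 := by
      rw [Real.exp_neg, inv_le_comm₀ (Real.exp_pos _) (by norm_num)]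
      have := Real.exp_one_gt_d9
      linarith
    have k2 : Real.exp (-A n ρ) ≤ (3 / 8) * (L / n) := by
      calc Real.exp (-A n ρ) ≤ Real.exp (-(L - Real.log L + 1)) := Real.exp_le_exp.2 (by linarith)
        _ = Real.exp (-1) * (L / n) := by
            have : -(L - Real.log L + 1) = -1 + (Real.log L - L) := by ring
            rw [this, Real.exp_add, Real.exp_sub, expl, expL]
        _ ≤ (3 / 8) * (L / n) := mul_le_mul_of_nonneg_right k1 (by positivity)
    have k3 : A4 n ρ ≤ (3 / 4) * L := by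
      unfold A4
      calc n * ρ * (1 - A n ρ / n) ^ n ≤ n * 2 * ((3 / 8) * (L / n)) := by
            apply mul_le_mul (by gcongr) (by linarith) (B.ev.pow_nonneg _) (by positivity)
        _ = (3 / 4) * L := by field_simp; norm_num
    linarith
  have hA40 : 0 ≤ A4 n ρ := le_trans (by positivity) hA4l
  refine prime_case B h1 h2 Nat.prime_five (by norm_num) (by norm_num) hρ ?_
  show |(T n ρ)^[4] 1| ≤ _
  rw [iter4 B.ev hnn, abs_le]
  have w := window B hρ.le hA40 hA4u'
  have u' := pow_upper hnn (t := A4 n ρ) (by linarith)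
  have u4 : 0 ≤ (1 - A4 n ρ / n) ^ n := B.ev.pow_nonneg _
  constructor
  · have u5 : 2 * Real.exp (-A4 n ρ) ≤ 2 - 16 * L / n := by
      have h16 : 16 * L / n ≤ 1 / 10 := by rw [div_le_iff₀ hn0]; linarith
      rcases le_or_gt (A4 n ρ) 1 with h | h
      · have h3 : Real.exp (-A4 n ρ) ≤ 1 - A4 n ρ / 2 := by
          have h4 := Real.exp_bound' (x := A4 n ρ) hA40 h (n := 1) (by norm_num)
          rw [Real.exp_neg, inv_le_comm₀ (Real.exp_pos _) (by linarith)]
          refine le_trans ?_ (Real.add_one_le_exp _)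
          rw [inv_le_iff_one_le_mul₀ (by linarith)]
          nlinarith
        linarith
      · have h3 : Real.exp (-A4 n ρ) ≤ Real.exp (-1) := Real.exp_le_exp.2 (by linarith)
        have k1 : Real.exp (-1) ≤ 3 / 8 := by
          rw [Real.exp_neg, inv_le_comm₀ (Real.exp_pos _) (by norm_num)]
          have := Real.exp_one_gt_d9
          linarith
        linarith
    have u6 : ρ * (1 - A4 n ρ / n) ^ n ≤ 2 * Real.exp (-A4 n ρ) :=
      mul_le_mul h2 u' u4 (by norm_num)
    linarith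
  · linarith

/-- Period three, the critical range. -/
theorem period3a (hA : 2 * Real.log n + Real.log (Real.log n) + 6 ≤ A n ρ) (hA' : A n ρ ≤ n / 4) :
    ∃ x, minimalPeriod (T n ρ) x = 3 ∧ mu n ρ 3 x < 1 := by
  have hn := B.nR
  have hL := B.L
  have hLL := B.LL
  have hll := B.ll
  have hlll := B.lll
  have hnL := B.nL
  have hn0 : (0:ℝ) < n := by linarith
  have hρ := three_halves B h1 (by linarith)
  have hnn : 0 < n := by have := B.h16; omega
  have hev := B.ev
  have expL : Real.exp (Real.log n) = n := B.expL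
  have expl : Real.exp (Real.log (Real.log n)) = Real.log n := B.expl
  set L := Real.log n with hLd
  set a := A n ρ with ha
  have ha0 : 1 ≤ a := by linarith
  set x3 := 1 - a / n with hx3
  have han : a / n ≤ 1 / 4 := by rw [div_le_iff₀ hn0]; linarith
  have han0 : 0 < a / n := by positivity
  have hx3l : 3 / 4 ≤ x3 := by linarith
  have hx3n : 0 < x3 ^ n := by positivity
  set b := A4 n ρ with hb
  have hbe : b = n * ρ * x3 ^ n := rfl
  have hb0 : 0 < b := by rw [hbe]; positivity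
  -- the main smallness
  have hae : a * Real.exp (-a) ≤ (3 * L) * (Real.exp (-6) * (1 / (n ^ 2 * L))) := by
    set a0 := 2 * L + Real.log L + 6 with ha0d
    have h3 : a * Real.exp (-a) ≤ a0 * Real.exp (-a0) := by
      -- `x exp (-x)` decreases
      have h4 : a ≤ a0 * Real.exp (a - a0) := by
        have := Real.add_one_le_exp (a - a0)
        have h5 : a0 * (a - a0 + 1) ≤ a0 * Real.exp (a - a0) :=
          mul_le_mul_of_nonneg_left this (by linarith)
        nlinarith
      calc a * Real.exp (-a) ≤ (a0 * Real.exp (a - a0)) * Real.exp (-a) :=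
            mul_le_mul_of_nonneg_right h4 (Real.exp_pos _).le
        _ = a0 * Real.exp (-a0) := by
            rw [mul_assoc, ← Real.exp_add]; congr 2; ring
    have h4 : Real.exp (-a0) = Real.exp (-6) * (1 / (n ^ 2 * L)) := by
      have : -a0 = -6 - Real.log L - L - L := by rw [ha0d]; ring
      rw [this, Real.exp_sub, Real.exp_sub, Real.exp_sub, expl, expL]
      field_simp
    rw [h4] at h3
    refine le_trans h3 ?_
    apply mul_le_mul_of_nonneg_right (by linarith)
    positivity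
  have hu := pow_upper hnn (t := a) (by linarith)
  have hsmall : n * a * b ≤ 1 / 40 := by
    have e6 : Real.exp (-6) ≤ 1 / 400 := by
      have : Real.exp (-6) = (1 / Real.exp 3) ^ 2 := by
        rw [one_div, ← Real.exp_neg, ← Real.exp_nat_mul]; norm_num
      rw [this]
      have h3 := exp3
      have h4 : 1 / Real.exp 3 ≤ 1 / 20 := one_div_le_one_div_of_le (by norm_num) h3
      calc (1 / Real.exp 3) ^ 2 ≤ (1 / 20) ^ 2 := pow_le_pow_left₀ (by positivity) h4 2
        _ = 1 / 400 := by norm_num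
    calc n * a * b = (n ^ 2 * ρ) * (a * x3 ^ n) := by rw [hbe]; ring
      _ ≤ (n ^ 2 * 2) * (a * Real.exp (-a)) := by gcongr
      _ ≤ (n ^ 2 * 2) * ((3 * L) * (Real.exp (-6) * (1 / (n ^ 2 * L)))) := by gcongr
      _ = 6 * Real.exp (-6) := by field_simp; norm_num
      _ ≤ 1 / 40 := by linarith
  have hna : (1:ℝ) ≤ n * a := by nlinarith
  have hbs : b ≤ 1 / 40 := by nlinarith
  -- the interval
  have hI : ∀ x ∈ Icc (1 - 2 * b / n) 1,
      0 < x ∧ T n ρ x ≤ 0 ∧ |T n ρ x| ≤ ρ - 1 ∧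
      (0 < (T n ρ)^[2] x ∧ x3 ≤ (T n ρ)^[2] x ∧ ((T n ρ)^[2] x) ^ n ≤ (5 / 4) * x3 ^ n) := by
    intro x hx
    set s := 1 - x with hs
    have hs0 : 0 ≤ s := by linarith [hx.2]
    have hs1 : s ≤ 2 * b / n := by linarith [hx.1]
    have hns : n * s ≤ 2 * b := by
      rw [le_div_iff₀ hn0] at hs1; linarith
    have hsns : s ≤ n * s := by
      have : 1 * s ≤ n * s := mul_le_mul_of_nonneg_right (by linarith) hs0
      linarith
    have hs2 : s ≤ 1 / 20 := by linarith
    have hxs : x = 1 - s := by rw [hs]; ring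
    have hx0 : 0 < x := by
      rw [hxs]; linarith
    have hp1 : 1 - n * s ≤ x ^ n := by
      have := one_add_mul_le_pow (a := -s) (by linarith) n
      have e : (1:ℝ) + n * -s = 1 - n * s := by ring
      rw [e] at this
      rw [hxs]
      exact this
    have hp2 : x ^ n ≤ 1 := pow_le_one₀ hx0.le hx.2
    -- `N = - T x`
    set N := ρ * x ^ n - 1 with hN
    have hTN : T n ρ x = -N := by unfold T; rw [hN]; ring
    have hN1 : N ≤ ρ - 1 := by rw [hN]; nlinarith
    have hN2 : ρ - 1 - ρ * (n * s) ≤ N := by rw [hN]; nlinarith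
    have hN0 : 0 < N := by nlinarith
    have hT2 : (T n ρ)^[2] x = 1 - ρ * N ^ n := by rw [TT_eq hev]
    have hNn : N ^ n ≤ (ρ - 1) ^ n := pow_le_pow_left₀ hN0.le hN1 n
    have hAe : ρ * (ρ - 1) ^ n = a / n := by
      rw [ha]; unfold A; field_simp
    have hlow : x3 ≤ (T n ρ)^[2] x := by
      rw [hT2, hx3, ← hAe]
      have := mul_le_mul_of_nonneg_left hNn (by linarith : 0 ≤ ρ)
      linarith
    -- lower bound for `N ^ n`
    have hNlow : (ρ - 1) ^ n * (1 - n * (6 * b)) ≤ N ^ n := by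
      have k1 : (ρ - 1) * (1 - 6 * b) ≤ N := by
        have : ρ * (n * s) ≤ ρ * (2 * b) := mul_le_mul_of_nonneg_left hns (by linarith)
        nlinarith
      have k0 : 0 ≤ 1 - 6 * b := by linarith
      have k2 : ((ρ - 1) * (1 - 6 * b)) ^ n ≤ N ^ n :=
        pow_le_pow_left₀ (mul_nonneg (by linarith) k0) k1 n
      rw [mul_pow] at k2
      have k3 := one_add_mul_le_pow (a := -(6 * b)) (by linarith) n
      have e : (1:ℝ) + n * -(6 * b) = 1 - n * (6 * b) := by ring
      rw [e] at k3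
      have e' : (1 + -(6 * b)) = 1 - 6 * b := by ring
      rw [e'] at k3
      have k5 : 0 ≤ (ρ - 1) ^ n := pow_nonneg (by linarith) n
      exact le_trans (mul_le_mul_of_nonneg_left k3 k5) k2
    have hup : (T n ρ)^[2] x ≤ x3 + 6 * a * b := by
      rw [hT2, hx3]
      have k1 : ρ * ((ρ - 1) ^ n * (1 - n * (6 * b))) ≤ ρ * N ^ n :=
        mul_le_mul_of_nonneg_left hNlow (by linarith)
      have k2 : ρ * ((ρ - 1) ^ n * (1 - n * (6 * b))) = a / n - 6 * a * b := by
        rw [← mul_assoc, hAe]; field_simp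
      linarith
    have hpos : 0 < (T n ρ)^[2] x := by linarith
    refine ⟨hx0, by rw [hTN]; linarith, by rw [hTN, abs_neg, abs_of_pos hN0]; exact hN1,
      hpos, hlow, ?_⟩
    have k1 : (T n ρ)^[2] x ≤ x3 * (1 + 8 * a * b) := by
      have : 0 ≤ a * b := by positivity
      nlinarith
    have k2 : (1 + 8 * a * b) ^ n ≤ 5 / 4 := by
      calc (1 + 8 * a * b) ^ n ≤ (Real.exp (8 * a * b)) ^ n := by
            apply pow_le_pow_left₀ (by positivity)
            have := Real.add_one_le_exp (8 * a * b); linarith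
        _ = Real.exp (8 * (n * a * b)) := by rw [← Real.exp_nat_mul]; congr 1; ring
        _ ≤ Real.exp (1 / 5) := Real.exp_le_exp.2 (by linarith)
        _ ≤ 5 / 4 := by
            have h := Real.add_one_le_exp (-(1 / 5) : ℝ)
            have h2 : Real.exp (1 / 5) = (Real.exp (-(1 / 5)))⁻¹ := by rw [← Real.exp_neg]; norm_num
            rw [h2, inv_le_comm₀ (Real.exp_pos _) (by norm_num)]
            linarith
    calc ((T n ρ)^[2] x) ^ n ≤ (x3 * (1 + 8 * a * b)) ^ n := pow_le_pow_left₀ hpos.le k1 n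
      _ = x3 ^ n * (1 + 8 * a * b) ^ n := mul_pow _ _ _
      _ ≤ x3 ^ n * (5 / 4) := mul_le_mul_of_nonneg_left k2 hx3n.le
      _ = _ := by ring
  have hρx : ρ * x3 ^ n = b / n := by rw [hbe]; field_simp
  have hmaps : MapsTo ((T n ρ)^[3]) (Icc (1 - 2 * b / n) 1) (Icc (1 - 2 * b / n) 1) := by
    intro x hx
    obtain ⟨a1, a2, a3, a4, a5, a6⟩ := hI x hx
    rw [iterate_succ_apply']
    set y := (T n ρ)^[2] x
    have h3 : ρ * y ^ n ≤ (5 / 4) * (b / n) := by
      rw [← hρx]
      calc ρ * y ^ n ≤ ρ * (5 / 4 * x3 ^ n) := mul_le_mul_of_nonneg_left a6 (by linarith)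
        _ = _ := by ring
    have h4 : 0 ≤ ρ * y ^ n := by positivity
    have h5 : 0 < b / n := by positivity
    have h6 : 2 * b / n = 2 * (b / n) := by ring
    unfold T
    rw [h6]
    constructor <;> linarith
  obtain ⟨x, hxI, hfix⟩ := exists_mem_Icc_isFixedPt_of_mapsTo (continuous_Tk n ρ 3).continuousOn
    (by have : 0 ≤ 2 * b / n := by positivity
        linarith) hmaps
  obtain ⟨a1, a2, a3, a4, a5, a6⟩ := hI x hxI
  refine ⟨x, ?_, ?_⟩
  · have : Fact (Nat.Prime 3) := ⟨Nat.prime_three⟩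
    refine minimalPeriod_eq_prime hfix ?_
    intro hf
    have hf' : T n ρ x = x := hf
    linarith
  · have e0 : mu n ρ 3 x = (n * ρ * |x| ^ (n - 1)) * (n * ρ * |T n ρ x| ^ (n - 1)) *
        (n * ρ * |(T n ρ)^[2] x| ^ (n - 1)) := by
      unfold mu
      simp only [Finset.prod_range_succ, Finset.prod_range_zero, iterate_succ, iterate_zero,
        comp, id, one_mul]
    rw [e0]
    set y := (T n ρ)^[2] x
    have f1 : (n:ℝ) * ρ * |x| ^ (n - 1) ≤ n * 2 := by
      have : |x| ^ (n - 1) ≤ 1 := pow_le_one₀ (abs_nonneg _) (by rw [abs_of_pos a1]; exact hxI.2)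
      calc (n:ℝ) * ρ * |x| ^ (n - 1) ≤ n * 2 * 1 := by gcongr
        _ = _ := by ring
    have f2 : (n:ℝ) * ρ * |T n ρ x| ^ (n - 1) ≤ 2 * a := by
      have k1 : |T n ρ x| ^ (n - 1) ≤ (ρ - 1) ^ (n - 1) := pow_le_pow_left₀ (abs_nonneg _) a3 _
      have k2 : a = n * ρ * (ρ - 1) ^ (n - 1) * (ρ - 1) := by
        rw [ha]; unfold A
        have : (ρ - 1) ^ n = (ρ - 1) ^ (n - 1) * (ρ - 1) := by rw [← pow_succ]; congr 1; omega
        rw [this]; ring
      have k3 : 0 ≤ n * ρ * (ρ - 1) ^ (n - 1) := by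
        have : 0 ≤ (ρ - 1) ^ (n - 1) := pow_nonneg (by linarith) _
        positivity
      calc (n:ℝ) * ρ * |T n ρ x| ^ (n - 1) ≤ n * ρ * (ρ - 1) ^ (n - 1) := by gcongr
        _ ≤ 2 * a := by rw [k2]; nlinarith
    have f3 : (n:ℝ) * ρ * |y| ^ (n - 1) ≤ (5 / 3) * b := by
      rw [abs_of_pos a4]
      have k1 : y ^ (n - 1) * (3 / 4) ≤ y ^ n := by
        have : y ^ n = y ^ (n - 1) * y := by rw [← pow_succ]; congr 1; omega
        rw [this]
        exact mul_le_mul_of_nonneg_left (by linarith) (pow_nonneg a4.le _)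
      have k2 : y ^ (n - 1) ≤ (5 / 3) * x3 ^ n := by linarith
      calc (n:ℝ) * ρ * y ^ (n - 1) ≤ n * ρ * ((5 / 3) * x3 ^ n) := by gcongr
        _ = (5 / 3) * b := by rw [hbe]; ring
    have f4 : (n * ρ * |x| ^ (n - 1)) * (n * ρ * |T n ρ x| ^ (n - 1)) *
        (n * ρ * |y| ^ (n - 1)) ≤ (n * 2) * (2 * a) * ((5 / 3) * b) := by
      gcongr
    have f5 : (n * 2) * (2 * a) * ((5 / 3) * b) = (20 / 3) * (n * a * b) := by ring
    rw [f5] at f4
    linarith

end

end Pool.Agent.H205.RP
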