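import Pool.Agent.H205.RP5
import Pool.Graph.R_seed8.TH363.CD.Uniq

/-! The classification of the real parameters of the Multibrot sets of large even degree. -/

set_option autoImplicit false
open Filter Topology Set Function MeasureTheory

namespace Pool.Agent.H205.RP

theorem exact_unique {n : ℕ} (hn : 2 ≤ n) {c : ℝ} {j k : ℕ} (hj : c ∈ ExactR n j)
    (hk : c ∈ ExactR n k) : j = k := by
  obtain ⟨z, h1, h2⟩ := hj
  obtain ⟨z', h3, h4⟩ := hk
  rw [← h2, ← h4]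
  exact Pool.Agent.TH363.CD.period_unique hn h3 h1

theorem exact_mem {n : ℕ} (hn : 2 ≤ n) {c : ℝ} {j : ℕ} (hj : c ∈ ExactR n j) :
    (c : ℂ) ∈ N62a1eb23.multibrotSet n := by
  obtain ⟨z, h1, h2⟩ := hj
  exact Pool.Agent.TH363.CD.mem_multibrot hn h1

/-- The parameters `c = -r`, `1 < r ^ (n - 1) ≤ 2`, with `A n (r ^ (n - 1))` in `[a, b]`. -/
def W (n : ℕ) (a b : ℝ) : Set ℝ :=
  {c | c < 0 ∧ 1 < (-c) ^ (n - 1) ∧ (-c) ^ (n - 1) ≤ 2 ∧ a ≤ A n ((-c) ^ (n - 1)) ∧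
    A n ((-c) ^ (n - 1)) ≤ b}

/-- The exceptional parameters. -/
def Exc (n : ℕ) : Set ℝ :=
  {c | ExcP n c} ∪ {c | c < 0 ∧ (-c) ^ (n - 1) = exc1 n} ∪ {c | c < 0 ∧ Exc2 n ((-c) ^ (n - 1))}

theorem volume_Exc {n : ℕ} (hn : 2 ≤ n) : volume (Exc n) = 0 := by
  have key : ∀ {S : Set ℝ}, (∀ x ∈ S, ∀ y ∈ S, x = y) → volume S = 0 := by
    intro S h
    exact Set.Subsingleton.measure_zero (fun x hx y hy => h x hx y hy) volume
  have inj : ∀ {x y : ℝ}, x < 0 → y < 0 → (-x) ^ (n - 1) = (-y) ^ (n - 1) → x = y := by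
    intro x y hx hy h
    have := (pow_left_inj₀ (by linarith) (by linarith) (by omega : n - 1 ≠ 0)).1 h
    linarith
  unfold Exc
  rw [measure_union_null_iff, measure_union_null_iff]
  refine ⟨⟨key fun x hx y hy => excP_unique hn hx hy, key ?_⟩, key ?_⟩
  · rintro x ⟨hx, h1⟩ y ⟨hy, h2⟩
    exact inj hx hy (h1.trans h2.symm)
  · rintro x ⟨hx, h1⟩ y ⟨hy, h2⟩
    exact inj hx hy (exc2_unique hn h1 h2)

/-- The gaps between the windows of the periods three, four and five. -/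
noncomputable def Gap (n : ℕ) : Set ℝ :=
  W n (Real.log n - Real.log (Real.log n) - 3) (Real.log n - Real.log (Real.log n) + 1) ∪
  W n (2 * Real.log n - Real.log (Real.log n) - 3) (2 * Real.log n + Real.log (Real.log n) + 6) ∪
  W n (2 * n - 16 * Real.log n) (2 * n)

theorem A_le {n : ℕ} {ρ : ℝ} (h1 : 1 < ρ) (h2 : ρ ≤ 2) : A n ρ ≤ 2 * n := by
  unfold A
  have h3 : (ρ - 1) ^ n ≤ 1 := pow_le_one₀ (by linarith) (by linarith)
  have h4 : 0 ≤ (ρ - 1) ^ n := pow_nonneg (by linarith) n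
  have h5 : (0:ℝ) ≤ n := Nat.cast_nonneg n
  calc n * ρ * (ρ - 1) ^ n ≤ n * 2 * 1 := by gcongr
    _ = 2 * n := by ring

section

variable {n : ℕ} (B : Big n)

include B

theorem neg_exact {c : ℝ} (hc : c < 0) {k : ℕ} (hk : 0 < k)
    (h : ∃ x, minimalPeriod (T n ((-c) ^ (n - 1))) x = k ∧ mu n ((-c) ^ (n - 1)) k x < 1) :
    c ∈ ExactR n k := by
  obtain ⟨x, h1, h2⟩ := h
  have := transfer B.ev (by have := B.h16; omega) (neg_pos.2 hc) hk h1 h2
  rwa [neg_neg] at this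

theorem W3 {c : ℝ} (h : c ∈ W n (2 * Real.log n + Real.log (Real.log n) + 6)
    (2 * n - 16 * Real.log n)) : c ∈ ExactR n 3 := by
  obtain ⟨h0, h1, h2, h3, h4⟩ := h
  apply neg_exact B h0 (by norm_num)
  rcases le_total (A n ((-c) ^ (n - 1))) (n / 4) with h5 | h5
  · exact period3a B h1 h2 h3 h5
  · exact period3b B h1 h2 h5 h4

theorem W5 {c : ℝ} (h : c ∈ W n (Real.log n - Real.log (Real.log n) + 1)
    (2 * Real.log n - Real.log (Real.log n) - 3)) : c ∈ ExactR n 5 := by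
  obtain ⟨h0, h1, h2, h3, h4⟩ := h
  apply neg_exact B h0 (by norm_num)
  exact period5 B h1 h2 h3 h4

theorem W4 {c : ℝ} (h : c ∈ W n (1 / 4) (Real.log n - Real.log (Real.log n) - 3)) :
    c ∈ ExactR n 4 := by
  obtain ⟨h0, h1, h2, h3, h4⟩ := h
  apply neg_exact B h0 (by norm_num)
  exact period4 B h1 h2 h3 h4

theorem W4' {c : ℝ} (h : c ∈ W n (10 / n) (1 / 4)) : c ∈ ExactR n 4 := by
  obtain ⟨h0, h1, h2, h3, h4⟩ := h
  have hn := B.nR
  apply neg_exact B h0 (by norm_num)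
  obtain ⟨q, s, hQ⟩ := exists_Q B.ev (by have := B.h16; omega) h1 h2 h4
  refine mid4 B.ev (by have := B.h16; omega) h1 h2 h4 hQ (mid_large B.ev B.h16 h1 h2 h4 hQ ?_)
  rw [div_le_iff₀ (by linarith)] at h3
  linarith

/-- **Classification.** -/
theorem cover {c : ℝ} (hM : (c : ℂ) ∈ N62a1eb23.multibrotSet n) :
    c ∈ Exc n ∨ c ∈ ExactR n 1 ∨ c ∈ ExactR n 2 ∨
    (c ∈ ExactR n 4 ∧ c ∈ W n (1 / (8 * n)) (Real.log n - Real.log (Real.log n) - 3)) ∨
    (c ∈ ExactR n 5 ∧ c ∈ W n (Real.log n - Real.log (Real.log n) + 1)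
      (2 * Real.log n - Real.log (Real.log n) - 3)) ∨
    (c ∈ ExactR n 3 ∧ c ∈ W n (2 * Real.log n + Real.log (Real.log n) + 6) (2 * n)) ∨
    c ∈ Gap n := by
  have hn := B.nR
  have hL := B.L
  have hLL := B.LL
  have hll := B.ll
  have hlll := B.lll
  have hn2 : 2 ≤ n := by have := B.h16; omega
  have hn8 : 8 ≤ n := by have := B.h16; omega
  rcases le_or_gt 0 c with hc | hc
  · rcases pos_case hn2 hc hM with h | h
    · exact Or.inr (Or.inl h)
    · exact Or.inl (Or.inl (Or.inl h))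
  set r := -c with hr
  have hr0 : 0 < r := by linarith
  have hM' : ((-r : ℝ) : ℂ) ∈ N62a1eb23.multibrotSet n := by rw [hr, neg_neg]; exact hM
  have hρ2 := neg_case B.ev hn2 hr0 hM'
  have hρ0 : 0 < r ^ (n - 1) := by positivity
  set ρ := r ^ (n - 1) with hρ
  rcases le_or_gt ρ 1 with h1 | h1
  · rcases eq_or_ne ρ (exc1 n) with h2 | h2
    · exact Or.inl (Or.inl (Or.inr ⟨hc, h2⟩))
    · obtain ⟨k, x, hk, h3, h4⟩ := small hn2 hρ0 h1 h2
      rcases hk with rfl | rfl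
      · exact Or.inr (Or.inl (neg_exact B hc (by norm_num) ⟨x, h3, h4⟩))
      · exact Or.inr (Or.inr (Or.inl (neg_exact B hc (by norm_num) ⟨x, h3, h4⟩)))
  rcases le_or_gt (A n ρ) (1 / 4) with hA | hA
  · obtain ⟨q, s, hQ⟩ := exists_Q B.ev hn8 h1 hρ2 hA
    rcases lt_trichotomy (((n:ℝ) * ρ) ^ 2 * (q * s) ^ (n - 1)) 1 with h | h | h
    · exact Or.inr (Or.inr (Or.inl (neg_exact B hc (by norm_num)
        (mid2 B.ev hn8 h1 hA hQ h))))
    · exact Or.inl (Or.inr ⟨hc, hQ.exc B.h16 hA h⟩)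
    · refine Or.inr (Or.inr (Or.inr (Or.inl ⟨neg_exact B hc (by norm_num)
        (mid4 B.ev hn8 h1 hρ2 hA hQ h), hc, h1, hρ2, ?_, ?_⟩)))
      · by_contra h5
        rw [not_le, lt_div_iff₀ (by linarith)] at h5
        have h6 := mid_small B.h16 h1 hQ (hQ.qpos hn8 h1 hA) (by
          have e : A n ρ * (8 * n) = 8 * (n * A n ρ) := by ring
          rw [e] at h5
          linarith)
        linarith
      · linarith
  rcases le_or_gt (A n ρ) (Real.log n - Real.log (Real.log n) - 3) with hA1 | hA1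
  · have h8 : 1 / (8 * (n:ℝ)) ≤ 1 / 4 := one_div_le_one_div_of_le (by norm_num) (by linarith)
    exact Or.inr (Or.inr (Or.inr (Or.inl ⟨W4 B ⟨hc, h1, hρ2, hA.le, hA1⟩, hc, h1, hρ2,
      le_trans h8 hA.le, hA1⟩)))
  rcases le_or_gt (A n ρ) (Real.log n - Real.log (Real.log n) + 1) with hA2 | hA2
  · exact Or.inr (Or.inr (Or.inr (Or.inr (Or.inr (Or.inr (Or.inl (Or.inl
      ⟨hc, h1, hρ2, hA1.le, hA2⟩)))))))
  rcases le_or_gt (A n ρ) (2 * Real.log n - Real.log (Real.log n) - 3) with hA3 | hA3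
  · have hW : c ∈ W n (Real.log n - Real.log (Real.log n) + 1)
      (2 * Real.log n - Real.log (Real.log n) - 3) := ⟨hc, h1, hρ2, hA2.le, hA3⟩
    exact Or.inr (Or.inr (Or.inr (Or.inr (Or.inl ⟨W5 B hW, hW⟩))))
  rcases le_or_gt (A n ρ) (2 * Real.log n + Real.log (Real.log n) + 6) with hA4 | hA4
  · exact Or.inr (Or.inr (Or.inr (Or.inr (Or.inr (Or.inr (Or.inl (Or.inr
      ⟨hc, h1, hρ2, hA3.le, hA4⟩)))))))
  have hA5 := A_le (n := n) h1 hρ2
  rcases le_or_gt (A n ρ) (2 * n - 16 * Real.log n) with hA6 | hA6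
  · exact Or.inr (Or.inr (Or.inr (Or.inr (Or.inr (Or.inl
      ⟨W3 B ⟨hc, h1, hρ2, hA4.le, hA6⟩, hc, h1, hρ2, hA4.le, hA5⟩)))))
  · exact Or.inr (Or.inr (Or.inr (Or.inr (Or.inr (Or.inr (Or.inr
      ⟨hc, h1, hρ2, hA6.le, hA5⟩))))))

end

/-! ### Lengths -/

/-- The logarithm of `A n (r ^ (n - 1))`. -/
noncomputable def F (n : ℕ) (r : ℝ) : ℝ :=
  Real.log n + Real.log (r ^ (n - 1)) + n * Real.log (r ^ (n - 1) - 1)

noncomputable def F' (n : ℕ) (r : ℝ) : ℝ :=
  (n - 1 : ℝ) / r * (1 + n * (r ^ (n - 1) / (r ^ (n - 1) - 1)))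

theorem exp_F {n : ℕ} (hn : 0 < n) {r : ℝ} (h : 1 < r ^ (n - 1)) :
    F n r = Real.log (A n (r ^ (n - 1))) := by
  have hn0 : (0:ℝ) < n := by exact_mod_cast hn
  unfold F A
  rw [Real.log_mul (by positivity) (pow_pos (by linarith) n).ne',
    Real.log_mul (by positivity) (by linarith), Real.log_pow (r ^ (n - 1) - 1) n]

theorem hasDerivAt_F {n : ℕ} (hn : 2 ≤ n) {r : ℝ} (hr : 0 < r) (h : 1 < r ^ (n - 1)) :
    HasDerivAt (F n) (F' n r) r := by
  have hn1 : n - 1 ≠ 0 := by omega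
  have h1 : HasDerivAt (fun r : ℝ => r ^ (n - 1)) (((n - 1 : ℕ) : ℝ) * r ^ (n - 1 - 1)) r :=
    hasDerivAt_pow (n - 1) r
  have h2 := h1.log (by positivity)
  have h3 := (h1.sub_const 1).log (by linarith)
  have h4 := (h2.const_add (Real.log n)).add (h3.const_mul (n:ℝ))
  have e1 : ((n - 1 : ℕ) : ℝ) = n - 1 := by rw [Nat.cast_sub (by omega)]; simp
  have e2 : r ^ (n - 1 - 1) = r ^ (n - 1) / r := by
    rw [eq_div_iff hr.ne', ← pow_succ]; congr 1; omega
  have e3 : ((n - 1 : ℕ) : ℝ) * r ^ (n - 1 - 1) / r ^ (n - 1) +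
      n * (((n - 1 : ℕ) : ℝ) * r ^ (n - 1 - 1) / (r ^ (n - 1) - 1)) = F' n r := by
    unfold F'
    rw [e1, e2]
    have : r ^ (n - 1) - 1 ≠ 0 := by linarith
    have : r ^ (n - 1) ≠ 0 := by linarith
    field_simp
  rw [e3] at h4
  exact h4

/-- The mean value theorem for `F`. -/
theorem mvt_F {n : ℕ} (hn : 2 ≤ n) {a b : ℝ} (ha : 0 < a) (h : 1 < a ^ (n - 1)) (hab : a < b) :
    ∃ ξ, a < ξ ∧ ξ < b ∧ F n b - F n a = F' n ξ * (b - a) := by
  have hd : ∀ x ∈ Icc a b, HasDerivAt (F n) (F' n x) x := by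
    intro x hx
    refine hasDerivAt_F hn (lt_of_lt_of_le ha hx.1) (lt_of_lt_of_le h ?_)
    exact pow_le_pow_left₀ ha.le hx.1 _
  obtain ⟨ξ, hξ, he⟩ := exists_hasDerivAt_eq_slope (F n) (F' n) hab
    (fun x hx => (hd x hx).continuousAt.continuousWithinAt)
    (fun x hx => hd x ⟨hx.1.le, hx.2.le⟩)
  refine ⟨ξ, hξ.1, hξ.2, ?_⟩
  rw [he, div_mul_cancel₀]
  exact (sub_pos.2 hab).ne'

theorem root_le {n : ℕ} (hn : 2 ≤ n) {r : ℝ} (hr : 0 < r) (h : r ^ (n - 1) ≤ 2) :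
    r ≤ n / (n - 1) := by
  have hnR : (2:ℝ) ≤ n := by exact_mod_cast hn
  by_contra hc
  rw [not_le] at hc
  have e1 : ((n - 1 : ℕ) : ℝ) = n - 1 := by rw [Nat.cast_sub (by omega)]; simp
  have h1 := one_add_mul_le_pow (a := (1:ℝ) / (n - 1)) (by
    have : (0:ℝ) ≤ 1 / (n - 1) := div_nonneg zero_le_one (by linarith)
    linarith) (n - 1)
  have h2 : (1:ℝ) + ((n - 1 : ℕ) : ℝ) * (1 / (n - 1)) = 2 := by
    rw [e1]
    have : (n:ℝ) - 1 ≠ 0 := by linarith
    field_simp; norm_num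
  have h3 : (1:ℝ) + 1 / (n - 1) = n / (n - 1) := by
    have : (n:ℝ) - 1 ≠ 0 := by linarith
    field_simp; ring
  rw [h2, h3] at h1
  have h4 : ((n:ℝ) / (n - 1)) ^ (n - 1) < r ^ (n - 1) :=
    pow_lt_pow_left₀ hc (div_nonneg (by linarith) (by linarith)) (by omega)
  linarith

/-- The lower bound of the derivative. -/
theorem F'_ge {n : ℕ} (hn : 2 ≤ n) {r : ℝ} (hr : 0 < r) (h1 : 1 < r ^ (n - 1))
    (h2 : r ^ (n - 1) ≤ 2) : ((n:ℝ) - 1) ^ 2 * (2 * n + 1) / n ≤ F' n r := by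
  have hnR : (2:ℝ) ≤ n := by exact_mod_cast hn
  have h3 := root_le hn hr h2
  have h4 : 2 ≤ r ^ (n - 1) / (r ^ (n - 1) - 1) := by
    rw [le_div_iff₀ (by linarith)]; linarith
  have h5 : ((n:ℝ) - 1) ^ 2 / n ≤ (n - 1) / r := by
    rw [div_le_div_iff₀ (by linarith) hr]
    rw [le_div_iff₀ (by linarith)] at h3
    nlinarith
  unfold F'
  calc ((n:ℝ) - 1) ^ 2 * (2 * n + 1) / n = (((n:ℝ) - 1) ^ 2 / n) * (1 + n * 2) := by ring
    _ ≤ (n - 1) / r * (1 + n * (r ^ (n - 1) / (r ^ (n - 1) - 1))) := by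
        apply mul_le_mul h5 _ (by positivity) (div_nonneg (by linarith) hr.le)
        gcongr

/-- The upper bound of the derivative. -/
theorem F'_le {n : ℕ} (B : Big n) {r : ℝ} (hr : 0 < r) (h1 : 1 < r ^ (n - 1))
    (h2 : r ^ (n - 1) ≤ 2) (hA : 1 / n ≤ A n (r ^ (n - 1))) :
    F' n r ≤ n * (2 * n + 1 + 6 * Real.log n) := by
  have hn := B.nR
  have hL := B.L
  have hnL := B.nL
  have hn0 : (0:ℝ) < n := by linarith
  have hnn : 0 < n := by have := B.h16; omega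
  set ρ := r ^ (n - 1) with hρ
  have hr1 : 1 ≤ r := by
    by_contra hc
    rw [not_le] at hc
    have : r ^ (n - 1) ≤ 1 := pow_le_one₀ hr.le hc.le
    linarith
  set x := 3 * Real.log n / n with hx
  have hx0 : 0 < x := by positivity
  have hx1 : x ≤ 1 / 10 := by rw [hx, div_le_iff₀ hn0]; linarith
  have hρ1 : 1 - x ≤ ρ - 1 := by
    by_contra hc
    rw [not_le] at hc
    have h3 : (ρ - 1) ^ n ≤ (1 - x) ^ n := pow_le_pow_left₀ (by linarith) hc.le n
    have h4 := pow_upper hnn (t := 3 * Real.log n) (by linarith)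
    rw [← hx] at h4
    have h5 : Real.exp (-(3 * Real.log n)) = 1 / (n:ℝ) ^ 3 := by
      rw [Real.exp_neg]
      have := Real.exp_nat_mul (Real.log n) 3
      push_cast at this
      rw [this, B.expL, one_div]
    rw [h5] at h4
    have h6 : A n ρ ≤ 2 / n ^ 2 := by
      unfold A
      have h7 : 0 ≤ (ρ - 1) ^ n := pow_nonneg (by linarith) n
      calc n * ρ * (ρ - 1) ^ n ≤ n * 2 * (1 / (n:ℝ) ^ 3) := by
            apply mul_le_mul (by gcongr) (by linarith) h7 (by positivity)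
        _ = 2 / n ^ 2 := by field_simp
    have h7 : 2 / (n:ℝ) ^ 2 < 1 / n := by
      rw [div_lt_div_iff₀ (by positivity) hn0]; nlinarith
    linarith
  have h3 : ρ / (ρ - 1) ≤ 2 + 2 * x := by
    rw [div_le_iff₀ (by linarith)]
    nlinarith
  have h4 : (n - 1 : ℝ) / r ≤ n := by
    rw [div_le_iff₀ hr]
    nlinarith
  unfold F'
  calc (n - 1 : ℝ) / r * (1 + n * (ρ / (ρ - 1))) ≤ n * (1 + n * (2 + 2 * x)) := by
        apply mul_le_mul h4 (by gcongr) _ (by positivity)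
        have : 0 ≤ ρ / (ρ - 1) := div_nonneg (by linarith) (by linarith)
        positivity
    _ = n * (2 * n + 1 + 6 * Real.log n) := by
        rw [hx]; field_simp; ring

/-- Upper bound of the length of a window. -/
theorem volume_W_le {n : ℕ} (hn : 2 ≤ n) {a b : ℝ} (ha : 0 < a) :
    volume (W n a b) ≤ ENNReal.ofReal (Real.log (b / a) / (((n:ℝ) - 1) ^ 2 * (2 * n + 1) / n)) := by
  have hnR : (2:ℝ) ≤ n := by exact_mod_cast hn
  set m := ((n:ℝ) - 1) ^ 2 * (2 * n + 1) / n with hm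
  have hm0 : 0 < m := by
    have : 0 < (n:ℝ) - 1 := by linarith
    positivity
  refine le_trans (Real.volume_le_diam _) ?_
  apply Metric.ediam_le
  -- two points
  have key : ∀ x ∈ W n a b, ∀ y ∈ W n a b, x < y → dist x y ≤ Real.log (b / a) / m := by
    rintro x ⟨x0, x1, x2, x3, x4⟩ y ⟨y0, y1, y2, y3, y4⟩ hxy
    obtain ⟨ξ, g1, g2, g3⟩ := mvt_F hn (neg_pos.2 y0) y1 (neg_lt_neg hxy)
    have hξ0 : 0 < ξ := by linarith
    have e1 : 1 < ξ ^ (n - 1) := lt_of_lt_of_le y1 (pow_le_pow_left₀ (by linarith) g1.le _)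
    have e2 : ξ ^ (n - 1) ≤ 2 := le_trans (pow_le_pow_left₀ (by linarith) g2.le _) x2
    have h1 := F'_ge hn hξ0 e1 e2
    rw [exp_F (by omega) x1, exp_F (by omega) y1] at g3
    have hb0 : 0 < b := lt_of_lt_of_le (lt_of_lt_of_le ha x3) x4
    have h2 : Real.log (A n ((-x) ^ (n - 1))) ≤ Real.log b :=
      Real.log_le_log (lt_of_lt_of_le ha x3) x4
    have h3 : Real.log a ≤ Real.log (A n ((-y) ^ (n - 1))) := Real.log_le_log ha y3
    rw [Real.log_div hb0.ne' ha.ne', le_div_iff₀ hm0, Real.dist_eq, abs_sub_comm,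
      abs_of_pos (sub_pos.2 hxy)]
    have h4 : (y - x) * m ≤ F' n ξ * (-x - -y) := by
      have : (y - x) * m ≤ (y - x) * F' n ξ := mul_le_mul_of_nonneg_left h1 (by linarith)
      linarith
    linarith
  intro x hx y hy
  rw [edist_dist]
  apply ENNReal.ofReal_le_ofReal
  rcases lt_trichotomy x y with h | h | h
  · exact key x hx y hy h
  · subst h
    rw [dist_self]
    obtain ⟨x0, x1, x2, x3, x4⟩ := hx
    apply div_nonneg _ hm0.le
    apply Real.log_nonneg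
    rw [one_le_div ha]
    linarith
  · rw [dist_comm]; exact key y hy x hx h

/-- Lower bound of the length of a window. -/
theorem le_volume_W {n : ℕ} (B : Big n) {a b : ℝ} (ha : 1 / n ≤ a) (hab : a ≤ b)
    (hb : b ≤ 2 * n) :
    ENNReal.ofReal (Real.log (b / a) / (n * (2 * n + 1 + 6 * Real.log n))) ≤ volume (W n a b) := by
  have hn := B.nR
  have hL := B.L
  have hn0 : (0:ℝ) < n := by linarith
  have hn2 : 2 ≤ n := by have := B.h16; omega
  have ha0 : 0 < a := lt_of_lt_of_le (by positivity) ha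
  set M := (n:ℝ) * (2 * n + 1 + 6 * Real.log n) with hM
  have hM0 : 0 < M := by positivity
  -- the function `r ↦ A n (r ^ (n - 1))`
  have hcont : Continuous fun r : ℝ => A n (r ^ (n - 1)) := by unfold A; fun_prop
  have hend : ∀ t : ℝ, 0 < t → t ≤ 2 * n → ∃ r : ℝ, 1 < r ∧ r ^ (n - 1) ≤ 2 ∧ 1 < r ^ (n - 1) ∧
      A n (r ^ (n - 1)) = t := by
    intro t ht0 ht
    set R : ℝ := (2:ℝ) ^ ((1:ℝ) / (n - 1 : ℕ)) with hR
    have hR1 : R ^ (n - 1) = 2 := by
      rw [hR, ← Real.rpow_natCast, ← Real.rpow_mul (by norm_num)]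
      have : ((n - 1 : ℕ) : ℝ) ≠ 0 := by
        have : 0 < n - 1 := by omega
        exact_mod_cast this.ne'
      rw [one_div, inv_mul_cancel₀ this, Real.rpow_one]
    have hR0 : 0 < R := by rw [hR]; positivity
    have hR2 : 1 ≤ R := by
      by_contra hc
      rw [not_le] at hc
      have := pow_le_one₀ (n := n - 1) hR0.le hc.le
      linarith
    have h1 : A n ((1:ℝ) ^ (n - 1)) = 0 := by
      unfold A
      rw [one_pow, sub_self, zero_pow (by omega), mul_zero]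
    have h2 : A n (R ^ (n - 1)) = 2 * n := by
      rw [hR1]; unfold A
      norm_num
      ring
    have h3 := intermediate_value_Icc hR2 hcont.continuousOn
    obtain ⟨r, hr, hre⟩ := h3 (show t ∈ Icc (A n ((1:ℝ) ^ (n - 1))) (A n (R ^ (n - 1))) by
      rw [h1, h2]; exact ⟨ht0.le, ht⟩)
    have hre' : A n (r ^ (n - 1)) = t := hre
    have hr1 : 1 < r := by
      rcases hr.1.lt_or_eq with h | h
      · exact h
      · rw [← h, h1] at hre'; linarith
    exact ⟨r, hr1, by rw [← hR1]; exact pow_le_pow_left₀ (by linarith) hr.2 _,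
      one_lt_pow₀ hr1 (by omega), hre'⟩
  obtain ⟨ra, a1, a2, a3, a4⟩ := hend a ha0 (hab.trans hb)
  obtain ⟨rb, b1, b2, b3, b4⟩ := hend b (by linarith) hb
  -- monotonicity
  have hmono : ∀ {x y : ℝ}, 1 ≤ x → x ≤ y → A n (x ^ (n - 1)) ≤ A n (y ^ (n - 1)) := by
    intro x y hx hxy
    have h1 : x ^ (n - 1) ≤ y ^ (n - 1) := pow_le_pow_left₀ (by linarith) hxy _
    have h2 : 1 ≤ x ^ (n - 1) := one_le_pow₀ hx
    have h3 : (x ^ (n - 1) - 1) ^ n ≤ (y ^ (n - 1) - 1) ^ n :=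
      pow_le_pow_left₀ (by linarith) (by linarith) n
    unfold A
    apply mul_le_mul (by gcongr) h3 (pow_nonneg (by linarith) n)
      (mul_nonneg (Nat.cast_nonneg n) (by linarith))
  have hsub : Icc (-rb) (-ra) ⊆ W n a b := by
    intro c hc
    have c1 : ra ≤ -c := by linarith [hc.2]
    have c2 : -c ≤ rb := by linarith [hc.1]
    refine ⟨by linarith, one_lt_pow₀ (by linarith) (by omega),
      le_trans (pow_le_pow_left₀ (by linarith) c2 _) b2, ?_, ?_⟩
    · rw [← a4]; exact hmono a1.le c1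
    · rw [← b4]; exact hmono (by linarith) c2
  refine le_trans ?_ (measure_mono hsub)
  rw [Real.volume_Icc]
  apply ENNReal.ofReal_le_ofReal
  have hrab : ra ≤ rb := by
    by_contra hc
    rw [not_le] at hc
    have h1 : rb ^ (n - 1) < ra ^ (n - 1) := pow_lt_pow_left₀ hc (by linarith) (by omega)
    have h3 : (rb ^ (n - 1) - 1) ^ n < (ra ^ (n - 1) - 1) ^ n :=
      pow_lt_pow_left₀ (by linarith) (by linarith) (by omega)
    have : A n (rb ^ (n - 1)) < A n (ra ^ (n - 1)) := by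
      unfold A
      apply mul_lt_mul'' _ h3 (by positivity) (pow_nonneg (by linarith) n)
      have : (0:ℝ) < n := hn0
      nlinarith
    linarith
  rcases hrab.lt_or_eq with hlt | heq
  · obtain ⟨ξ, g1, g2, g3⟩ := mvt_F hn2 (by linarith) a3 hlt
    have hξ0 : 0 < ξ := by linarith
    have e1 : 1 < ξ ^ (n - 1) := one_lt_pow₀ (by linarith) (by omega)
    have e2 : ξ ^ (n - 1) ≤ 2 := le_trans (pow_le_pow_left₀ (by linarith) g2.le _) b2
    have e3 : 1 / n ≤ A n (ξ ^ (n - 1)) := by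
      refine le_trans ha ?_
      rw [← a4]; exact hmono a1.le g1.le
    have h1 := F'_le B hξ0 e1 e2 e3
    rw [exp_F (by omega) b3, exp_F (by omega) a3, a4, b4] at g3
    rw [Real.log_div (by linarith) ha0.ne', div_le_iff₀ hM0, g3]
    have : F' n ξ * (rb - ra) ≤ M * (rb - ra) := mul_le_mul_of_nonneg_right h1 (by linarith)
    linarith
  · have : a = b := by rw [← a4, ← b4, heq]
    rw [this, div_self (by linarith), Real.log_one, zero_div, heq]
    simp

end Pool.Agent.H205.RP
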