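import Pool.Agent.H205.RP6

/-! Asymptotics of the lengths. -/

set_option autoImplicit false
open Filter Topology Set Function MeasureTheory

namespace Pool.Agent.H205.RP

/-- The real parameters of the Multibrot set `M_n` without attracting cycle of period at most `k`. -/
def RestR (n k : ℕ) : Set ℝ :=
  {c | (c : ℂ) ∈ N62a1eb23.multibrotSet n ∧
    ∀ m, 1 ≤ m → m ≤ k → ¬ ∃ z, N62a1eb23.IsAttractingCycle (fun z => z ^ n + (c : ℂ)) m z}

/-- The two slopes. -/
noncomputable def lo (n : ℕ) : ℝ := ((n:ℝ) - 1) ^ 2 * (2 * n + 1) / n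
noncomputable def up (n : ℕ) : ℝ := (n:ℝ) * (2 * n + 1 + 6 * Real.log n)

section

variable {n : ℕ} (B : Big n)

include B

theorem lo_pos : 0 < lo n := by
  have hn := B.nR
  unfold lo
  have : 0 < (n:ℝ) - 1 := by linarith
  positivity

theorem up_pos : 0 < up n := by
  have hn := B.nR
  have hL := B.L
  unfold up
  positivity

theorem lo_ge : (n:ℝ) ^ 2 ≤ lo n := by
  have hn := B.nR
  unfold lo
  rw [le_div_iff₀ (by linarith)]
  have h1 : ((n:ℝ) - 1) ^ 2 * 2 ≥ n ^ 2 := by nlinarith
  have h2 : 0 ≤ ((n:ℝ) - 1) ^ 2 := sq_nonneg _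
  nlinarith

theorem log_ratio_le {x y : ℝ} (hx : 0 < x) (hxy : 0 < y) : Real.log (y / x) ≤ (y - x) / x := by
  have := Real.log_le_sub_one_of_pos (div_pos hxy hx)
  have e : (y - x) / x = y / x - 1 := by rw [sub_div, div_self hx.ne']
  rw [e]; exact this

/-- The sum of the three logarithmic lengths of the gaps. -/
theorem gap_sum :
    Real.log ((Real.log n - Real.log (Real.log n) + 1) / (Real.log n - Real.log (Real.log n) - 3)) +
    Real.log ((2 * Real.log n + Real.log (Real.log n) + 6) /
      (2 * Real.log n - Real.log (Real.log n) - 3)) +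
    Real.log ((2 * n) / (2 * n - 16 * Real.log n)) ≤ 8 * Real.log (Real.log n) / Real.log n := by
  have hn := B.nR
  have hL := B.L
  have hLL := B.LL
  have hll := B.ll
  have hlll := B.lll
  have hnL := B.nL
  set L := Real.log n with hLd
  set l := Real.log L with hl
  have hL0 : 0 < L := by linarith
  have g1 := log_ratio_le B (x := L - l - 3) (y := L - l + 1) (by linarith) (by linarith)
  have g2 := log_ratio_le B (x := 2 * L - l - 3) (y := 2 * L + l + 6) (by linarith) (by linarith)
  have g3 := log_ratio_le B (x := 2 * n - 16 * L) (y := 2 * n) (by linarith) (by linarith)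
  have k1 : (L - l + 1 - (L - l - 3)) / (L - l - 3) ≤ 8 / L := by
    rw [div_le_div_iff₀ (by linarith) hL0]; nlinarith
  have k2 : (2 * L + l + 6 - (2 * L - l - 3)) / (2 * L - l - 3) ≤ (2 * l + 9) / L := by
    have : 2 * L + l + 6 - (2 * L - l - 3) = 2 * l + 9 := by ring
    rw [this]
    apply div_le_div_of_nonneg_left (by linarith) hL0 (by linarith)
  have k3 : (2 * n - (2 * n - 16 * L)) / (2 * n - 16 * L) ≤ 1 / L := by
    rw [div_le_div_iff₀ (by linarith) hL0]
    nlinarith
  have k4 : 8 / L + (2 * l + 9) / L + 1 / L ≤ 8 * l / L := by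
    rw [← add_div, ← add_div]
    apply div_le_div_of_nonneg_right _ hL0.le
    linarith
  linarith

theorem volume_Gap : volume (Gap n) ≤
    ENNReal.ofReal (8 * Real.log (Real.log n) / Real.log n / lo n) := by
  have hn := B.nR
  have hL := B.L
  have hLL := B.LL
  have hll := B.ll
  have hlll := B.lll
  have hnL := B.nL
  have hn2 : 2 ≤ n := by have := B.h16; omega
  have h0 := lo_pos B
  have gs := gap_sum B
  set L := Real.log n with hLd
  set l := Real.log L with hl
  have v1 := volume_W_le hn2 (a := L - l - 3) (b := L - l + 1) (by linarith)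
  have v2 := volume_W_le hn2 (a := 2 * L - l - 3) (b := 2 * L + l + 6) (by linarith)
  have v3 := volume_W_le hn2 (a := 2 * n - 16 * L) (b := 2 * n) (by linarith)
  have q1 : 0 ≤ Real.log ((L - l + 1) / (L - l - 3)) :=
    Real.log_nonneg (by rw [one_le_div (by linarith)]; linarith)
  have q2 : 0 ≤ Real.log ((2 * L + l + 6) / (2 * L - l - 3)) :=
    Real.log_nonneg (by rw [one_le_div (by linarith)]; linarith)
  have q3 : 0 ≤ Real.log ((2 * n) / (2 * n - 16 * L)) :=
    Real.log_nonneg (by rw [one_le_div (by linarith)]; linarith)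
  unfold Gap
  refine le_trans (measure_union_le _ _) ?_
  refine le_trans (add_le_add (measure_union_le _ _) le_rfl) ?_
  refine le_trans (add_le_add (add_le_add v1 v2) v3) ?_
  change _ + _ + ENNReal.ofReal (_ / lo n) ≤ _
  change ENNReal.ofReal (_ / lo n) + ENNReal.ofReal (_ / lo n) + _ ≤ _
  rw [← ENNReal.ofReal_add (div_nonneg q1 h0.le) (div_nonneg q2 h0.le),
    ← ENNReal.ofReal_add (add_nonneg (div_nonneg q1 h0.le) (div_nonneg q2 h0.le))
      (div_nonneg q3 h0.le)]
  apply ENNReal.ofReal_le_ofReal
  rw [← add_div, ← add_div]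
  exact div_le_div_of_nonneg_right gs h0.le

/-- All real parameters up to a set of small length have an attracting cycle of period at most
five. -/
theorem volume_Rest : volume (RestR n 5) ≤
    ENNReal.ofReal (8 * Real.log (Real.log n) / ((n:ℝ) ^ 2 * Real.log n)) := by
  have hn := B.nR
  have hL := B.L
  have hll := B.ll
  have hn2 : 2 ≤ n := by have := B.h16; omega
  have hsub : RestR n 5 ⊆ Exc n ∪ Gap n := by
    rintro c ⟨hM, hc⟩
    have hno : ∀ k, 1 ≤ k → k ≤ 5 → c ∉ ExactR n k := by
      rintro k h1 h2 ⟨z, hz, -⟩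
      exact hc k h1 h2 ⟨z, hz⟩
    rcases cover B hM with h | h | h | h | h | h | h
    · exact Or.inl h
    · exact absurd h (hno 1 (by norm_num) (by norm_num))
    · exact absurd h (hno 2 (by norm_num) (by norm_num))
    · exact absurd h.1 (hno 4 (by norm_num) (by norm_num))
    · exact absurd h.1 (hno 5 (by norm_num) (by norm_num))
    · exact absurd h.1 (hno 3 (by norm_num) (by norm_num))
    · exact Or.inr h
  refine le_trans (measure_mono hsub) ?_
  refine le_trans (measure_union_le _ _) ?_
  rw [volume_Exc hn2, zero_add]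
  refine le_trans (volume_Gap B) ?_
  apply ENNReal.ofReal_le_ofReal
  have h1 := lo_ge B
  rw [div_div]
  apply div_le_div_of_nonneg_left (by linarith) (by positivity)
  nlinarith

/-- The upper bounds. -/
theorem exact_sub {k : ℕ} (hk : k ∉ ({1, 2, 3, 4, 5} : Finset ℕ) ∨ k = 3 ∨ k = 4 ∨ k = 5)
    {S : Set ℝ} (h3 : k = 3 → W n (2 * Real.log n + Real.log (Real.log n) + 6) (2 * n) ⊆ S)
    (h4 : k = 4 → W n (1 / (8 * n)) (Real.log n - Real.log (Real.log n) - 3) ⊆ S)
    (h5 : k = 5 → W n (Real.log n - Real.log (Real.log n) + 1)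
      (2 * Real.log n - Real.log (Real.log n) - 3) ⊆ S) :
    ExactR n k ⊆ Exc n ∪ (S ∪ Gap n) := by
  have hn2 : 2 ≤ n := by have := B.h16; omega
  intro c hc
  have hk12 : k ≠ 1 ∧ k ≠ 2 := by
    rcases hk with h | h | h | h
    · simp at h; exact ⟨h.1, h.2.1⟩
    · omega
    · omega
    · omega
  rcases cover B (exact_mem hn2 hc) with h | h | h | h | h | h | h
  · exact Or.inl h
  · exact absurd (exact_unique hn2 hc h) hk12.1
  · exact absurd (exact_unique hn2 hc h) hk12.2
  · exact Or.inr (Or.inl (h4 (exact_unique hn2 hc h.1) h.2))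
  · exact Or.inr (Or.inl (h5 (exact_unique hn2 hc h.1) h.2))
  · exact Or.inr (Or.inl (h3 (exact_unique hn2 hc h.1) h.2))
  · exact Or.inr (Or.inr h)

theorem exact_volume_le {k : ℕ} {a b : ℝ} (ha : 0 < a) (hab : a ≤ b)
    (hsub : ExactR n k ⊆ Exc n ∪ (W n a b ∪ Gap n)) :
    (volume (ExactR n k)).toReal ≤
      (Real.log (b / a) + 8 * Real.log (Real.log n) / Real.log n) / lo n := by
  have hn2 : 2 ≤ n := by have := B.h16; omega
  have h0 := lo_pos B
  have hL := B.L
  have hll := B.ll
  have q1 : 0 ≤ Real.log (b / a) := Real.log_nonneg (by rw [one_le_div ha]; exact hab)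
  have q2 : 0 ≤ 8 * Real.log (Real.log n) / Real.log n := by positivity
  apply ENNReal.toReal_le_of_le_ofReal (by positivity)
  refine le_trans (measure_mono hsub) ?_
  refine le_trans (measure_union_le _ _) ?_
  rw [volume_Exc hn2, zero_add]
  refine le_trans (measure_union_le _ _) ?_
  refine le_trans (add_le_add (volume_W_le hn2 ha) (volume_Gap B)) ?_
  change ENNReal.ofReal (_ / lo n) + _ ≤ _
  rw [← ENNReal.ofReal_add (by positivity) (by positivity), add_div]

theorem le_exact_volume {k : ℕ} {a b : ℝ} (ha : 1 / n ≤ a) (hab : a ≤ b) (hb : b ≤ 2 * n)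
    (hsub : W n a b ⊆ ExactR n k) (hfin : volume (ExactR n k) ≠ ⊤) :
    Real.log (b / a) / up n ≤ (volume (ExactR n k)).toReal := by
  rw [← ENNReal.ofReal_le_iff_le_toReal hfin]
  exact le_trans (le_volume_W B ha hab hb) (measure_mono hsub)

theorem exact_ne_top {k : ℕ} {a b : ℝ} (ha : 0 < a) 
    (hsub : ExactR n k ⊆ Exc n ∪ (W n a b ∪ Gap n)) : volume (ExactR n k) ≠ ⊤ := by
  have hn2 : 2 ≤ n := by have := B.h16; omega
  apply ne_top_of_le_ne_top _ (measure_mono hsub)
  apply ne_top_of_le_ne_top _ (measure_union_le _ _)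
  rw [volume_Exc hn2, zero_add]
  apply ne_top_of_le_ne_top _ (measure_union_le _ _)
  exact ENNReal.add_ne_top.2 ⟨ne_top_of_le_ne_top ENNReal.ofReal_ne_top (volume_W_le hn2 ha),
    ne_top_of_le_ne_top ENNReal.ofReal_ne_top (volume_Gap B)⟩

theorem bounds3 :
    (Real.log n - 2 * Real.log (Real.log n)) / up n ≤ (volume (ExactR n 3)).toReal ∧
    (volume (ExactR n 3)).toReal ≤ (Real.log n + 2 * Real.log (Real.log n)) / lo n := by
  have hn := B.nR
  have hL := B.L
  have hLL := B.LL
  have hll := B.ll
  have hlll := B.lll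
  have hnL := B.nL
  have hn0 : (0:ℝ) < n := by linarith
  have hsub := exact_sub B (k := 3) (Or.inr (Or.inl rfl)) (S := W n
    (2 * Real.log n + Real.log (Real.log n) + 6) (2 * n)) (fun _ => Subset.rfl)
    (fun h => absurd h (by norm_num)) (fun h => absurd h (by norm_num))
  set L := Real.log n with hLd
  set l := Real.log L with hl
  have h0 := lo_pos B
  have h0' := up_pos B
  constructor
  · refine le_trans ?_ (le_exact_volume B (k := 3) (a := 2 * L + l + 6) (b := 2 * n - 16 * L)
      (by rw [div_le_iff₀ hn0]; nlinarith) (by linarith) (by linarith)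
      (fun c hc => W3 B hc) (exact_ne_top B (by linarith) hsub))
    apply div_le_div_of_nonneg_right _ h0'.le
    have h1 : L - 2 * l ≤ Real.log (n / (4 * L)) := by
      rw [Real.log_div hn0.ne' (by linarith), Real.log_mul (by norm_num) (by linarith), ← hLd, ← hl]
      have : Real.log 4 ≤ 2 := by
        have : Real.log 4 ≤ 4 - 1 := Real.log_le_sub_one_of_pos (by norm_num)
        have e : Real.log 4 = 2 * Real.log 2 := by
          rw [← Real.log_rpow (by norm_num)]; norm_num
        have := Real.log_two_lt_d9
        linarith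
      linarith
    refine le_trans h1 (Real.log_le_log (by positivity) ?_)
    rw [div_le_div_iff₀ (by linarith) (by linarith)]
    nlinarith
  · refine le_trans (exact_volume_le B (by linarith) (by linarith) hsub) ?_
    apply div_le_div_of_nonneg_right _ h0.le
    have h1 : Real.log (2 * n / (2 * L + l + 6)) ≤ L := by
      rw [hLd]
      apply Real.log_le_log (div_pos (by linarith) (by linarith))
      rw [div_le_iff₀ (by linarith)]
      nlinarith
    have h2 : 8 * l / L ≤ l := by
      rw [div_le_iff₀ (by linarith)]; nlinarith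
    linarith

theorem bounds4 :
    (Real.log n - 2 * Real.log (Real.log n)) / up n ≤ (volume (ExactR n 4)).toReal ∧
    (volume (ExactR n 4)).toReal ≤ (Real.log n + 3 * Real.log (Real.log n)) / lo n := by
  have hn := B.nR
  have hL := B.L
  have hLL := B.LL
  have hll := B.ll
  have hlll := B.lll
  have hnL := B.nL
  have hn0 : (0:ℝ) < n := by linarith
  have hsub := exact_sub B (k := 4) (Or.inr (Or.inr (Or.inl rfl))) (S := W n
    (1 / (8 * n)) (Real.log n - Real.log (Real.log n) - 3)) (fun h => absurd h (by norm_num))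
    (fun _ => Subset.rfl) (fun h => absurd h (by norm_num))
  set L := Real.log n with hLd
  set l := Real.log L with hl
  have h0 := lo_pos B
  have h0' := up_pos B
  have h8n : 1 / (8 * (n:ℝ)) ≤ 1 := by rw [div_le_one (by linarith)]; linarith
  constructor
  · refine le_trans ?_ (le_exact_volume B (k := 4) (a := 10 / n) (b := 1 / 4)
      (div_le_div_of_nonneg_right (by norm_num) hn0.le)
      (by rw [div_le_iff₀ hn0]; linarith) (by linarith)
      (fun c hc => W4' B hc) (exact_ne_top B (by positivity) hsub))
    apply div_le_div_of_nonneg_right _ h0'.le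
    have e : (1 / 4 : ℝ) / (10 / n) = n / 40 := by field_simp; norm_num
    rw [e, Real.log_div hn0.ne' (by norm_num), ← hLd]
    have : Real.log 40 ≤ 6 := by
      have e : Real.log 40 ≤ Real.log 64 := Real.log_le_log (by norm_num) (by norm_num)
      have e2 : Real.log 64 = 6 * Real.log 2 := by
        rw [← Real.log_rpow (by norm_num)]; norm_num
      have := Real.log_two_lt_d9
      linarith
    linarith
  · refine le_trans (exact_volume_le B (by positivity) (by linarith) hsub) ?_
    apply div_le_div_of_nonneg_right _ h0.le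
    have h1 : Real.log ((L - l - 3) / (1 / (8 * n))) ≤ L + l + 3 := by
      have h2 : (L - l - 3) / (1 / (8 * n)) ≤ 8 * n * L := by
        rw [div_div_eq_mul_div, div_one]
        nlinarith
      refine le_trans (Real.log_le_log (div_pos (by linarith) (by positivity)) h2) ?_
      rw [Real.log_mul (by positivity) (by linarith), Real.log_mul (by norm_num) hn0.ne', ← hLd,
        ← hl]
      have : Real.log 8 ≤ 3 := by
        have e2 : Real.log 8 = 3 * Real.log 2 := by
          rw [← Real.log_rpow (by norm_num)]; norm_num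
        have := Real.log_two_lt_d9
        linarith
      linarith
    have h2 : 8 * l / L ≤ l := by
      rw [div_le_iff₀ (by linarith)]; nlinarith
    linarith

theorem bounds5 :
    Real.log ((2 * Real.log n - Real.log (Real.log n) - 3) /
      (Real.log n - Real.log (Real.log n) + 1)) / up n ≤ (volume (ExactR n 5)).toReal ∧
    (volume (ExactR n 5)).toReal ≤ (Real.log ((2 * Real.log n - Real.log (Real.log n) - 3) /
      (Real.log n - Real.log (Real.log n) + 1)) +
      8 * Real.log (Real.log n) / Real.log n) / lo n := by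
  have hn := B.nR
  have hL := B.L
  have hLL := B.LL
  have hll := B.ll
  have hlll := B.lll
  have hnL := B.nL
  have hn0 : (0:ℝ) < n := by linarith
  have hsub := exact_sub B (k := 5) (Or.inr (Or.inr (Or.inr rfl))) (S := W n
    (Real.log n - Real.log (Real.log n) + 1) (2 * Real.log n - Real.log (Real.log n) - 3))
    (fun h => absurd h (by norm_num)) (fun h => absurd h (by norm_num)) (fun _ => Subset.rfl)
  set L := Real.log n with hLd
  set l := Real.log L with hl
  constructor
  · exact le_exact_volume B (k := 5) (a := L - l + 1) (b := 2 * L - l - 3)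
      (by rw [div_le_iff₀ hn0]; nlinarith) (by linarith) (by linarith)
      (fun c hc => W5 B hc) (exact_ne_top B (by linarith) hsub)
  · exact exact_volume_le B (by linarith) (by linarith) hsub

end

end Pool.Agent.H205.RP
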